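import Mathlib

set_option autoImplicit false

namespace Pool.Agent.Helper280.QN

section defs
variable {X : Type*} [NormedAddCommGroup X] [NormedSpace ℂ X]

/-- `T` is quasinilpotent: its spectral radius is `0`. -/
def Qn (T : X →L[ℂ] X) : Prop := spectralRadius ℂ T = 0

/-- The four products `T S`, `S T S`, `T S + S T`, `T S - S T`. -/
inductive Kind
  | prod
  | triple
  | jordan
  | lie

/-- `T ⋆ S` for the four products. -/
def op : Kind → (X →L[ℂ] X) → (X →L[ℂ] X) → (X →L[ℂ] X)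
  | Kind.prod, T, S => T * S
  | Kind.triple, T, S => S * T * S
  | Kind.jordan, T, S => T * S + S * T
  | Kind.lie, T, S => T * S - S * T

/-- `T ⋆ S` is quasinilpotent. -/
def rel (k : Kind) (T S : X →L[ℂ] X) : Prop := Qn (op k T S)

/-- The rank one operator `v ↦ f v • x`. -/
noncomputable abbrev rk (x : X) (f : X →L[ℂ] ℂ) : X →L[ℂ] X := f.smulRight x

/-- `S * S` for the triple product, `S` otherwise. -/
def sq : Kind → (X →L[ℂ] X) → (X →L[ℂ] X)
  | Kind.prod, S => S
  | Kind.triple, S => S * S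
  | Kind.jordan, S => S
  | Kind.lie, S => S

/-- 2 × 2 complex matrices. -/
abbrev M2 : Type := Matrix (Fin 2) (Fin 2) ℂ

/-- Nilpotent 2 × 2 matrices. -/
def Nil2 (m : M2) : Prop := m.trace = 0 ∧ m.det = 0

/-- The compression matrix `g i (S (u j))`. -/
noncomputable def CC (u : Fin 2 → X) (g : Fin 2 → (X →L[ℂ] ℂ)) (S : X →L[ℂ] X) : M2 :=
  Matrix.of fun i j => g i (S (u j))

/-- `T` is related to everything. -/
def Triv (k : Kind) (T : X →L[ℂ] X) : Prop := ∀ S, rel k T S

/-- Same related operators. -/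
def RowEq (k : Kind) (T T' : X →L[ℂ] X) : Prop := ∀ S, rel k T S ↔ rel k T' S

/-- `A` lies in the closure of the pair `T1, T2`. -/
def Cl (k : Kind) (T1 T2 A : X →L[ℂ] X) : Prop :=
  ¬ Triv k A ∧ ∀ S, rel k T1 S → rel k T2 S → rel k A S

/-- The two conditions detecting adjacent rank one nilpotents. -/
structure Pair (k : Kind) (T1 T2 : X →L[ℂ] X) : Prop where
  n1 : ¬ Triv k T1
  n2 : ¬ Triv k T2
  ne : ¬ RowEq k T1 T2
  E : ∀ S, ∃ A, Cl k T1 T2 A ∧ rel k A S
  U : ∀ S A B, Cl k T1 T2 A → Cl k T1 T2 B → ¬ RowEq k A B → rel k A S → rel k B S →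
    ∀ C, Cl k T1 T2 C → rel k C S

/-- The detected operators. -/
def Good (k : Kind) (T1 : X →L[ℂ] X) : Prop := rel k T1 T1 ∧ ∃ T2, Pair k T1 T2

/-- Rank one nilpotents (up to adding a scalar for the Lie product). -/
def N1 (k : Kind) (T : X →L[ℂ] X) : Prop :=
  ∃ (x : X) (f : X →L[ℂ] ℂ) (d : ℂ), x ≠ 0 ∧ f ≠ 0 ∧ f x = 0 ∧ (k ≠ Kind.lie → d = 0) ∧
    T = rk x f + d • 1

/-- `u, v, T u, T v` are linearly independent. -/
def GoodPair (T : X →L[ℂ] X) (u v : X) : Prop := LinearIndependent ℂ ![u, v, T u, T v]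

end defs

/-- The dimension is at least four. -/
def Dim4 (X : Type*) [AddCommGroup X] [Module ℂ X] : Prop :=
  ∃ v : Fin 4 → X, LinearIndependent ℂ v

end Pool.Agent.Helper280.QN
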