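import Mathlib
import Pool.Agent.Helper280.QN.Basic

set_option autoImplicit false

namespace Pool.Agent.Helper280.QN

section partA
variable {X : Type*} [NormedAddCommGroup X] [NormedSpace ℂ X]

theorem rk_apply (x : X) (f : X →L[ℂ] ℂ) (v : X) : rk x f v = f v • x := rfl

theorem Qn_iff (T : X →L[ℂ] X) : Qn T ↔ ∀ z : ℂ, z ≠ 0 → z ∉ spectrum ℂ T := by
  unfold Qn spectralRadius
  rw [ENNReal.iSup_eq_zero]
  constructor
  · intro h z hz hzT
    have h1 := h z
    rw [ENNReal.iSup_eq_zero] at h1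
    have h2 := h1 hzT
    simp at h2
    exact hz h2
  · intro h z
    rw [ENNReal.iSup_eq_zero]
    intro hzT
    by_contra hne
    apply h z _ hzT
    rintro rfl
    simp at hne

theorem Qn_zero : Qn (0 : X →L[ℂ] X) := spectrum.spectralRadius_zero

theorem Qn_of_subset {T R : X →L[ℂ] X} (h : ∀ z : ℂ, z ≠ 0 → z ∈ spectrum ℂ R → z ∈ spectrum ℂ T)
    (hT : Qn T) : Qn R := by
  rw [Qn_iff] at hT ⊢
  intro z hz hzR
  exact hT z hz (h z hz hzR)

theorem Qn_smul {c : ℂ} {T : X →L[ℂ] X} (hT : Qn T) : Qn (c • T) := by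
  by_cases hc : c = 0
  · rw [hc, zero_smul]; exact Qn_zero
  · rw [Qn_iff] at hT ⊢
    intro z hz hzR
    have h1 : spectrum ℂ (c • T) = (fun z => c • z) '' spectrum ℂ T :=
      spectrum.unit_smul_eq_smul T (Units.mk0 c hc)
    rw [h1] at hzR
    obtain ⟨w, hw, rfl⟩ := hzR
    refine hT w ?_ hw
    rintro rfl
    simp at hz

theorem Qn_smul_iff {c : ℂ} (hc : c ≠ 0) (T : X →L[ℂ] X) : Qn (c • T) ↔ Qn T := by
  constructor
  · intro h
    have := Qn_smul (c := c⁻¹) h
    rwa [smul_smul, inv_mul_cancel₀ hc, one_smul] at this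
  · exact Qn_smul

theorem Qn_neg_iff (T : X →L[ℂ] X) : Qn (-T) ↔ Qn T := by
  have := Qn_smul_iff (c := -1) (by simp) T
  rwa [neg_one_smul] at this

theorem Qn_mul_comm (S T : X →L[ℂ] X) : Qn (S * T) ↔ Qn (T * S) := by
  have key : ∀ S T : X →L[ℂ] X, Qn (S * T) → Qn (T * S) := by
    intro S T h
    refine Qn_of_subset ?_ h
    intro z hz hzT
    have h1 : z ∈ spectrum ℂ (T * S) \ {0} := ⟨hzT, hz⟩
    rw [spectrum.nonzero_mul_comm] at h1
    exact h1.1
  exact ⟨key S T, key T S⟩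

theorem Qn_pow_iff (T : X →L[ℂ] X) {n : ℕ} (hn : n ≠ 0) : Qn (T ^ n) ↔ Qn T := by
  rw [Qn_iff, Qn_iff]
  constructor
  · intro h z hz hzT
    exact h (z ^ n) (pow_ne_zero n hz) (spectrum.pow_image_subset T n ⟨z, hzT, rfl⟩)
  · intro h z hz hzT
    rw [spectrum.map_pow_of_pos T (Nat.pos_of_ne_zero hn)] at hzT
    obtain ⟨w, hw, rfl⟩ := hzT
    refine h w ?_ hw
    rintro rfl
    apply hz
    simp [hn]

theorem Qn_of_pow_eq_zero (T : X →L[ℂ] X) (n : ℕ) (h : T ^ n = 0) : Qn T := by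
  rw [← Qn_pow_iff T (Nat.succ_ne_zero n), pow_succ, h, zero_mul]
  exact Qn_zero

theorem mem_spectrum_of_eigen (T : X →L[ℂ] X) (w : X) (μ : ℂ) (hw : w ≠ 0) (h : T w = μ • w) :
    μ ∈ spectrum ℂ T := by
  intro hu
  obtain ⟨u, hu⟩ := hu
  apply hw
  have h1 : (u : X →L[ℂ] X) w = 0 := by
    rw [hu]
    simp [Algebra.algebraMap_eq_smul_one, h]
  have h2 : ((↑(u⁻¹) : X →L[ℂ] X) * (u : X →L[ℂ] X)) w = w := by
    rw [Units.inv_mul]; rfl
  rw [← h2, mul_apply_eq_comp, h1, map_zero]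

theorem not_Qn_of_eigen (T : X →L[ℂ] X) (w : X) (μ : ℂ) (hw : w ≠ 0) (hμ : μ ≠ 0)
    (h : T w = μ • w) : ¬ Qn T := by
  intro hQ
  rw [Qn_iff] at hQ
  exact hQ μ hμ (mem_spectrum_of_eigen T w μ hw h)

theorem not_Qn_of_pow (T : X →L[ℂ] X) (n : ℕ) (hn : n ≠ 0) (w : X) (μ : ℂ) (hw : w ≠ 0)
    (hμ : μ ≠ 0) (h : (T ^ n) w = μ • w) : ¬ Qn T := by
  rw [← Qn_pow_iff T hn]
  exact not_Qn_of_eigen _ w μ hw hμ h

/-- the nonzero spectrum of an operator of rank at most two -/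
theorem mem_spec_rank_two (x1 x2 : X) (f1 f2 : X →L[ℂ] ℂ) {z : ℂ} (hz : z ≠ 0) :
    z ∈ spectrum ℂ (rk x1 f1 + rk x2 f2) ↔
      z ^ 2 - (f1 x1 + f2 x2) * z + (f1 x1 * f2 x2 - f1 x2 * f2 x1) = 0 := by
  set T := rk x1 f1 + rk x2 f2 with hT
  have hTv : ∀ v, T v = f1 v • x1 + f2 v • x2 := by intro v; simp [hT, rk]
  have happ : ∀ v, (algebraMap ℂ (X →L[ℂ] X) z - T) v = z • v - (f1 v • x1 + f2 v • x2) := by
    intro v
    rw [← hTv v]
    simp [Algebra.algebraMap_eq_smul_one]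
  constructor
  · intro h
    by_contra hdet
    apply h
    set D := z ^ 2 - (f1 x1 + f2 x2) * z + (f1 x1 * f2 x2 - f1 x2 * f2 x1) with hD
    let g1 : X →L[ℂ] ℂ := D⁻¹ • ((z - f2 x2) • f1 + (f1 x2) • f2)
    let g2 : X →L[ℂ] ℂ := D⁻¹ • ((f2 x1) • f1 + (z - f1 x1) • f2)
    let R : X →L[ℂ] X := z⁻¹ • (ContinuousLinearMap.id ℂ X + rk x1 g1 + rk x2 g2)
    have hg1 : ∀ w, g1 w = D⁻¹ * ((z - f2 x2) * f1 w + f1 x2 * f2 w) := by intro w; simp [g1]; ring
    have hg2 : ∀ w, g2 w = D⁻¹ * (f2 x1 * f1 w + (z - f1 x1) * f2 w) := by intro w; simp [g2]; ring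
    have hR : ∀ w, R w = z⁻¹ • (w + g1 w • x1 + g2 w • x2) := by intro w; simp [R, rk]
    have hDD : D⁻¹ * D = 1 := inv_mul_cancel₀ hdet
    have hf1R : ∀ w, f1 (R w) = g1 w := by
      intro w
      rw [hR]
      simp only [map_smul, map_add, smul_eq_mul]
      rw [hg1, hg2]
      field_simp
      rw [hD]; ring
    have hf2R : ∀ w, f2 (R w) = g2 w := by
      intro w
      rw [hR]
      simp only [map_smul, map_add, smul_eq_mul]
      rw [hg1, hg2]
      field_simp
      rw [hD]; ring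
    have hr : ∀ w, (algebraMap ℂ (X →L[ℂ] X) z - T) (R w) = w := by
      intro w
      rw [happ, hf1R, hf2R, hR, smul_smul, mul_inv_cancel₀ hz, one_smul]
      abel
    have hg1T : ∀ v, g1 (z • v - (f1 v • x1 + f2 v • x2)) = f1 v := by
      intro v
      rw [hg1]
      simp only [map_sub, map_smul, map_add, smul_eq_mul]
      field_simp
      rw [hD]; ring
    have hg2T : ∀ v, g2 (z • v - (f1 v • x1 + f2 v • x2)) = f2 v := by
      intro v
      rw [hg2]
      simp only [map_sub, map_smul, map_add, smul_eq_mul]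
      field_simp
      rw [hD]; ring
    have hl : ∀ v, R ((algebraMap ℂ (X →L[ℂ] X) z - T) v) = v := by
      intro v
      rw [happ, hR, hg1T, hg2T]
      have : z • v - (f1 v • x1 + f2 v • x2) + f1 v • x1 + f2 v • x2 = z • v := by abel
      rw [this, smul_smul, inv_mul_cancel₀ hz, one_smul]
    refine ⟨⟨algebraMap ℂ (X →L[ℂ] X) z - T, R, ?_, ?_⟩, rfl⟩
    · ext w; exact hr w
    · ext w; exact hl w
  · intro hdet hu
    have hinj : ∀ v, z • v = f1 v • x1 + f2 v • x2 → v = 0 := by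
      intro v hv
      obtain ⟨u, hu⟩ := hu
      have h1 : (u : X →L[ℂ] X) v = 0 := by
        rw [hu, happ, hv, sub_self]
      have h2 : ((↑(u⁻¹) : X →L[ℂ] X) * (u : X →L[ℂ] X)) v = v := by
        rw [Units.inv_mul]; rfl
      rw [← h2, mul_apply_eq_comp, h1, map_zero]
    have key : ∃ p q : ℂ, (p ≠ 0 ∨ q ≠ 0) ∧ z * p = f1 x1 * p + f1 x2 * q ∧ z * q = f2 x1 * p + f2 x2 * q := by
      by_cases hA : z - f1 x1 = 0 ∧ f1 x2 = 0
      · by_cases hB : z - f2 x2 = 0 ∧ f2 x1 = 0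
        · refine ⟨1, 0, Or.inl one_ne_zero, ?_, ?_⟩
          · linear_combination hA.1
          · rw [hB.2]; ring
        · refine ⟨z - f2 x2, f2 x1, ?_, ?_, ?_⟩
          · by_contra hc
            push Not at hc
            exact hB hc
          · linear_combination (z - f2 x2) * hA.1 - f2 x1 * hA.2
          · ring
      · refine ⟨f1 x2, z - f1 x1, ?_, ?_, ?_⟩
        · by_contra hc
          push Not at hc
          exact hA ⟨hc.2, hc.1⟩
        · ring
        · linear_combination hdet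
    obtain ⟨p, q, hpq, h1, h2⟩ := key
    have hv := hinj (p • x1 + q • x2) (by
      have e1 : f1 (p • x1 + q • x2) = z * p := by
        simp only [map_smul, map_add, smul_eq_mul]; rw [h1]; ring
      have e2 : f2 (p • x1 + q • x2) = z * q := by
        simp only [map_smul, map_add, smul_eq_mul]; rw [h2]; ring
      rw [e1, e2, smul_add, smul_smul, smul_smul])
    have e1 : f1 (p • x1 + q • x2) = z * p := by
      simp only [map_smul, map_add, smul_eq_mul]; rw [h1]; ring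
    have e2 : f2 (p • x1 + q • x2) = z * q := by
      simp only [map_smul, map_add, smul_eq_mul]; rw [h2]; ring
    rw [hv, map_zero] at e1 e2
    rcases hpq with h | h
    · exact (mul_ne_zero hz h) e1.symm
    · exact (mul_ne_zero hz h) e2.symm

/-- quadratic with only the zero root -/
theorem quad_zero (t d : ℂ) (h : ∀ z : ℂ, z ^ 2 - t * z + d = 0 → z = 0) : t = 0 ∧ d = 0 := by
  obtain ⟨s, hs⟩ := IsAlgClosed.exists_pow_nat_eq (t ^ 2 - 4 * d) (n := 2) (by norm_num)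
  have h1 := h ((t + s) / 2) (by field_simp; linear_combination hs)
  have h2 := h ((t - s) / 2) (by field_simp; linear_combination hs)
  have h3 : t = 0 := by linear_combination h1 + h2
  have h4 : s = 0 := by linear_combination h1 - h2
  refine ⟨h3, ?_⟩
  rw [h3, h4] at hs
  linear_combination (1 / 4 : ℂ) * hs

theorem Qn_rank_two (x1 x2 : X) (f1 f2 : X →L[ℂ] ℂ) :
    Qn (rk x1 f1 + rk x2 f2) ↔ f1 x1 + f2 x2 = 0 ∧ f1 x1 * f2 x2 - f1 x2 * f2 x1 = 0 := by
  rw [Qn_iff]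
  constructor
  · intro h
    apply quad_zero
    intro z hz
    by_contra h0
    exact h z h0 ((mem_spec_rank_two x1 x2 f1 f2 h0).2 hz)
  · rintro ⟨h1, h2⟩ z hz hzT
    have := (mem_spec_rank_two x1 x2 f1 f2 hz).1 hzT
    rw [h1, h2] at this
    simp at this
    exact hz this

theorem Qn_rank_one (x : X) (f : X →L[ℂ] ℂ) : Qn (rk x f) ↔ f x = 0 := by
  have h := Qn_rank_two x 0 f 0
  have e : rk x f + rk (0 : X) (0 : X →L[ℂ] ℂ) = rk x f := by ext v; simp [rk]
  rw [e] at h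
  rw [h]
  simp

/-- If `A * B = 0` and `A`, `B` are quasinilpotent then so is `A + B`. -/
theorem Qn_add_of_mul_eq_zero (A B : X →L[ℂ] X) (h : A * B = 0) (hA : Qn A) (hB : Qn B) :
    Qn (A + B) := by
  rw [Qn_iff] at *
  intro z hz hzT
  have h1 := spectrum.notMem_iff.1 (hA z hz)
  have h2 := spectrum.notMem_iff.1 (hB z hz)
  apply hzT
  have h3 : (algebraMap ℂ (X →L[ℂ] X) z - A) * (algebraMap ℂ (X →L[ℂ] X) z - B)
      = z • (algebraMap ℂ (X →L[ℂ] X) z - (A + B)) := by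
    rw [sub_mul, mul_sub, mul_sub, h, Algebra.algebraMap_eq_smul_one]
    simp only [smul_mul_assoc, one_mul, mul_smul_comm, mul_one, smul_sub, smul_add]
    abel
  have h4 := h1.mul h2
  rw [h3] at h4
  have h5 := h4.smul (Units.mk0 z hz)⁻¹
  rwa [Units.smul_def, smul_smul, Units.val_inv_eq_inv_val, Units.val_mk0, inv_mul_cancel₀ hz,
    one_smul] at h5

theorem isUnit_of_left_right {R : Type*} [Monoid R] {a b c : R} (h1 : b * a = 1) (h2 : a * c = 1) :
    IsUnit a := by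
  have : b = c := by
    calc b = b * (a * c) := by rw [h2, mul_one]
      _ = c := by rw [← mul_assoc, h1, one_mul]
  exact ⟨⟨a, b, by rw [this, h2], h1⟩, rfl⟩

/-- For `S ^ 2 = 0`: `T S + ε S T` is quasinilpotent iff `T S` is. -/
theorem Qn_sq_zero (T S : X →L[ℂ] X) (hS : S * S = 0) (ε : ℂ) (hε : ε = 1 ∨ ε = -1) :
    Qn (T * S + ε • (S * T)) ↔ Qn (T * S) := by
  constructor
  · intro h
    rw [Qn_iff] at h ⊢
    have hε2 : ε * ε = 1 := by rcases hε with h | h <;> rw [h] <;> norm_num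
    set N := T * S + ε • (S * T) with hN
    have hSN : S * N = S * T * S := by
      rw [hN, mul_add, mul_smul_comm, ← mul_assoc, ← mul_assoc, hS]
      simp
    have hNS : N * S = ε • (S * T * S) := by
      rw [hN, add_mul, smul_mul_assoc, mul_assoc T, hS]
      simp
    -- z - S T is right invertible, z - ε S... left invertible
    have hR : ∀ z : ℂ, z ≠ 0 → ∃ R : X →L[ℂ] X, (z • (1 : X →L[ℂ] X) - S * T) * R = S ∧ True := by
      intro z hz
      obtain ⟨u, hu⟩ := spectrum.notMem_iff.1 (h z hz)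
      rw [Algebra.algebraMap_eq_smul_one] at hu
      refine ⟨S * ↑u⁻¹, ?_, trivial⟩
      have h1 : (z • (1 : X →L[ℂ] X) - S * T) * S = S * (z • (1 : X →L[ℂ] X) - N) := by
        rw [sub_mul, mul_sub, hSN]
        simp
      rw [← mul_assoc, h1, ← hu, mul_assoc, Units.mul_inv, mul_one]
    have hL : ∀ z : ℂ, z ≠ 0 → ∃ L : X →L[ℂ] X, L * (z • (1 : X →L[ℂ] X) - ε • (T * S)) = S := by
      intro z hz
      obtain ⟨u, hu⟩ := spectrum.notMem_iff.1 (h z hz)
      rw [Algebra.algebraMap_eq_smul_one] at hu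
      refine ⟨↑u⁻¹ * S, ?_⟩
      have h1 : S * (z • (1 : X →L[ℂ] X) - ε • (T * S)) = (z • (1 : X →L[ℂ] X) - N) * S := by
        rw [sub_mul, mul_sub, hNS]
        simp [mul_assoc]
      rw [mul_assoc, h1, ← hu, ← mul_assoc, Units.inv_mul, one_mul]
    intro z hz hzT
    -- `z - S T` has a right inverse, `z - T S` has a left inverse
    obtain ⟨R, hR1, -⟩ := hR z hz
    have hεz : ε * z ≠ 0 := by
      rcases hε with h | h <;> rw [h] <;> simpa using hz
    obtain ⟨L, hL1⟩ := hL (ε * z) hεz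
    have hr : (z • (1 : X →L[ℂ] X) - S * T) * (z⁻¹ • (1 + R * T)) = 1 := by
      rw [mul_smul_comm, mul_add, mul_one, ← mul_assoc, hR1]
      rw [sub_add_cancel, smul_smul, inv_mul_cancel₀ hz, one_smul]
    have hl : (z⁻¹ • (1 + (ε • (T * L)))) * (z • (1 : X →L[ℂ] X) - T * S) = 1 := by
      have e1 : (ε * z) • (1 : X →L[ℂ] X) - ε • (T * S) = ε • (z • (1 : X →L[ℂ] X) - T * S) := by
        rw [smul_sub, smul_smul]
      rw [e1, mul_smul_comm] at hL1
      rw [smul_mul_assoc, add_mul, one_mul, smul_mul_assoc, mul_assoc, ← mul_smul_comm, hL1,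
        sub_add_cancel, smul_smul, inv_mul_cancel₀ hz, one_smul]
    -- Jacobson: `z - S T` left invertible too
    have hl2 : (z⁻¹ • (1 + S * (z⁻¹ • (1 + (ε • (T * L)))) * T)) *
        (z • (1 : X →L[ℂ] X) - S * T) = 1 := by
      have e2 : T * (z • (1 : X →L[ℂ] X) - S * T) = (z • (1 : X →L[ℂ] X) - T * S) * T := by
        rw [mul_sub, sub_mul]
        simp [mul_assoc]
      rw [smul_mul_assoc, add_mul, one_mul, mul_assoc, e2, mul_assoc S, ← mul_assoc (z⁻¹ • _), hl,
        one_mul, sub_add_cancel, smul_smul, inv_mul_cancel₀ hz, one_smul]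
    have hunit : IsUnit (z • (1 : X →L[ℂ] X) - S * T) := isUnit_of_left_right hl2 hr
    have h1 : z ∈ spectrum ℂ (T * S) \ {0} := ⟨hzT, hz⟩
    rw [spectrum.nonzero_mul_comm] at h1
    apply h1.1
    rw [spectrum.mem_resolventSet_iff, Algebra.algebraMap_eq_smul_one]
    exact hunit
  · intro h
    apply Qn_add_of_mul_eq_zero
    · rw [mul_smul_comm, mul_assoc, ← mul_assoc S, hS]
      simp
    · exact h
    · exact Qn_smul ((Qn_mul_comm T S).1 h)

theorem Qn_add_scalar [CompleteSpace X] [Nontrivial X] (T : X →L[ℂ] X) (c : ℂ) (h : Qn T)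
    (h2 : Qn (T + c • 1)) : c = 0 := by
  by_contra hc
  rw [Qn_iff] at h h2
  have h3 : spectrum ℂ (T + c • 1) ⊆ {0} := by
    intro z hz
    by_contra h0
    exact h2 z h0 hz
  obtain ⟨z, hz⟩ := spectrum.nonempty (A := X →L[ℂ] X) T
  have hz0 : z = 0 := by
    by_contra h0
    exact h z h0 hz
  subst hz0
  have h4 : (0 : ℂ) + c ∈ spectrum ℂ (T + algebraMap ℂ (X →L[ℂ] X) c) := by
    rw [← spectrum.add_singleton_eq]
    exact Set.add_mem_add hz rfl
  rw [Algebra.algebraMap_eq_smul_one] at h4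
  have := h3 h4
  simp at this
  exact hc this

end partA

end Pool.Agent.Helper280.QN
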