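import Mathlib
import Pool.Agent.Helper280.QN.Basic

set_option autoImplicit false

namespace Pool.Agent.Helper280.QN

section specdef
variable {X : Type*} [NormedAddCommGroup X] [NormedSpace ℂ X]

theorem mem_spec_iff {T : X →L[ℂ] X} {z : ℂ} :
    z ∈ spectrum ℂ T ↔ ¬ IsUnit (z • (1 : X →L[ℂ] X) - T) := by
  rw [spectrum.mem_iff, Algebra.algebraMap_eq_smul_one]

end specdef

section
variable {X Y : Type*} [NormedAddCommGroup X] [NormedSpace ℂ X] [CompleteSpace X]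
  [NormedAddCommGroup Y] [NormedSpace ℂ Y] [CompleteSpace Y]

/-- conjugation of an operator by `A` -/
noncomputable def cj {σ : ℂ →+* ℂ} [RingHomInvPair σ σ] (A : X ≃SL[σ] Y) :
    (X →L[ℂ] X) →* (Y →L[ℂ] Y) where
  toFun R :=
    { toFun := fun y => A (R (A.symm y))
      map_add' := by intro x y; simp
      map_smul' := by
        intro c y
        rw [A.symm.map_smulₛₗ, R.map_smul, A.map_smulₛₗ, RingHomInvPair.comp_apply_eq]
        rfl
      cont := A.continuous.comp (R.continuous.comp A.symm.continuous) }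
  map_one' := by ext y; simp
  map_mul' := by intro R1 R2; ext y; simp

omit [CompleteSpace X] [CompleteSpace Y] in
theorem cj_apply {σ : ℂ →+* ℂ} [RingHomInvPair σ σ] (A : X ≃SL[σ] Y) (R : X →L[ℂ] X) (y : Y) :
    cj A R y = A (R (A.symm y)) := rfl

omit [CompleteSpace X] [CompleteSpace Y] in
theorem isUnit_cj {σ : ℂ →+* ℂ} [RingHomInvPair σ σ] (A : X ≃SL[σ] Y) (T : X →L[ℂ] X)
    (S : Y →L[ℂ] Y) (h : ∀ x, S (A x) = A (T x)) (w : ℂ)
    (hw : IsUnit (w • (1 : X →L[ℂ] X) - T)) : IsUnit (σ w • (1 : Y →L[ℂ] Y) - S) := by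
  have h1 := hw.map (cj A)
  have h2 : cj A (w • (1 : X →L[ℂ] X) - T) = σ w • (1 : Y →L[ℂ] Y) - S := by
    ext y
    rw [cj_apply]
    have h3 := h (A.symm y)
    rw [A.apply_symm_apply] at h3
    simp only [sub_apply, smul_apply, one_apply_eq_self, map_sub, A.map_smulₛₗ, A.apply_symm_apply, h3]
  rwa [h2] at h1

/-- TARGET 1 -/
theorem specRad_conj {σ : ℂ →+* ℂ} [RingHomInvPair σ σ] [RingHomIsometric σ]
    (A : X ≃SL[σ] Y) (T : X →L[ℂ] X) (S : Y →L[ℂ] Y) (h : ∀ x, S (A x) = A (T x)) :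
    spectralRadius ℂ S = spectralRadius ℂ T := by
  have hσ : ∀ z, σ (σ z) = z := fun z => RingHomInvPair.comp_apply_eq
  have hn : ∀ z : ℂ, ‖σ z‖₊ = ‖z‖₊ := fun z => RingHomIsometric.nnnorm_map σ z
  have h' : ∀ y, T (A.symm y) = A.symm (S y) := by
    intro y
    have h3 := h (A.symm y)
    rw [A.apply_symm_apply] at h3
    rw [h3, A.symm_apply_apply]
  apply le_antisymm
  · unfold spectralRadius
    apply iSup₂_le
    intro z hz
    have hz' : σ z ∈ spectrum ℂ T := by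
      rw [mem_spec_iff]
      intro hu
      have := isUnit_cj A T S h _ hu
      rw [hσ] at this
      exact (mem_spec_iff.1 hz) this
    rw [← hn z]
    exact le_iSup₂ (f := fun (k : ℂ) (_ : k ∈ spectrum ℂ T) => (‖k‖₊ : ENNReal)) _ hz'
  · unfold spectralRadius
    apply iSup₂_le
    intro z hz
    have hz' : σ z ∈ spectrum ℂ S := by
      rw [mem_spec_iff]
      intro hu
      have := isUnit_cj A.symm S T h' _ hu
      rw [hσ] at this
      exact (mem_spec_iff.1 hz) this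
    rw [← hn z]
    exact le_iSup₂ (f := fun (k : ℂ) (_ : k ∈ spectrum ℂ S) => (‖k‖₊ : ENNReal)) _ hz'

/-- TARGET 3 -/
theorem conj_surj {σ : ℂ →+* ℂ} [RingHomInvPair σ σ] (A : X ≃SL[σ] Y) (S : Y →L[ℂ] Y) :
    ∃ T : X →L[ℂ] X, ∀ x, S (A x) = A (T x) := by
  refine ⟨cj A.symm S, fun x => ?_⟩
  rw [cj_apply, A.apply_symm_apply]
  rfl


omit [NormedAddCommGroup Y] [NormedSpace ℂ Y] [CompleteSpace Y] in
theorem bij_of_dual (T' : X →L[ℂ] X)
    (hD : Function.Bijective (fun f : X →L[ℂ] ℂ => f.comp T')) : Function.Bijective T' := by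
  set D : (X →L[ℂ] ℂ) →L[ℂ] (X →L[ℂ] ℂ) := (ContinuousLinearMap.compL ℂ X X ℂ).flip T' with hDdef
  have hDapp : ∀ f, D f = f.comp T' := fun f => rfl
  obtain ⟨C, hC, hpre⟩ := D.exists_preimage_norm_le hD.2
  have hbd : ∀ x, ‖x‖ ≤ C * ‖T' x‖ := by
    intro x
    obtain ⟨f, hf1, hf2⟩ := exists_dual_vector'' ℂ x
    obtain ⟨g, hg1, hg2⟩ := hpre f
    have h1 : f x = g (T' x) := by rw [← hg1, hDapp]; rfl
    have h2 : ‖x‖ = ‖g (T' x)‖ := by
      rw [← h1, hf2]; simp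
    rw [h2]
    refine (g.le_opNorm _).trans ?_
    have h3 : ‖g‖ ≤ C := hg2.trans (by nlinarith [norm_nonneg f])
    gcongr
  rw [ContinuousLinearMap.bijective_iff_dense_range_and_antilipschitz]
  refine ⟨?_, C.toNNReal, AddMonoidHomClass.antilipschitz_of_bound T' (fun x => by
    rw [Real.coe_toNNReal _ hC.le]; exact hbd x)⟩
  rw [Submodule.eq_top_iff']
  intro x
  by_contra hx
  obtain ⟨f, u, hf1, hf2⟩ := RCLike.geometric_hahn_banach_closed_point (𝕜 := ℂ)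
    (s := (T'.range.topologicalClosure : Set X))
    (T'.range.topologicalClosure.restrictScalars ℝ).convex
    (Submodule.isClosed_topologicalClosure _) hx
  have hu : 0 < u := by
    have := hf1 0 (Submodule.zero_mem _)
    simpa using this
  have hvan : ∀ y, f (T' y) = 0 := by
    intro y
    by_contra hne
    have hmem : ∀ c : ℂ, c • T' y ∈ T'.range.topologicalClosure := by
      intro c
      exact Submodule.smul_mem _ _ (Submodule.le_topologicalClosure _ ⟨y, rfl⟩)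
    have h1 := hf1 _ (hmem ((u : ℂ) / f (T' y)))
    rw [map_smul, smul_eq_mul, div_mul_cancel₀ _ hne] at h1
    simp at h1
  have hDf : D f = D 0 := by
    rw [map_zero, hDapp]
    ext y
    exact hvan y
  have hf0 : f = 0 := hD.1 hDf
  rw [hf0] at hf2
  simp at hf2
  linarith

omit [NormedAddCommGroup Y] [NormedSpace ℂ Y] [CompleteSpace Y] in
theorem dual_of_bij (T' : X →L[ℂ] X) (h : Function.Bijective T') :
    Function.Bijective (fun f : X →L[ℂ] ℂ => f.comp T') := by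
  obtain ⟨U, hU⟩ := ContinuousLinearMap.isUnit_iff_bijective.2 h
  have h1 : ∀ x, T' ((↑U⁻¹ : X →L[ℂ] X) x) = x := by
    intro x
    rw [← hU]
    show ((U : X →L[ℂ] X) * (↑U⁻¹ : X →L[ℂ] X)) x = x
    rw [Units.mul_inv]; rfl
  have h2 : ∀ x, (↑U⁻¹ : X →L[ℂ] X) (T' x) = x := by
    intro x
    rw [← hU]
    show ((↑U⁻¹ : X →L[ℂ] X) * (U : X →L[ℂ] X)) x = x
    rw [Units.inv_mul]; rfl
  constructor
  · intro f g hfg
    ext x
    have := congrArg (fun k : X →L[ℂ] ℂ => k ((↑U⁻¹ : X →L[ℂ] X) x)) hfg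
    simpa [h1] using this
  · intro f
    refine ⟨f.comp (↑U⁻¹ : X →L[ℂ] X), ?_⟩
    ext x
    simp [h2]

theorem mem_spec_dual {σ : ℂ →+* ℂ} [RingHomInvPair σ σ]
    (A : (X →L[ℂ] ℂ) ≃SL[σ] Y) (T : X →L[ℂ] X) (S : Y →L[ℂ] Y)
    (h : ∀ f : X →L[ℂ] ℂ, S (A f) = A (f.comp T)) (z : ℂ) :
    z ∈ spectrum ℂ S ↔ σ z ∈ spectrum ℂ T := by
  rw [mem_spec_iff, mem_spec_iff, not_iff_not, ContinuousLinearMap.isUnit_iff_bijective,
    ContinuousLinearMap.isUnit_iff_bijective]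
  have hσσ : σ (σ z) = z := RingHomInvPair.comp_apply_eq
  set T' : X →L[ℂ] X := σ z • (1 : X →L[ℂ] X) - T with hT'
  have key : ∀ f : X →L[ℂ] ℂ, (z • (1 : Y →L[ℂ] Y) - S) (A f) = A (f.comp T') := by
    intro f
    have e1 : f.comp T' = σ z • f - f.comp T := by
      ext x
      simp [hT']
    rw [e1, map_sub, ← h, ContinuousLinearEquiv.map_smulₛₗ, hσσ]
    simp
  have hcomp : (⇑(z • (1 : Y →L[ℂ] Y) - S)) ∘ A = A ∘ (fun f : X →L[ℂ] ℂ => f.comp T') := by
    funext f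
    exact key f
  have hbA : Function.Bijective A := A.bijective
  constructor
  · intro hb
    apply bij_of_dual
    have h1 : Function.Bijective (A ∘ (fun f : X →L[ℂ] ℂ => f.comp T')) := by
      rw [← hcomp]; exact hb.comp hbA
    exact (Function.Bijective.of_comp_iff' hbA _).1 h1
  · intro hb
    have h1 : Function.Bijective ((⇑(z • (1 : Y →L[ℂ] Y) - S)) ∘ A) := by
      rw [hcomp]; exact hbA.comp (dual_of_bij T' hb)
    exact (Function.Bijective.of_comp_iff _ hbA).1 h1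

/-- TARGET 2 -/
theorem specRad_dual {σ : ℂ →+* ℂ} [RingHomInvPair σ σ] [RingHomIsometric σ]
    (A : (X →L[ℂ] ℂ) ≃SL[σ] Y) (T : X →L[ℂ] X) (S : Y →L[ℂ] Y)
    (h : ∀ f : X →L[ℂ] ℂ, S (A f) = A (f.comp T)) :
    spectralRadius ℂ S = spectralRadius ℂ T := by
  have hn : ∀ z : ℂ, ‖σ z‖₊ = ‖z‖₊ := fun z => by
    apply NNReal.eq
    exact RingHomIsometric.norm_map
  apply le_antisymm
  · unfold spectralRadius
    apply iSup₂_le
    intro z hz
    have h1 := (mem_spec_dual A T S h z).1 hz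
    rw [← hn z]
    exact le_iSup₂ (f := fun (k : ℂ) (_ : k ∈ spectrum ℂ T) => (‖k‖₊ : ENNReal)) (σ z) h1
  · unfold spectralRadius
    apply iSup₂_le
    intro z hz
    have h1 : σ z ∈ spectrum ℂ S := by
      rw [mem_spec_dual A T S h]
      have hσσ : σ (σ z) = z := RingHomInvPair.comp_apply_eq
      rwa [hσσ]
    rw [← hn z]
    exact le_iSup₂ (f := fun (k : ℂ) (_ : k ∈ spectrum ℂ S) => (‖k‖₊ : ENNReal)) (σ z) h1


/-- TARGET 4: on a reflexive space every operator on the dual is an adjoint -/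
theorem dual_surj {σ : ℂ →+* ℂ} [RingHomInvPair σ σ]
    (hX : Function.Surjective (fun x : X => (ContinuousLinearMap.apply ℂ ℂ x :
      (X →L[ℂ] ℂ) →L[ℂ] ℂ)))
    (A : (X →L[ℂ] ℂ) ≃SL[σ] Y) (S : Y →L[ℂ] Y) :
    ∃ T : X →L[ℂ] X, ∀ f : X →L[ℂ] ℂ, S (A f) = A (f.comp T) := by
  obtain ⟨S', hS'⟩ : ∃ S' : (X →L[ℂ] ℂ) →L[ℂ] (X →L[ℂ] ℂ), ∀ f, S' f = A.symm (S (A f)) :=
    ⟨(A.symm : Y →SL[σ] (X →L[ℂ] ℂ)).comp (S.comp (A : (X →L[ℂ] ℂ) →SL[σ] Y)), fun f => rfl⟩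
  choose T hT using fun x : X => hX ((ContinuousLinearMap.apply ℂ ℂ x).comp S')
  have hT' : ∀ (x : X) (f : X →L[ℂ] ℂ), f (T x) = (S' f) x := by
    intro x f
    exact congrArg (fun g : (X →L[ℂ] ℂ) →L[ℂ] ℂ => g f) (hT x)
  have hext : ∀ u v : X, (∀ f : X →L[ℂ] ℂ, f u = f v) → u = v := by
    intro u v huv
    exact (NormedSpace.eq_iff_forall_dual_eq ℂ).mpr huv
  let T0 : X →ₗ[ℂ] X :=
    { toFun := T
      map_add' := fun x y => by
        apply hext
        intro f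
        rw [hT', map_add, map_add, hT', hT']
      map_smul' := fun c x => by
        apply hext
        intro f
        rw [hT', map_smul, RingHom.id_apply, map_smul, hT'] }
  have hbd : ∀ x, ‖T0 x‖ ≤ ‖S'‖ * ‖x‖ := by
    intro x
    apply NormedSpace.norm_le_dual_bound ℂ _ (by positivity)
    intro f
    show ‖f (T x)‖ ≤ _
    rw [hT']
    calc ‖(S' f) x‖ ≤ ‖S' f‖ * ‖x‖ := (S' f).le_opNorm x
      _ ≤ (‖S'‖ * ‖f‖) * ‖x‖ := by
          gcongr
          exact S'.le_opNorm f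
      _ = ‖S'‖ * ‖x‖ * ‖f‖ := by ring
  refine ⟨T0.mkContinuous ‖S'‖ hbd, fun f => ?_⟩
  have h1 : f.comp (T0.mkContinuous ‖S'‖ hbd) = A.symm (S (A f)) := by
    ext x
    rw [← hS']
    exact hT' x f
  rw [h1]
  exact (A.apply_symm_apply _).symm

end

section invariance
variable {X Y : Type*} [NormedAddCommGroup X] [NormedSpace ℂ X] [CompleteSpace X]
  [NormedAddCommGroup Y] [NormedSpace ℂ Y] [CompleteSpace Y]

theorem Qn_conj {σ : ℂ →+* ℂ} [RingHomInvPair σ σ] [RingHomIsometric σ]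
    (A : X ≃SL[σ] Y) (T : X →L[ℂ] X) (S : Y →L[ℂ] Y) (h : ∀ x, S (A x) = A (T x)) :
    Qn S ↔ Qn T := by
  unfold Qn
  rw [specRad_conj A T S h]

theorem Qn_dual {σ : ℂ →+* ℂ} [RingHomInvPair σ σ] [RingHomIsometric σ]
    (A : (X →L[ℂ] ℂ) ≃SL[σ] Y) (T : X →L[ℂ] X) (S : Y →L[ℂ] Y)
    (h : ∀ f : X →L[ℂ] ℂ, S (A f) = A (f.comp T)) : Qn S ↔ Qn T := by
  unfold Qn
  rw [specRad_dual A T S h]

end invariance

end Pool.Agent.Helper280.QN
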