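import Mathlib
import Pool.Agent.Helper280.QN.A

set_option autoImplicit false

namespace Pool.Agent.Helper280.QN.Jclf



section sk2
variable {X : Type*} [NormedAddCommGroup X] [NormedSpace ℂ X]

theorem clf_sep (p : Submodule ℂ X) [FiniteDimensional ℂ p] (v : X) (hv : v ∉ p) :
    ∃ k : X →L[ℂ] ℂ, (∀ w ∈ p, k w = 0) ∧ k v ≠ 0 := by
  obtain ⟨P, hP⟩ := Submodule.ClosedComplemented.of_finiteDimensional p
  have hne : v - ((P v : p) : X) ≠ 0 := by
    intro h
    apply hv
    rw [sub_eq_zero.1 h]
    exact (P v).2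
  obtain ⟨k', hk'⟩ := SeparatingDual.exists_ne_zero (R := ℂ) hne
  refine ⟨k'.comp (ContinuousLinearMap.id ℂ X - p.subtypeL.comp P), ?_, ?_⟩
  · intro w hw
    have h1 : P w = ⟨w, hw⟩ := hP ⟨w, hw⟩
    show k' (w - ((P w : p) : X)) = 0
    rw [h1]
    simp
  · exact hk'

theorem cl_same_f (hd : Dim4 X) (A : X →L[ℂ] X) (x y : X) (f : X →L[ℂ] ℂ) (hf : f ≠ 0)
    (h1 : ∀ u, f u = 0 → ∀ k : X →L[ℂ] ℂ, k u = 0 → k (A u) = 0)
    (h2 : ∀ (u : X) (k : X →L[ℂ] ℂ), k u = 0 → k x = 0 → k y = 0 → k (A u) = 0) :
    ∃ a b d : ℂ, A = d • 1 + rk (a • x + b • y) f := by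
  have H1 : ∀ u, f u = 0 → ∃ c : ℂ, A u = c • u := by
    intro u hu
    have hfd : FiniteDimensional ℂ (Submodule.span ℂ ({u} : Set X)) :=
      FiniteDimensional.span_of_finite ℂ (Set.toFinite _)
    have hmem : A u ∈ Submodule.span ℂ ({u} : Set X) := by
      by_contra hc
      obtain ⟨k, hk1, hk2⟩ := clf_sep _ _ hc
      exact hk2 (h1 u hu k (hk1 u (Submodule.mem_span_singleton_self u)))
    obtain ⟨c, hc⟩ := Submodule.mem_span_singleton.1 hmem
    exact ⟨c, hc.symm⟩
  have H2 : ∀ u, ∃ a b c : ℂ, a • u + b • x + c • y = A u := by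
    intro u
    have hfd : FiniteDimensional ℂ (Submodule.span ℂ ({u, x, y} : Set X)) :=
      FiniteDimensional.span_of_finite ℂ (Set.toFinite _)
    have hmem : A u ∈ Submodule.span ℂ ({u, x, y} : Set X) := by
      by_contra hc
      obtain ⟨k, hk1, hk2⟩ := clf_sep _ _ hc
      exact hk2 (h2 u k (hk1 u (Submodule.subset_span (by simp))) (hk1 x (Submodule.subset_span (by simp)))
        (hk1 y (Submodule.subset_span (by simp))))
    exact Submodule.mem_span_triple.1 hmem
  -- a vector with `f e = 1`
  obtain ⟨e0, he0⟩ : ∃ e0, f e0 ≠ 0 := by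
    by_contra hc
    push Not at hc
    exact hf (ContinuousLinearMap.ext hc)
  obtain ⟨e, he⟩ : ∃ e, f e = 1 := ⟨(f e0)⁻¹ • e0, by rw [map_smul, smul_eq_mul, inv_mul_cancel₀ he0]⟩
  -- a nonzero vector in the kernel
  obtain ⟨u0, hu0, hu0f⟩ : ∃ u0 : X, u0 ≠ 0 ∧ f u0 = 0 := by
    by_contra hc
    push Not at hc
    have hmul : ∀ u, u = f u • e := by
      intro u
      by_contra hne
      have h3 : u - f u • e ≠ 0 := fun h => hne (sub_eq_zero.1 h)
      apply hc _ h3
      rw [map_sub, map_smul, he, smul_eq_mul, mul_one, sub_self]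
    obtain ⟨v, hv⟩ := hd
    have h01 := hv.ne_zero 0
    have h3 : f (v 1) • v 0 - f (v 0) • v 1 = 0 := by
      rw [hmul (v 0), hmul (v 1), map_smul, map_smul, he, smul_smul, smul_smul]
      simp only [smul_eq_mul, mul_one]
      rw [mul_comm, sub_self]
    have h4 := linearIndependent_iff'.1 hv Finset.univ
      (fun i => if i = 0 then f (v 1) else if i = 1 then -f (v 0) else 0) (by
        rw [Fin.sum_univ_four]
        simp only [if_true, show (1 : Fin 4) ≠ 0 by decide, show (2 : Fin 4) ≠ 0 by decide,
          show (2 : Fin 4) ≠ 1 by decide, show (3 : Fin 4) ≠ 0 by decide,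
          show (3 : Fin 4) ≠ 1 by decide, if_false, zero_smul, add_zero, neg_smul]
        rw [← sub_eq_add_neg]
        exact h3)
    have h5 := h4 1 (Finset.mem_univ _)
    simp only [show (1 : Fin 4) ≠ 0 by decide, if_false, if_true, neg_eq_zero] at h5
    exact hc (v 0) h01 h5
  obtain ⟨d, hd0⟩ := H1 u0 hu0f
  have hker : ∀ v, f v = 0 → A v = d • v := by
    intro v hv
    obtain ⟨c, hc⟩ := H1 v hv
    obtain ⟨c', hc'⟩ := H1 (u0 + v) (by rw [map_add, hu0f, hv, add_zero])
    rw [map_add, hd0, hc] at hc'
    by_cases h : c = c'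
    · subst h
      have h3 : (d - c) • u0 = 0 := by
        have h4 : d • u0 + c • v = c • u0 + c • v := by rw [hc', smul_add]
        rw [sub_smul, add_right_cancel h4, sub_self]
      rcases smul_eq_zero.1 h3 with h4 | h4
      · rw [hc, sub_eq_zero.1 h4]
      · exact absurd h4 hu0
    · have h3 : (c - c') • v = (c' - d) • u0 := by
        have h4 : c • v - c' • v = c' • u0 - d • u0 := by
          rw [smul_add] at hc'
          rw [sub_eq_sub_iff_add_eq_add, add_comm (c • v), hc']
        rw [sub_smul, sub_smul, h4]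
      have h5 : c - c' ≠ 0 := sub_ne_zero.2 h
      have h6 : v = ((c - c')⁻¹ * (c' - d)) • u0 := by
        rw [← smul_smul, ← h3, smul_smul, inv_mul_cancel₀ h5, one_smul]
      rw [h6, map_smul, hd0, smul_smul, smul_smul, mul_comm]
  set z : X := A e - d • e with hz
  have hA : ∀ u, A u = d • u + f u • z := by
    intro u
    have h3 : f (u - f u • e) = 0 := by
      rw [map_sub, map_smul, he, smul_eq_mul, mul_one, sub_self]
    have h4 := hker _ h3
    rw [map_sub, map_smul] at h4
    rw [hz, smul_sub]
    have h5 : A u = d • (u - f u • e) + f u • A e := by rw [← h4]; abel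
    rw [h5, smul_sub, smul_smul, smul_smul, mul_comm d]
    abel
  have hzmem : ∃ a b : ℂ, z = a • x + b • y := by
    by_contra hcon
    push Not at hcon
    have hone : ∀ u, f u = 1 → u ∈ Submodule.span ℂ ({z, x, y} : Set X) := by
      intro u hu
      obtain ⟨a, b, c, habc⟩ := H2 u
      rw [hA u, hu, one_smul] at habc
      have h3 : (a - d) • u = z - b • x - c • y := by
        have : z = a • u + b • x + c • y - d • u := by rw [habc]; abel
        rw [this, sub_smul]
        abel
      have h4 : a - d ≠ 0 := by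
        intro h5
        rw [h5, zero_smul] at h3
        apply hcon b c
        have : z = (z - b • x - c • y) + (b • x + c • y) := by abel
        rw [this, ← h3, zero_add]
      have h5 : u = (a - d)⁻¹ • (z - b • x - c • y) := by
        rw [← h3, smul_smul, inv_mul_cancel₀ h4, one_smul]
      rw [h5]
      apply Submodule.smul_mem
      apply Submodule.sub_mem
      · apply Submodule.sub_mem
        · exact Submodule.subset_span (by simp)
        · exact Submodule.smul_mem _ _ (Submodule.subset_span (by simp))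
      · exact Submodule.smul_mem _ _ (Submodule.subset_span (by simp))
    have hall : ∀ u : X, u ∈ Submodule.span ℂ ({z, x, y} : Set X) := by
      intro u
      have h3 : u = (u + (1 - f u) • e) - (1 - f u) • e := by abel
      rw [h3]
      apply Submodule.sub_mem
      · apply hone
        rw [map_add, map_smul, he, smul_eq_mul]
        ring
      · exact Submodule.smul_mem _ _ (hone e he)
    let L : (Fin 3 → ℂ) →ₗ[ℂ] X := Fintype.linearCombination ℂ ![z, x, y]
    have hL : Function.Surjective L := by
      intro u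
      obtain ⟨a, b, c, habc⟩ := Submodule.mem_span_triple.1 (hall u)
      refine ⟨![a, b, c], ?_⟩
      simp only [L, Fintype.linearCombination_apply, Fin.sum_univ_three]
      exact habc
    have hfin : Module.Finite ℂ X := Module.Finite.of_surjective L hL
    have h3 : Module.finrank ℂ X ≤ 3 := by
      have h4 := L.finrank_range_add_finrank_ker
      rw [LinearMap.range_eq_top.2 hL, finrank_top, Module.finrank_fin_fun] at h4
      omega
    obtain ⟨v, hv⟩ := hd
    have h5 := hv.fintype_card_le_finrank
    rw [Fintype.card_fin] at h5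
    omega
  obtain ⟨a, b, hab⟩ := hzmem
  refine ⟨a, b, d, ?_⟩
  ext u
  rw [hA u, hab]
  simp


end sk2


end Pool.Agent.Helper280.QN.Jclf
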