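import Mathlib
import Pool.Agent.Helper280.QN.A

set_option autoImplicit false

namespace Pool.Agent.Helper280.QN.Jclx



section sk2
variable {X : Type*} [NormedAddCommGroup X] [NormedSpace ℂ X]

theorem hb_two (u x w : X) (h : ∀ k : X →L[ℂ] ℂ, k u = 0 → k x = 0 → k w = 0) :
    ∃ c e : ℂ, w = c • u + e • x := by
  let ev : X → ((X →L[ℂ] ℂ) →ₗ[ℂ] ℂ) := fun v =>
    { toFun := fun k => k v
      map_add' := fun k l => rfl
      map_smul' := fun c k => rfl }
  have h1 : ⨅ i, LinearMap.ker ((![ev u, ev x] : Fin 2 → ((X →L[ℂ] ℂ) →ₗ[ℂ] ℂ)) i) ≤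
      LinearMap.ker (ev w) := by
    intro k hk
    rw [Submodule.mem_iInf] at hk
    have h2 := hk 0
    have h3 := hk 1
    exact h k h2 h3
  have h2 := mem_span_of_iInf_ker_le_ker h1
  obtain ⟨c, hc⟩ := (Submodule.mem_span_range_iff_exists_fun ℂ).1 h2
  refine ⟨c 0, c 1, ?_⟩
  rw [← sub_eq_zero]
  by_contra hne
  obtain ⟨k, hk⟩ := SeparatingDual.exists_ne_zero (R := ℂ) hne
  apply hk
  have h3 := LinearMap.congr_fun hc k
  simp only [Fin.sum_univ_two, Matrix.cons_val_zero, Matrix.cons_val_one] at h3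
  have h4 : c 0 * k u + c 1 * k x = k w := h3
  rw [map_sub, map_add, map_smul, map_smul, smul_eq_mul, smul_eq_mul, h4, sub_self]

theorem cl_same_x (hd : Dim4 X) (A : X →L[ℂ] X) (x : X) (f g : X →L[ℂ] ℂ) (hx : x ≠ 0)
    (h1 : ∀ u, f u = 0 → g u = 0 → ∀ k : X →L[ℂ] ℂ, k u = 0 → k (A u) = 0)
    (h2 : ∀ (u : X) (k : X →L[ℂ] ℂ), k u = 0 → k x = 0 → k (A u) = 0) :
    ∃ a b d : ℂ, A = d • 1 + rk x (a • f + b • g) := by
  -- the induced map on the quotient
  let S : Submodule ℂ X := Submodule.span ℂ {x}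
  have hSx : x ∈ S := Submodule.mem_span_singleton_self x
  have hA : ∀ u, ∃ c e : ℂ, A u = c • u + e • x := fun u => hb_two u x (A u) (h2 u)
  have hS : S ≤ S.comap (A : X →ₗ[ℂ] X) := by
    intro v hv
    obtain ⟨c, e, hce⟩ := hA v
    show A v ∈ S
    rw [hce]
    exact S.add_mem (S.smul_mem c hv) (S.smul_mem e hSx)
  let Ab : (X ⧸ S) →ₗ[ℂ] (X ⧸ S) := S.mapQ S (A : X →ₗ[ℂ] X) hS
  have hAb : ∀ q : X ⧸ S, ¬ LinearIndependent ℂ ![q, Ab q] := by
    intro q
    obtain ⟨u, rfl⟩ := S.mkQ_surjective q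
    obtain ⟨c, e, hce⟩ := hA u
    intro hli
    have h3 : Ab (S.mkQ u) = c • S.mkQ u := by
      show S.mkQ (A u) = c • S.mkQ u
      rw [hce, map_add, map_smul, map_smul]
      have : S.mkQ x = 0 := by
        rw [Submodule.mkQ_apply, Submodule.Quotient.mk_eq_zero]; exact hSx
      rw [this, smul_zero, add_zero]
    rw [h3] at hli
    rw [LinearIndependent.pair_iff] at hli
    have := hli c (-1) (by simp)
    simp at this
  obtain ⟨d, hd1⟩ := LinearMap.exists_eq_smul_id_of_forall_notLinearIndependent hAb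
  obtain ⟨φ, hφ⟩ := SeparatingDual.exists_eq_one (R := ℂ) hx
  -- the functional
  let h : X →L[ℂ] ℂ := φ.comp (A - d • (1 : X →L[ℂ] X))
  have hAh : ∀ u, A u = d • u + h u • x := by
    intro u
    have h3 : S.mkQ (A u) = d • S.mkQ u := by
      have h4 : Ab (S.mkQ u) = d • S.mkQ u := by rw [hd1]; rfl
      exact h4
    have h4 : A u - d • u ∈ S := by
      rw [← Submodule.Quotient.mk_eq_zero, ← Submodule.mkQ_apply, map_sub, map_smul, h3, sub_self]
    obtain ⟨e, he⟩ := Submodule.mem_span_singleton.1 h4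
    have h5 : h u = e := by
      show φ (A u - d • u) = e
      rw [← he, map_smul, hφ, smul_eq_mul, mul_one]
    rw [h5, he]; abel
  -- vectors of the kernel
  have hk1 : ∀ u, f u = 0 → g u = 0 → h u ≠ 0 → ∃ c : ℂ, u = c • x := by
    intro u hfu hgu hu
    obtain ⟨c, e, hce⟩ := hb_two u 0 (A u) (fun k hk _ => h1 u hfu hgu k hk)
    rw [smul_zero, add_zero] at hce
    have h3 : h u • x = (c - d) • u := by
      have h4 := hAh u
      rw [hce] at h4
      rw [sub_smul, h4]; abel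
    have h5 : c - d ≠ 0 := by
      intro h0
      rw [h0, zero_smul] at h3
      rcases smul_eq_zero.1 h3 with h6 | h6
      · exact hu h6
      · exact hx h6
    refine ⟨(c - d)⁻¹ * h u, ?_⟩
    rw [mul_smul, h3, smul_smul, inv_mul_cancel₀ h5, one_smul]
  -- a vector of the kernel outside the line of x
  have hex : ∃ u, f u = 0 ∧ g u = 0 ∧ φ u = 0 ∧ u ≠ 0 := by
    obtain ⟨v, hv⟩ := hd
    let L : (Fin 4 → ℂ) →ₗ[ℂ] X := Fintype.linearCombination ℂ v
    let M : (Fin 4 → ℂ) →ₗ[ℂ] (Fin 3 → ℂ) := LinearMap.pi ![(f : X →ₗ[ℂ] ℂ).comp L,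
      (g : X →ₗ[ℂ] ℂ).comp L, (φ : X →ₗ[ℂ] ℂ).comp L]
    have hM : LinearMap.ker M ≠ ⊥ := by
      apply LinearMap.ker_ne_bot_of_finrank_lt
      simp
    obtain ⟨c, hc, hc0⟩ := Submodule.exists_mem_ne_zero_of_ne_bot hM
    have hMc : M c = 0 := hc
    refine ⟨L c, ?_, ?_, ?_, ?_⟩
    · exact congr_fun hMc 0
    · exact congr_fun hMc 1
    · exact congr_fun hMc 2
    · intro h0
      apply hc0
      have h3 : ∑ i, c i • v i = 0 := by
        have : L c = ∑ i, c i • v i := Fintype.linearCombination_apply ℂ v c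
        rw [← this]; exact h0
      exact funext (Fintype.linearIndependent_iff.1 hv c h3)
  obtain ⟨u', hfu', hgu', hφu', hu'⟩ := hex
  have hnu : ∀ (s : ℂ), ∀ c : ℂ, s • x + u' ≠ c • x := by
    intro s c h0
    have h3 : u' = (c - s) • x := by rw [sub_smul, ← h0]; abel
    have h4 : φ u' = c - s := by rw [h3, map_smul, hφ, smul_eq_mul, mul_one]
    rw [hφu'] at h4
    rw [← h4, zero_smul] at h3
    exact hu' h3
  have hker : ∀ u, f u = 0 → g u = 0 → h u = 0 := by
    intro u hfu hgu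
    by_contra hu
    obtain ⟨c, hc⟩ := hk1 u hfu hgu hu
    have hc0 : c ≠ 0 := by
      rintro rfl
      rw [zero_smul] at hc
      rw [hc, map_zero] at hu
      exact hu rfl
    have hfx : f x = 0 := by
      have : f u = c * f x := by rw [hc, map_smul, smul_eq_mul]
      rw [hfu] at this
      rcases mul_eq_zero.1 this.symm with h3 | h3
      · exact absurd h3 hc0
      · exact h3
    have hgx : g x = 0 := by
      have : g u = c * g x := by rw [hc, map_smul, smul_eq_mul]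
      rw [hgu] at this
      rcases mul_eq_zero.1 this.symm with h3 | h3
      · exact absurd h3 hc0
      · exact h3
    have h3 : h u' = 0 := by
      by_contra h4
      obtain ⟨c', hc'⟩ := hk1 u' hfu' hgu' h4
      exact hnu 0 c' (by rw [zero_smul, zero_add]; exact hc')
    have h4 : h (x + u') = 0 := by
      by_contra h5
      obtain ⟨c', hc'⟩ := hk1 (x + u') (by rw [map_add, hfx, hfu', add_zero])
        (by rw [map_add, hgx, hgu', add_zero]) h5
      exact hnu 1 c' (by rw [one_smul]; exact hc')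
    rw [map_add, h3, add_zero] at h4
    rw [hc, map_smul, h4, smul_zero] at hu
    exact hu rfl
  have hinf : ⨅ i, LinearMap.ker ((![(f : X →ₗ[ℂ] ℂ), (g : X →ₗ[ℂ] ℂ)] : Fin 2 → (X →ₗ[ℂ] ℂ)) i) ≤
      LinearMap.ker (h : X →ₗ[ℂ] ℂ) := by
    intro u hu
    rw [Submodule.mem_iInf] at hu
    exact hker u (hu 0) (hu 1)
  obtain ⟨c, hc⟩ := (Submodule.mem_span_range_iff_exists_fun ℂ).1 (mem_span_of_iInf_ker_le_ker hinf)
  refine ⟨c 0, c 1, d, ?_⟩
  ext v
  have h3 := LinearMap.congr_fun hc v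
  simp only [Fin.sum_univ_two, Matrix.cons_val_zero, Matrix.cons_val_one] at h3
  have h4 : c 0 * f v + c 1 * g v = h v := h3
  rw [hAh v, ← h4]
  rfl


end sk2


end Pool.Agent.Helper280.QN.Jclx
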