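import Mathlib
import Pool.Agent.Helper280.QN.A

set_option autoImplicit false

namespace Pool.Agent.Helper280.QN.Jcolblock



section sk2
variable {X : Type*} [NormedAddCommGroup X] [NormedSpace ℂ X]

theorem cb_mul_rk (T : X →L[ℂ] X) (x : X) (f : X →L[ℂ] ℂ) : T * rk x f = rk (T x) f := by
  ext v
  simp [rk]

theorem cb_rk_mul_rk (x y : X) (f h : X →L[ℂ] ℂ) : rk x f * rk y h = (f y) • rk x h := by
  ext v
  simp [rk, smul_smul, mul_comm]

/-- two independent vectors are separated -/
theorem cb_sep (x y : X) (hx : x ≠ 0) (hy : ∀ t : ℂ, y ≠ t • x) :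
    ∃ h : X →L[ℂ] ℂ, h x = 0 ∧ h y = 1 := by
  obtain ⟨f, hf⟩ := SeparatingDual.exists_eq_one (R := ℂ) hx
  have hy' : y - f y • x ≠ 0 := fun h => hy (f y) (sub_eq_zero.1 h)
  obtain ⟨f2, hf2⟩ := SeparatingDual.exists_eq_one (R := ℂ) hy'
  refine ⟨f2 - f2 x • f, ?_, ?_⟩
  · simp [hf]
  · rw [map_sub, map_smul, smul_eq_mul] at hf2
    simp only [ContinuousLinearMap.sub_apply, ContinuousLinearMap.smul_apply, smul_eq_mul]
    linear_combination hf2

/-- two independent functionals -/
theorem cb_dual (f g : X →L[ℂ] ℂ) (hg : g ≠ 0) (hf : ∀ t : ℂ, f ≠ t • g) :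
    ∃ w : X, f w = 1 ∧ g w = 0 := by
  obtain ⟨v, hv⟩ : ∃ v, g v ≠ 0 := by
    by_contra h
    push Not at h
    exact hg (ContinuousLinearMap.ext h)
  obtain ⟨w, hw⟩ : ∃ w, f w ≠ (f v / g v) * g w := by
    by_contra h
    push Not at h
    apply hf (f v / g v)
    ext w
    simpa using h w
  have h0 : f (w - (g w / g v) • v) ≠ 0 := by
    intro h
    apply hw
    rw [map_sub, map_smul, smul_eq_mul] at h
    field_simp at h ⊢
    linear_combination h
  refine ⟨(f (w - (g w / g v) • v))⁻¹ • (w - (g w / g v) • v), ?_, ?_⟩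
  · rw [map_smul, smul_eq_mul, inv_mul_cancel₀ h0]
  · have e : g (w - (g w / g v) • v) = 0 := by
      rw [map_sub, map_smul, smul_eq_mul, div_mul_cancel₀ _ hv, sub_self]
    rw [map_smul, e, smul_zero]

/-- square root of a square-zero operator of rank two -/
theorem cb_sqrt_two (a b : X) (g : Fin 2 → (X →L[ℂ] ℂ)) (ha : a ≠ 0) (hb : ∀ t : ℂ, b ≠ t • a)
    (hg : LinearIndependent ℂ g) (ga : ∀ i, g i a = 0) (gb : ∀ i, g i b = 0) :
    ∃ S : X →L[ℂ] X, S * S = rk a (g 0) + rk b (g 1) := by
  have hg1 : g 1 ≠ 0 := hg.ne_zero 1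
  have hg01 : ∀ t : ℂ, g 0 ≠ t • g 1 := by
    intro t h
    have h1 := (Fintype.linearIndependent_iff.1 hg) ![1, -t] (by
      simp [Fin.sum_univ_two, h]) 0
    simp at h1
  obtain ⟨w, hw0, hw1⟩ := cb_dual (g 0) (g 1) hg1 hg01
  obtain ⟨h0, h0a, h0b⟩ := cb_sep a b ha hb
  let h : X →L[ℂ] ℂ := h0 - h0 w • g 0
  have e1 : h a = 0 := by simp [h, h0a, ga]
  have e2 : h b = 1 := by simp [h, h0b, gb]
  have e3 : h w = 0 := by simp [h, hw0]
  refine ⟨rk a h + rk b (g 0) + rk w (g 1), ?_⟩
  simp only [mul_add, add_mul, cb_rk_mul_rk, e1, e2, e3, ga, gb, hw0, hw1, zero_smul, one_smul,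
    add_zero, zero_add]

/-- square root of a square-zero operator of rank one -/
theorem cb_sqrt_one (a w : X) (f : X →L[ℂ] ℂ) (ha : a ≠ 0) (hw : ∀ t : ℂ, w ≠ t • a)
    (fa : f a = 0) (fw : f w = 0) :
    ∃ S : X →L[ℂ] X, S * S = rk a f := by
  obtain ⟨h, e1, e2⟩ := cb_sep a w ha hw
  refine ⟨rk a h + rk w f, ?_⟩
  simp only [mul_add, add_mul, cb_rk_mul_rk, e1, e2, fa, fw, zero_smul, one_smul,
    add_zero, zero_add]

theorem cb_key (u : Fin 2 → X) (g : Fin 2 → (X →L[ℂ] ℂ)) (c : M2) (T : X →L[ℂ] X) :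
    Qn (T * (rk (c 0 0 • u 0 + c 1 0 • u 1) (g 0) + rk (c 0 1 • u 0 + c 1 1 • u 1) (g 1))) ↔
      Nil2 (CC u g T * c) := by
  have hent : ∀ i j, (CC u g T * c) i j = g i (T (c 0 j • u 0 + c 1 j • u 1)) := by
    intro i j
    rw [Matrix.mul_apply, Fin.sum_univ_two]
    simp only [CC, Matrix.of_apply, map_add, map_smul, smul_eq_mul]
    ring
  rw [mul_add, cb_mul_rk, cb_mul_rk, Qn_rank_two, Nil2, Matrix.trace_fin_two,
    Matrix.det_fin_two]
  simp only [hent]

theorem col_block (k : Kind) (u : Fin 2 → X) (g : Fin 2 → (X →L[ℂ] ℂ))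
    (hu : LinearIndependent ℂ u) (hg : LinearIndependent ℂ g) (h0 : ∀ i j, g i (u j) = 0)
    (c : M2) : ∃ S : X →L[ℂ] X, ∀ T, rel k T S ↔ Nil2 (CC u g T * c) := by
  set a : X := c 0 0 • u 0 + c 1 0 • u 1 with ha
  set b : X := c 0 1 • u 0 + c 1 1 • u 1 with hb
  have ga : ∀ i, g i a = 0 := by intro i; simp [ha, h0]
  have gb : ∀ i, g i b = 0 := by intro i; simp [hb, h0]
  have hsq : (rk a (g 0) + rk b (g 1)) * (rk a (g 0) + rk b (g 1)) = 0 := by
    simp only [mul_add, add_mul, cb_rk_mul_rk, ga, gb, zero_smul, add_zero]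
  have hkey : ∀ T, Qn (T * (rk a (g 0) + rk b (g 1))) ↔ Nil2 (CC u g T * c) :=
    fun T => cb_key u g c T
  have hui : ∀ s t : ℂ, s • u 0 + t • u 1 = 0 → s = 0 ∧ t = 0 := by
    intro s t h
    have h1 := (Fintype.linearIndependent_iff.1 hu) ![s, t] (by
      simpa [Fin.sum_univ_two] using h)
    exact ⟨by simpa using h1 0, by simpa using h1 1⟩
  cases k with
  | prod => exact ⟨_, fun T => hkey T⟩
  | jordan =>
    refine ⟨rk a (g 0) + rk b (g 1), fun T => ?_⟩
    rw [← hkey T, ← Qn_sq_zero T _ hsq 1 (Or.inl rfl), one_smul]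
    rfl
  | lie =>
    refine ⟨rk a (g 0) + rk b (g 1), fun T => ?_⟩
    rw [← hkey T, ← Qn_sq_zero T _ hsq (-1) (Or.inr rfl), neg_one_smul, ← sub_eq_add_neg]
    rfl
  | triple =>
    have hS : ∃ S : X →L[ℂ] X, S * S = rk a (g 0) + rk b (g 1) := by
      by_cases hc : c = 0
      · refine ⟨0, ?_⟩
        have ea : a = 0 := by simp [ha, hc]
        have eb : b = 0 := by simp [hb, hc]
        rw [ea, eb]
        ext v
        simp [rk]
      · by_cases hd : c.det = 0
        · -- rank one
          rw [Matrix.det_fin_two] at hd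
          obtain ⟨i0, j0, hij⟩ : ∃ i0 j0, c i0 j0 ≠ 0 := by
            by_contra h
            push Not at h
            exact hc (Matrix.ext h)
          have hr : ∀ i j, c i j = c i j0 * (c i0 j0)⁻¹ * c i0 j := by
            intro i j
            have : c i j * c i0 j0 = c i j0 * c i0 j := by
              fin_cases i <;> fin_cases j <;> fin_cases i0 <;> fin_cases j0 <;>
                simp only [Fin.zero_eta, Fin.mk_one, Fin.isValue] <;>
                first
                | ring1
                | linear_combination hd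
                | linear_combination -hd
            field_simp
            linear_combination this
          let x : X := c 0 j0 • u 0 + c 1 j0 • u 1
          let f : X →L[ℂ] ℂ := (c i0 j0)⁻¹ • (c i0 0 • g 0 + c i0 1 • g 1)
          have hx : x ≠ 0 := by
            intro h
            obtain ⟨e0, e1⟩ := hui _ _ h
            apply hij
            fin_cases i0
            · exact e0
            · exact e1
          have hSc : rk a (g 0) + rk b (g 1) = rk x f := by
            ext v
            have r00 := hr 0 0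
            have r10 := hr 1 0
            have r01 := hr 0 1
            have r11 := hr 1 1
            simp only [rk, ContinuousLinearMap.add_apply, ContinuousLinearMap.smulRight_apply,
              ha, hb, x, f, ContinuousLinearMap.smul_apply, smul_eq_mul]
            conv_lhs => rw [r00, r10, r01, r11]
            module
          have fx : f x = 0 := by simp [f, x, h0]
          have fu : ∀ i, f (u i) = 0 := by intro i; simp [f, h0]
          rw [hSc]
          by_cases hw : ∀ t : ℂ, u 0 ≠ t • x
          · exact cb_sqrt_one x (u 0) f hx hw fx (fu 0)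
          · push Not at hw
            obtain ⟨t, ht⟩ := hw
            apply cb_sqrt_one x (u 1) f hx _ fx (fu 1)
            intro s hs
            have e : s • u 0 + (-t) • u 1 = 0 := by
              rw [ht, hs, smul_smul, smul_smul, ← add_smul]
              have : s * t + -t * s = 0 := by ring
              rw [this, zero_smul]
            obtain ⟨e1, e2⟩ := hui _ _ e
            rw [e1, zero_smul] at hs
            exact hu.ne_zero 1 hs
        · -- rank two
          apply cb_sqrt_two a b g _ _ hg ga gb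
          · intro h
            obtain ⟨e0, e1⟩ := hui _ _ h
            apply hd
            rw [Matrix.det_fin_two, e0, e1]
            ring
          · intro t h
            have e : (c 0 1 - t * c 0 0) • u 0 + (c 1 1 - t * c 1 0) • u 1 = 0 := by
              have h' : b - t • a = 0 := sub_eq_zero.2 h
              rw [← h', ha, hb]
              module
            obtain ⟨e0, e1⟩ := hui _ _ e
            apply hd
            rw [Matrix.det_fin_two]
            linear_combination c 0 0 * e1 - c 1 0 * e0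
    obtain ⟨S, hS⟩ := hS
    refine ⟨S, fun T => ?_⟩
    rw [← hkey T, ← hS]
    show Qn (S * T * S) ↔ _
    rw [mul_assoc, Qn_mul_comm S (T * S), mul_assoc]


end sk2


end Pool.Agent.Helper280.QN.Jcolblock
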