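import Mathlib
import Pool.Agent.Helper280.QN.A

set_option autoImplicit false

namespace Pool.Agent.Helper280.QN.Jcolnull



section sk2
variable {X : Type*} [NormedAddCommGroup X] [NormedSpace ℂ X]

theorem col_null_mul (T : X →L[ℂ] X) (u : X) (g : X →L[ℂ] ℂ) : T * rk u g = rk (T u) g := by
  ext v
  show T (g v • u) = g v • T u
  rw [map_smul]

theorem col_null_w (hd : Dim4 X) (u : X) (g : X →L[ℂ] ℂ) (hg : g ≠ 0) :
    ∃ w : X, g w = 0 ∧ w ∉ Submodule.span ℂ {u} := by
  classical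
  by_contra hcon
  push Not at hcon
  obtain ⟨e', he'⟩ : ∃ e, g e ≠ 0 := by
    by_contra h
    push Not at h
    exact hg (ContinuousLinearMap.ext h)
  obtain ⟨v, hv⟩ := hd
  have hspan : Submodule.span ℂ ((({u, e'} : Finset X) : Set X)) = ⊤ := by
    rw [eq_top_iff]
    intro x _
    have h1 : x - (g x / g e') • e' ∈ Submodule.span ℂ {u} := by
      apply hcon
      rw [map_sub, map_smul, smul_eq_mul, div_mul_cancel₀ _ he', sub_self]
    have h2 : x - (g x / g e') • e' ∈ Submodule.span ℂ ((({u, e'} : Finset X) : Set X)) := by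
      refine Submodule.span_mono ?_ h1
      intro y hy
      rw [Set.mem_singleton_iff] at hy
      subst hy
      simp
    have h3 : (g x / g e') • e' ∈ Submodule.span ℂ ((({u, e'} : Finset X) : Set X)) :=
      Submodule.smul_mem _ _ (Submodule.subset_span (by simp))
    have h4 := Submodule.add_mem _ h2 h3
    rwa [sub_add_cancel] at h4
  have h5 := linearIndependent_le_span_finset v hv _ hspan
  have h6 : ({u, e'} : Finset X).card ≤ 2 := Finset.card_le_two
  have h7 : (Cardinal.mk (Fin 4)) ≤ ((2 : ℕ) : Cardinal) := h5.trans (by exact_mod_cast h6)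
  rw [Cardinal.mk_fin] at h7
  have h8 : (4 : ℕ) ≤ 2 := by exact_mod_cast h7
  omega

theorem col_null_h (u w : X) (hu : u ≠ 0) (hw : w ∉ Submodule.span ℂ {u}) :
    ∃ h : X →L[ℂ] ℂ, h u = 0 ∧ h w = 1 := by
  obtain ⟨f1, hf1⟩ := SeparatingDual.exists_eq_one (R := ℂ) hu
  have hw' : w - f1 w • u ≠ 0 := by
    intro h
    apply hw
    rw [sub_eq_zero.1 h]
    exact Submodule.smul_mem _ _ (Submodule.mem_span_singleton_self u)
  obtain ⟨f2, hf2⟩ := SeparatingDual.exists_eq_one (R := ℂ) hw'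
  refine ⟨f2 - f2 u • f1, ?_, ?_⟩
  · show f2 u - f2 u • f1 u = 0
    rw [hf1, smul_eq_mul, mul_one, sub_self]
  · show f2 w - f2 u • f1 w = 1
    rw [← hf2, map_sub, map_smul, smul_eq_mul, smul_eq_mul]
    ring

theorem col_null (k : Kind) (hd : Dim4 X) (u : X) (g : X →L[ℂ] ℂ) (hu : u ≠ 0) (hg : g ≠ 0)
    (h0 : g u = 0) : ∃ S : X →L[ℂ] X, ∀ T, rel k T S ↔ g (T u) = 0 := by
  have hprod : ∀ T : X →L[ℂ] X, Qn (T * rk u g) ↔ g (T u) = 0 := by
    intro T
    rw [col_null_mul, Qn_rank_one]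
  have hSS : rk u g * rk u g = 0 := by
    rw [col_null_mul]
    ext v
    show g v • (g u • u) = 0
    rw [h0, zero_smul, smul_zero]
  cases k with
  | prod => exact ⟨rk u g, hprod⟩
  | triple =>
    obtain ⟨w, hw1, hw2⟩ := col_null_w hd u g hg
    obtain ⟨h, hh1, hh2⟩ := col_null_h u w hu hw2
    refine ⟨rk u h + rk w g, fun T => ?_⟩
    have hS2 : (rk u h + rk w g) * (rk u h + rk w g) = rk u g := by
      ext v
      show h (h v • u + g v • w) • u + g (h v • u + g v • w) • w = g v • u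
      simp only [map_add, map_smul, hh1, hh2, h0, hw1, smul_eq_mul]
      simp
    show Qn ((rk u h + rk w g) * T * (rk u h + rk w g)) ↔ _
    rw [Qn_mul_comm, ← mul_assoc, hS2, Qn_mul_comm, hprod]
  | jordan =>
    refine ⟨rk u g, fun T => ?_⟩
    show Qn (T * rk u g + rk u g * T) ↔ _
    have := Qn_sq_zero T (rk u g) hSS 1 (Or.inl rfl)
    rw [one_smul] at this
    rw [this, hprod]
  | lie =>
    refine ⟨rk u g, fun T => ?_⟩
    show Qn (T * rk u g - rk u g * T) ↔ _
    have := Qn_sq_zero T (rk u g) hSS (-1) (Or.inr rfl)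
    rw [neg_one_smul, ← sub_eq_add_neg] at this
    rw [this, hprod]


end sk2


end Pool.Agent.Helper280.QN.Jcolnull
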