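import Mathlib
import Pool.Agent.Helper280.QN.Basic

set_option autoImplicit false

namespace Pool.Agent.Helper280.QN.Jgoodpair



section sk1

theorem goodPair_or_exists {X : Type*} [NormedAddCommGroup X] [NormedSpace ℂ X] (hd : Dim4 X)
    (b : Fin 4 → X) (hb : ¬ LinearIndependent ℂ b) :
    ∃ z, z ∉ Submodule.span ℂ (Set.range b) := by
  by_contra hcon
  push Not at hcon
  have htop : (⊤ : Submodule ℂ X) ≤ Submodule.span ℂ (Set.range b) := fun z _ => hcon z
  obtain ⟨v, hv⟩ := hd
  have hfin : Module.Finite ℂ X := by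
    refine ⟨?_⟩
    rw [← top_le_iff.1 htop]
    exact Submodule.fg_span (Set.finite_range b)
  have h4 := hv.fintype_card_le_finrank
  exact hb (linearIndependent_of_top_le_span_of_card_le_finrank htop h4)

theorem goodPair_or_lam {X : Type*} [NormedAddCommGroup X] [NormedSpace ℂ X] (hd : Dim4 X)
    (T : X →L[ℂ] X) (u : X) (hu : LinearIndependent ℂ ![u, T u]) (hno : ∀ v, ¬ GoodPair T u v) :
    ∃ lam : ℂ, ∀ v, T v - lam • v ∈ Submodule.span ℂ {u, T u} := by
  obtain ⟨W, hW⟩ : ∃ W : Submodule ℂ X, W = Submodule.span ℂ {u, T u} := ⟨_, rfl⟩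
  rw [← hW]
  have huW : u ∈ W := by rw [hW]; exact Submodule.subset_span (by simp)
  have hTuW : T u ∈ W := by rw [hW]; exact Submodule.subset_span (by simp)
  have h1 : ∀ v, v ∉ W → ∃ c : ℂ, T v - c • v ∈ W := by
    intro v hv
    by_contra hcon
    push Not at hcon
    apply hno v
    unfold GoodPair
    rw [Fintype.linearIndependent_iff]
    intro g hg
    rw [Fin.sum_univ_four] at hg
    have hg' : g 0 • u + g 1 • v + g 2 • T u + g 3 • T v = 0 := by simpa using hg
    have h3 : g 3 = 0 := by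
      by_contra h3
      apply hcon (-(g 1 / g 3))
      have h4 : T v - (-(g 1 / g 3)) • v = (g 3)⁻¹ • (-(g 0 • u + g 2 • T u)) := by
        have h5 : -(g 0 • u + g 2 • T u) = g 1 • v + g 3 • T v := by
          rw [neg_eq_iff_add_eq_zero, ← hg']
          abel
        rw [h5, smul_add, smul_smul, smul_smul, inv_mul_cancel₀ h3, one_smul, neg_smul,
          sub_neg_eq_add, add_comm, div_eq_inv_mul]
      rw [h4]
      exact W.smul_mem _ (W.neg_mem (W.add_mem (W.smul_mem _ huW) (W.smul_mem _ hTuW)))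
    have h2 : g 1 = 0 := by
      by_contra h2
      apply hv
      have h4 : v = (g 1)⁻¹ • (-(g 0 • u + g 2 • T u)) := by
        have h5 : -(g 0 • u + g 2 • T u) = g 1 • v := by
          rw [neg_eq_iff_add_eq_zero, ← hg', h3, zero_smul]
          abel
        rw [h5, smul_smul, inv_mul_cancel₀ h2, one_smul]
      rw [h4]
      exact W.smul_mem _ (W.neg_mem (W.add_mem (W.smul_mem _ huW) (W.smul_mem _ hTuW)))
    have h6 : g 0 • u + g 2 • T u = 0 := by
      rw [← hg', h3, h2, zero_smul, zero_smul]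
      abel
    obtain ⟨h7, h8⟩ := LinearIndependent.pair_iff.1 hu _ _ h6
    intro i
    fin_cases i
    · exact h7
    · exact h2
    · exact h8
    · exact h3
  have hnot0 : ∀ x : X, ¬ LinearIndependent ℂ ![u, T u, x, 0] := by
    intro x h
    exact h.ne_zero 3 rfl
  obtain ⟨v0, hv0⟩ : ∃ v0, v0 ∉ W := by
    obtain ⟨z, hz⟩ := goodPair_or_exists hd _ (hnot0 0)
    refine ⟨z, fun h => hz ?_⟩
    rw [hW] at h
    refine Submodule.span_mono ?_ h
    rintro y (rfl | rfl)
    · exact ⟨0, rfl⟩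
    · exact ⟨1, rfl⟩
  obtain ⟨c0, hc0⟩ := h1 v0 hv0
  obtain ⟨W1, hW1⟩ : ∃ W1 : Submodule ℂ X, W1 = Submodule.span ℂ {u, T u, v0} := ⟨_, rfl⟩
  have hWW1 : W ≤ W1 := by
    rw [hW, hW1]
    apply Submodule.span_mono
    rintro y (rfl | rfl)
    · simp
    · simp
  have hv0W1 : v0 ∈ W1 := by rw [hW1]; exact Submodule.subset_span (by simp)
  obtain ⟨z, hz⟩ : ∃ z, z ∉ W1 := by
    obtain ⟨z, hz⟩ := goodPair_or_exists hd _ (hnot0 v0)
    refine ⟨z, fun h => hz ?_⟩
    rw [hW1] at h
    refine Submodule.span_mono ?_ h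
    rintro y (rfl | rfl | rfl)
    · exact ⟨0, rfl⟩
    · exact ⟨1, rfl⟩
    · exact ⟨2, rfl⟩
  have hi : ∀ v, v ∉ W1 → T v - c0 • v ∈ W := by
    intro v hv
    obtain ⟨c, hc⟩ := h1 v (fun h => hv (hWW1 h))
    have hvv0 : v + v0 ∉ W := by
      intro h
      apply hv
      have := W1.sub_mem (hWW1 h) hv0W1
      rwa [add_sub_cancel_right] at this
    obtain ⟨c', hc'⟩ := h1 _ hvv0
    have h2 : (c - c') • v + (c0 - c') • v0 ∈ W := by
      have h3 := W.sub_mem (W.sub_mem hc' hc) hc0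
      have h4 : T (v + v0) - c' • (v + v0) - (T v - c • v) - (T v0 - c0 • v0) =
          (c - c') • v + (c0 - c') • v0 := by
        rw [map_add]
        module
      rwa [h4] at h3
    have h5 : c = c' := by
      by_contra hne
      apply hv
      have h6 : c - c' ≠ 0 := sub_ne_zero.2 hne
      have h7 : v = (c - c')⁻¹ • (((c - c') • v + (c0 - c') • v0) - (c0 - c') • v0) := by
        rw [add_sub_cancel_right, smul_smul, inv_mul_cancel₀ h6, one_smul]
      rw [h7]
      exact W1.smul_mem _ (W1.sub_mem (hWW1 h2) (W1.smul_mem _ hv0W1))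
    have h8 : c0 = c' := by
      by_contra hne
      apply hv0
      have h6 : c0 - c' ≠ 0 := sub_ne_zero.2 hne
      rw [h5, sub_self, zero_smul, zero_add] at h2
      have h7 := W.smul_mem (c0 - c')⁻¹ h2
      rwa [smul_smul, inv_mul_cancel₀ h6, one_smul] at h7
    rw [h8, ← h5]
    exact hc
  refine ⟨c0, fun v => ?_⟩
  by_cases hv : v ∈ W1
  · have hvz : v + z ∉ W1 := by
      intro h
      apply hz
      have := W1.sub_mem h hv
      rwa [add_sub_cancel_left] at this
    have h2 := W.sub_mem (hi _ hvz) (hi _ hz)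
    have h3 : T (v + z) - c0 • (v + z) - (T z - c0 • z) = T v - c0 • v := by
      rw [map_add]
      module
    rwa [h3] at h2
  · exact hi v hv

theorem goodPair_or {X : Type*} [NormedAddCommGroup X] [NormedSpace ℂ X] (hd : Dim4 X)
    (T : X →L[ℂ] X) :
    (∃ u v, GoodPair T u v) ∨ ∃ (a : ℂ) (x : X) (f : X →L[ℂ] ℂ), T = a • 1 + rk x f := by
  by_cases hgood : ∃ u v, GoodPair T u v
  · exact Or.inl hgood
  right
  push Not at hgood
  by_cases hsc : ∀ v, ¬ LinearIndependent ℂ ![v, T v]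
  · obtain ⟨a, ha⟩ := LinearMap.exists_eq_smul_id_of_forall_notLinearIndependent
      (f := (T : X →ₗ[ℂ] X)) hsc
    refine ⟨a, 0, 0, ?_⟩
    ext v
    have h1 := LinearMap.congr_fun ha v
    simpa using h1
  push Not at hsc
  obtain ⟨u, hu⟩ := hsc
  obtain ⟨lam, hlam⟩ := goodPair_or_lam hd T u hu (hgood u)
  obtain ⟨W, hW⟩ : ∃ W : Submodule ℂ X, W = Submodule.span ℂ {u, T u} := ⟨_, rfl⟩
  rw [← hW] at hlam
  have huW : u ∈ W := by rw [hW]; exact Submodule.subset_span (by simp)
  -- a vector outside W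
  obtain ⟨w, hw⟩ : ∃ w, w ∉ W := by
    have hnot0 : ¬ LinearIndependent ℂ ![u, T u, 0, 0] := fun h => h.ne_zero 3 rfl
    obtain ⟨z, hz⟩ := goodPair_or_exists hd _ hnot0
    refine ⟨z, fun h => hz ?_⟩
    rw [hW] at h
    refine Submodule.span_mono ?_ h
    rintro y (rfl | rfl)
    · exact ⟨0, rfl⟩
    · exact ⟨1, rfl⟩
  have heig : ∀ x, x ∉ W → ¬ LinearIndependent ℂ ![x, T x] → T x = lam • x := by
    intro x hx hnl
    have hx0 : x ≠ 0 := fun h => hx (h ▸ W.zero_mem)
    rw [LinearIndependent.pair_iff' hx0] at hnl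
    push Not at hnl
    obtain ⟨ν, hν⟩ := hnl
    have h1 := hlam x
    rw [← hν, ← sub_smul] at h1
    have h2 : ν = lam := by
      by_contra hne
      apply hx
      have h3 := W.smul_mem (ν - lam)⁻¹ h1
      rwa [smul_smul, inv_mul_cancel₀ (sub_ne_zero.2 hne), one_smul] at h3
    rw [← hν, h2]
  obtain ⟨u', hu'W, hu'⟩ : ∃ u', u' ∉ W ∧ LinearIndependent ℂ ![u', T u'] := by
    by_cases h1 : LinearIndependent ℂ ![w, T w]
    · exact ⟨w, hw, h1⟩
    · have hwu : w + u ∉ W := by
        intro h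
        apply hw
        have := W.sub_mem h huW
        rwa [add_sub_cancel_right] at this
      refine ⟨w + u, hwu, ?_⟩
      by_contra h2
      have e1 := heig w hw h1
      have e2 := heig (w + u) hwu h2
      rw [map_add, smul_add, e1] at e2
      have e3 : T u = lam • u := add_left_cancel e2
      have hu0 : u ≠ 0 := hu.ne_zero 0
      exact (LinearIndependent.pair_iff' hu0).1 hu lam e3.symm
  obtain ⟨lam', hlam'⟩ := goodPair_or_lam hd T u' hu' (hgood u')
  -- a vector outside the span of the four vectors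
  obtain ⟨z, hz⟩ := goodPair_or_exists hd _ (hgood u u')
  have hsub1 : W ≤ Submodule.span ℂ (Set.range ![u, u', T u, T u']) := by
    rw [hW]
    apply Submodule.span_mono
    rintro y (rfl | rfl)
    · exact ⟨0, rfl⟩
    · exact ⟨2, rfl⟩
  have hsub2 : Submodule.span ℂ {u', T u'} ≤ Submodule.span ℂ (Set.range ![u, u', T u, T u']) := by
    apply Submodule.span_mono
    rintro y (rfl | rfl)
    · exact ⟨1, rfl⟩
    · exact ⟨3, rfl⟩
  have hll : lam = lam' := by
    by_contra hne
    apply hz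
    have h1 := Submodule.sub_mem _ (hsub2 (hlam' z)) (hsub1 (hlam z))
    have h2 : T z - lam' • z - (T z - lam • z) = (lam - lam') • z := by module
    rw [h2] at h1
    have h3 := Submodule.smul_mem _ (lam - lam')⁻¹ h1
    rwa [smul_smul, inv_mul_cancel₀ (sub_ne_zero.2 hne), one_smul] at h3
  rw [← hll] at hlam'
  obtain ⟨r, hr⟩ : ∃ r, r = T u' - lam • u' := ⟨_, rfl⟩
  have hrW : r ∈ W := by rw [hr]; exact hlam u'
  have hr0 : r ≠ 0 := by
    intro h
    rw [hr, sub_eq_zero] at h
    have hu0 : u' ≠ 0 := hu'.ne_zero 0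
    exact (LinearIndependent.pair_iff' hu0).1 hu' lam h.symm
  have hline : ∀ v, ∃ β : ℂ, T v - lam • v = β • r := by
    intro v
    have h1 := hlam' v
    rw [Submodule.mem_span_pair] at h1
    obtain ⟨α, β, hαβ⟩ := h1
    refine ⟨β, ?_⟩
    have h2 : T v - lam • v = (α + β * lam) • u' + β • r := by
      rw [← hαβ, hr]
      module
    have h3 : (α + β * lam) • u' ∈ W := by
      have h4 := W.sub_mem (hlam v) (W.smul_mem β hrW)
      rw [h2, add_sub_cancel_right] at h4
      exact h4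
    have h5 : α + β * lam = 0 := by
      by_contra hne
      apply hu'W
      have h6 := W.smul_mem (α + β * lam)⁻¹ h3
      rwa [smul_smul, inv_mul_cancel₀ hne, one_smul] at h6
    rw [h2, h5, zero_smul, zero_add]
  obtain ⟨g, hg⟩ := SeparatingDual.exists_eq_one (R := ℂ) hr0
  refine ⟨lam, r, g.comp (T - lam • 1), ?_⟩
  ext v
  obtain ⟨β, hβ⟩ := hline v
  have h1 : (g.comp (T - lam • (1 : X →L[ℂ] X))) v = β := by
    have h2 : (g.comp (T - lam • (1 : X →L[ℂ] X))) v = g (T v - lam • v) := rfl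
    rw [h2, hβ, map_smul, hg, smul_eq_mul, mul_one]
  have h3 : (lam • (1 : X →L[ℂ] X) + rk r (g.comp (T - lam • (1 : X →L[ℂ] X)))) v =
      lam • v + (g.comp (T - lam • (1 : X →L[ℂ] X))) v • r := rfl
  rw [h3, h1, ← hβ]
  abel


end sk1


end Pool.Agent.Helper280.QN.Jgoodpair
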