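import Mathlib
import Pool.Agent.Helper280.QN.A

set_option autoImplicit false

namespace Pool.Agent.Helper280.QN



section sk2
variable {X : Type*} [NormedAddCommGroup X] [NormedSpace ℂ X]

theorem rk_mul (x : X) (f : X →L[ℂ] ℂ) (S : X →L[ℂ] X) : rk x f * S = rk x (f.comp S) := by
  ext v
  rfl

theorem mul_rk (x : X) (f : X →L[ℂ] ℂ) (S : X →L[ℂ] X) : S * rk x f = rk (S x) f := by
  ext v
  show S (f v • x) = f v • S x
  rw [map_smul]

theorem lie_rk_eq (x : X) (f : X →L[ℂ] ℂ) (S : X →L[ℂ] X) :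
    rk x f * S - S * rk x f = rk x (f.comp S) + rk (-(S x)) f := by
  rw [rk_mul, mul_rk]
  ext v
  show f (S v) • x - f v • S x = f (S v) • x + f v • (-(S x))
  rw [smul_neg, sub_eq_add_neg]

theorem rel_lie_rk (x : X) (f : X →L[ℂ] ℂ) (S : X →L[ℂ] X) :
    rel Kind.lie (rk x f) S ↔ f (S x) ^ 2 = f x * f (S (S x)) := by
  unfold rel op
  simp only
  rw [lie_rk_eq, Qn_rank_two]
  have e1 : (f.comp S) x = f (S x) := rfl
  have e2 : (f.comp S) (-(S x)) = - f (S (S x)) := by
    rw [map_neg]; rfl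
  rw [e1, e2, map_neg]
  constructor
  · rintro ⟨_, h⟩
    linear_combination -h
  · intro h
    refine ⟨by ring, ?_⟩
    linear_combination -h

theorem rel_rk (k : Kind) (x : X) (f : X →L[ℂ] ℂ) (h : f x = 0) (S : X →L[ℂ] X) :
    rel k (rk x f) S ↔ f (sq k S x) = 0 := by
  cases k with
  | prod =>
    unfold rel op sq
    simp only
    rw [rk_mul, Qn_rank_one]
    rfl
  | triple =>
    unfold rel op sq
    simp only
    rw [mul_rk, rk_mul, Qn_rank_one]
    rfl
  | jordan =>
    unfold rel op sq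
    simp only
    rw [rk_mul, mul_rk, Qn_rank_two]
    have e1 : (f.comp S) x = f (S x) := rfl
    rw [e1, h, mul_zero, sub_zero]
    constructor
    · rintro ⟨h1, _⟩
      linear_combination (1 / 2 : ℂ) * h1
    · intro h1
      rw [h1]
      simp
  | lie =>
    rw [rel_lie_rk, h, zero_mul]
    exact pow_eq_zero_iff (by norm_num)

theorem op_lie_add (T S : X →L[ℂ] X) (c d : ℂ) :
    op Kind.lie (T + c • 1) (S + d • 1) = op Kind.lie T S := by
  unfold op
  simp only [add_mul, mul_add, smul_mul_assoc, mul_smul_comm, one_mul, mul_one, smul_add,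
    smul_smul]
  rw [mul_comm c d]
  abel

theorem rel_lie_add (T S : X →L[ℂ] X) (c d : ℂ) :
    rel Kind.lie (T + c • 1) (S + d • 1) ↔ rel Kind.lie T S := by
  unfold rel
  rw [op_lie_add]

theorem rel_N1 (k : Kind) (x : X) (f : X →L[ℂ] ℂ) (d : ℂ) (h : f x = 0)
    (hd : k ≠ Kind.lie → d = 0) (S : X →L[ℂ] X) :
    rel k (rk x f + d • 1) S ↔ f (sq k S x) = 0 := by
  by_cases hk : k = Kind.lie
  · subst hk
    have := rel_lie_add (rk x f) S d 0
    rw [zero_smul, add_zero] at this
    rw [this]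
    exact rel_rk Kind.lie x f h S
  · rw [hd hk, zero_smul, add_zero]
    exact rel_rk k x f h S

theorem rel_self (k : Kind) (hk : k ≠ Kind.lie) (T : X →L[ℂ] X) : rel k T T ↔ Qn T := by
  cases k with
  | prod =>
    unfold rel op
    simp only
    rw [← pow_two]
    exact Qn_pow_iff T (by norm_num)
  | triple =>
    unfold rel op
    simp only
    rw [← pow_two, ← pow_succ]
    exact Qn_pow_iff T (by norm_num)
  | jordan =>
    unfold rel op
    simp only
    rw [← two_smul ℂ, ← pow_two, Qn_smul_iff (by norm_num)]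
    exact Qn_pow_iff T (by norm_num)
  | lie => exact absurd rfl hk

theorem rel_lie_self (T : X →L[ℂ] X) : rel Kind.lie T T := by
  unfold rel op
  simp only
  rw [sub_self]
  exact Qn_zero

theorem rel_zero_left (k : Kind) (S : X →L[ℂ] X) : rel k 0 S := by
  have h : op k 0 S = 0 := by
    cases k <;> simp [op]
  unfold rel
  rw [h]
  exact Qn_zero

theorem rel_idem_jordan (u : X) (g : X →L[ℂ] ℂ) (h : g u = 1) (A : X →L[ℂ] X) :
    rel Kind.jordan A (rk u g) ↔ g (A u) = 0 ∧ g (A (A u)) = 0 := by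
  unfold rel op
  simp only
  rw [rk_mul, mul_rk, Qn_rank_two]
  have e1 : ∀ v, (g.comp A) v = g (A v) := fun v => rfl
  rw [e1, e1, h, one_mul]
  constructor
  · rintro ⟨h1, h2⟩
    have h3 : g (A u) = 0 := by linear_combination (1 / 2 : ℂ) * h1
    refine ⟨h3, ?_⟩
    rw [h3] at h2
    linear_combination -h2
  · rintro ⟨h1, h2⟩
    rw [h1, h2]
    simp

theorem rel_idem (k : Kind) (hk : k = Kind.prod ∨ k = Kind.triple) (u : X) (g : X →L[ℂ] ℂ)
    (h : g u = 1) (A : X →L[ℂ] X) : rel k A (rk u g) ↔ g (A u) = 0 := by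
  rcases hk with rfl | rfl
  · unfold rel op
    simp only
    rw [mul_rk, Qn_rank_one]
  · unfold rel op
    simp only
    rw [rk_mul, mul_rk, Qn_rank_one]
    have e : (rk u (g.comp A)) u = g (A u) • u := rfl
    rw [e, map_smul, h, smul_eq_mul, mul_one]

theorem rel_idem_ne (k : Kind) (hk : k ≠ Kind.lie) (u : X) (g : X →L[ℂ] ℂ) (h : g u = 1)
    (A : X →L[ℂ] X) (hA : rel k A (rk u g)) : g (A u) = 0 := by
  cases k with
  | prod => exact (rel_idem Kind.prod (Or.inl rfl) u g h A).1 hA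
  | triple => exact (rel_idem Kind.triple (Or.inr rfl) u g h A).1 hA
  | jordan => exact ((rel_idem_jordan u g h A).1 hA).1
  | lie => exact absurd rfl hk

theorem rel_lie_comb (T S : X →L[ℂ] X) (a b : ℂ) (hb : b ≠ 0) :
    rel Kind.lie (a • 1 + b • T) S ↔ rel Kind.lie T S := by
  have e : op Kind.lie (a • 1 + b • T) S = b • op Kind.lie T S := by
    unfold op
    simp only [add_mul, mul_add, smul_mul_assoc, mul_smul_comm, one_mul, mul_one, smul_sub]
    abel
  unfold rel
  rw [e, Qn_smul_iff hb]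

theorem rel_lie_scalar (S : X →L[ℂ] X) (a : ℂ) : rel Kind.lie (a • 1) S := by
  have e : op Kind.lie (a • (1 : X →L[ℂ] X)) S = 0 := by
    unfold op
    simp
  unfold rel
  rw [e]
  exact Qn_zero


end sk2


end Pool.Agent.Helper280.QN
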