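import Mathlib
import Pool.Agent.Helper280.QN.Basic

set_option autoImplicit false

namespace Pool.Agent.Helper280.QN

section tools
variable {X : Type*} [NormedAddCommGroup X] [NormedSpace ℂ X]

/-- A continuous functional with prescribed values on a finite independent family. -/
theorem dual_vals {n : ℕ} {w : Fin n → X} (hw : LinearIndependent ℂ w) (c : Fin n → ℂ) :
    ∃ f : X →L[ℂ] ℂ, ∀ i, f (w i) = c i := by
  let b := Module.Basis.span hw
  have : FiniteDimensional ℂ (Submodule.span ℂ (Set.range w)) :=
    FiniteDimensional.span_of_finite ℂ (Set.finite_range w)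
  let l : Submodule.span ℂ (Set.range w) →ₗ[ℂ] ℂ := b.constr ℂ c
  obtain ⟨g, hg, _⟩ := exists_extension_norm_eq (Submodule.span ℂ (Set.range w))
    (LinearMap.toContinuousLinearMap l)
  refine ⟨g, fun i => ?_⟩
  have h1 := hg (b i)
  have h2 : ((b i : Submodule.span ℂ (Set.range w)) : X) = w i :=
    congrArg Subtype.val (Module.Basis.span_apply hw i)
  rw [h2] at h1
  rw [h1]
  change l (b i) = c i
  exact Module.Basis.constr_basis b ℂ c i

/-- A vector with prescribed values of a finite independent family of functionals. -/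
theorem vals_dual {n : ℕ} {f : Fin n → (X →L[ℂ] ℂ)} (hf : LinearIndependent ℂ f)
    (c : Fin n → ℂ) : ∃ x : X, ∀ i, f i x = c i := by
  let L : X →ₗ[ℂ] (Fin n → ℂ) := LinearMap.pi (fun i => (f i : X →ₗ[ℂ] ℂ))
  have hL : ∀ x i, L x i = f i x := fun x i => rfl
  have hsurj : Function.Surjective L := by
    rw [← LinearMap.range_eq_top]
    by_contra hne
    obtain ⟨φ, hφ0, hφ⟩ := Submodule.exists_le_ker_of_lt_top _ (lt_top_iff_ne_top.2 hne)
    apply hφ0
    have h1 : ∀ x, φ (L x) = 0 := fun x => hφ ⟨x, rfl⟩
    let a : Fin n → ℂ := fun i => φ (Pi.single i 1)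
    have h2 : ∀ v : Fin n → ℂ, φ v = ∑ i, v i * a i := by
      intro v
      conv_lhs => rw [pi_eq_sum_univ' v]
      rw [map_sum]
      refine Finset.sum_congr rfl fun i _ => ?_
      rw [map_smul, smul_eq_mul]
    have h3 : ∑ i, a i • f i = 0 := by
      ext x
      have := h1 x
      rw [h2] at this
      simp only [hL] at this
      simpa [mul_comm] using this
    have h4 := Fintype.linearIndependent_iff.1 hf a h3
    ext i
    simpa using h4 i
  obtain ⟨x, hx⟩ := hsurj c
  exact ⟨x, fun i => by rw [← hL, hx]⟩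

end tools

end Pool.Agent.Helper280.QN
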