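import Mathlib
import Pool.Agent.Helper280.QN.Rel
import Pool.Agent.Helper280.QN.Tools

set_option autoImplicit false

namespace Pool.Agent.Helper280.QN.Jkill

variable {X : Type*} [NormedAddCommGroup X] [NormedSpace ℂ X]

/-- the functionals used for the product and the triple product -/
theorem kill_aux (T : X →L[ℂ] X) (u v : X) (h : GoodPair T u v) :
    ∃ k1 k2 : X →L[ℂ] ℂ, k1 u = 1 ∧ k1 v = 0 ∧ k2 u = 0 ∧ k2 v = 1 ∧
      k1 (T u) = 1 ∧ k1 (T v) = 0 ∧ k2 (T u) = 0 ∧ k2 (T v) = 0 := by
  obtain ⟨k1, h1⟩ := dual_vals h ![1, 0, 1, 0]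
  obtain ⟨k2, h2⟩ := dual_vals h ![0, 1, 0, 0]
  exact ⟨k1, k2, h1 0, h1 1, h2 0, h2 1, h1 2, h1 3, h2 2, h2 3⟩

theorem kill_prod (T : X →L[ℂ] X) (u v : X) (k1 k2 : X →L[ℂ] ℂ)
    (h1 : k1 u = 1) (h2 : k1 v = 0) (h3 : k2 u = 0) (h4 : k2 v = 1)
    (h5 : k1 (T u) = 1) (h6 : k1 (T v) = 0) (h7 : k2 (T u) = 0) (h8 : k2 (T v) = 0)
    (a b : ℂ) (h : Qn ((a • 1 + b • T) * (rk u k1 - rk v k2))) : a = 0 ∧ b = 0 := by
  have e : (a • 1 + b • T) * (rk u k1 - rk v k2) =
      rk (a • u + b • T u) k1 + rk (a • v + b • T v) (-k2) := by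
    ext w
    simp [smul_smul]
    module
  rw [e, Qn_rank_two] at h
  obtain ⟨p, q⟩ := h
  simp [h1, h2, h3, h4, h5, h6, h7, h8] at p q
  subst p
  simp at q
  exact ⟨q, rfl⟩

theorem kill_scalar (k : Kind) (hk : k ≠ Kind.lie) (T : X →L[ℂ] X) (u v : X)
    (h : GoodPair T u v) :
    ∃ S : X →L[ℂ] X, ∀ a b : ℂ, rel k (a • 1 + b • T) S → a = 0 ∧ b = 0 := by
  cases k
  · obtain ⟨k1, k2, h1, h2, h3, h4, h5, h6, h7, h8⟩ := kill_aux T u v h
    exact ⟨rk u k1 - rk v k2, fun a b hab => kill_prod T u v k1 k2 h1 h2 h3 h4 h5 h6 h7 h8 a b hab⟩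
  · obtain ⟨k1, k2, h1, h2, h3, h4, h5, h6, h7, h8⟩ := kill_aux T u v h
    refine ⟨rk u k1 + Complex.I • rk v k2, fun a b hab => ?_⟩
    refine kill_prod T u v k1 k2 h1 h2 h3 h4 h5 h6 h7 h8 a b ?_
    have e : (rk u k1 + Complex.I • rk v k2) * (rk u k1 + Complex.I • rk v k2) =
        rk u k1 - rk v k2 := by
      ext w
      simp only [mul_apply_eq_comp, add_apply, smul_apply, rk_apply, sub_apply, map_add, map_smul,
        h1, h2, h3, h4]
      simp only [mul_one, mul_zero, smul_smul]
      have e1 : (Complex.I * k2 w) • ((0 : ℂ) • u + Complex.I • v) =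
          (Complex.I * Complex.I * k2 w) • v := by
        rw [zero_smul, zero_add, smul_smul]
        congr 1
        ring
      rw [e1, Complex.I_mul_I]
      module
    have h9 : Qn ((rk u k1 + Complex.I • rk v k2) * (a • 1 + b • T) *
        (rk u k1 + Complex.I • rk v k2)) := hab
    rw [mul_assoc, Qn_mul_comm, mul_assoc, e] at h9
    exact h9
  · -- Jordan product
    have hu : LinearIndependent ℂ ![u, T u] := by
      have := h.comp (![0, 2] : Fin 2 → Fin 4) (by intro i j; fin_cases i <;> fin_cases j <;> simp)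
      convert this using 1
      ext i
      fin_cases i <;> rfl
    have key : ∃ κ : X →L[ℂ] ℂ, κ u = 1 ∧ κ (T (T u)) ≠ (κ (T u)) ^ 2 := by
      by_cases hd : ∃ p q : ℂ, T (T u) = p • u + q • T u
      · obtain ⟨p, q, hpq⟩ := hd
        obtain ⟨z, hz⟩ : ∃ z : ℂ, p + q * z ≠ z ^ 2 := by
          by_contra hcon
          push Not at hcon
          have a0 := hcon 0
          have a1 := hcon 1
          have a2 := hcon (-1)
          have : (2 : ℂ) * p = 2 := by linear_combination a1 + a2
          have hp : p = 1 := by linear_combination this / 2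
          rw [hp] at a0
          simp at a0
        obtain ⟨κ, hκ⟩ := dual_vals hu ![1, z]
        refine ⟨κ, hκ 0, ?_⟩
        have e1 : κ (T u) = z := hκ 1
        have e0 : κ u = 1 := hκ 0
        rw [hpq, map_add, map_smul, map_smul, e1, e0, smul_eq_mul, smul_eq_mul, mul_one]
        exact hz
      · have hli : LinearIndependent ℂ ![u, T u, T (T u)] := by
          rw [Fintype.linearIndependent_iff]
          intro g hg
          simp only [Fin.sum_univ_three] at hg
          have hg' : g 0 • u + g 1 • T u + g 2 • T (T u) = 0 := hg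
          have h2 : g 2 = 0 := by
            by_contra h2
            apply hd
            refine ⟨-(g 0 / g 2), -(g 1 / g 2), ?_⟩
            have : T (T u) = (g 2)⁻¹ • (g 2 • T (T u)) := by
              rw [smul_smul, inv_mul_cancel₀ h2, one_smul]
            rw [this]
            have e3 : g 2 • T (T u) = -(g 0 • u) - g 1 • T u := by
              rw [← sub_eq_zero]
              rw [← hg']
              abel
            rw [e3]
            module
          rw [h2, zero_smul, add_zero] at hg'
          rw [LinearIndependent.pair_iff] at hu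
          have := hu _ _ hg'
          intro i
          fin_cases i
          · exact this.1
          · exact this.2
          · exact h2
        obtain ⟨κ, hκ⟩ := dual_vals hli ![1, 0, 1]
        refine ⟨κ, hκ 0, ?_⟩
        have e1 : κ (T u) = 0 := hκ 1
        have e2 : κ (T (T u)) = 1 := hκ 2
        rw [e1, e2]
        simp
    obtain ⟨κ, hκ1, hκ2⟩ := key
    refine ⟨rk u κ, fun a b hab => ?_⟩
    rw [rel_idem_jordan u κ hκ1] at hab
    obtain ⟨p, q⟩ := hab
    simp [hκ1] at p q
    have hb : b = 0 := by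
      have : b ^ 2 * (κ (T (T u)) - (κ (T u)) ^ 2) = 0 := by
        linear_combination q - (a + b * κ (T u)) * p
      rcases mul_eq_zero.1 this with h | h
      · simpa using h
      · exact absurd (sub_eq_zero.1 h) hκ2
    subst hb
    simp at p
    exact ⟨p, rfl⟩
  · exact absurd rfl hk

end Pool.Agent.Helper280.QN.Jkill
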