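import Mathlib
import Pool.Agent.Helper280.QN.A

set_option autoImplicit false

namespace Pool.Agent.Helper280.QN.Jliecase1



section sk2
variable {X : Type*} [NormedAddCommGroup X] [NormedSpace ℂ X]

theorem nil15157 (m c : M2) : Nil2 (m * c) ↔
    (m 0 0 * c 0 0 + m 0 1 * c 1 0) + (m 1 0 * c 0 1 + m 1 1 * c 1 1) = 0 ∧
    (m 0 0 * c 0 0 + m 0 1 * c 1 0) * (m 1 0 * c 0 1 + m 1 1 * c 1 1) -
      (m 0 0 * c 0 1 + m 0 1 * c 1 1) * (m 1 0 * c 0 0 + m 1 1 * c 1 0) = 0 := by
  unfold Nil2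
  rw [Matrix.trace_fin_two, Matrix.det_fin_two]
  simp only [Matrix.mul_apply, Fin.sum_univ_two]

theorem no3_15157 (hd : Dim4 X) (a b c : X) (h : ∀ v : X, v ∈ Submodule.span ℂ (Set.range ![a, b, c])) : False := by
  obtain ⟨v, hv⟩ := hd
  have htop : Submodule.span ℂ (Set.range ![a, b, c]) = ⊤ := by
    rw [eq_top_iff]
    intro w _
    exact h w
  have hfin : Module.Finite ℂ X := ⟨⟨(Set.finite_range ![a, b, c]).toFinset, by
    rw [Set.Finite.coe_toFinset]
    exact htop⟩⟩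
  have h1 : Module.finrank ℂ X ≤ 3 := by
    rw [← finrank_top ℂ X, ← htop]
    have := finrank_range_le_card (R := ℂ) (b := ![a, b, c])
    rw [Fintype.card_fin] at this
    exact this
  have h2 := hv.fintype_card_le_finrank
  rw [Fintype.card_fin] at h2
  omega

theorem dual15157 (f g : X →L[ℂ] ℂ) (h : LinearIndependent ℂ ![f, g]) : ∃ a, f a = 1 ∧ g a = 0 := by
  have hg : g ≠ 0 := h.ne_zero 1
  obtain ⟨b, hb⟩ : ∃ b, g b ≠ 0 := by
    by_contra hc
    push Not at hc
    exact hg (ContinuousLinearMap.ext hc)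
  have hex : ∃ a, f a ≠ 0 ∧ g a = 0 := by
    by_contra hc
    push Not at hc
    have h1 : ∀ v, f v = (f b / g b) * g v := by
      intro v
      by_contra hne
      apply hc (v - (g v / g b) • b)
      · rw [map_sub, map_smul, smul_eq_mul]
        intro h0
        apply hne
        rw [sub_eq_zero.mp h0]
        ring
      · rw [map_sub, map_smul, smul_eq_mul]
        field_simp
        ring
    rw [LinearIndependent.pair_iff] at h
    have h2 := h 1 (-(f b / g b)) (by
      ext v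
      simp [h1 v])
    exact one_ne_zero h2.1
  obtain ⟨a, ha1, ha2⟩ := hex
  exact ⟨(f a)⁻¹ • a, by rw [map_smul, smul_eq_mul, inv_mul_cancel₀ ha1], by rw [map_smul, ha2, smul_zero]⟩

theorem ext15157 (b : Fin 4 → X) (hb : LinearIndependent ℂ b) (c : Fin 4 → ℂ) :
    ∃ φ : X →L[ℂ] ℂ, ∀ i, φ (b i) = c i := by
  let B := Module.Basis.span hb
  have : FiniteDimensional ℂ (Submodule.span ℂ (Set.range b)) := Module.Basis.finiteDimensional_of_finite B
  let ψ : Submodule.span ℂ (Set.range b) →ₗ[ℂ] ℂ := B.constr ℂ c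
  obtain ⟨φ, hφ, -⟩ := exists_extension_norm_eq (Submodule.span ℂ (Set.range b)) (LinearMap.toContinuousLinearMap ψ)
  refine ⟨φ, fun i => ?_⟩
  have h1 : ((B i : Submodule.span ℂ (Set.range b)) : X) = b i :=
    congrArg Subtype.val (Module.Basis.span_apply hb i)
  rw [← h1, hφ]
  exact B.constr_basis ℂ c i

/-- the null block -/
theorem block15157 (hd : Dim4 X) (x y : X) (f g : X →L[ℂ] ℂ)
    (hxy : LinearIndependent ℂ ![x, y]) (hfg : LinearIndependent ℂ ![f, g]) :
    ∃ (u : Fin 2 → X) (γ : Fin 2 → (X →L[ℂ] ℂ)), LinearIndependent ℂ u ∧ LinearIndependent ℂ γ ∧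
      (∀ i j, γ i (u j) = 0) ∧ CC u γ (rk x f) = !![1, 0; 0, 0] ∧ CC u γ (rk y g) = !![0, 0; 0, 1] := by
  obtain ⟨a0, hf0, hg0⟩ := dual15157 f g hfg
  obtain ⟨a1, hg1, hf1⟩ := dual15157 g f (LinearIndependent.pair_symm_iff.mp hfg)
  have hmem3 : ∀ a b c : X, a ∈ Submodule.span ℂ (Set.range ![a, b, c]) ∧
      b ∈ Submodule.span ℂ (Set.range ![a, b, c]) ∧ c ∈ Submodule.span ℂ (Set.range ![a, b, c]) := by
    intro a b c
    exact ⟨Submodule.subset_span ⟨0, rfl⟩, Submodule.subset_span ⟨1, rfl⟩, Submodule.subset_span ⟨2, rfl⟩⟩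
  -- first vector
  obtain ⟨k0, hk0f, hk0g, hk0⟩ : ∃ k, f k = 0 ∧ g k = 0 ∧ a0 + k ∉ Submodule.span ℂ (Set.range ![x, y]) := by
    by_contra hc
    push Not at hc
    have h0 := hc 0 (map_zero f) (map_zero g)
    rw [add_zero] at h0
    have hle : Submodule.span ℂ (Set.range ![x, y]) ≤ Submodule.span ℂ (Set.range ![a1, x, y]) := by
      apply Submodule.span_mono
      rintro _ ⟨i, rfl⟩
      fin_cases i
      · exact ⟨1, rfl⟩
      · exact ⟨2, rfl⟩
    apply no3_15157 hd a1 x y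
    intro v
    have h1 := hc (v - f v • a0 - g v • a1) (by simp [hf0, hf1]) (by simp [hg0, hg1])
    have h2 := Submodule.sub_mem _ h1 h0
    have e : v = (a0 + (v - f v • a0 - g v • a1) - a0) + f v • a0 + g v • a1 := by abel
    rw [e]
    apply Submodule.add_mem
    · apply Submodule.add_mem
      · exact hle h2
      · exact Submodule.smul_mem _ _ (hle h0)
    · exact Submodule.smul_mem _ _ (hmem3 a1 x y).1
  set u0 := a0 + k0 with hu0
  have hfu0 : f u0 = 1 := by rw [hu0, map_add, hf0, hk0f, add_zero]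
  have hgu0 : g u0 = 0 := by rw [hu0, map_add, hg0, hk0g, add_zero]
  obtain ⟨k1, hk1f, hk1g, hk1⟩ : ∃ k, f k = 0 ∧ g k = 0 ∧ a1 + k ∉ Submodule.span ℂ (Set.range ![u0, x, y]) := by
    by_contra hc
    push Not at hc
    have h0 := hc 0 (map_zero f) (map_zero g)
    rw [add_zero] at h0
    apply no3_15157 hd u0 x y
    intro v
    have h1 := hc (v - f v • u0 - g v • a1) (by simp [hfu0, hf1]) (by simp [hgu0, hg1])
    have h2 := Submodule.sub_mem _ h1 h0
    have e : v = (a1 + (v - f v • u0 - g v • a1) - a1) + f v • u0 + g v • a1 := by abel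
    rw [e]
    apply Submodule.add_mem
    · apply Submodule.add_mem
      · exact h2
      · exact Submodule.smul_mem _ _ (hmem3 u0 x y).1
    · exact Submodule.smul_mem _ _ h0
  set u1 := a1 + k1 with hu1
  have hfu1 : f u1 = 0 := by rw [hu1, map_add, hf1, hk1f, add_zero]
  have hgu1 : g u1 = 1 := by rw [hu1, map_add, hg1, hk1g, add_zero]
  have hli3 : LinearIndependent ℂ ![u0, x, y] := linearIndependent_finCons.mpr ⟨hxy, hk0⟩
  have hli4 : LinearIndependent ℂ ![u1, u0, x, y] := linearIndependent_finCons.mpr ⟨hli3, hk1⟩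
  obtain ⟨γ0, hγ0⟩ := ext15157 _ hli4 ![0, 0, 1, 0]
  obtain ⟨γ1, hγ1⟩ := ext15157 _ hli4 ![0, 0, 0, 1]
  have e00 : γ0 u1 = 0 := hγ0 0
  have e01 : γ0 u0 = 0 := hγ0 1
  have e02 : γ0 x = 1 := hγ0 2
  have e03 : γ0 y = 0 := hγ0 3
  have e10 : γ1 u1 = 0 := hγ1 0
  have e11 : γ1 u0 = 0 := hγ1 1
  have e12 : γ1 x = 0 := hγ1 2
  have e13 : γ1 y = 1 := hγ1 3
  refine ⟨![u0, u1], ![γ0, γ1], ?_, ?_, ?_, ?_, ?_⟩
  · rw [LinearIndependent.pair_iff]
    intro s t hst
    have h1 := congrArg f hst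
    have h2 := congrArg g hst
    rw [map_add, map_smul, map_smul, hfu0, hfu1, map_zero] at h1
    rw [map_add, map_smul, map_smul, hgu0, hgu1, map_zero] at h2
    constructor
    · simpa using h1
    · simpa using h2
  · rw [LinearIndependent.pair_iff]
    intro s t hst
    have h1 := congrArg (fun φ : X →L[ℂ] ℂ => φ x) hst
    have h2 := congrArg (fun φ : X →L[ℂ] ℂ => φ y) hst
    constructor
    · simpa [e02, e12] using h1
    · simpa [e03, e13] using h2
  · intro i j
    fin_cases i <;> fin_cases j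
    · exact e01
    · exact e00
    · exact e11
    · exact e10
  · ext i j
    fin_cases i <;> fin_cases j <;> simp [CC, e02, e12, hfu0, hfu1]
  · ext i j
    fin_cases i <;> fin_cases j <;> simp [CC, e03, e13, hgu0, hgu1]

theorem lie_case1 (hcol : ∀ (u : Fin 2 → X) (g : Fin 2 → (X →L[ℂ] ℂ)),
      LinearIndependent ℂ u → LinearIndependent ℂ g → (∀ i j, g i (u j) = 0) →
      ∀ c : M2, ∃ S : X →L[ℂ] X, ∀ T, rel Kind.lie T S ↔ Nil2 (CC u g T * c))
    (hd : Dim4 X) (x y : X) (f g : X →L[ℂ] ℂ) (hP : Pair Kind.lie (rk x f) (rk y g))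
    (hxy : LinearIndependent ℂ ![x, y]) (hfg : LinearIndependent ℂ ![f, g]) : False := by
  obtain ⟨u, γ, hu, hγ, huγ, hT1, hT2⟩ := block15157 hd x y f g hxy hfg
  have hcol' := hcol u γ hu hγ huγ
  -- properties of the closure
  have hCl : ∀ A, Cl Kind.lie (rk x f) (rk y g) A → CC u γ A 1 0 = 0 ∧ CC u γ A 0 1 = 0 ∧
      CC u γ A 0 0 * CC u γ A 1 1 = 0 := by
    intro A hA
    have h1 : ∀ c : M2, c 0 0 = 0 → c 1 1 = 0 → Nil2 (CC u γ A * c) := by
      intro c h00 h11
      obtain ⟨S, hS⟩ := hcol' c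
      rw [← hS]
      apply hA.2
      · rw [hS, hT1, nil15157]
        simp [h00]
      · rw [hS, hT2, nil15157]
        simp [h11]
    have c1 := ((nil15157 _ _).mp (h1 !![0, 1; 0, 0] (by simp) (by simp))).1
    have c2 := ((nil15157 _ _).mp (h1 !![0, 0; 1, 0] (by simp) (by simp))).1
    have c3 := ((nil15157 _ _).mp (h1 !![0, 1; 1, 0] (by simp) (by simp))).2
    simp at c1 c2
    simp only [Matrix.of_apply, Matrix.cons_val_zero,
      Matrix.cons_val_one, Matrix.cons_val', Matrix.cons_val_fin_one, mul_zero, mul_one, zero_add, add_zero] at c3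
    refine ⟨c1, c2, ?_⟩
    rw [c1, c2] at c3
    linear_combination -c3
  obtain ⟨S1, hS1⟩ := hcol' !![1, 1; 1, 1]
  obtain ⟨A, hA, hAS⟩ := hP.E S1
  obtain ⟨a1, a2, a3⟩ := hCl A hA
  rw [hS1, nil15157] at hAS
  have htr := hAS.1
  have hA0 : CC u γ A = 0 := by
    rw [a1, a2] at htr
    simp at htr
    have h4 : CC u γ A 0 0 = 0 ∧ CC u γ A 1 1 = 0 := by
      rcases mul_eq_zero.mp a3 with h | h
      · refine ⟨h, ?_⟩
        rw [h] at htr
        simpa using htr
      · refine ⟨?_, h⟩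
        rw [h] at htr
        simpa using htr
    ext i j
    fin_cases i <;> fin_cases j
    · exact h4.1
    · exact a2
    · exact a1
    · exact h4.2
  have hnil0 : ∀ c : M2, Nil2 (CC u γ A * c) := by
    intro c
    rw [hA0, nil15157]
    simp
  obtain ⟨S2, hS2⟩ := hcol' !![0, 0; 0, 1]
  obtain ⟨S3, hS3⟩ := hcol' 1
  have hC1 : Cl Kind.lie (rk x f) (rk y g) (rk x f) := ⟨hP.n1, fun S h _ => h⟩
  have hC2 : Cl Kind.lie (rk x f) (rk y g) (rk y g) := ⟨hP.n2, fun S _ h => h⟩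
  have hne : ¬ RowEq Kind.lie (rk x f) A := by
    intro hr
    have h1 : rel Kind.lie A S3 := (hS3 A).mpr (hnil0 1)
    have h2 := (hS3 _).mp ((hr S3).mpr h1)
    rw [hT1, nil15157] at h2
    have h3 := h2.1
    simp at h3
  have h5 := hP.U S2 (rk x f) A hC1 hA hne (by
    rw [hS2, hT1, nil15157]
    simp) ((hS2 A).mpr (hnil0 _)) (rk y g) hC2
  rw [hS2, hT2, nil15157] at h5
  have h6 := h5.1
  simp at h6


end sk2


end Pool.Agent.Helper280.QN.Jliecase1
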