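import Mathlib
import Pool.Agent.Helper280.QN.A

set_option autoImplicit false

namespace Pool.Agent.Helper280.QN.Jliecase2



section sk2
variable {X : Type*} [NormedAddCommGroup X] [NormedSpace ℂ X]

theorem lie_case2 (hrel : ∀ (d : ℂ) (x : X) (f : X →L[ℂ] ℂ) (S : X →L[ℂ] X),
      rel Kind.lie (d • 1 + rk x f) S ↔ f (S x) ^ 2 = f x * f (S (S x)))
    (x : X) (f g : X →L[ℂ] ℂ)
    (hcl : ∀ A, Cl Kind.lie (rk x f) (rk x g) A → ∃ a b d : ℂ, A = d • 1 + rk x (a • f + b • g))
    (hP : Pair Kind.lie (rk x f) (rk x g))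
    (hfg : LinearIndependent ℂ ![f, g]) (hfx : f x ≠ 0) : False := by
  have h0def : ∃ h0 : X →L[ℂ] ℂ, h0 = g x • f - f x • g := ⟨_, rfl⟩
  obtain ⟨h0, hh0⟩ := h0def
  have h0x : h0 x = 0 := by
    rw [hh0]
    simp only [sub_apply, smul_apply, smul_eq_mul]
    ring
  have h0ne : h0 ≠ 0 := by
    intro hz
    rw [hh0] at hz
    have := Fintype.linearIndependent_iff.mp hfg ![g x, - f x] (by
      simp only [Fin.sum_univ_two, Matrix.cons_val_zero, Matrix.cons_val_one]
      rw [neg_smul, ← sub_eq_add_neg]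
      exact hz) 1
    simp only [Matrix.cons_val_one, Matrix.cons_val_zero, neg_eq_zero] at this
    exact hfx this
  obtain ⟨y, hy⟩ : ∃ y, h0 y ≠ 0 := by
    by_contra hcon
    push Not at hcon
    exact h0ne (ContinuousLinearMap.ext hcon)
  set f' : X →L[ℂ] ℂ := (f x)⁻¹ • f with hf'
  have f'x : f' x = 1 := by
    rw [hf', smul_apply, smul_eq_mul, inv_mul_cancel₀ hfx]
  set v : X := (h0 y)⁻¹ • (y - f' y • x) with hv
  have f'v : f' v = 0 := by
    rw [hv, map_smul, map_sub, map_smul, f'x]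
    simp
  have h0v : h0 v = 1 := by
    rw [hv, map_smul, map_sub, map_smul, h0x]
    simp [hy]
  let S : ℂ → ℂ → (X →L[ℂ] X) := fun c d => rk v f' + rk (c • x + d • v) h0
  have hSx : ∀ c d, S c d x = v := by
    intro c d
    change f' x • v + h0 x • (c • x + d • v) = v
    rw [f'x, h0x, one_smul, zero_smul, add_zero]
  have hSv : ∀ c d, S c d v = c • x + d • v := by
    intro c d
    change f' v • v + h0 v • (c • x + d • v) = _
    rw [f'v, h0v, one_smul, zero_smul, zero_add]
  have hgeq : ∀ z, g z = (g x * f' z) - (f x)⁻¹ * h0 z := by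
    intro z
    rw [hh0, hf']
    simp only [sub_apply, smul_apply, smul_eq_mul]
    field_simp
    ring
  have hfeq : ∀ z, f z = f x * f' z := by
    intro z
    rw [hf', smul_apply, smul_eq_mul, mul_inv_cancel_left₀ hfx]
  have hform : ∀ A, Cl Kind.lie (rk x f) (rk x g) A → ∃ α β : ℂ, (α ≠ 0 ∨ β ≠ 0) ∧
      ∀ c d, rel Kind.lie A (S c d) ↔ β ^ 2 = α * (α * c + β * d) := by
    intro A hA
    obtain ⟨a, b, e, rfl⟩ := hcl A hA
    have hh : ∀ z, (a • f + b • g) z = (a * f x + b * g x) * f' z + (-(b * (f x)⁻¹)) * h0 z := by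
      intro z
      simp only [add_apply, smul_apply, smul_eq_mul]
      rw [hgeq z, hfeq z]
      ring
    refine ⟨a * f x + b * g x, -(b * (f x)⁻¹), ?_, ?_⟩
    · by_contra hcon
      push Not at hcon
      apply hA.1
      intro S'
      rw [hrel]
      have hz : ∀ z, (a • f + b • g) z = 0 := by
        intro z
        rw [hh, hcon.1, hcon.2]; ring
      rw [hz, hz]; ring
    · intro c d
      rw [hrel, hSx, hSv, hh v, hh x, hh (c • x + d • v), f'v, h0v, f'x, h0x]
      simp only [map_add, map_smul, smul_eq_mul, f'x, h0x, f'v, h0v]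
      ring_nf
  have hall : ∀ t : ℂ, ∃ A, Cl Kind.lie (rk x f) (rk x g) A ∧
      ∀ c d, rel Kind.lie A (S c d) ↔ t ^ 2 = c + t * d := by
    intro t
    obtain ⟨A, hA, hAS⟩ := hP.E (S (-t^2) (2 * t))
    obtain ⟨α, β, hne, hiff⟩ := hform A hA
    have h1 := (hiff _ _).mp hAS
    have h2 : (β - α * t)^2 = 0 := by linear_combination h1
    have h3 : β = α * t := by
      have := pow_eq_zero_iff (two_ne_zero) |>.mp h2
      linear_combination this
    have hα : α ≠ 0 := by
      intro h
      rw [h, zero_mul] at h3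
      rcases hne with h' | h'
      · exact h' h
      · exact h' h3
    refine ⟨A, hA, fun c d => ?_⟩
    rw [hiff, h3]
    constructor
    · intro h4
      have h5 : α ^ 2 * (t ^ 2 - (c + t * d)) = 0 := by linear_combination h4
      rcases mul_eq_zero.mp h5 with h6 | h6
      · exact absurd (pow_eq_zero_iff (two_ne_zero) |>.mp h6) hα
      · linear_combination h6
    · intro h4
      linear_combination α ^ 2 * h4
  obtain ⟨A0, hA0, i0⟩ := hall 0
  obtain ⟨A1, hA1, i1⟩ := hall 1
  obtain ⟨A2, hA2, i2⟩ := hall 2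
  have hnr : ¬ RowEq Kind.lie A0 A1 := by
    intro hr
    have h1 := (hr (S 0 0)).mp ((i0 0 0).mpr (by norm_num))
    have h2 := (i1 0 0).mp h1
    norm_num at h2
  have h3 := hP.U (S 0 1) A0 A1 hA0 hA1 hnr ((i0 0 1).mpr (by norm_num))
    ((i1 0 1).mpr (by norm_num)) A2 hA2
  have h4 := (i2 0 1).mp h3
  norm_num at h4


end sk2


end Pool.Agent.Helper280.QN.Jliecase2
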