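import Mathlib
import Pool.Agent.Helper280.QN.Basic

set_option autoImplicit false

namespace Pool.Agent.Helper280.QN.Jmset



section sk1

/-- Properties of the set of compressions of the closure of a good pair. -/
structure MSet (M : Set M2) (m1 m2 : M2) : Prop where
  mem1 : m1 ∈ M
  mem2 : m2 ∈ M
  cl : ∀ n ∈ M, ∀ c : M2, Nil2 (m1 * c) → Nil2 (m2 * c) → Nil2 (n * c)
  E : ∀ c : M2, ∃ n ∈ M, Nil2 (n * c)
  U : ∀ c : M2, ∀ m ∈ M, ∀ n ∈ M, (∃ c' : M2, ¬ (Nil2 (m * c') ↔ Nil2 (n * c'))) →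
    Nil2 (m * c) → Nil2 (n * c) → ∀ p ∈ M, Nil2 (p * c)

theorem nil2_mul (m : M2) (x y z w : ℂ) : Nil2 (m * !![x, y; z, w]) ↔
    (m 0 0 * x + m 0 1 * z) + (m 1 0 * y + m 1 1 * w) = 0 ∧
    (m 0 0 * x + m 0 1 * z) * (m 1 0 * y + m 1 1 * w) -
      (m 0 0 * y + m 0 1 * w) * (m 1 0 * x + m 1 1 * z) = 0 := by
  unfold Nil2
  rw [Matrix.trace_fin_two, Matrix.det_fin_two]
  simp [Matrix.mul_apply, Fin.sum_univ_two]

theorem MSet.conj {M : Set M2} {m2 : M2} (h : MSet M 1 m2) (P Q : M2) (hPQ : P * Q = 1)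
    (hQP : Q * P = 1) : MSet {n | P * n * Q ∈ M} 1 (Q * m2 * P) := by
  have key : ∀ a : M2, Nil2 (P * a * Q) ↔ Nil2 a := by
    intro a
    unfold Nil2
    have h1 : (P * a * Q).trace = a.trace := by
      rw [Matrix.trace_mul_comm, ← Matrix.mul_assoc, hQP, Matrix.one_mul]
    have h2 : (P * a * Q).det = a.det := by
      rw [Matrix.det_mul, Matrix.det_mul]
      have h3 : P.det * Q.det = 1 := by rw [← Matrix.det_mul, hPQ, Matrix.det_one]
      linear_combination a.det * h3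
    rw [h1, h2]
  have key2 : ∀ a b : M2, Nil2 (a * b) ↔ Nil2 ((P * a * Q) * (P * b * Q)) := by
    intro a b
    rw [← key]
    have h1 : P * a * Q * (P * b * Q) = P * (a * b) * Q := by
      calc P * a * Q * (P * b * Q) = P * a * (Q * P) * (b * Q) := by noncomm_ring
        _ = P * (a * b) * Q := by rw [hQP]; noncomm_ring
    rw [h1]
  have e1 : P * (1 : M2) * Q = 1 := by rw [Matrix.mul_one, hPQ]
  have e2 : ∀ n : M2, P * (Q * n * P) * Q = n := by
    intro n
    calc P * (Q * n * P) * Q = (P * Q) * n * (P * Q) := by noncomm_ring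
      _ = n := by rw [hPQ]; simp
  refine ⟨?_, ?_, ?_, ?_, ?_⟩
  · show P * 1 * Q ∈ M
    rw [e1]; exact h.mem1
  · show P * (Q * m2 * P) * Q ∈ M
    rw [e2]; exact h.mem2
  · intro n hn c h1 h2
    rw [key2] at h1 h2 ⊢
    rw [e1] at h1
    rw [e2] at h2
    exact h.cl _ hn _ h1 h2
  · intro c
    obtain ⟨n, hn, hnc⟩ := h.E (P * c * Q)
    refine ⟨Q * n * P, ?_, ?_⟩
    · show P * (Q * n * P) * Q ∈ M
      rw [e2]; exact hn
    · rw [key2, e2]; exact hnc
  · intro c m hm n hn hc h1 h2 p hp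
    rw [key2] at h1 h2 ⊢
    refine h.U _ _ hm _ hn ?_ h1 h2 _ hp
    obtain ⟨c', hc'⟩ := hc
    refine ⟨P * c' * Q, ?_⟩
    rwa [← key2, ← key2]

theorem MSet.zero_contra {M : Set M2} {a t b : ℂ} (h : MSet M 1 !![a, t; 0, b])
    (h0 : (0 : M2) ∈ M) : t = 0 ∧ a = b := by
  have hd : ∃ c' : M2, ¬ (Nil2 ((1 : M2) * c') ↔ Nil2 ((0 : M2) * c')) := by
    refine ⟨!![1, 0; 0, 1], fun hh => ?_⟩
    have h2 : Nil2 ((0 : M2) * !![1, 0; 0, 1]) := by
      rw [nil2_mul]; simp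
    have h3 := (nil2_mul _ _ _ _ _).1 (hh.2 h2)
    simp at h3
  have h1 := h.U !![0, 0; 1, 0] 1 h.mem1 0 h0 hd (by rw [nil2_mul]; simp)
    (by rw [nil2_mul]; simp) _ h.mem2
  have h2 := h.U !![1, -1; 1, -1] 1 h.mem1 0 h0 hd (by rw [nil2_mul]; simp)
    (by rw [nil2_mul]; simp) _ h.mem2
  rw [nil2_mul] at h1 h2
  simp at h1 h2
  refine ⟨h1, ?_⟩
  obtain ⟨h2, -⟩ := h2
  rw [h1] at h2
  linear_combination h2

theorem MSet.case1 {M : Set M2} {a b : ℂ} (hab : a ≠ b) (h : MSet M 1 !![a, 0; 0, b]) :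
    False := by
  have d1 : ∀ n ∈ M, n 1 0 = 0 := by
    intro n hn
    have h1 := h.cl n hn !![0, 1; 0, 0] (by rw [nil2_mul]; simp) (by rw [nil2_mul]; simp)
    rw [nil2_mul] at h1
    simpa using h1.1
  have d2 : ∀ n ∈ M, n 0 1 = 0 := by
    intro n hn
    have h1 := h.cl n hn !![0, 0; 1, 0] (by rw [nil2_mul]; simp) (by rw [nil2_mul]; simp)
    rw [nil2_mul] at h1
    simpa using h1.1
  obtain ⟨n, hn, hn1⟩ := h.E !![1, 0; 0, 1]
  rw [nil2_mul] at hn1
  have e1 := d1 n hn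
  have e2 := d2 n hn
  simp only [mul_one, mul_zero, add_zero, zero_add, e1, e2, sub_zero] at hn1
  obtain ⟨h1, h2⟩ := hn1
  have h00 : n 0 0 = 0 := by
    rcases mul_eq_zero.1 h2 with h3 | h3
    · exact h3
    · rw [h3, add_zero] at h1; exact h1
  have h11 : n 1 1 = 0 := by rw [h00, zero_add] at h1; exact h1
  have hn0 : n = 0 := by
    ext i j
    fin_cases i <;> fin_cases j <;> simp [h00, h11, e1, e2]
  rw [hn0] at hn
  exact hab (h.zero_contra hn).2

theorem MSet.case2 {M : Set M2} {a t : ℂ} (ht : t ≠ 0) (h : MSet M 1 !![a, t; 0, a]) :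
    False := by
  have d1 : ∀ n ∈ M, n 1 0 = 0 := by
    intro n hn
    have h1 := h.cl n hn !![0, 1; 0, 0] (by rw [nil2_mul]; simp) (by rw [nil2_mul]; simp)
    rw [nil2_mul] at h1
    simpa using h1.1
  have hz : (0 : M2) ∉ M := fun h0 => ht (h.zero_contra h0).1
  obtain ⟨A, hA, hA1⟩ := h.E !![1, 0; 0, 1]
  rw [nil2_mul] at hA1
  have e1 := d1 A hA
  simp only [mul_one, mul_zero, add_zero, zero_add, e1, sub_zero] at hA1
  obtain ⟨h1, h2⟩ := hA1
  have h00 : A 0 0 = 0 := by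
    rcases mul_eq_zero.1 h2 with h3 | h3
    · exact h3
    · rw [h3, add_zero] at h1; exact h1
  have h11 : A 1 1 = 0 := by rw [h00, zero_add] at h1; exact h1
  have hAn : Nil2 (A * !![1, 0; 0, 1]) := by
    rw [nil2_mul]; simp [h00, h11, e1]
  obtain ⟨B, hB, hB1⟩ := h.E !![1, 0; 1, 1]
  rw [nil2_mul] at hB1
  have f1 := d1 B hB
  simp only [mul_one, mul_zero, add_zero, zero_add, f1, sub_zero] at hB1
  obtain ⟨g1, g2⟩ := hB1
  have g3 : B 0 0 * B 1 1 = 0 := by linear_combination g2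
  have hBne : B ≠ 0 := fun h0 => hz (h0 ▸ hB)
  have hBtr : B 0 0 + B 1 1 ≠ 0 := by
    intro hs
    rcases mul_eq_zero.1 g3 with h3 | h3
    · have h4 : B 1 1 = 0 := by rw [h3, zero_add] at hs; exact hs
      have h5 : B 0 1 = 0 := by rw [h3, h4] at g1; simpa using g1
      exact hBne (by ext i j; fin_cases i <;> fin_cases j <;> simp [h3, h4, h5, f1])
    · have h4 : B 0 0 = 0 := by rw [h3, add_zero] at hs; exact hs
      have h5 : B 0 1 = 0 := by rw [h3, h4] at g1; simpa using g1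
      exact hBne (by ext i j; fin_cases i <;> fin_cases j <;> simp [h3, h4, h5, f1])
  have hdist : ∃ c' : M2, ¬ (Nil2 (A * c') ↔ Nil2 (B * c')) := by
    refine ⟨!![1, 0; 0, 1], fun hh => ?_⟩
    have h3 := hh.1 hAn
    rw [nil2_mul] at h3
    apply hBtr
    simpa using h3.1
  rcases mul_eq_zero.1 g3 with h3 | h3
  · have h4 := h.U !![1, 0; 0, 0] A hA B hB hdist (by rw [nil2_mul]; simp [h00, e1])
      (by rw [nil2_mul]; simp [h3, f1]) _ h.mem1
    rw [nil2_mul] at h4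
    simp at h4
  · have h4 := h.U !![0, 0; 0, 1] A hA B hB hdist (by rw [nil2_mul]; simp [h11, e1])
      (by rw [nil2_mul]; simp [h3, f1]) _ h.mem1
    rw [nil2_mul] at h4
    simp at h4

theorem MSet.tri {M : Set M2} {a t b : ℂ} (h : MSet M 1 !![a, t; 0, b]) : t = 0 ∧ a = b := by
  by_cases hab : a = b
  · subst hab
    refine ⟨?_, rfl⟩
    by_contra ht
    exact MSet.case2 ht h
  · exfalso
    have hba : b - a ≠ 0 := fun h0 => hab (sub_eq_zero.1 h0).symm
    have h1 := h.conj !![1, t / (b - a); 0, 1] !![1, -(t / (b - a)); 0, 1]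
      (by rw [Matrix.mul_fin_two, Matrix.one_fin_two]; simp)
      (by rw [Matrix.mul_fin_two, Matrix.one_fin_two]; simp)
    have h2 : !![1, -(t / (b - a)); 0, 1] * !![a, t; 0, b] * !![1, t / (b - a); 0, 1] =
        (!![a, 0; 0, b] : M2) := by
      rw [Matrix.mul_fin_two, Matrix.mul_fin_two]
      congr 1
      ext i j
      fin_cases i <;> fin_cases j <;> simp
      field_simp
      ring
    rw [h2] at h1
    exact MSet.case1 hab h1

theorem MSet.scalar {M : Set M2} {m2 : M2} (h : MSet M 1 m2) : ∃ t : ℂ, m2 = t • (1 : M2) := by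
  by_cases hγ : m2 1 0 = 0
  · have h1 : m2 = !![m2 0 0, m2 0 1; 0, m2 1 1] := by
      conv_lhs => rw [Matrix.eta_fin_two m2]
      rw [hγ]
    rw [h1] at h
    obtain ⟨h2, h3⟩ := h.tri
    refine ⟨m2 0 0, ?_⟩
    ext i j
    fin_cases i <;> fin_cases j <;> simp [h2, ← h3, hγ]
  · exfalso
    obtain ⟨l, hl⟩ : ∃ l : ℂ, l ^ 2 - (m2 0 0 + m2 1 1) * l +
        (m2 0 0 * m2 1 1 - m2 0 1 * m2 1 0) = 0 := by
      obtain ⟨s, hs⟩ := IsAlgClosed.exists_pow_nat_eq
        ((m2 0 0 + m2 1 1) ^ 2 - 4 * (m2 0 0 * m2 1 1 - m2 0 1 * m2 1 0)) (n := 2) (by norm_num)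
      refine ⟨((m2 0 0 + m2 1 1) + s) / 2, ?_⟩
      linear_combination (1 / 4) * hs
    have h1 := h.conj !![l - m2 1 1, 1; m2 1 0, 0] !![0, 1 / m2 1 0; 1, -((l - m2 1 1) / m2 1 0)]
      (by
        rw [Matrix.mul_fin_two, Matrix.one_fin_two]
        congr 1
        ext i j
        fin_cases i <;> fin_cases j <;> simp [hγ]
        field_simp
        ring)
      (by
        rw [Matrix.mul_fin_two, Matrix.one_fin_two]
        congr 1
        ext i j
        fin_cases i <;> fin_cases j <;> simp [hγ])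
    have h2 : !![0, 1 / m2 1 0; 1, -((l - m2 1 1) / m2 1 0)] * m2 * !![l - m2 1 1, 1; m2 1 0, 0] =
        (!![l, 1; 0, m2 0 0 + m2 1 1 - l] : M2) := by
      conv_lhs => rw [Matrix.eta_fin_two m2]
      rw [Matrix.mul_fin_two, Matrix.mul_fin_two]
      congr 1
      ext i j
      fin_cases i <;> fin_cases j <;> simp
      · field_simp
        ring
      · field_simp
      · field_simp
        linear_combination -hl
      · field_simp
        ring
    rw [h2] at h1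
    exact one_ne_zero h1.tri.1

theorem MSet.no_diag {M : Set M2} (h : MSet M !![1, 0; 0, 0] !![0, 0; 0, 1]) : False := by
  have d1 : ∀ n ∈ M, n 1 0 = 0 := by
    intro n hn
    have h1 := h.cl n hn !![0, 1; 0, 0] (by rw [nil2_mul]; simp) (by rw [nil2_mul]; simp)
    rw [nil2_mul] at h1
    simpa using h1.1
  have d2 : ∀ n ∈ M, n 0 1 = 0 := by
    intro n hn
    have h1 := h.cl n hn !![0, 0; 1, 0] (by rw [nil2_mul]; simp) (by rw [nil2_mul]; simp)
    rw [nil2_mul] at h1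
    simpa using h1.1
  have d3 : ∀ n ∈ M, n 0 0 * n 1 1 = 0 := by
    intro n hn
    have h1 := h.cl n hn !![0, 1; 1, 0] (by rw [nil2_mul]; simp) (by rw [nil2_mul]; simp)
    rw [nil2_mul] at h1
    have h2 := h1.2
    rw [d1 n hn, d2 n hn] at h2
    simpa using h2
  obtain ⟨n, hn, hn1⟩ := h.E !![1, 1; 1, 1]
  rw [nil2_mul, d1 n hn, d2 n hn] at hn1
  have hs : n 0 0 + n 1 1 = 0 := by simpa using hn1.1
  have hp := d3 n hn
  have h00 : n 0 0 = 0 := by
    rcases mul_eq_zero.1 hp with h3 | h3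
    · exact h3
    · rw [h3, add_zero] at hs; exact hs
  have h11 : n 1 1 = 0 := by rw [h00, zero_add] at hs; exact hs
  have hn0 : n = 0 := by
    ext i j
    fin_cases i <;> fin_cases j <;> simp [h00, h11, d1 n hn, d2 n hn]
  rw [hn0] at hn
  have h4 := h.U !![0, 0; 0, 1] _ h.mem1 0 hn (by
    refine ⟨!![1, 0; 0, 0], fun hh => ?_⟩
    have h2 : Nil2 ((0 : M2) * !![1, 0; 0, 0]) := by
      rw [nil2_mul]; simp
    have h3 := (nil2_mul _ _ _ _ _).1 (hh.2 h2)
    simp at h3) (by rw [nil2_mul]; simp) (by rw [nil2_mul]; simp) _ h.mem2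
  rw [nil2_mul] at h4
  simp at h4

theorem scalar_of_nil (n : M2) (h : ∀ c : M2, Nil2 c → Nil2 (n * c)) :
    ∃ s : ℂ, n = s • (1 : M2) := by
  have hone : ∀ x y z w : ℂ, Nil2 ((1 : M2) * !![x, y; z, w]) → Nil2 (n * !![x, y; z, w]) := by
    intro x y z w h1
    rw [Matrix.one_mul] at h1
    exact h _ h1
  have h1 := hone 0 1 0 0 (by rw [nil2_mul]; simp)
  have h2 := hone 0 0 1 0 (by rw [nil2_mul]; simp)
  have h3 := hone 1 (-1) 1 (-1) (by rw [nil2_mul]; simp)
  rw [nil2_mul] at h1 h2 h3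
  have e1 : n 1 0 = 0 := by simpa using h1.1
  have e2 : n 0 1 = 0 := by simpa using h2.1
  have e3 : n 0 0 = n 1 1 := by
    have h4 := h3.1
    rw [e1, e2] at h4
    linear_combination h4
  refine ⟨n 0 0, ?_⟩
  ext i j
  fin_cases i <;> fin_cases j <;> simp [e1, e2, ← e3]


end sk1


end Pool.Agent.Helper280.QN.Jmset
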