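import Mathlib
import Pool.Agent.Helper280.QN.Basic

set_option autoImplicit false

namespace Pool.Agent.Helper280.QN.Jspanblocks



section blocks
variable {X : Type*} [NormedAddCommGroup X] [NormedSpace ℂ X]

theorem sb_dual {n : ℕ} {w : Fin n → X} (hw : LinearIndependent ℂ w) (c : Fin n → ℂ) :
    ∃ f : X →L[ℂ] ℂ, ∀ i, f (w i) = c i := by
  let b := Module.Basis.span hw
  have : FiniteDimensional ℂ (Submodule.span ℂ (Set.range w)) :=
    FiniteDimensional.span_of_finite ℂ (Set.finite_range w)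
  let l : Submodule.span ℂ (Set.range w) →ₗ[ℂ] ℂ := b.constr ℂ c
  obtain ⟨g, hg, _⟩ := exists_extension_norm_eq (Submodule.span ℂ (Set.range w))
    (LinearMap.toContinuousLinearMap l)
  refine ⟨g, fun i => ?_⟩
  have h1 := hg (b i)
  have h2 : ((b i : Submodule.span ℂ (Set.range w)) : X) = w i :=
    congrArg Subtype.val (Module.Basis.span_apply hw i)
  rw [h2] at h1
  rw [h1]
  change l (b i) = c i
  exact Module.Basis.constr_basis b ℂ c i

theorem sb_coef {a b c d : ℂ} {u v p q : X} (h : LinearIndependent ℂ ![u, v, p, q])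
    (e : a • u + b • v + c • p + d • q = 0) : a = 0 ∧ b = 0 ∧ c = 0 ∧ d = 0 := by
  have := Fintype.linearIndependent_iff.mp h ![a, b, c, d] (by simpa [Fin.sum_univ_four] using e)
  exact ⟨this 0, this 1, this 2, this 3⟩

theorem sb_mk {u v p q : X} (h : ∀ a b c d : ℂ, a • u + b • v + c • p + d • q = 0 →
    a = 0 ∧ b = 0 ∧ c = 0 ∧ d = 0) : LinearIndependent ℂ ![u, v, p, q] := by
  rw [Fintype.linearIndependent_iff]
  intro g hg
  have := h (g 0) (g 1) (g 2) (g 3) (by simpa [Fin.sum_univ_four] using hg)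
  intro i
  fin_cases i
  · exact this.1
  · exact this.2.1
  · exact this.2.2.1
  · exact this.2.2.2

theorem sb_symm {T : X →L[ℂ] X} {u v : X} (h : GoodPair T u v) : GoodPair T v u := by
  apply sb_mk
  intro a b c d e
  obtain ⟨h1, h2, h3, h4⟩ := sb_coef (a := b) (b := a) (c := d) (d := c) h (by rw [← e]; abel)
  exact ⟨h2, h1, h4, h3⟩

theorem sb_pert (φ : ℂ → (Fin 4 → X)) (hφ : Continuous φ) (h : LinearIndependent ℂ (φ 0)) :
    ∃ s : ℂ, s ≠ 0 ∧ LinearIndependent ℂ (φ s) := by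
  have ho : IsOpen {f : Fin 4 → X | LinearIndependent ℂ f} := isOpen_setOfPred_linearIndependent
  have h1 : ∀ᶠ s in nhds (0:ℂ), φ s ∈ {f : Fin 4 → X | LinearIndependent ℂ f} :=
    hφ.continuousAt.eventually (ho.mem_nhds h)
  have h2 : ∀ᶠ s in nhdsWithin (0:ℂ) {0}ᶜ, s ≠ 0 ∧ LinearIndependent ℂ (φ s) := by
    filter_upwards [h1.filter_mono nhdsWithin_le_nhds, self_mem_nhdsWithin] with s hs hs'
    exact ⟨hs', hs⟩
  exact h2.exists

theorem sb_S1 (T R : X →L[ℂ] X) 
    (h : ∀ u v, GoodPair T u v → ∀ g : Fin 2 → (X →L[ℂ] ℂ),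
      (∀ i, g i u = 0 ∧ g i v = 0) → CC ![u, v] g T = 1 → ∃ t : ℂ, CC ![u, v] g R = t • (1 : M2))
    (u v : X) (hg : GoodPair T u v) : ∃ a1 a2 b1 b2 t : ℂ,
      R u = a1 • u + a2 • v + t • T u ∧ R v = b1 • u + b2 • v + t • T v := by
  have key : ∀ g0 g1 : X →L[ℂ] ℂ, g0 u = 0 → g0 v = 0 → g0 (T u) = 1 → g0 (T v) = 0 →
      g1 u = 0 → g1 v = 0 → g1 (T u) = 0 → g1 (T v) = 1 →
      ∃ t : ℂ, g0 (R u) = t ∧ g0 (R v) = 0 ∧ g1 (R u) = 0 ∧ g1 (R v) = t := by
    intro g0 g1 a1 a2 a3 a4 b1 b2 b3 b4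
    obtain ⟨t, ht⟩ := h u v hg ![g0, g1]
      (by intro i; fin_cases i; exacts [⟨a1, a2⟩, ⟨b1, b2⟩])
      (by
        ext i j
        fin_cases i <;> fin_cases j <;> simp [CC, a3, a4, b3, b4])
    refine ⟨t, ?_, ?_, ?_, ?_⟩
    · simpa [CC] using congrFun (congrFun ht 0) 0
    · simpa [CC] using congrFun (congrFun ht 0) 1
    · simpa [CC] using congrFun (congrFun ht 1) 0
    · simpa [CC] using congrFun (congrFun ht 1) 1
  obtain ⟨g0, hg0⟩ := sb_dual hg ![0, 0, 1, 0]
  obtain ⟨g1, hg1⟩ := sb_dual hg ![0, 0, 0, 1]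
  have c1 : g0 u = 0 := hg0 0
  have c2 : g0 v = 0 := hg0 1
  have c3 : g0 (T u) = 1 := hg0 2
  have c4 : g0 (T v) = 0 := hg0 3
  have d1 : g1 u = 0 := hg1 0
  have d2 : g1 v = 0 := hg1 1
  have d3 : g1 (T u) = 0 := hg1 2
  have d4 : g1 (T v) = 1 := hg1 3
  obtain ⟨t, t1, t2, t3, t4⟩ := key g0 g1 c1 c2 c3 c4 d1 d2 d3 d4
  have mem1 : R u ∈ Submodule.span ℂ (Set.range ![u, v, T u, T v]) := by
    by_contra hn
    have hli : LinearIndependent ℂ (Fin.cons (R u) ![u, v, T u, T v] : Fin 5 → X) :=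
      linearIndependent_finCons.mpr ⟨hg, hn⟩
    obtain ⟨k, hk⟩ := sb_dual hli ![1, 0, 0, 0, 0]
    have k0 : k (R u) = 1 := hk 0
    have k1 : k u = 0 := hk 1
    have k2 : k v = 0 := hk 2
    have k3 : k (T u) = 0 := hk 3
    have k4 : k (T v) = 0 := hk 4
    obtain ⟨t', s1, _, _, s4⟩ := key (g0 + k) g1 (by simp [c1, k1]) (by simp [c2, k2])
      (by simp [c3, k3]) (by simp [c4, k4]) d1 d2 d3 d4
    rw [t4] at s4
    rw [ContinuousLinearMap.add_apply, t1, k0, ← s4] at s1
    simp at s1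
  have mem2 : R v ∈ Submodule.span ℂ (Set.range ![u, v, T u, T v]) := by
    by_contra hn
    have hli : LinearIndependent ℂ (Fin.cons (R v) ![u, v, T u, T v] : Fin 5 → X) :=
      linearIndependent_finCons.mpr ⟨hg, hn⟩
    obtain ⟨k, hk⟩ := sb_dual hli ![1, 0, 0, 0, 0]
    have k0 : k (R v) = 1 := hk 0
    have k1 : k u = 0 := hk 1
    have k2 : k v = 0 := hk 2
    have k3 : k (T u) = 0 := hk 3
    have k4 : k (T v) = 0 := hk 4
    obtain ⟨t', s1, _, _, s4⟩ := key g0 (g1 + k) c1 c2 c3 c4 (by simp [d1, k1]) (by simp [d2, k2])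
      (by simp [d3, k3]) (by simp [d4, k4])
    rw [t1] at s1
    rw [ContinuousLinearMap.add_apply, t4, k0, ← s1] at s4
    simp at s4
  rw [Submodule.mem_span_range_iff_exists_fun] at mem1 mem2
  obtain ⟨a, ha⟩ := mem1
  obtain ⟨b, hb⟩ := mem2
  have ha' : R u = a 0 • u + a 1 • v + a 2 • T u + a 3 • T v := by
    rw [← ha]; simp [Fin.sum_univ_four]
  have hb' : R v = b 0 • u + b 1 • v + b 2 • T u + b 3 • T v := by
    rw [← hb]; simp [Fin.sum_univ_four]
  have ea2 : a 2 = t := by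
    have := t1; rw [ha'] at this; simpa [c1, c2, c3, c4] using this
  have ea3 : a 3 = 0 := by
    have := t3; rw [ha'] at this; simpa [d1, d2, d3, d4] using this
  have eb2 : b 2 = 0 := by
    have := t2; rw [hb'] at this; simpa [c1, c2, c3, c4] using this
  have eb3 : b 3 = t := by
    have := t4; rw [hb'] at this; simpa [d1, d2, d3, d4] using this
  refine ⟨a 0, a 1, b 0, b 1, t, ?_, ?_⟩
  · rw [ha', ea2, ea3, zero_smul, add_zero]
  · rw [hb', eb2, eb3, zero_smul, add_zero]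

theorem sb_S2 (T R : X →L[ℂ] X) 
    (h : ∀ u v, GoodPair T u v → ∀ g : Fin 2 → (X →L[ℂ] ℂ),
      (∀ i, g i u = 0 ∧ g i v = 0) → CC ![u, v] g T = 1 → ∃ t : ℂ, CC ![u, v] g R = t • (1 : M2))
    (u v : X) (hg : GoodPair T u v) : ∃ a a' t : ℂ,
      R u = a • u + t • T u ∧ R v = a' • v + t • T v := by
  obtain ⟨a1, a2, b1, b2, t, hu, hv⟩ := sb_S1 T R h u v hg
  have ha2 : a2 = 0 := by
    obtain ⟨s, hs, hli⟩ := sb_pert (fun s => ![u, v + s • T v, T u, T (v + s • T v)])
      (by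
        refine continuous_pi fun i => ?_
        fin_cases i
        · exact continuous_const
        · exact (by fun_prop : Continuous fun s : ℂ => v + s • T v)
        · exact continuous_const
        · exact (by fun_prop : Continuous fun s : ℂ => T (v + s • T v)))
      (by simpa [GoodPair] using hg)
    obtain ⟨c1, c2, _, _, t', hu', _⟩ := sb_S1 T R h u (v + s • T v) hli
    have e : (a1 - c1) • u + (a2 - c2) • v + (t - t') • T u + (-(c2 * s)) • T v = 0 := by
      have : (a1 • u + a2 • v + t • T u) - (c1 • u + c2 • (v + s • T v) + t' • T u) = 0 := by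
        rw [← hu, ← hu', sub_self]
      rw [← this]
      module
    obtain ⟨_, e2, _, e4⟩ := sb_coef hg e
    have hc2 : c2 = 0 := by
      rw [neg_eq_zero, mul_eq_zero] at e4
      exact e4.resolve_right hs
    rw [hc2, sub_zero] at e2
    exact e2
  have hb1 : b1 = 0 := by
    obtain ⟨s, hs, hli⟩ := sb_pert (fun s => ![u + s • T u, v, T (u + s • T u), T v])
      (by
        refine continuous_pi fun i => ?_
        fin_cases i
        · exact (by fun_prop : Continuous fun s : ℂ => u + s • T u)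
        · exact continuous_const
        · exact (by fun_prop : Continuous fun s : ℂ => T (u + s • T u))
        · exact continuous_const)
      (by simpa [GoodPair] using hg)
    obtain ⟨_, _, c1, c2, t', _, hv'⟩ := sb_S1 T R h (u + s • T u) v hli
    have e : (b1 - c1) • u + (b2 - c2) • v + (-(c1 * s)) • T u + (t - t') • T v = 0 := by
      have : (b1 • u + b2 • v + t • T v) - (c1 • (u + s • T u) + c2 • v + t' • T v) = 0 := by
        rw [← hv, ← hv', sub_self]
      rw [← this]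
      module
    obtain ⟨e1, _, e3, _⟩ := sb_coef hg e
    have hc1 : c1 = 0 := by
      rw [neg_eq_zero, mul_eq_zero] at e3
      exact e3.resolve_right hs
    rw [hc1, sub_zero] at e1
    exact e1
  refine ⟨a1, b2, t, ?_, ?_⟩
  · rw [hu, ha2, zero_smul, add_zero]
  · rw [hv, hb1, zero_smul, zero_add]

theorem sb_S3 (T R : X →L[ℂ] X) 
    (h : ∀ u v, GoodPair T u v → ∀ g : Fin 2 → (X →L[ℂ] ℂ),
      (∀ i, g i u = 0 ∧ g i v = 0) → CC ![u, v] g T = 1 → ∃ t : ℂ, CC ![u, v] g R = t • (1 : M2))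
    (u v : X) (hg : GoodPair T u v) : ∃ a t : ℂ,
      R u = a • u + t • T u ∧ R v = a • v + t • T v := by
  obtain ⟨a, a', t, hu, hv⟩ := sb_S2 T R h u v hg
  have hg' : GoodPair T (u + v) v := by
    apply sb_mk
    intro x y z w e
    rw [map_add] at e
    obtain ⟨h1, h2, h3, h4⟩ := sb_coef (a := x) (b := x + y) (c := z) (d := z + w) hg
      (by rw [← e]; module)
    rw [h1, zero_add] at h2
    rw [h3, zero_add] at h4
    exact ⟨h1, h2, h3, h4⟩
  obtain ⟨c, c', t', hu', _⟩ := sb_S2 T R h (u + v) v hg'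
  have e : (a - c) • u + (a' - c) • v + (t - t') • T u + (t - t') • T v = 0 := by
    have : (a • u + t • T u) + (a' • v + t • T v) - (c • (u + v) + t' • T (u + v)) = 0 := by
      rw [← hu, ← hv, ← hu', map_add, sub_self]
    rw [map_add] at this
    rw [← this]
    module
  obtain ⟨e1, e2, _, _⟩ := sb_coef hg e
  have : a' = a := by
    rw [sub_eq_zero] at e1 e2
    rw [e1, e2]
  rw [this] at hv
  exact ⟨a, t, hu, hv⟩

end blocks

section sk1

theorem span_of_blocks {X : Type*} [NormedAddCommGroup X] [NormedSpace ℂ X]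
    (T R : X →L[ℂ] X) (u0 v0 : X) (h0 : GoodPair T u0 v0)
    (h : ∀ u v, GoodPair T u v → ∀ g : Fin 2 → (X →L[ℂ] ℂ),
      (∀ i, g i u = 0 ∧ g i v = 0) → CC ![u, v] g T = 1 → ∃ t : ℂ, CC ![u, v] g R = t • (1 : M2)) :
    ∃ a b : ℂ, R = a • 1 + b • T := by
  obtain ⟨a, t, hu0, hv0⟩ := sb_S3 T R h u0 v0 h0
  refine ⟨a, t, ?_⟩
  ext w
  change R w = a • w + t • T w
  obtain ⟨s, hs, hli⟩ := sb_pert (fun s => ![u0 + s • w, v0, T (u0 + s • w), T v0])
    (by
      refine continuous_pi fun i => ?_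
      fin_cases i
      · exact (by fun_prop : Continuous fun s : ℂ => u0 + s • w)
      · exact continuous_const
      · exact (by fun_prop : Continuous fun s : ℂ => T (u0 + s • w))
      · exact continuous_const)
    (by simpa [GoodPair] using h0)
  obtain ⟨a', t', hu', hv'⟩ := sb_S3 T R h (u0 + s • w) v0 hli
  have e : (0:ℂ) • u0 + (a - a') • v0 + (0:ℂ) • T u0 + (t - t') • T v0 = 0 := by
    have : (a • v0 + t • T v0) - (a' • v0 + t' • T v0) = 0 := by
      rw [← hv0, ← hv', sub_self]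
    rw [← this]
    module
  obtain ⟨_, e2, _, e4⟩ := sb_coef h0 e
  rw [sub_eq_zero] at e2 e4
  rw [← e2, ← e4, map_add, map_smul, map_add, map_smul, hu0] at hu'
  have e5 : s • (R w - (a • w + t • T w)) = 0 := by
    have : (a • u0 + t • T u0 + s • R w) - (a • (u0 + s • w) + t • (T u0 + s • T w)) = 0 := by
      rw [hu', sub_self]
    rw [← this]
    module
  rw [smul_eq_zero] at e5
  exact sub_eq_zero.mp (e5.resolve_left hs)


end sk1


end Pool.Agent.Helper280.QN.Jspanblocks
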