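import Mathlib
import Pool.Agent.Helper280.QN.Basic

set_option autoImplicit false

namespace Pool.Agent.Helper280.QN.Jspanlocal



section sk1

theorem sk1_sep {X : Type*} [NormedAddCommGroup X] [NormedSpace ℂ X] (p : Submodule ℂ X)
    [FiniteDimensional ℂ p] {y : X} (hy : y ∉ p) :
    ∃ f : X →L[ℂ] ℂ, (∀ x ∈ p, f x = 0) ∧ f y ≠ 0 := by
  have hc : IsClosed (p : Set X) := p.closed_of_finiteDimensional
  have hne : (Submodule.Quotient.mk y : X ⧸ p) ≠ 0 := by
    intro h
    exact hy ((Submodule.Quotient.mk_eq_zero p).mp h)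
  obtain ⟨g, hg⟩ := SeparatingDual.exists_ne_zero (R := ℂ) hne
  refine ⟨g.comp (Submodule.mkQL p), ?_, ?_⟩
  · intro x hx
    change g (Submodule.Quotient.mk x) = 0
    rw [(Submodule.Quotient.mk_eq_zero p).mpr hx, map_zero]
  · exact hg

theorem sk1_loc1 {X : Type*} [NormedAddCommGroup X] [NormedSpace ℂ X]
    (x y : X) (h : ∀ f : X →L[ℂ] ℂ, f x = 0 → f y = 0) : ∃ c : ℂ, y = c • x := by
  by_contra hne
  have hy : y ∉ Submodule.span ℂ {x} := by
    intro hy
    obtain ⟨c, hc⟩ := Submodule.mem_span_singleton.mp hy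
    exact hne ⟨c, hc.symm⟩
  obtain ⟨f, hf1, hf2⟩ := sk1_sep _ hy
  exact hf2 (h f (hf1 x (Submodule.mem_span_singleton_self x)))

theorem sk1_loc2 {X : Type*} [NormedAddCommGroup X] [NormedSpace ℂ X]
    (x x' y : X) (h : ∀ f : X →L[ℂ] ℂ, f x = 0 → f x' = 0 → f y = 0) :
    ∃ a b : ℂ, y = a • x + b • x' := by
  by_contra hne
  have hy : y ∉ Submodule.span ℂ {x, x'} := by
    intro hy
    obtain ⟨a, b, hab⟩ := Submodule.mem_span_pair.mp hy
    exact hne ⟨a, b, hab.symm⟩
  have hfin : FiniteDimensional ℂ (Submodule.span ℂ {x, x'}) :=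
    FiniteDimensional.span_of_finite ℂ (Set.toFinite _)
  obtain ⟨f, hf1, hf2⟩ := sk1_sep _ hy
  exact hf2 (h f (hf1 x (Submodule.subset_span (by simp))) (hf1 x' (Submodule.subset_span (by simp))))

theorem sk1_dep {V : Type*} [AddCommGroup V] [Module ℂ V] (v w : V) (h : ∃ c : ℂ, w = c • v) :
    ¬ LinearIndependent ℂ ![v, w] := by
  obtain ⟨c, rfl⟩ := h
  intro hli
  rw [LinearIndependent.pair_iff] at hli
  have := (hli c (-1) (by simp)).2
  norm_num at this

theorem scalar_of_local {X : Type*} [NormedAddCommGroup X] [NormedSpace ℂ X]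
    (T : X →L[ℂ] X) (h : ∀ (x : X) (f : X →L[ℂ] ℂ), f x = 0 → f (T x) = 0) :
    ∃ d : ℂ, T = d • 1 := by
  obtain ⟨a, ha⟩ := LinearMap.exists_eq_smul_id_of_forall_notLinearIndependent (f := (T : X →ₗ[ℂ] X))
    (fun v => sk1_dep v (T v) (sk1_loc1 v (T v) (h v)))
  refine ⟨a, ?_⟩
  ext x
  have := LinearMap.congr_fun ha x
  simpa using this

theorem sk1_pair {X : Type*} [NormedAddCommGroup X] [NormedSpace ℂ X] (T R : X →L[ℂ] X)
    (hloc : ∀ x, ∃ a b : ℂ, R x = a • x + b • T x) (u v : X) (huv : GoodPair T u v) (a b a' b' : ℂ)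
    (hu : R u = a • u + b • T u) (hv : R v = a' • v + b' • T v) : a = a' ∧ b = b' := by
  obtain ⟨c, d, hcd⟩ := hloc (u + v)
  have h1 : (c - a) • u + (c - a') • v + (d - b) • T u + (d - b') • T v = 0 := by
    have : R (u + v) = R u + R v := map_add R u v
    rw [this, hu, hv, map_add] at hcd
    have e : (c - a) • u + (c - a') • v + (d - b) • T u + (d - b') • T v
        = (c • (u + v) + d • (T u + T v)) - (a • u + b • T u + (a' • v + b' • T v)) := by module
    rw [e, ← hcd, sub_self]
  have h2 := (Fintype.linearIndependent_iff.mp huv) ![c - a, c - a', d - b, d - b'] (by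
    rw [Fin.sum_univ_four]
    simpa using h1)
  have e0 := h2 0
  have e1 := h2 1
  have e2 := h2 2
  have e3 := h2 3
  simp at e0 e1 e2 e3
  constructor
  · rw [← sub_eq_zero.mp e0, sub_eq_zero.mp e1]
  · rw [← sub_eq_zero.mp e2, sub_eq_zero.mp e3]

theorem span_of_local {X : Type*} [NormedAddCommGroup X] [NormedSpace ℂ X] (hd : Dim4 X)
    (hor : ∀ T : X →L[ℂ] X,
      (∃ u v, GoodPair T u v) ∨ ∃ (a : ℂ) (x : X) (f : X →L[ℂ] ℂ), T = a • 1 + rk x f)
    (T R : X →L[ℂ] X)
    (h : ∀ (x : X) (f : X →L[ℂ] ℂ), f x = 0 → f (T x) = 0 → f (R x) = 0) :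
    ∃ a b : ℂ, R = a • 1 + b • T := by
  classical
  have hloc : ∀ x, ∃ a b : ℂ, R x = a • x + b • T x := fun x => sk1_loc2 x (T x) (R x) (h x)
  rcases hor T with ⟨u0, v0, hg⟩ | ⟨a, p, f, hT⟩
  · obtain ⟨a, b, hu⟩ := hloc u0
    obtain ⟨a', b', hv⟩ := hloc v0
    have hab := sk1_pair T R hloc u0 v0 hg a b a' b' hu hv
    refine ⟨a, b, ?_⟩
    ext w
    have hcont : Continuous (fun s : ℂ => ![u0 + s • w, v0, T (u0 + s • w), T v0]) := by
      refine continuous_pi fun i => ?_
      fin_cases i
      · simp only [Fin.zero_eta, Matrix.cons_val_zero]; fun_prop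
      · simp only [Fin.mk_one, Matrix.cons_val_one]; fun_prop
      · simp only [Fin.reduceFinMk, Matrix.cons_val]; fun_prop
      · simp only [Fin.reduceFinMk, Matrix.cons_val]; fun_prop
    have hopen : IsOpen {s : ℂ | LinearIndependent ℂ ![u0 + s • w, v0, T (u0 + s • w), T v0]} :=
      isOpen_setOfPred_linearIndependent.preimage hcont
    have h0 : (0 : ℂ) ∈ {s : ℂ | LinearIndependent ℂ ![u0 + s • w, v0, T (u0 + s • w), T v0]} := by
      change LinearIndependent ℂ ![u0 + (0 : ℂ) • w, v0, T (u0 + (0 : ℂ) • w), T v0]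
      rw [zero_smul, add_zero]; exact hg
    have hev : ∀ᶠ s in nhdsWithin (0 : ℂ) {0}ᶜ, GoodPair T (u0 + s • w) v0 :=
      nhdsWithin_le_nhds (hopen.mem_nhds h0)
    have hne : ∀ᶠ s in nhdsWithin (0 : ℂ) {0}ᶜ, s ≠ 0 := self_mem_nhdsWithin
    obtain ⟨s, hs1, hs2⟩ := (hev.and hne).exists
    obtain ⟨a2, b2, hw⟩ := hloc (u0 + s • w)
    have hab2 := sk1_pair T R hloc _ v0 hs1 a2 b2 a' b' hw hv
    have e1 : a2 = a := by rw [hab2.1, hab.1]
    have e2 : b2 = b := by rw [hab2.2, hab.2]
    rw [e1, e2, map_add, map_add, map_smul, map_smul, hu] at hw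
    have h3 : s • R w = s • (a • w + b • T w) := by
      have e : s • (a • w + b • T w)
          = (a • (u0 + s • w) + b • (T u0 + s • T w)) - (a • u0 + b • T u0) := by module
      rw [e, ← hw]; abel
    have h4 := smul_right_injective X hs2 h3
    simpa using h4
  · by_cases hp : p = 0 ∨ f = 0
    · have hT' : T = a • 1 := by
        rw [hT]
        rcases hp with hp | hp
        · subst hp; ext y; simp
        · subst hp; ext y; simp
      obtain ⟨d, hdR⟩ := scalar_of_local R (fun x g hx => h x g hx (by rw [hT']; simp [hx]))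
      exact ⟨d, 0, by rw [hdR]; simp⟩
    · push Not at hp
      obtain ⟨hp0, hf0⟩ := hp
      have hTy : ∀ y, T y = a • y + f y • p := by
        intro y; rw [hT]; simp
      -- `R` is a scalar on the kernel of `f`
      have hker : ∀ y, f y = 0 → ∃ c : ℂ, R y = c • y := by
        intro y hy
        obtain ⟨c, d, hcd⟩ := hloc y
        refine ⟨c + d * a, ?_⟩
        rw [hcd, hTy, hy]; module
      let K := LinearMap.ker (f : X →ₗ[ℂ] ℂ)
      have hmem : ∀ y ∈ K, (R : X →ₗ[ℂ] X) y ∈ K := by
        intro y hy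
        have hy' : f y = 0 := hy
        obtain ⟨c, hc⟩ := hker y hy'
        change f (R y) = 0
        rw [hc, map_smul, hy', smul_zero]
      obtain ⟨m, hm⟩ := LinearMap.exists_eq_smul_id_of_forall_notLinearIndependent
        (f := (R : X →ₗ[ℂ] X).restrict hmem) (fun v => sk1_dep v _ (by
          obtain ⟨c, hc⟩ := hker v.1 v.2
          exact ⟨c, Subtype.ext hc⟩))
      have hm' : ∀ y, f y = 0 → R y = m • y := by
        intro y hy
        have := LinearMap.congr_fun hm (⟨y, hy⟩ : K)
        have := congrArg Subtype.val this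
        simpa using this
      obtain ⟨x1, hx1⟩ : ∃ x1, f x1 ≠ 0 := by
        by_contra hcon
        push Not at hcon
        exact hf0 (ContinuousLinearMap.ext hcon)
      set x0 := (f x1)⁻¹ • x1 with hx0
      have hfx0 : f x0 = 1 := by rw [hx0, map_smul, smul_eq_mul, inv_mul_cancel₀ hx1]
      set q := R x0 - m • x0 with hq
      have hR : ∀ y, R y = m • y + f y • q := by
        intro y
        have h1 : f (y - f y • x0) = 0 := by rw [map_sub, map_smul, hfx0]; simp
        have h2 := hm' _ h1
        rw [map_sub, map_smul] at h2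
        have h3 : R y = m • (y - f y • x0) + f y • R x0 := by rw [← h2]; abel
        rw [h3, hq]; module
      have hqs : ∀ y, f y ≠ 0 → ∃ α β : ℂ, q = α • y + β • p := by
        intro y hy
        obtain ⟨c, d, hcd⟩ := hloc y
        rw [hR, hTy] at hcd
        refine ⟨(f y)⁻¹ * (c + d * a - m), d, ?_⟩
        have h1 : f y • q = (c + d * a - m) • y + (d * f y) • p := by
          have e : f y • q = (m • y + f y • q) - m • y := by abel
          rw [e, hcd]; module
        have h2 : q = (f y)⁻¹ • (f y • q) := by rw [smul_smul, inv_mul_cancel₀ hy, one_smul]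
        rw [h2, h1, smul_add, smul_smul, smul_smul]
        congr 2
        field_simp
      have hqp : ∃ β : ℂ, q = β • p := by
        by_contra hcon
        push Not at hcon
        have hsp : ∀ y, f y ≠ 0 → y ∈ Submodule.span ℂ {p, q} := by
          intro y hy
          obtain ⟨α, β, hαβ⟩ := hqs y hy
          have hα : α ≠ 0 := by
            intro h0
            rw [h0, zero_smul, zero_add] at hαβ
            exact hcon β hαβ
          rw [Submodule.mem_span_pair]
          refine ⟨-(α⁻¹ * β), α⁻¹, ?_⟩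
          rw [hαβ, smul_add, smul_smul, smul_smul, inv_mul_cancel₀ hα]
          module
        have htop : Submodule.span ℂ (({p, q} : Finset X) : Set X) = ⊤ := by
          rw [eq_top_iff]
          intro z _
          have e : (({p, q} : Finset X) : Set X) = {p, q} := by simp
          rw [e]
          by_cases hz : f z = 0
          · have h1 : z = (z + x0) - x0 := by abel
            rw [h1]
            apply Submodule.sub_mem
            · apply hsp; rw [map_add, hz, hfx0]; norm_num
            · apply hsp; rw [hfx0]; norm_num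
          · exact hsp z hz
        obtain ⟨v, hv⟩ := hd
        have h1 := linearIndependent_le_span_finset v hv {p, q} htop
        have h2 : ({p, q} : Finset X).card ≤ 2 := Finset.card_le_two
        rw [Cardinal.mk_fin] at h1
        have h3 : 4 ≤ ({p, q} : Finset X).card := by exact_mod_cast h1
        omega
      obtain ⟨β, hβ⟩ := hqp
      refine ⟨m - β * a, β, ?_⟩
      ext y
      rw [hR, hβ]
      simp only [ContinuousLinearMap.add_apply, ContinuousLinearMap.smul_apply, ContinuousLinearMap.one_apply]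
      rw [hTy]; module


end sk1


end Pool.Agent.Helper280.QN.Jspanlocal
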