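import Mathlib
import Pool.Agent.Helper280.QN.Rel
import Pool.Agent.Helper280.QN.Tools
import Pool.Agent.Helper280.QN.Jmset
import Pool.Agent.Helper280.QN.Jgoodpair
import Pool.Agent.Helper280.QN.Jspanblocks
import Pool.Agent.Helper280.QN.Jspanlocal
import Pool.Agent.Helper280.QN.Jcolblock
import Pool.Agent.Helper280.QN.Jcolnull
import Pool.Agent.Helper280.QN.Jkill
import Pool.Agent.Helper280.QN.Jliecase1
import Pool.Agent.Helper280.QN.Jliecase2
import Pool.Agent.Helper280.QN.Jliecase3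
import Pool.Agent.Helper280.QN.Jclx
import Pool.Agent.Helper280.QN.Jclf

set_option autoImplicit false

namespace Pool.Agent.Helper280.QN

section detect
variable {X : Type*} [NormedAddCommGroup X] [NormedSpace ℂ X]

theorem Cl.left {k : Kind} {T1 T2 : X →L[ℂ] X} (h : ¬ Triv k T1) : Cl k T1 T2 T1 :=
  ⟨h, fun _ h1 _ => h1⟩

theorem Cl.right {k : Kind} {T1 T2 : X →L[ℂ] X} (h : ¬ Triv k T2) : Cl k T1 T2 T2 :=
  ⟨h, fun _ _ h2 => h2⟩

theorem Cl.symm {k : Kind} {T1 T2 A : X →L[ℂ] X} (h : Cl k T1 T2 A) : Cl k T2 T1 A :=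
  ⟨h.1, fun S h1 h2 => h.2 S h2 h1⟩

theorem Pair.symm {k : Kind} {T1 T2 : X →L[ℂ] X} (h : Pair k T1 T2) : Pair k T2 T1 where
  n1 := h.n2
  n2 := h.n1
  ne := fun hr => h.ne fun S => (hr S).symm
  E := fun S => by
    obtain ⟨A, hA, hAS⟩ := h.E S
    exact ⟨A, hA.symm, hAS⟩
  U := fun S A B hA hB hne h1 h2 C hC => h.U S A B hA.symm hB.symm hne h1 h2 C hC.symm

theorem RowEq.triv {k : Kind} {T T' : X →L[ℂ] X} (h : RowEq k T T') : Triv k T ↔ Triv k T' :=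
  ⟨fun h1 S => (h S).1 (h1 S), fun h1 S => (h S).2 (h1 S)⟩

theorem Cl.congr {k : Kind} {T1 T2 T1' T2' A : X →L[ℂ] X} (h1 : RowEq k T1 T1')
    (h2 : RowEq k T2 T2') : Cl k T1 T2 A ↔ Cl k T1' T2' A := by
  constructor
  · rintro ⟨h, h'⟩
    exact ⟨h, fun S a b => h' S ((h1 S).2 a) ((h2 S).2 b)⟩
  · rintro ⟨h, h'⟩
    exact ⟨h, fun S a b => h' S ((h1 S).1 a) ((h2 S).1 b)⟩

theorem Pair.congr {k : Kind} {T1 T2 T1' T2' : X →L[ℂ] X} (h1 : RowEq k T1 T1')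
    (h2 : RowEq k T2 T2') (h : Pair k T1 T2) : Pair k T1' T2' where
  n1 := fun ht => h.n1 (h1.triv.2 ht)
  n2 := fun ht => h.n2 (h2.triv.2 ht)
  ne := fun hr => h.ne fun S => (h1 S).trans ((hr S).trans (h2 S).symm)
  E := fun S => by
    obtain ⟨A, hA, hAS⟩ := h.E S
    exact ⟨A, (Cl.congr h1 h2).1 hA, hAS⟩
  U := fun S A B hA hB hne a b C hC => h.U S A B ((Cl.congr h1 h2).2 hA) ((Cl.congr h1 h2).2 hB)
    hne a b C ((Cl.congr h1 h2).2 hC)

theorem Pair.mset {k : Kind} {T1 T2 : X →L[ℂ] X} (hP : Pair k T1 T2) (u : Fin 2 → X)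
    (g : Fin 2 → (X →L[ℂ] ℂ))
    (hcol : ∀ c : M2, ∃ S : X →L[ℂ] X, ∀ T, rel k T S ↔ Nil2 (CC u g T * c)) :
    Jmset.MSet ((fun A => CC u g A) '' {A | Cl k T1 T2 A}) (CC u g T1) (CC u g T2) where
  mem1 := ⟨T1, Cl.left hP.n1, rfl⟩
  mem2 := ⟨T2, Cl.right hP.n2, rfl⟩
  cl := by
    rintro n ⟨A, hA, rfl⟩ c h1 h2
    obtain ⟨S, hS⟩ := hcol c
    exact (hS A).1 (hA.2 S ((hS T1).2 h1) ((hS T2).2 h2))
  E := by
    intro c
    obtain ⟨S, hS⟩ := hcol c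
    obtain ⟨A, hA, hAS⟩ := hP.E S
    exact ⟨_, ⟨A, hA, rfl⟩, (hS A).1 hAS⟩
  U := by
    rintro c m ⟨A, hA, rfl⟩ n ⟨B, hB, rfl⟩ ⟨c', hc'⟩ h1 h2 p ⟨C, hC, rfl⟩
    obtain ⟨S, hS⟩ := hcol c
    refine (hS C).1 (hP.U S A B hA hB ?_ ((hS A).2 h1) ((hS B).2 h2) C hC)
    intro hrow
    obtain ⟨S', hS'⟩ := hcol c'
    exact hc' ((hS' A).symm.trans ((hrow S').trans (hS' B)))

theorem GoodPair.pair {T : X →L[ℂ] X} {u v : X} (h : GoodPair T u v) :
    LinearIndependent ℂ ![u, v] := by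
  unfold GoodPair at h
  have := h.comp (![0, 1] : Fin 2 → Fin 4) (by intro i j; fin_cases i <;> fin_cases j <;> simp)
  convert this using 1
  ext i
  fin_cases i <;> rfl

theorem li_of_CC_one {T : X →L[ℂ] X} {u : Fin 2 → X} {g : Fin 2 → (X →L[ℂ] ℂ)}
    (h : CC u g T = 1) : LinearIndependent ℂ g := by
  rw [Fintype.linearIndependent_iff]
  intro c hc i
  have h1 : ∀ j, ∑ l, c l * g l (T (u j)) = 0 := by
    intro j
    have := congrArg (fun k : X →L[ℂ] ℂ => k (T (u j))) hc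
    simpa using this
  have h2 : ∀ l j, g l (T (u j)) = if l = j then 1 else 0 := by
    intro l j
    have := congrFun (congrFun h l) j
    simpa [CC, Matrix.one_apply] using this
  have h3 := h1 i
  simp only [h2] at h3
  simpa using h3

theorem block_col {k : Kind} {T : X →L[ℂ] X} {u v : X} (h : GoodPair T u v)
    {g : Fin 2 → (X →L[ℂ] ℂ)} (hg : ∀ i, g i u = 0 ∧ g i v = 0) (hT : CC ![u, v] g T = 1)
    (c : M2) : ∃ S : X →L[ℂ] X, ∀ T, rel k T S ↔ Nil2 (CC ![u, v] g T * c) := by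
  refine Jcolblock.col_block k ![u, v] g h.pair (li_of_CC_one hT) ?_ c
  intro i j
  fin_cases j
  · exact (hg i).1
  · exact (hg i).2

theorem Pair.span {k : Kind} {T1 T2 : X →L[ℂ] X} (hP : Pair k T1 T2) (u0 v0 : X)
    (h0 : GoodPair T1 u0 v0) : ∃ a b : ℂ, T2 = a • 1 + b • T1 := by
  refine Jspanblocks.span_of_blocks T1 T2 u0 v0 h0 ?_
  intro u v huv g hg hT
  have hm := hP.mset ![u, v] g (block_col huv hg hT)
  rw [hT] at hm
  exact hm.scalar

theorem CC_comb (u : Fin 2 → X) (g : Fin 2 → (X →L[ℂ] ℂ)) (h0 : ∀ i j, g i (u j) = 0)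
    (T : X →L[ℂ] X) (a b : ℂ) : CC u g (a • 1 + b • T) = b • CC u g T := by
  ext i j
  simp [CC, h0]

theorem nil2_smul {m : M2} (h : Nil2 m) (b : ℂ) : Nil2 (b • m) := by
  constructor
  · rw [Matrix.trace_smul, h.1, smul_zero]
  · rw [Matrix.det_smul, h.2, mul_zero]

theorem Pair.span_cl {k : Kind} {T1 T2 : X →L[ℂ] X} (hP : Pair k T1 T2) (u0 v0 : X)
    (h0 : GoodPair T1 u0 v0) (A : X →L[ℂ] X) (hA : Cl k T1 T2 A) :
    ∃ a b : ℂ, A = a • 1 + b • T1 := by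
  obtain ⟨a, b, hab⟩ := hP.span u0 v0 h0
  refine Jspanblocks.span_of_blocks T1 A u0 v0 h0 ?_
  intro u v huv g hg hT
  have hm := hP.mset ![u, v] g (block_col huv hg hT)
  apply Jmset.scalar_of_nil
  intro c hc
  refine hm.cl _ ⟨A, hA, rfl⟩ c ?_ ?_
  · rw [hT, one_mul]; exact hc
  · rw [hab, CC_comb, hT, smul_mul_assoc, one_mul]
    · exact nil2_smul hc b
    · intro i j
      fin_cases j
      · exact (hg i).1
      · exact (hg i).2

theorem Pair.no_good {k : Kind} (hk : k ≠ Kind.lie) {T1 T2 : X →L[ℂ] X} (hP : Pair k T1 T2)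
    (u0 v0 : X) (h0 : GoodPair T1 u0 v0) : False := by
  obtain ⟨S, hS⟩ := Jkill.kill_scalar k hk T1 u0 v0 h0
  obtain ⟨A, hA, hAS⟩ := hP.E S
  obtain ⟨a, b, rfl⟩ := hP.span_cl u0 v0 h0 A hA
  obtain ⟨rfl, rfl⟩ := hS a b hAS
  apply hA.1
  intro S'
  rw [zero_smul, zero_smul, add_zero]
  exact rel_zero_left k S'

theorem Pair.no_good_lie {T1 T2 : X →L[ℂ] X} (hP : Pair Kind.lie T1 T2)
    (u0 v0 : X) (h0 : GoodPair T1 u0 v0) : False := by
  obtain ⟨a, b, rfl⟩ := hP.span u0 v0 h0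
  by_cases hb : b = 0
  · apply hP.n2
    intro S
    rw [hb, zero_smul, add_zero]
    exact rel_lie_scalar S a
  · apply hP.ne
    intro S
    exact (rel_lie_comb T1 S a b hb).symm

theorem Pair.form {k : Kind} (hd : Dim4 X) {T1 T2 : X →L[ℂ] X} (hP : Pair k T1 T2) :
    ∃ (a : ℂ) (x : X) (f : X →L[ℂ] ℂ), T1 = a • 1 + rk x f := by
  rcases Jgoodpair.goodPair_or hd T1 with ⟨u, v, h⟩ | h
  · exfalso
    by_cases hk : k = Kind.lie
    · subst hk
      exact hP.no_good_lie u v h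
    · exact hP.no_good hk u v h
  · exact h

theorem exists_ker_ne (hd : Dim4 X) (f : X →L[ℂ] ℂ) : ∃ w, w ≠ 0 ∧ f w = 0 := by
  obtain ⟨v, hv⟩ := hd
  by_cases h : f (v 0) = 0
  · exact ⟨v 0, hv.ne_zero 0, h⟩
  · refine ⟨v 1 - (f (v 1) / f (v 0)) • v 0, ?_, ?_⟩
    · intro h0
      have := Fintype.linearIndependent_iff.1 hv ![-(f (v 1) / f (v 0)), 1, 0, 0] (by
        simp [Fin.sum_univ_four]
        rw [← h0]; abel) 1
      simp at this
    · rw [map_sub, map_smul, smul_eq_mul, div_mul_cancel₀ _ h, sub_self]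

theorem Good.n1 {k : Kind} (hk : k ≠ Kind.lie) (hd : Dim4 X) {T1 : X →L[ℂ] X}
    (h : Good k T1) : N1 k T1 := by
  obtain ⟨hself, T2, hP⟩ := h
  obtain ⟨a, x, f, hT⟩ := hP.form hd
  have hQ : Qn T1 := (rel_self k hk T1).1 hself
  obtain ⟨w, hw, hfw⟩ := exists_ker_ne hd f
  have ha : a = 0 := by
    by_contra ha
    refine not_Qn_of_eigen T1 w a hw ha ?_ hQ
    rw [hT]
    simp [hfw]
  subst ha
  have hT' : T1 = rk x f := by rw [hT]; simp
  have hne : T1 ≠ 0 := by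
    rintro rfl
    exact hP.n1 fun S => rel_zero_left k S
  have hx : x ≠ 0 := by
    rintro rfl
    apply hne
    rw [hT']; ext v; simp
  have hf : f ≠ 0 := by
    rintro rfl
    apply hne
    rw [hT']; ext v; simp
  refine ⟨x, f, 0, hx, hf, ?_, fun _ => rfl, by rw [hT']; simp⟩
  rw [hT', Qn_rank_one] at hQ
  exact hQ

theorem rel_lie_rk' (d : ℂ) (x : X) (f : X →L[ℂ] ℂ) (S : X →L[ℂ] X) :
    rel Kind.lie (d • 1 + rk x f) S ↔ f (S x) ^ 2 = f x * f (S (S x)) := by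
  rw [← rel_lie_rk x f S]
  have := rel_lie_add (rk x f) S d 0
  rw [zero_smul, add_zero, add_comm (rk x f)] at this
  exact this

theorem rowEq_lie_add (d : ℂ) (T : X →L[ℂ] X) : RowEq Kind.lie (d • 1 + T) T := by
  intro S
  have := rel_lie_add T S d 0
  rw [zero_smul, add_zero, add_comm T] at this
  exact this

end detect

end Pool.Agent.Helper280.QN
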