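import Mathlib
import Pool.Agent.Helper280.QN.A

set_option autoImplicit false

namespace Pool.Agent.Helper280.QN.Jclna



section sk2
variable {X : Type*} [NormedAddCommGroup X] [NormedSpace ℂ X]

theorem cna_room (hd : Dim4 X) (m : ℕ) (Φ : X →ₗ[ℂ] (Fin m → ℂ)) (p : Submodule ℂ X)
    [FiniteDimensional ℂ p] (hp : Module.finrank ℂ p + m < 4) : ∃ u, Φ u = 0 ∧ u ∉ p := by
  by_contra hcon
  push Not at hcon
  obtain ⟨v, hv⟩ := hd
  set E : (Fin 4 → ℂ) →ₗ[ℂ] X := Fintype.linearCombination ℂ v with hE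
  have hEinj : Function.Injective E := by
    exact linearIndependent_iff_injective_fintypeLinearCombination.mp hv
  set Ψ : (Fin 4 → ℂ) →ₗ[ℂ] (Fin m → ℂ) := Φ ∘ₗ E with hΨ
  have h1 := LinearMap.finrank_range_add_finrank_ker Ψ
  have h2 : Module.finrank ℂ (LinearMap.range Ψ) ≤ m := by
    have := Submodule.finrank_le (LinearMap.range Ψ)
    simpa using this
  have h3 : Module.finrank ℂ (LinearMap.ker Ψ) ≤ Module.finrank ℂ p := by
    let F : LinearMap.ker Ψ →ₗ[ℂ] p :=
      LinearMap.codRestrict p (E ∘ₗ (LinearMap.ker Ψ).subtype) (by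
        intro c
        apply hcon
        have := c.2
        rw [LinearMap.mem_ker] at this
        exact this)
    have hF : Function.Injective F := by
      intro a b hab
      have h4 : E a = E b := congrArg Subtype.val hab
      exact Subtype.ext (hEinj h4)
    exact LinearMap.finrank_le_finrank_of_injective hF
  have h4 : Module.finrank ℂ (Fin 4 → ℂ) = 4 := by simp
  omega

theorem cna_sep (p : Submodule ℂ X) [FiniteDimensional ℂ p] (z : X) (hz : z ∉ p) :
    ∃ k : X →L[ℂ] ℂ, (∀ s ∈ p, k s = 0) ∧ k z ≠ 0 := by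
  obtain ⟨f, hf1, hf2⟩ := Submodule.exists_le_ker_of_notMem hz
  let q : Submodule ℂ X := p ⊔ Submodule.span ℂ {z}
  have : FiniteDimensional ℂ q := Submodule.finiteDimensional_sup _ _
  let f' : q →L[ℂ] ℂ := LinearMap.toContinuousLinearMap (f.domRestrict q)
  obtain ⟨g, hg, -⟩ := exists_extension_norm_eq q f'
  refine ⟨g, ?_, ?_⟩
  · intro s hs
    have hsq : s ∈ q := Submodule.mem_sup_left hs
    have h1 := hg ⟨s, hsq⟩
    have h2 : f' ⟨s, hsq⟩ = f s := rfl
    have h3 : f s = 0 := hf2 hs
    rw [h2, h3] at h1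
    exact h1
  · have hzq : z ∈ q := Submodule.mem_sup_right (Submodule.mem_span_singleton_self z)
    have h1 := hg ⟨z, hzq⟩
    have h2 : f' ⟨z, hzq⟩ = f z := rfl
    rw [h2] at h1
    have h3 : g z = f z := h1
    rw [h3]
    exact hf1

theorem cna_dual {m : ℕ} (v : Fin m → X) (hv : LinearIndependent ℂ v) (c : Fin m → ℂ) :
    ∃ k : X →L[ℂ] ℂ, ∀ i, k (v i) = c i := by
  let q : Submodule ℂ X := Submodule.span ℂ (Set.range v)
  have : FiniteDimensional ℂ q := FiniteDimensional.span_of_finite ℂ (Set.finite_range v)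
  let B := Module.Basis.span hv
  let f : q →ₗ[ℂ] ℂ := B.constr ℂ c
  let f' : q →L[ℂ] ℂ := LinearMap.toContinuousLinearMap f
  obtain ⟨g, hg, -⟩ := exists_extension_norm_eq q f'
  refine ⟨g, fun i => ?_⟩
  have h1 := hg (B i)
  have h2 : f' (B i) = c i := B.constr_basis ℂ c i
  have h3 : ((B i : q) : X) = v i := congrArg Subtype.val (Module.Basis.span_apply hv i)
  rw [h2, h3] at h1
  exact h1

theorem cna_base (f g : X →L[ℂ] ℂ) (hfg : LinearIndependent ℂ ![f, g]) :
    ∃ u, f u = 0 ∧ g u = 1 := by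
  rw [LinearIndependent.pair_iff] at hfg
  by_cases h : ∀ u, f u = 0 → g u = 0
  · exfalso
    by_cases hf : ∀ w, f w = 0
    · have : f = 0 := by ext w; exact hf w
      have h2 := hfg 1 0 (by rw [this]; simp)
      exact one_ne_zero h2.1
    · push Not at hf
      obtain ⟨w, hw⟩ := hf
      have h2 := hfg (-(g w / f w)) 1 (by
        ext v
        have h3 := h (v - (f v / f w) • w) (by
          rw [map_sub, map_smul, smul_eq_mul]
          field_simp
          ring)
        rw [map_sub, map_smul, smul_eq_mul] at h3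
        show -(g w / f w) * f v + 1 * g v = 0
        have h4 : g v = f v / f w * g w := by linear_combination h3
        rw [h4]
        field_simp
        ring)
      exact one_ne_zero h2.2
  · push Not at h
    obtain ⟨u, hu1, hu2⟩ := h
    refine ⟨(g u)⁻¹ • u, ?_, ?_⟩
    · rw [map_smul, hu1, smul_zero]
    · rw [map_smul, smul_eq_mul, inv_mul_cancel₀ hu2]

theorem cna_choose (hd : Dim4 X) (x y : X) (f g : X →L[ℂ] ℂ)
    (hfg : LinearIndependent ℂ ![f, g]) :
    ∃ u, f u = 0 ∧ g u = 1 ∧ u ∉ Submodule.span ℂ ({x, y} : Set X) := by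
  classical
  obtain ⟨u, hu1, hu2⟩ := cna_base f g hfg
  by_cases hu : u ∈ Submodule.span ℂ ({x, y} : Set X)
  swap
  · exact ⟨u, hu1, hu2, hu⟩
  set P := Submodule.span ℂ ({x, y} : Set X) with hP
  have hfin : FiniteDimensional ℂ P := FiniteDimensional.span_of_finite ℂ (Set.toFinite _)
  have hP2 : Module.finrank ℂ P ≤ 2 := by
    have h1 := finrank_span_finset_le_card (R := ℂ) ({x, y} : Finset X)
    have h2 : (({x, y} : Finset X) : Set X) = ({x, y} : Set X) := by simp
    unfold Set.finrank at h1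
    rw [h2] at h1
    exact h1.trans Finset.card_le_two
  let p' : Submodule ℂ X := P ⊓ LinearMap.ker (g : X →ₗ[ℂ] ℂ)
  have hlt : p' < P := by
    refine lt_of_le_of_ne inf_le_left ?_
    intro he
    have : u ∈ p' := by rw [he]; exact hu
    have h3 : g u = 0 := this.2
    rw [hu2] at h3
    exact one_ne_zero h3
  have hfin' : FiniteDimensional ℂ p' := Submodule.finiteDimensional_inf_left _ _
  have hlt2 := Submodule.finrank_lt_finrank_of_lt hlt
  obtain ⟨w, hw1, hw2⟩ := cna_room hd 2
    (LinearMap.pi ![(f : X →ₗ[ℂ] ℂ), (g : X →ₗ[ℂ] ℂ)]) p' (by omega)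
  have hfw : f w = 0 := by
    have := congrFun hw1 0
    simpa using this
  have hgw : g w = 0 := by
    have := congrFun hw1 1
    simpa using this
  refine ⟨u + w, ?_, ?_, ?_⟩
  · rw [map_add, hu1, hfw, add_zero]
  · rw [map_add, hu2, hgw, add_zero]
  · intro hmem
    apply hw2
    refine ⟨?_, hgw⟩
    have : w = (u + w) - u := by abel
    rw [this]
    exact P.sub_mem hmem hu

theorem cna_k (x y u : X) (hxy : LinearIndependent ℂ ![x, y])
    (hu : u ∉ Submodule.span ℂ ({x, y} : Set X)) (a b : ℂ) :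
    ∃ k : X →L[ℂ] ℂ, k u = 0 ∧ k x = a ∧ k y = b := by
  have hli : LinearIndependent ℂ (Fin.cons u ![x, y] : Fin 3 → X) := by
    rw [linearIndependent_finCons]
    refine ⟨hxy, ?_⟩
    have : Set.range ![x, y] = ({x, y} : Set X) := by
      simp [Set.pair_comm]
    rw [this]
    exact hu
  obtain ⟨k, hk⟩ := cna_dual _ hli ![0, a, b]
  exact ⟨k, hk 0, hk 1, hk 2⟩

theorem cl_nonadj (hd : Dim4 X) (x y z : X) (f g h : X →L[ℂ] ℂ) (hz : z ≠ 0) (hh : h ≠ 0)
    (hfx : f x = 0) (hgy : g y = 0)
    (hxy : LinearIndependent ℂ ![x, y]) (hfg : LinearIndependent ℂ ![f, g])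
    (h1 : ∀ (u : X) (k : X →L[ℂ] ℂ), k u = 0 → k x * f u = 0 → k y * g u = 0 → k z * h u = 0) :
    ((∃ a : ℂ, z = a • x) ∧ (∃ b : ℂ, h = b • f)) ∨
      ((∃ a : ℂ, z = a • y) ∧ (∃ b : ℂ, h = b • g)) := by
  classical
  have hgf : LinearIndependent ℂ ![g, f] := by
    rw [LinearIndependent.pair_iff] at hfg ⊢
    intro s t hst
    have := hfg t s (by rw [add_comm]; exact hst)
    exact ⟨this.2, this.1⟩
  -- step 1
  have s1 : ∀ u, f u = 0 → g u = 0 → h u = 0 := by
    intro u hfu hgu
    by_contra hhu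
    have hzspan : ∀ w : X, f w = 0 → g w = 0 → h w ≠ 0 → z ∈ Submodule.span ℂ ({w} : Set X) := by
      intro w hfw hgw hhw
      by_contra hnot
      obtain ⟨k, hk1, hk2⟩ := cna_sep _ z hnot
      have hkw : k w = 0 := hk1 w (Submodule.mem_span_singleton_self w)
      have := h1 w k hkw (by rw [hfw, mul_zero]) (by rw [hgw, mul_zero])
      exact (mul_ne_zero hk2 hhw) this
    have hfr : Module.finrank ℂ (Submodule.span ℂ ({u} : Set X)) ≤ 1 := by
      have h1 := finrank_span_finset_le_card (R := ℂ) ({u} : Finset X)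
      have h2 : (({u} : Finset X) : Set X) = ({u} : Set X) := by simp
      unfold Set.finrank at h1
      rw [h2] at h1
      simpa using h1
    obtain ⟨u', hu'1, hu'2⟩ := cna_room hd 2
      (LinearMap.pi ![(f : X →ₗ[ℂ] ℂ), (g : X →ₗ[ℂ] ℂ)]) (Submodule.span ℂ ({u} : Set X))
      (by omega)
    have hfw : f u' = 0 := by
      have := congrFun hu'1 0
      simpa using this
    have hgw : g u' = 0 := by
      have := congrFun hu'1 1
      simpa using this
    obtain ⟨t, ht0, ht⟩ : ∃ t : ℂ, t ≠ 0 ∧ h (u + t • u') ≠ 0 := by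
      by_cases hc : h (u + (1 : ℂ) • u') = 0
      · refine ⟨-1, by norm_num, ?_⟩
        rw [map_add, map_smul, smul_eq_mul] at hc ⊢
        intro hc2
        apply hhu
        linear_combination (hc + hc2) / 2
      · exact ⟨1, one_ne_zero, hc⟩
    have m1 := hzspan u hfu hgu hhu
    have m2 := hzspan (u + t • u') (by rw [map_add, map_smul, hfu, hfw, smul_zero, add_zero])
      (by rw [map_add, map_smul, hgu, hgw, smul_zero, add_zero]) ht
    rw [Submodule.mem_span_singleton] at m1 m2
    obtain ⟨a, ha⟩ := m1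
    obtain ⟨b, hb⟩ := m2
    have hb0 : b ≠ 0 := by
      rintro rfl
      rw [zero_smul] at hb
      exact hz hb.symm
    apply hu'2
    rw [Submodule.mem_span_singleton]
    refine ⟨(b * t)⁻¹ * (a - b), ?_⟩
    have e1 : (a - b) • u = (b * t) • u' := by
      rw [sub_smul, ha, ← hb, smul_add, smul_smul]
      abel
    rw [← smul_smul, e1, smul_smul, inv_mul_cancel₀ (mul_ne_zero hb0 ht0), one_smul]
  obtain ⟨u1, hu1f, hu1g, hu1n⟩ := cna_choose hd x y g f hgf
  obtain ⟨u2, hu2f, hu2g, hu2n⟩ := cna_choose hd x y f g hfg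
  have hhe : ∀ v, h v = h u1 * f v + h u2 * g v := by
    intro v
    have := s1 (v - f v • u1 - g v • u2) (by
      rw [map_sub, map_sub, map_smul, map_smul, hu1g, hu2f]
      simp) (by
      rw [map_sub, map_sub, map_smul, map_smul, hu1f, hu2g]
      simp)
    rw [map_sub, map_sub, map_smul, map_smul, smul_eq_mul, smul_eq_mul] at this
    linear_combination this
  -- step 2
  have s2 : z ∈ Submodule.span ℂ ({x, y} : Set X) := by
    by_contra hnot
    have hsub : ∀ u, h u ≠ 0 → u ∈ Submodule.span ℂ ({z, x, y} : Set X) := by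
      intro u hu
      have hz3 : z ∈ Submodule.span ℂ ({u, x, y} : Set X) := by
        by_contra hn
        have hfd : FiniteDimensional ℂ (Submodule.span ℂ ({u, x, y} : Set X)) :=
          FiniteDimensional.span_of_finite ℂ (Set.toFinite _)
        obtain ⟨k, hk1, hk2⟩ := cna_sep _ z hn
        have hku : k u = 0 := hk1 u (Submodule.subset_span (by simp))
        have hkx : k x = 0 := hk1 x (Submodule.subset_span (by simp))
        have hky : k y = 0 := hk1 y (Submodule.subset_span (by simp))
        have := h1 u k hku (by rw [hkx, zero_mul]) (by rw [hky, zero_mul])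
        exact (mul_ne_zero hk2 hu) this
      rw [Submodule.mem_span_insert] at hz3
      obtain ⟨a, w, hw, hzw⟩ := hz3
      have ha : a ≠ 0 := by
        rintro rfl
        apply hnot
        rw [hzw, zero_smul, zero_add]
        exact hw
      have hu3 : u = a⁻¹ • (z - w) := by
        rw [hzw, add_sub_cancel_right, smul_smul, inv_mul_cancel₀ ha, one_smul]
      rw [hu3]
      apply Submodule.smul_mem
      apply Submodule.sub_mem
      · exact Submodule.subset_span (by simp)
      · exact Submodule.span_mono (by intro q hq; exact Set.mem_insert_of_mem _ hq) hw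
    obtain ⟨u0, hu0⟩ : ∃ u0, h u0 ≠ 0 := by
      by_contra hc
      push Not at hc
      exact hh (by ext v; exact hc v)
    have hfd : FiniteDimensional ℂ (Submodule.span ℂ ({z, x, y} : Set X)) :=
      FiniteDimensional.span_of_finite ℂ (Set.toFinite _)
    have hfr : Module.finrank ℂ (Submodule.span ℂ ({z, x, y} : Set X)) ≤ 3 := by
      have h1 := finrank_span_finset_le_card (R := ℂ) ({z, x, y} : Finset X)
      have h2 : (({z, x, y} : Finset X) : Set X) = ({z, x, y} : Set X) := by simp
      unfold Set.finrank at h1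
      rw [h2] at h1
      exact h1.trans Finset.card_le_three
    obtain ⟨w, -, hw⟩ := cna_room hd 0 0 (Submodule.span ℂ ({z, x, y} : Set X)) (by omega)
    apply hw
    by_cases hhw : h w = 0
    · have e1 := hsub (u0 + w) (by rw [map_add, hhw, add_zero]; exact hu0)
      have e2 := hsub u0 hu0
      have : w = (u0 + w) - u0 := by abel
      rw [this]
      exact Submodule.sub_mem _ e1 e2
    · exact hsub w hhw
  rw [Submodule.mem_span_pair] at s2
  obtain ⟨a, b, hab⟩ := s2
  -- step 3
  have e1 : a * h u2 = 0 := by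
    obtain ⟨k, hk1, hk2, hk3⟩ := cna_k x y u2 hxy hu2n 1 0
    have := h1 u2 k hk1 (by rw [hu2f, mul_zero]) (by rw [hk3, zero_mul])
    rw [← hab, map_add, map_smul, map_smul, hk2, hk3] at this
    simpa using this
  have e2 : b * h u1 = 0 := by
    obtain ⟨k, hk1, hk2, hk3⟩ := cna_k x y u1 hxy hu1n 0 1
    have := h1 u1 k hk1 (by rw [hk2, zero_mul]) (by rw [hu1f, mul_zero])
    rw [← hab, map_add, map_smul, map_smul, hk2, hk3] at this
    simpa using this
  by_cases ha : a = 0
  · right
    have hb : b ≠ 0 := by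
      rintro rfl
      rw [ha, zero_smul, zero_smul, add_zero] at hab
      exact hz hab.symm
    have hc : h u1 = 0 := (mul_eq_zero.mp e2).resolve_left hb
    refine ⟨⟨b, ?_⟩, ⟨h u2, ?_⟩⟩
    · rw [← hab, ha, zero_smul, zero_add]
    · ext v
      rw [hhe v, hc, zero_mul, zero_add]
      rfl
  · left
    have he : h u2 = 0 := (mul_eq_zero.mp e1).resolve_left ha
    have hc : h u1 ≠ 0 := by
      intro hc
      apply hh
      ext v
      rw [hhe v, hc, he]
      simp
    have hb : b = 0 := (mul_eq_zero.mp e2).resolve_right hc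
    refine ⟨⟨a, ?_⟩, ⟨h u1, ?_⟩⟩
    · rw [← hab, hb, zero_smul, add_zero]
    · ext v
      rw [hhe v, he, zero_mul, add_zero]
      rfl



end sk2


end Pool.Agent.Helper280.QN.Jclna
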