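import Mathlib
import Pool.Agent.Helper280.QN.Basic

set_option autoImplicit false

namespace Pool.Agent.Helper280.QN.Jcorr



section sk1

/-- Proportional by a nonzero factor. -/
def Par {V : Type*} [AddCommGroup V] [Module ℂ V] (a b : V) : Prop := ∃ c : ℂ, c ≠ 0 ∧ b = c • a

/-- A flag: nonzero vector and nonzero functional vanishing on it. -/
def Flag {X : Type*} [NormedAddCommGroup X] [NormedSpace ℂ X] (x : X) (f : X →L[ℂ] ℂ) : Prop :=
  x ≠ 0 ∧ f ≠ 0 ∧ f x = 0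

theorem Par.refl' {V : Type*} [AddCommGroup V] [Module ℂ V] (a : V) : Par a a :=
  ⟨1, one_ne_zero, (one_smul ℂ a).symm⟩

theorem Par.symm' {V : Type*} [AddCommGroup V] [Module ℂ V] {a b : V} (h : Par a b) : Par b a := by
  obtain ⟨c, hc, rfl⟩ := h
  exact ⟨c⁻¹, inv_ne_zero hc, by rw [smul_smul, inv_mul_cancel₀ hc, one_smul]⟩

theorem Par.trans' {V : Type*} [AddCommGroup V] [Module ℂ V] {a b d : V} (h : Par a b)
    (h' : Par b d) : Par a d := by
  obtain ⟨c, hc, rfl⟩ := h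
  obtain ⟨c', hc', rfl⟩ := h'
  exact ⟨c' * c, mul_ne_zero hc' hc, by rw [smul_smul]⟩

theorem par_equiv {V W : Type*} [AddCommGroup V] [Module ℂ V] (F : W → V) :
    Equivalence (fun p q : W => Par (F p) (F q)) :=
  ⟨fun _ => Par.refl' _, fun h => h.symm', fun h h' => h.trans' h'⟩

/-- two functionals have a common nonzero zero -/
theorem exists_common_zero {X : Type*} [NormedAddCommGroup X] [NormedSpace ℂ X] (hdX : Dim4 X)
    (f g : X →L[ℂ] ℂ) : ∃ y : X, y ≠ 0 ∧ f y = 0 ∧ g y = 0 := by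
  obtain ⟨v, hv⟩ := hdX
  let T : (Fin 4 → ℂ) →ₗ[ℂ] (Fin 2 → ℂ) :=
    { toFun := fun a => ![f (∑ i, a i • v i), g (∑ i, a i • v i)]
      map_add' := by
        intro a b
        ext j
        fin_cases j <;> simp [add_smul, Finset.sum_add_distrib]
      map_smul' := by
        intro c a
        ext j
        fin_cases j <;> simp [mul_assoc, Finset.mul_sum] }
  have hker : LinearMap.ker T ≠ ⊥ := by
    apply LinearMap.ker_ne_bot_of_finrank_lt
    simp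
  obtain ⟨a, ha, ha0⟩ := Submodule.exists_mem_ne_zero_of_ne_bot hker
  rw [LinearMap.mem_ker] at ha
  refine ⟨∑ i, a i • v i, ?_, ?_, ?_⟩
  · intro h
    apply ha0
    rw [Fintype.linearIndependent_iff] at hv
    ext i
    exact hv a h i
  · exact congrFun ha 0
  · exact congrFun ha 1

/-- dual vectors -/
theorem exists_dual_fam {X : Type*} [NormedAddCommGroup X] [NormedSpace ℂ X] {v : Fin 4 → X}
    (hv : LinearIndependent ℂ v) : ∃ φ : Fin 4 → (X →L[ℂ] ℂ),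
      ∀ i j, φ i (v j) = if i = j then 1 else 0 := by
  classical
  have h : ∀ i, ∃ φ : X →L[ℂ] ℂ, ∀ j, φ (v j) = if i = j then 1 else 0 := by
    intro i
    let E := Submodule.span ℂ (Set.range v)
    let B : Module.Basis (Fin 4) ℂ E := Module.Basis.span hv
    haveI : FiniteDimensional ℂ E := B.finiteDimensional_of_finite
    obtain ⟨φ, hφ, _⟩ := exists_extension_norm_eq E (LinearMap.toContinuousLinearMap (B.coord i))
    refine ⟨φ, fun j => ?_⟩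
    have h1 := hφ (B j)
    have h2 : ((B j : E) : X) = v j := by
      simp only [B]
      rw [Module.Basis.span_apply]
    rw [h2] at h1
    rw [h1]
    simp only [LinearMap.coe_toContinuousLinearMap', Module.Basis.coord_apply,
      Module.Basis.repr_self, Finsupp.single_apply]
    by_cases hij : i = j
    · rw [if_pos hij, if_pos hij.symm]
    · rw [if_neg hij, if_neg (Ne.symm hij)]
  choose φ hφ using h
  exact ⟨φ, hφ⟩

/-- two vectors are killed by a common nonzero functional -/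
theorem exists_common_kill {X : Type*} [NormedAddCommGroup X] [NormedSpace ℂ X] (hdX : Dim4 X)
    (x y : X) : ∃ h : X →L[ℂ] ℂ, h ≠ 0 ∧ h x = 0 ∧ h y = 0 := by
  obtain ⟨v, hv⟩ := hdX
  obtain ⟨φ, hφ⟩ := exists_dual_fam hv
  let T : (Fin 4 → ℂ) →ₗ[ℂ] (Fin 2 → ℂ) :=
    { toFun := fun a => ![∑ i, a i * φ i x, ∑ i, a i * φ i y]
      map_add' := by
        intro a b
        ext j
        fin_cases j <;> simp [add_mul, Finset.sum_add_distrib]
      map_smul' := by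
        intro c a
        ext j
        fin_cases j <;> simp [mul_assoc, Finset.mul_sum] }
  have hker : LinearMap.ker T ≠ ⊥ := by
    apply LinearMap.ker_ne_bot_of_finrank_lt
    simp
  obtain ⟨a, ha, ha0⟩ := Submodule.exists_mem_ne_zero_of_ne_bot hker
  rw [LinearMap.mem_ker] at ha
  have happ : ∀ z : X, (∑ i, a i • φ i) z = ∑ i, a i * φ i z := by
    intro z
    rw [_root_.sum_apply]
    rfl
  refine ⟨∑ i, a i • φ i, ?_, ?_, ?_⟩
  · intro h
    apply ha0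
    ext j
    have h1 := happ (v j)
    rw [h] at h1
    simp only [hφ, mul_ite, mul_one, mul_zero, Finset.sum_ite_eq', Finset.mem_univ, if_true] at h1
    exact h1.symm
  · rw [happ]; exact congrFun ha 0
  · rw [happ]; exact congrFun ha 1

theorem corr_of_flagmap {X Y : Type*} [NormedAddCommGroup X] [NormedSpace ℂ X]
    [NormedAddCommGroup Y] [NormedSpace ℂ Y] (hdX : Dim4 X) (hdY : Dim4 Y)
    (htypes : ∀ (R1 R2 S1 S2 : {p : X × (X →L[ℂ] ℂ) // Flag p.1 p.2} →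
        {p : X × (X →L[ℂ] ℂ) // Flag p.1 p.2} → Prop),
      Equivalence R1 → Equivalence R2 → Equivalence S1 → Equivalence S2 →
      (∀ p q, (R1 p q ∨ R2 p q) ↔ (S1 p q ∨ S2 p q)) →
      (∀ p q, (R1 p q ∧ R2 p q) ↔ (S1 p q ∧ S2 p q)) →
      (∀ p, ∃ q, R1 p q ∧ ¬ R2 p q) → (∀ p, ∃ q, R2 p q ∧ ¬ R1 p q) →
      (∀ p q, ∃ r s, R1 p r ∧ R2 r s ∧ R1 s q) →
      (∀ p q, (R1 p q ↔ S1 p q) ∧ (R2 p q ↔ S2 p q)) ∨
        (∀ p q, (R1 p q ↔ S2 p q) ∧ (R2 p q ↔ S1 p q)))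
    (P : X → (X →L[ℂ] ℂ) → Y) (Q : X → (X →L[ℂ] ℂ) → (Y →L[ℂ] ℂ))
    (hfl : ∀ x f, Flag x f → Flag (P x f) (Q x f))
    (heq : ∀ x f y g, Flag x f → Flag y g →
      ((Par x y ∧ Par f g) ↔ (Par (P x f) (P y g) ∧ Par (Q x f) (Q y g))))
    (hadj : ∀ x f y g, Flag x f → Flag y g →
      ((Par x y ∨ Par f g) ↔ (Par (P x f) (P y g) ∨ Par (Q x f) (Q y g))))
    (hsurj : ∀ u g, Flag u g → ∃ x f, Flag x f ∧ Par (P x f) u ∧ Par (Q x f) g) :
    (∃ (U : X → Y) (G : (X →L[ℂ] ℂ) → (Y →L[ℂ] ℂ)),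
      (∀ v, v ≠ 0 → U v ≠ 0) ∧ (∀ w, w ≠ 0 → G w ≠ 0) ∧
      (∀ v w, v ≠ 0 → w ≠ 0 → (w v = 0 ↔ G w (U v) = 0)) ∧
      (∀ y, y ≠ 0 → ∃ v, v ≠ 0 ∧ ∃ c : ℂ, y = c • U v) ∧
      (∀ z, z ≠ 0 → ∃ w, w ≠ 0 ∧ ∃ c : ℂ, z = c • G w) ∧
      (∀ x f, Flag x f → Par (P x f) (U x) ∧ Par (Q x f) (G f))) ∨
    (∃ (U : (X →L[ℂ] ℂ) → Y) (G : X → (Y →L[ℂ] ℂ)),
      (∀ v, v ≠ 0 → U v ≠ 0) ∧ (∀ w, w ≠ 0 → G w ≠ 0) ∧
      (∀ v w, v ≠ 0 → w ≠ 0 → (v w = 0 ↔ G w (U v) = 0)) ∧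
      (∀ y, y ≠ 0 → ∃ v, v ≠ 0 ∧ ∃ c : ℂ, y = c • U v) ∧
      (∀ z, z ≠ 0 → ∃ w, w ≠ 0 ∧ ∃ c : ℂ, z = c • G w) ∧
      (∀ x f, Flag x f → Par (P x f) (U f) ∧ Par (Q x f) (G x))) := by
  classical
  have hfx : ∀ x : X, ∃ f : X →L[ℂ] ℂ, x ≠ 0 → Flag x f := by
    intro x
    obtain ⟨h, h0, h1, _⟩ := exists_common_kill hdX x x
    exact ⟨h, fun hx => ⟨hx, h0, h1⟩⟩
  have hxf : ∀ f : X →L[ℂ] ℂ, ∃ x : X, f ≠ 0 → Flag x f := by
    intro f
    obtain ⟨x, h0, h1, _⟩ := exists_common_zero hdX f f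
    exact ⟨x, fun hf => ⟨h0, hf, h1⟩⟩
  choose fx hfx using hfx
  choose xf hxf using hxf
  have hsep : ∀ x : X, x ≠ 0 → ∃ h : X →L[ℂ] ℂ, h x ≠ 0 := by
    intro x hx
    obtain ⟨g, _, hg⟩ := exists_dual_vector ℂ x (norm_ne_zero_iff.2 hx)
    refine ⟨g, ?_⟩
    rw [hg]
    simpa using hx
  have hT := htypes
    (fun p q => Par p.1.1 q.1.1) (fun p q => Par p.1.2 q.1.2)
    (fun p q => Par (P p.1.1 p.1.2) (P q.1.1 q.1.2))
    (fun p q => Par (Q p.1.1 p.1.2) (Q q.1.1 q.1.2))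
    (par_equiv (fun p : {p : X × (X →L[ℂ] ℂ) // Flag p.1 p.2} => p.1.1))
    (par_equiv (fun p : {p : X × (X →L[ℂ] ℂ) // Flag p.1 p.2} => p.1.2))
    (par_equiv (fun p : {p : X × (X →L[ℂ] ℂ) // Flag p.1 p.2} => P p.1.1 p.1.2))
    (par_equiv (fun p : {p : X × (X →L[ℂ] ℂ) // Flag p.1 p.2} => Q p.1.1 p.1.2))
    (fun p q => hadj _ _ _ _ p.2 q.2) (fun p q => heq _ _ _ _ p.2 q.2)
    (by
      rintro ⟨⟨x, f⟩, hx, hf, hfx0⟩
      obtain ⟨y, hy⟩ : ∃ y, f y ≠ 0 := by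
        by_contra hcon
        push Not at hcon
        exact hf (ContinuousLinearMap.ext hcon)
      obtain ⟨h, h0, h1, h2⟩ := exists_common_kill hdX x y
      refine ⟨⟨(x, h), hx, h0, h1⟩, Par.refl' x, ?_⟩
      rintro ⟨c, hc, hcf⟩
      simp only at hcf
      rw [hcf] at h2
      simp only [_root_.smul_apply, smul_eq_mul, mul_eq_zero] at h2
      exact h2.elim hc hy)
    (by
      rintro ⟨⟨x, f⟩, hx, hf, hfx0⟩
      obtain ⟨h, hh⟩ := hsep x hx
      obtain ⟨y, h0, h1, h2⟩ := exists_common_zero hdX f h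
      refine ⟨⟨(y, f), h0, hf, h1⟩, Par.refl' f, ?_⟩
      rintro ⟨c, hc, hcf⟩
      simp only at hcf
      rw [hcf, map_smul] at h2
      simp only [smul_eq_mul, mul_eq_zero] at h2
      exact h2.elim hc hh)
    (by
      rintro ⟨⟨x, f⟩, hx, hf, hfx0⟩ ⟨⟨y, g⟩, hy, hg, hgy0⟩
      obtain ⟨h, h0, h1, h2⟩ := exists_common_kill hdX x y
      exact ⟨⟨(x, h), hx, h0, h1⟩, ⟨(y, h), hy, h0, h2⟩, Par.refl' x, Par.refl' h, Par.refl' y⟩)
  rcases hT with hT | hT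
  · left
    have R1 : ∀ x f y g, Flag x f → Flag y g → (Par x y ↔ Par (P x f) (P y g)) :=
      fun x f y g h1 h2 => (hT ⟨(x, f), h1⟩ ⟨(y, g), h2⟩).1
    have R2 : ∀ x f y g, Flag x f → Flag y g → (Par f g ↔ Par (Q x f) (Q y g)) :=
      fun x f y g h1 h2 => (hT ⟨(x, f), h1⟩ ⟨(y, g), h2⟩).2
    have key1 : ∀ x f, Flag x f → Par (P x f) (P x (fx x)) := fun x f h =>
      (R1 x f x (fx x) h (hfx x h.1)).1 (Par.refl' x)
    have key2 : ∀ x f, Flag x f → Par (Q x f) (Q (xf f) f) := fun x f h =>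
      (R2 x f (xf f) f h (hxf f h.2.1)).1 (Par.refl' f)
    refine ⟨fun x => P x (fx x), fun f => Q (xf f) f, ?_, ?_, ?_, ?_, ?_, ?_⟩
    · intro v hv
      exact (hfl _ _ (hfx v hv)).1
    · intro w hw
      exact (hfl _ _ (hxf w hw)).2.1
    · intro v w hv hw
      constructor
      · intro h
        have hflag : Flag v w := ⟨hv, hw, h⟩
        obtain ⟨c, _, hc⟩ := key1 v w hflag
        obtain ⟨d, _, hd⟩ := key2 v w hflag
        simp only
        rw [hc, hd, map_smul, _root_.smul_apply, (hfl v w hflag).2.2, smul_zero,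
          smul_zero]
      · intro h
        have h1 := hfl _ _ (hfx v hv)
        have h2 := hfl _ _ (hxf w hw)
        obtain ⟨x', f', hfl', hp1, hp2⟩ := hsurj (P v (fx v)) (Q (xf w) w) ⟨h1.1, h2.2.1, h⟩
        have h3 := (R1 x' f' v (fx v) hfl' (hfx v hv)).2 hp1
        have h4 := (R2 x' f' (xf w) w hfl' (hxf w hw)).2 hp2
        obtain ⟨c, _, hc⟩ := h3
        obtain ⟨d, _, hd⟩ := h4
        rw [hc, hd, map_smul, _root_.smul_apply, hfl'.2.2, smul_zero, smul_zero]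
    · intro y hy
      obtain ⟨g, hg0, hg1, _⟩ := exists_common_kill hdY y y
      obtain ⟨x, f, hxflag, hp1, _⟩ := hsurj y g ⟨hy, hg0, hg1⟩
      obtain ⟨c, _, hc⟩ := (key1 x f hxflag).symm'.trans' hp1
      exact ⟨x, hxflag.1, c, hc⟩
    · intro z hz
      obtain ⟨y, hy0, hy1, _⟩ := exists_common_zero hdY z z
      obtain ⟨x, f, hxflag, _, hp2⟩ := hsurj y z ⟨hy0, hz, hy1⟩
      obtain ⟨c, _, hc⟩ := (key2 x f hxflag).symm'.trans' hp2
      exact ⟨f, hxflag.2.1, c, hc⟩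
    · intro x f h
      exact ⟨key1 x f h, key2 x f h⟩
  · right
    have R1 : ∀ x f y g, Flag x f → Flag y g → (Par x y ↔ Par (Q x f) (Q y g)) :=
      fun x f y g h1 h2 => (hT ⟨(x, f), h1⟩ ⟨(y, g), h2⟩).1
    have R2 : ∀ x f y g, Flag x f → Flag y g → (Par f g ↔ Par (P x f) (P y g)) :=
      fun x f y g h1 h2 => (hT ⟨(x, f), h1⟩ ⟨(y, g), h2⟩).2
    have key1 : ∀ x f, Flag x f → Par (P x f) (P (xf f) f) := fun x f h =>
      (R2 x f (xf f) f h (hxf f h.2.1)).1 (Par.refl' f)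
    have key2 : ∀ x f, Flag x f → Par (Q x f) (Q x (fx x)) := fun x f h =>
      (R1 x f x (fx x) h (hfx x h.1)).1 (Par.refl' x)
    refine ⟨fun f => P (xf f) f, fun x => Q x (fx x), ?_, ?_, ?_, ?_, ?_, ?_⟩
    · intro v hv
      exact (hfl _ _ (hxf v hv)).1
    · intro w hw
      exact (hfl _ _ (hfx w hw)).2.1
    · intro v w hv hw
      constructor
      · intro h
        have hflag : Flag w v := ⟨hw, hv, h⟩
        obtain ⟨c, _, hc⟩ := key1 w v hflag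
        obtain ⟨d, _, hd⟩ := key2 w v hflag
        simp only
        rw [hc, hd, map_smul, _root_.smul_apply, (hfl w v hflag).2.2, smul_zero,
          smul_zero]
      · intro h
        have h1 := hfl _ _ (hfx w hw)
        have h2 := hfl _ _ (hxf v hv)
        obtain ⟨x', f', hfl', hp1, hp2⟩ := hsurj (P (xf v) v) (Q w (fx w)) ⟨h2.1, h1.2.1, h⟩
        have h3 := (R1 x' f' w (fx w) hfl' (hfx w hw)).2 hp2
        have h4 := (R2 x' f' (xf v) v hfl' (hxf v hv)).2 hp1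
        obtain ⟨c, _, hc⟩ := h3
        obtain ⟨d, _, hd⟩ := h4
        rw [hc, hd, map_smul, _root_.smul_apply, hfl'.2.2, smul_zero, smul_zero]
    · intro y hy
      obtain ⟨g, hg0, hg1, _⟩ := exists_common_kill hdY y y
      obtain ⟨x, f, hxflag, hp1, _⟩ := hsurj y g ⟨hy, hg0, hg1⟩
      obtain ⟨c, _, hc⟩ := (key1 x f hxflag).symm'.trans' hp1
      exact ⟨f, hxflag.2.1, c, hc⟩
    · intro z hz
      obtain ⟨y, hy0, hy1, _⟩ := exists_common_zero hdY z z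
      obtain ⟨x, f, hxflag, _, hp2⟩ := hsurj y z ⟨hy0, hz, hy1⟩
      obtain ⟨c, _, hc⟩ := (key2 x f hxflag).symm'.trans' hp2
      exact ⟨x, hxflag.1, c, hc⟩
    · intro x f h
      exact ⟨key1 x f h, key2 x f h⟩


end sk1


end Pool.Agent.Helper280.QN.Jcorr
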