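import Mathlib
import Pool.Agent.Helper280.QN.Detect
import Pool.Agent.Helper280.QN.Jcorr
import Pool.Agent.Helper280.QN.Jclna

set_option autoImplicit false

namespace Pool.Agent.Helper280.QN

open Jcorr (Par Flag)

section detect2
variable {X : Type*} [NormedAddCommGroup X] [NormedSpace ℂ X]

theorem cl_x_form (hd : Dim4 X) (k : Kind) (x : X) (f g : X →L[ℂ] ℂ) (hx : x ≠ 0)
    (A : X →L[ℂ] X) (hA : Cl k (rk x f) (rk x g) A) :
    ∃ a b d : ℂ, A = d • 1 + rk x (a • f + b • g) := by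
  refine Jclx.cl_same_x hd A x f g hx ?_ ?_
  · intro u hfu hgu κ hκ
    by_cases hu : u = 0
    · rw [hu]; simp
    by_cases hκ0 : κ = 0
    · rw [hκ0]; simp
    obtain ⟨S, hS⟩ := Jcolnull.col_null k hd u κ hu hκ0 hκ
    refine (hS A).1 (hA.2 S ((hS _).2 ?_) ((hS _).2 ?_))
    · simp [hfu]
    · simp [hgu]
  · intro u κ hκ hκx
    by_cases hu : u = 0
    · rw [hu]; simp
    by_cases hκ0 : κ = 0
    · rw [hκ0]; simp
    obtain ⟨S, hS⟩ := Jcolnull.col_null k hd u κ hu hκ0 hκ
    refine (hS A).1 (hA.2 S ((hS _).2 ?_) ((hS _).2 ?_))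
    · simp [hκx]
    · simp [hκx]

theorem cl_f_form (hd : Dim4 X) (k : Kind) (x y : X) (f : X →L[ℂ] ℂ) (hf : f ≠ 0)
    (A : X →L[ℂ] X) (hA : Cl k (rk x f) (rk y f) A) :
    ∃ a b d : ℂ, A = d • 1 + rk (a • x + b • y) f := by
  refine Jclf.cl_same_f hd A x y f hf ?_ ?_
  · intro u hfu κ hκ
    by_cases hu : u = 0
    · rw [hu]; simp
    by_cases hκ0 : κ = 0
    · rw [hκ0]; simp
    obtain ⟨S, hS⟩ := Jcolnull.col_null k hd u κ hu hκ0 hκ
    refine (hS A).1 (hA.2 S ((hS _).2 ?_) ((hS _).2 ?_))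
    · simp [hfu]
    · simp [hfu]
  · intro u κ hκ hκx hκy
    by_cases hu : u = 0
    · rw [hu]; simp
    by_cases hκ0 : κ = 0
    · rw [hκ0]; simp
    obtain ⟨S, hS⟩ := Jcolnull.col_null k hd u κ hu hκ0 hκ
    refine (hS A).1 (hA.2 S ((hS _).2 ?_) ((hS _).2 ?_))
    · simp [hκx]
    · simp [hκy]

theorem dep_of_not_li {V : Type*} [AddCommGroup V] [Module ℂ V] {a b : V} (ha : a ≠ 0)
    (hb : b ≠ 0) (h : ¬ LinearIndependent ℂ ![a, b]) : ∃ c : ℂ, c ≠ 0 ∧ b = c • a := by
  rw [LinearIndependent.pair_iff' ha] at h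
  push Not at h
  obtain ⟨c, hc⟩ := h
  refine ⟨c, ?_, hc.symm⟩
  rintro rfl
  rw [zero_smul] at hc
  exact hb hc.symm

theorem li_smul_right {V : Type*} [AddCommGroup V] [Module ℂ V] {a b : V} {c : ℂ} (hc : c ≠ 0)
    (h : LinearIndependent ℂ ![a, b]) : LinearIndependent ℂ ![a, c • b] := by
  rw [LinearIndependent.pair_iff] at h ⊢
  intro s t hst
  have := h s (t * c) (by rw [← hst, smul_smul])
  refine ⟨this.1, ?_⟩
  rcases mul_eq_zero.1 this.2 with h | h
  · exact h
  · exact absurd h hc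

theorem rk_smul_right (x : X) (f : X →L[ℂ] ℂ) (c : ℂ) : rk x (c • f) = rk (c • x) f := by
  ext v
  simp [smul_smul, mul_comm]

theorem rk_smul_right' (x : X) (f : X →L[ℂ] ℂ) (c : ℂ) : rk x (c • f) = c • rk x f := by
  ext v
  simp [smul_smul]

theorem rowEq_smul_lie {c : ℂ} (hc : c ≠ 0) (T : X →L[ℂ] X) : RowEq Kind.lie T (c • T) := by
  intro S
  have := rel_lie_comb T S 0 c hc
  rw [zero_smul, zero_add] at this
  exact this.symm

theorem Good.n1_lie (hd : Dim4 X) {T1 : X →L[ℂ] X} (h : Good Kind.lie T1) :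
    N1 Kind.lie T1 := by
  obtain ⟨-, T2, hP⟩ := h
  obtain ⟨a, x, f, hT1⟩ := hP.form hd
  obtain ⟨b, y, g, hT2⟩ := hP.symm.form hd
  have hP' : Pair Kind.lie (rk x f) (rk y g) :=
    hP.congr (by rw [hT1]; exact rowEq_lie_add a _) (by rw [hT2]; exact rowEq_lie_add b _)
  have h0 : Triv Kind.lie (0 : X →L[ℂ] X) := fun S => rel_zero_left _ S
  have hx : x ≠ 0 := by
    rintro rfl
    apply hP'.n1
    have : rk (0 : X) f = 0 := by ext v; simp
    rw [this]; exact h0
  have hy : y ≠ 0 := by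
    rintro rfl
    apply hP'.n2
    have : rk (0 : X) g = 0 := by ext v; simp
    rw [this]; exact h0
  have hf : f ≠ 0 := by
    rintro rfl
    apply hP'.n1
    have : rk x (0 : X →L[ℂ] ℂ) = 0 := by ext v; simp
    rw [this]; exact h0
  have hg : g ≠ 0 := by
    rintro rfl
    apply hP'.n2
    have : rk y (0 : X →L[ℂ] ℂ) = 0 := by ext v; simp
    rw [this]; exact h0
  have hfx : f x = 0 := by
    by_contra hfx
    by_cases hxy : LinearIndependent ℂ ![x, y]
    · by_cases hfg : LinearIndependent ℂ ![f, g]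
      · exact Jliecase1.lie_case1
          (fun u g hu hg h0 c => Jcolblock.col_block Kind.lie u g hu hg h0 c)
          hd x y f g hP' hxy hfg
      · obtain ⟨c, hc, rfl⟩ := dep_of_not_li hf hg hfg
        rw [rk_smul_right] at hP'
        exact Jliecase3.lie_case3 rel_lie_rk' x (c • y) f
          (fun A hA => cl_f_form hd _ x (c • y) f hf A hA) hP' (li_smul_right hc hxy) hfx
    · obtain ⟨c, hc, rfl⟩ := dep_of_not_li hx hy hxy
      rw [← rk_smul_right] at hP'
      by_cases hfg : LinearIndependent ℂ ![f, c • g]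
      · exact Jliecase2.lie_case2 rel_lie_rk' x f (c • g)
          (fun A hA => cl_x_form hd _ x f (c • g) hx A hA) hP' hfg hfx
      · obtain ⟨e, he, hge⟩ := dep_of_not_li hf (smul_ne_zero hc hg) hfg
        apply hP'.ne
        rw [hge, rk_smul_right']
        exact rowEq_smul_lie he _
  exact ⟨x, f, a, hx, hf, hfx, fun h => absurd rfl h, by rw [hT1, add_comm]⟩

/-- square of a rank one operator -/
theorem sq_rk (k : Kind) (z : X) (φ : X →L[ℂ] ℂ) (h : φ z ≠ 0) :
    ∃ c : ℂ, c ≠ 0 ∧ sq k (rk z φ) = c • rk z φ := by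
  cases k
  · exact ⟨1, one_ne_zero, by simp [sq]⟩
  · refine ⟨φ z, h, ?_⟩
    ext v
    simp [sq, smul_smul, mul_comm]
  · exact ⟨1, one_ne_zero, by simp [sq]⟩
  · exact ⟨1, one_ne_zero, by simp [sq]⟩

/-- test operators with prescribed action at `y` -/
theorem exists_test (k : Kind) (y : X) (φ : X →L[ℂ] ℂ) (hφ : φ y = 1) (z0 : X) :
    ∃ (S : X →L[ℂ] X) (c : ℂ), c ≠ 0 ∧ ∀ (f : X →L[ℂ] ℂ) (v : X), f y = 0 →
      f (sq k S v) = c * φ v * f z0 := by
  have key : ∃ z, φ z ≠ 0 ∧ ∀ f : X →L[ℂ] ℂ, f y = 0 → f z = f z0 := by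
    by_cases h : φ z0 = 0
    · refine ⟨z0 + y, ?_, ?_⟩
      · rw [map_add, h, hφ, zero_add]; exact one_ne_zero
      · intro f hf
        rw [map_add, hf, add_zero]
    · exact ⟨z0, h, fun _ _ => rfl⟩
  obtain ⟨z, hz, hfz⟩ := key
  obtain ⟨c, hc, hS⟩ := sq_rk k z φ hz
  refine ⟨rk z φ, c, hc, fun f v hf => ?_⟩
  rw [hS, smul_apply, rk_apply, map_smul, map_smul, hfz f hf, smul_eq_mul, smul_eq_mul]
  ring

theorem exists_dual_one {x : X} (hx : x ≠ 0) : ∃ φ : X →L[ℂ] ℂ, φ x = 1 :=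
  SeparatingDual.exists_eq_one hx

theorem exists_ne_of_ne {f : X →L[ℂ] ℂ} (hf : f ≠ 0) : ∃ z, f z ≠ 0 := by
  by_contra h
  push Not at h
  exact hf (by ext v; exact h v)

theorem not_triv_rk (k : Kind) {x : X} {f : X →L[ℂ] ℂ} (h : Flag x f) : ¬ Triv k (rk x f) := by
  intro ht
  obtain ⟨φ, hφ⟩ := exists_dual_one h.1
  obtain ⟨z, hz⟩ := exists_ne_of_ne h.2.1
  obtain ⟨S, c, hc, hS⟩ := exists_test k x φ hφ z
  have h1 := (rel_rk k x f h.2.2 S).1 (ht S)
  rw [hS f x h.2.2, hφ, mul_one] at h1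
  exact mul_ne_zero hc hz h1

theorem rowEq_n1 (k : Kind) {x : X} {f : X →L[ℂ] ℂ} {d : ℂ} (h : f x = 0)
    (hd : k ≠ Kind.lie → d = 0) : RowEq k (rk x f + d • 1) (rk x f) := by
  intro S
  rw [rel_N1 k x f d h hd S, rel_rk k x f h S]

theorem RowEq.symm {k : Kind} {T T' : X →L[ℂ] X} (h : RowEq k T T') : RowEq k T' T :=
  fun S => (h S).symm

theorem RowEq.trans {k : Kind} {T T' T'' : X →L[ℂ] X} (h : RowEq k T T') (h' : RowEq k T' T'') :
    RowEq k T T'' := fun S => (h S).trans (h' S)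

theorem rowEq_rk_of_par (k : Kind) {x y : X} {f g : X →L[ℂ] ℂ} (h : f x = 0) (h1 : Par x y)
    (h2 : Par f g) : RowEq k (rk x f) (rk y g) := by
  obtain ⟨c, hc, rfl⟩ := h1
  obtain ⟨e, he, rfl⟩ := h2
  intro S
  rw [rel_rk k x f h S, rel_rk k (c • x) (e • f) (by simp [h]) S]
  simp [hc, he]

theorem par_of_not_li {V : Type*} [AddCommGroup V] [Module ℂ V] {a b : V} (ha : a ≠ 0)
    (hb : b ≠ 0) (h : ¬ LinearIndependent ℂ ![a, b]) : Par a b := by
  obtain ⟨c, hc, h⟩ := dep_of_not_li ha hb h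
  exact ⟨c, hc, h⟩

theorem not_par_of_li {V : Type*} [AddCommGroup V] [Module ℂ V] {a b : V}
    (h : LinearIndependent ℂ ![a, b]) : ¬ Par a b := by
  rintro ⟨c, hc, rfl⟩
  rw [LinearIndependent.pair_iff] at h
  have := h (-c) 1 (by simp)
  exact one_ne_zero this.2

theorem exists_pair_vals {x y : X} (h : LinearIndependent ℂ ![x, y]) (a b : ℂ) :
    ∃ φ : X →L[ℂ] ℂ, φ x = a ∧ φ y = b := by
  obtain ⟨φ, hφ⟩ := dual_vals h ![a, b]
  exact ⟨φ, hφ 0, hφ 1⟩

theorem exists_vals_pair {f g : X →L[ℂ] ℂ} (h : LinearIndependent ℂ ![f, g]) (a b : ℂ) :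
    ∃ z : X, f z = a ∧ g z = b := by
  obtain ⟨z, hz⟩ := vals_dual h ![a, b]
  exact ⟨z, hz 0, hz 1⟩

theorem rowEq_iff (k : Kind) {x y : X} {f g : X →L[ℂ] ℂ} (h1 : Flag x f) (h2 : Flag y g) :
    RowEq k (rk x f) (rk y g) ↔ Par x y ∧ Par f g := by
  constructor
  · intro h
    have hxy : Par x y := by
      by_contra hne
      have hli : LinearIndependent ℂ ![x, y] := by
        by_contra hli
        exact hne (par_of_not_li h1.1 h2.1 hli)
      obtain ⟨φ, hφ1, hφ2⟩ := exists_pair_vals hli 1 0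
      obtain ⟨z, hz⟩ := exists_ne_of_ne h1.2.1
      -- test with S = rk z φ
      have key : ∃ z, φ z ≠ 0 ∧ f z ≠ 0 := by
        by_cases hz0 : φ z = 0
        · refine ⟨z + x, ?_, ?_⟩
          · rw [map_add, hz0, hφ1, zero_add]; exact one_ne_zero
          · rw [map_add, h1.2.2, add_zero]; exact hz
        · exact ⟨z, hz0, hz⟩
      obtain ⟨w, hw1, hw2⟩ := key
      obtain ⟨c, hc, hS⟩ := sq_rk k w φ hw1
      have h3 := h (rk w φ)
      rw [rel_rk k x f h1.2.2, rel_rk k y g h2.2.2, hS] at h3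
      simp only [smul_apply, rk_apply, hφ1, hφ2, one_smul, zero_smul, smul_zero, map_zero,
        map_smul, smul_eq_mul, iff_true] at h3
      exact mul_ne_zero hc hw2 h3
    refine ⟨hxy, ?_⟩
    by_contra hne
    have hli : LinearIndependent ℂ ![f, g] := by
      by_contra hli
      exact hne (par_of_not_li h1.2.1 h2.2.1 hli)
    obtain ⟨c, hc, rfl⟩ := hxy
    have hgx : g x = 0 := by
      have := h2.2.2
      rw [map_smul, smul_eq_mul] at this
      exact (mul_eq_zero.1 this).resolve_left hc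
    obtain ⟨φ, hφ⟩ := exists_dual_one h1.1
    obtain ⟨z, hz1, hz2⟩ := exists_vals_pair hli 1 0
    obtain ⟨S, e, he, hS⟩ := exists_test k x φ hφ z
    have h3 := h S
    rw [rel_rk k x f h1.2.2, rel_rk k (c • x) g h2.2.2, hS f x h1.2.2, hS g _ hgx, hz1, hz2,
      hφ] at h3
    simp at h3
    exact he h3
  · rintro ⟨h3, h4⟩
    exact rowEq_rk_of_par k h1.2.2 h3 h4

theorem exists_indep_fun (hd : Dim4 X) {x : X} {f : X →L[ℂ] ℂ} (h : Flag x f) :
    ∃ g : X →L[ℂ] ℂ, g x = 0 ∧ LinearIndependent ℂ ![f, g] := by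
  -- choose `w` in the kernel of `f` independent from `x`
  obtain ⟨w, hw, hwx⟩ : ∃ w, f w = 0 ∧ LinearIndependent ℂ ![x, w] := by
    by_contra hcon
    push Not at hcon
    -- then the kernel of f is contained in the span of x, so dim ≤ 2
    have h1 : ∀ w, f w = 0 → ∃ c : ℂ, w = c • x := by
      intro w hw
      have := hcon w hw
      rw [LinearIndependent.pair_iff' h.1] at this
      push Not at this
      obtain ⟨c, hc⟩ := this
      exact ⟨c, hc.symm⟩
    obtain ⟨z, hz⟩ := exists_ne_of_ne h.2.1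
    obtain ⟨v, hv⟩ := hd
    have h2 : ∀ w, w ∈ Submodule.span ℂ (Set.range ![x, z]) := by
      intro w
      obtain ⟨c, hc⟩ := h1 (w - (f w / f z) • z) (by
        rw [map_sub, map_smul, smul_eq_mul, div_mul_cancel₀ _ hz, sub_self])
      have : w = c • x + (f w / f z) • z := by rw [← hc]; abel
      rw [this]
      refine Submodule.add_mem _ (Submodule.smul_mem _ _ (Submodule.subset_span ⟨0, rfl⟩))
        (Submodule.smul_mem _ _ (Submodule.subset_span ⟨1, rfl⟩))
    have h3 : Module.finrank ℂ X ≤ 2 := by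
      have h4 : Submodule.span ℂ (Set.range ![x, z]) = ⊤ := by
        rw [eq_top_iff]
        intro w _
        exact h2 w
      have := finrank_range_le_card (R := ℂ) (![x, z] : Fin 2 → X)
      unfold Set.finrank at this
      rw [h4, finrank_top] at this
      simpa using this
    have hfin : FiniteDimensional ℂ X := by
      have h4 : Submodule.span ℂ (Set.range ![x, z]) = ⊤ := by
        rw [eq_top_iff]
        intro w _
        exact h2 w
      have h5 : FiniteDimensional ℂ (Submodule.span ℂ (Set.range ![x, z])) :=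
        FiniteDimensional.span_of_finite ℂ (Set.finite_range _)
      rw [h4] at h5
      exact Module.Finite.of_surjective (Submodule.subtype (⊤ : Submodule ℂ X))
        (fun w => ⟨⟨w, trivial⟩, rfl⟩)
    have h5 := hv.fintype_card_le_finrank
    simp at h5
    omega
  obtain ⟨g, hg1, hg2⟩ := exists_pair_vals hwx 0 1
  refine ⟨g, hg1, ?_⟩
  rw [LinearIndependent.pair_iff' h.2.1]
  intro c hc
  have := congrArg (fun k : X →L[ℂ] ℂ => k w) hc
  simp [hw, hg2] at this

theorem cl_x_form' (hd : Dim4 X) (k : Kind) (x : X) (f g : X →L[ℂ] ℂ) (hx : x ≠ 0)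
    (hfx : f x = 0) (hgx : g x = 0)
    (A : X →L[ℂ] X) (hA : Cl k (rk x f) (rk x g) A) :
    ∃ a b : ℂ, RowEq k A (rk x (a • f + b • g)) := by
  obtain ⟨a, b, d, hab⟩ := cl_x_form hd k x f g hx A hA
  have hd0 : k ≠ Kind.lie → d = 0 := by
    intro hk
    -- pick u not parallel to x and an idempotent killing x
    obtain ⟨v, hv⟩ := hd
    obtain ⟨u, hu⟩ : ∃ u, LinearIndependent ℂ ![x, u] := by
      by_contra hcon
      push Not at hcon
      have h1 : ∀ w, ∃ c : ℂ, w = c • x := by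
        intro w
        have := hcon w
        rw [LinearIndependent.pair_iff' hx] at this
        push Not at this
        obtain ⟨c, hc⟩ := this
        exact ⟨c, hc.symm⟩
      obtain ⟨c0, hc0⟩ := h1 (v 0)
      obtain ⟨c1, hc1⟩ := h1 (v 1)
      have := Fintype.linearIndependent_iff.1 hv ![c1, -c0, 0, 0] (by
        simp only [Fin.sum_univ_four]
        simp [hc0, hc1, smul_smul]
        rw [← sub_eq_add_neg, mul_comm, sub_self]) 0
      have h2 := Fintype.linearIndependent_iff.1 hv ![c1, -c0, 0, 0] (by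
        simp only [Fin.sum_univ_four]
        simp [hc0, hc1, smul_smul]
        rw [← sub_eq_add_neg, mul_comm, sub_self]) 1
      simp at this h2
      rw [h2, zero_smul] at hc0
      exact hv.ne_zero 0 hc0
    obtain ⟨κ, hκ1, hκ2⟩ := exists_pair_vals hu 0 1
    have hS : ∀ h : X →L[ℂ] ℂ, h x = 0 → rel k (rk x h) (rk u κ) := by
      intro h hhx
      rw [rel_rk k x h hhx]
      cases k <;> simp [sq, hκ1]
    have h1 := rel_idem_ne k hk u κ hκ2 A (hA.2 _ (hS f hfx) (hS g hgx))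
    rw [hab] at h1
    simpa [hκ1, hκ2] using h1
  refine ⟨a, b, ?_⟩
  rw [hab, add_comm]
  exact rowEq_n1 k (by simp [hfx, hgx]) hd0

theorem pair_rk (hd : Dim4 X) (k : Kind) {x : X} {f g : X →L[ℂ] ℂ} (hx : x ≠ 0)
    (hfx : f x = 0) (hgx : g x = 0) (hli : LinearIndependent ℂ ![f, g]) :
    Pair k (rk x f) (rk x g) := by
  have hf : f ≠ 0 := hli.ne_zero 0
  have hg : g ≠ 0 := hli.ne_zero 1
  obtain ⟨φ, hφ⟩ := exists_dual_one hx
  have hh : ∀ a b : ℂ, (a • f + b • g) x = 0 := by intro a b; simp [hfx, hgx]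
  have hflag : ∀ a b : ℂ, (a ≠ 0 ∨ b ≠ 0) → Flag x (a • f + b • g) := by
    intro a b hab
    refine ⟨hx, ?_, hh a b⟩
    intro h0
    rw [LinearIndependent.pair_iff] at hli
    have := hli a b h0
    rcases hab with h | h
    · exact h this.1
    · exact h this.2
  have hmem : ∀ a b : ℂ, (a ≠ 0 ∨ b ≠ 0) → Cl k (rk x f) (rk x g) (rk x (a • f + b • g)) := by
    intro a b hab
    refine ⟨not_triv_rk k (hflag a b hab), ?_⟩
    intro S h1 h2
    rw [rel_rk k x _ hfx] at h1
    rw [rel_rk k x _ hgx] at h2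
    rw [rel_rk k x _ (hh a b)]
    simp [h1, h2]
  refine ⟨not_triv_rk k ⟨hx, hf, hfx⟩, not_triv_rk k ⟨hx, hg, hgx⟩, ?_, ?_, ?_⟩
  · intro h
    exact not_par_of_li hli ((rowEq_iff k ⟨hx, hf, hfx⟩ ⟨hx, hg, hgx⟩).1 h).2
  · intro S
    by_cases h : f (sq k S x) = 0
    · refine ⟨rk x f, Cl.left (not_triv_rk k ⟨hx, hf, hfx⟩), ?_⟩
      rw [rel_rk k x f hfx]
      exact h
    · refine ⟨_, hmem (g (sq k S x)) (-(f (sq k S x))) (Or.inr (neg_ne_zero.2 h)), ?_⟩
      rw [rel_rk k x _ (hh _ _)]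
      simp
      ring
  · intro S A B hA hB hne h1 h2 C hC
    obtain ⟨a, b, hA'⟩ := cl_x_form' hd k x f g hx hfx hgx A hA
    obtain ⟨a', b', hB'⟩ := cl_x_form' hd k x f g hx hfx hgx B hB
    have hab : a ≠ 0 ∨ b ≠ 0 := by
      by_contra hcon
      push Not at hcon
      apply hA.1
      rw [hA'.triv]
      intro S
      have : rk x (a • f + b • g) = 0 := by rw [hcon.1, hcon.2]; ext v; simp
      rw [this]
      exact rel_zero_left k S
    have hab' : a' ≠ 0 ∨ b' ≠ 0 := by
      by_contra hcon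
      push Not at hcon
      apply hB.1
      rw [hB'.triv]
      intro S
      have : rk x (a' • f + b' • g) = 0 := by rw [hcon.1, hcon.2]; ext v; simp
      rw [this]
      exact rel_zero_left k S
    rw [hA' S, rel_rk k x _ (hh a b)] at h1
    rw [hB' S, rel_rk k x _ (hh a' b')] at h2
    simp only [add_apply, smul_apply, smul_eq_mul] at h1 h2
    have hdet : a * b' - a' * b ≠ 0 := by
      intro hdet
      apply hne
      refine (hA'.trans ?_).trans hB'.symm
      refine rowEq_rk_of_par k (hh a b) ⟨1, one_ne_zero, by simp⟩ ?_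
      by_contra hnp
      apply hnp
      refine par_of_not_li (hflag a b hab).2.1 (hflag a' b' hab').2.1 ?_
      intro hli2
      rw [LinearIndependent.pair_iff] at hli2
      have e1 := hli2 a' (-a) (by
        have : a' * b + -a * b' = 0 := by linear_combination -hdet
        have e0 : a' * a + -a * a' = 0 := by ring
        calc _ = (a' * a + -a * a') • f + (a' * b + -a * b') • g := by module
          _ = 0 := by rw [this, e0]; module)
      have e2 := hli2 b' (-b) (by
        have : b' * a + -b * a' = 0 := by linear_combination hdet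
        have e0 : b' * b + -b * b' = 0 := by ring
        calc _ = (b' * a + -b * a') • f + (b' * b + -b * b') • g := by module
          _ = 0 := by rw [this, e0]; module)
      rcases hab with h | h
      · exact h (neg_eq_zero.1 e1.2)
      · exact h (neg_eq_zero.1 e2.2)
    have hf0 : f (sq k S x) = 0 := by
      have : (a * b' - a' * b) * f (sq k S x) = 0 := by linear_combination b' * h1 - b * h2
      exact (mul_eq_zero.1 this).resolve_left hdet
    have hg0 : g (sq k S x) = 0 := by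
      have : (a * b' - a' * b) * g (sq k S x) = 0 := by linear_combination a * h2 - a' * h1
      exact (mul_eq_zero.1 this).resolve_left hdet
    refine hC.2 S ?_ ?_
    · rw [rel_rk k x f hfx]; exact hf0
    · rw [rel_rk k x g hgx]; exact hg0

theorem RowEq.good {k : Kind} {T T' : X →L[ℂ] X} (h : RowEq k T T') (h1 : rel k T' T')
    (h2 : Good k T) : Good k T' := by
  obtain ⟨-, T2, hP⟩ := h2
  exact ⟨h1, T2, hP.congr h (fun S => Iff.rfl)⟩

theorem good_iff (hd : Dim4 X) (k : Kind) (T : X →L[ℂ] X) : Good k T ↔ N1 k T := by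
  constructor
  · intro h
    by_cases hk : k = Kind.lie
    · subst hk; exact h.n1_lie hd
    · exact h.n1 hk hd
  · rintro ⟨x, f, d, hx, hf, hfx, hd0, rfl⟩
    obtain ⟨g, hgx, hli⟩ := exists_indep_fun hd ⟨hx, hf, hfx⟩
    have hP := pair_rk hd k hx hfx hgx hli
    refine ⟨?_, rk x g, hP.congr (rowEq_n1 k hfx hd0).symm (fun S => Iff.rfl)⟩
    by_cases hk : k = Kind.lie
    · subst hk; exact rel_lie_self _
    · rw [hd0 hk, zero_smul, add_zero, rel_self k hk, Qn_rank_one]
      exact hfx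

end detect2

end Pool.Agent.Helper280.QN
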