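import Mathlib
import Pool.Agent.Helper280.QN.Basic

set_option autoImplicit false

namespace Pool.Agent.Helper280.QN.Jtypes



section sk1

theorem types_aux {ι : Type*} (A B : ι → ι → Prop) (hA : Equivalence A) (hB : Equivalence B)
    (C : Set ι) (h : ∀ q ∈ C, ∀ r ∈ C, A q r ∨ B q r) :
    (∀ q ∈ C, ∀ r ∈ C, A q r) ∨ (∀ q ∈ C, ∀ r ∈ C, B q r) := by
  by_contra hcon
  push Not at hcon
  obtain ⟨⟨q1, hq1, r1, hr1, h1⟩, q2, hq2, r2, hr2, h2⟩ := hcon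
  have b1 : B q1 r1 := (h q1 hq1 r1 hr1).resolve_left h1
  have a2 : A q2 r2 := (h q2 hq2 r2 hr2).resolve_right h2
  by_cases hb : B q1 q2
  · have c1 : A q1 r2 := (h q1 hq1 r2 hr2).resolve_right
      (fun hh => h2 (hB.trans (hB.symm hb) hh))
    have c2 : A r1 r2 := (h r1 hr1 r2 hr2).resolve_right
      (fun hh => h2 (hB.trans (hB.symm hb) (hB.trans b1 hh)))
    exact h1 (hA.trans c1 (hA.symm c2))
  · have c1 : A q1 q2 := (h q1 hq1 q2 hq2).resolve_right hb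
    have c2 : B r1 q2 := (h r1 hr1 q2 hq2).resolve_left
      (fun hh => h1 (hA.trans c1 (hA.symm hh)))
    exact hb (hB.trans b1 c2)

theorem types_sub {ι : Type*} (R A B : ι → ι → Prop) (hR : Equivalence R) (hA : Equivalence A)
    (hB : Equivalence B) (h : ∀ q r, R q r → A q r ∨ B q r) (p : ι) :
    (∀ q, R p q → A p q) ∨ (∀ q, R p q → B p q) := by
  rcases types_aux A B hA hB {q | R p q} (fun q hq r hr => h q r (hR.trans (hR.symm hq) hr)) with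
    h1 | h1
  · exact Or.inl (fun q hq => h1 p (hR.refl p) q hq)
  · exact Or.inr (fun q hq => h1 p (hR.refl p) q hq)

theorem types_of_rel {ι : Type*} (R1 R2 S1 S2 : ι → ι → Prop)
    (hR1 : Equivalence R1) (hR2 : Equivalence R2) (hS1 : Equivalence S1) (hS2 : Equivalence S2)
    (hor : ∀ p q, (R1 p q ∨ R2 p q) ↔ (S1 p q ∨ S2 p q))
    (hand : ∀ p q, (R1 p q ∧ R2 p q) ↔ (S1 p q ∧ S2 p q))
    (nt1 : ∀ p, ∃ q, R1 p q ∧ ¬ R2 p q) (nt2 : ∀ p, ∃ q, R2 p q ∧ ¬ R1 p q)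
    (conn : ∀ p q, ∃ r s, R1 p r ∧ R2 r s ∧ R1 s q) :
    (∀ p q, (R1 p q ↔ S1 p q) ∧ (R2 p q ↔ S2 p q)) ∨
      (∀ p q, (R1 p q ↔ S2 p q) ∧ (R2 p q ↔ S1 p q)) := by
  have k1 := types_sub R1 S1 S2 hR1 hS1 hS2 (fun q r h => (hor q r).1 (Or.inl h))
  have k2 := types_sub R2 S1 S2 hR2 hS1 hS2 (fun q r h => (hor q r).1 (Or.inr h))
  have k3 := types_sub S1 R1 R2 hS1 hR1 hR2 (fun q r h => (hor q r).2 (Or.inl h))
  have k4 := types_sub S2 R1 R2 hS2 hR1 hR2 (fun q r h => (hor q r).2 (Or.inr h))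
  have key : ∀ p, (∀ q, (R1 p q ↔ S1 p q) ∧ (R2 p q ↔ S2 p q)) ∨
      (∀ q, (R1 p q ↔ S2 p q) ∧ (R2 p q ↔ S1 p q)) := by
    intro p
    obtain ⟨a, ha1, ha2⟩ := nt1 p
    obtain ⟨b, hb1, hb2⟩ := nt2 p
    rcases k1 p with h1 | h1
    · have h3 : ∀ q, S1 p q → R1 p q := (k3 p).resolve_right (fun hh => ha2 (hh a (h1 a ha1)))
      have h2 : ∀ q, R2 p q → S2 p q := (k2 p).resolve_left (fun hh => hb2 (h3 b (hh b hb1)))
      have h4 : ∀ q, S2 p q → R2 p q := (k4 p).resolve_left (fun hh => hb2 (hh b (h2 b hb1)))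
      exact Or.inl (fun q => ⟨⟨h1 q, h3 q⟩, ⟨h2 q, h4 q⟩⟩)
    · have h4 : ∀ q, S2 p q → R1 p q := (k4 p).resolve_right (fun hh => ha2 (hh a (h1 a ha1)))
      have h2 : ∀ q, R2 p q → S1 p q := (k2 p).resolve_right (fun hh => hb2 (h4 b (hh b hb1)))
      have h3 : ∀ q, S1 p q → R2 p q := (k3 p).resolve_left (fun hh => hb2 (hh b (h2 b hb1)))
      exact Or.inr (fun q => ⟨⟨h1 q, h4 q⟩, ⟨h2 q, h3 q⟩⟩)
  have inc1 : ∀ p q, R1 p q → (∀ r, (R1 p r ↔ S1 p r) ∧ (R2 p r ↔ S2 p r)) →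
      (∀ r, (R1 q r ↔ S2 q r) ∧ (R2 q r ↔ S1 q r)) → False := by
    intro p q hpq hI hII
    obtain ⟨a, ha1, ha2⟩ := nt1 q
    have s1 : S1 p q := (hI q).1.1 hpq
    have h1 : R1 p a := hR1.trans hpq ha1
    have h2 : S1 p a := (hI a).1.1 h1
    have h3 : S1 q a := hS1.trans (hS1.symm s1) h2
    exact ha2 ((hII a).2.2 h3)
  have inc2 : ∀ p q, R2 p q → (∀ r, (R1 p r ↔ S1 p r) ∧ (R2 p r ↔ S2 p r)) →
      (∀ r, (R1 q r ↔ S2 q r) ∧ (R2 q r ↔ S1 q r)) → False := by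
    intro p q hpq hI hII
    obtain ⟨a, ha1, ha2⟩ := nt2 q
    have s1 : S2 p q := (hI q).2.1 hpq
    have h1 : R2 p a := hR2.trans hpq ha1
    have h2 : S2 p a := (hI a).2.1 h1
    have h3 : S2 q a := hS2.trans (hS2.symm s1) h2
    exact ha2 ((hII a).1.2 h3)
  have st1 : ∀ p q, R1 p q → (∀ r, (R1 p r ↔ S1 p r) ∧ (R2 p r ↔ S2 p r)) →
      (∀ r, (R1 q r ↔ S1 q r) ∧ (R2 q r ↔ S2 q r)) := by
    intro p q hpq hI
    rcases key q with h | h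
    · exact h
    · exact (inc1 p q hpq hI h).elim
  have st2 : ∀ p q, R2 p q → (∀ r, (R1 p r ↔ S1 p r) ∧ (R2 p r ↔ S2 p r)) →
      (∀ r, (R1 q r ↔ S1 q r) ∧ (R2 q r ↔ S2 q r)) := by
    intro p q hpq hI
    rcases key q with h | h
    · exact h
    · exact (inc2 p q hpq hI h).elim
  by_cases hex : ∃ p, ∀ r, (R1 p r ↔ S1 p r) ∧ (R2 p r ↔ S2 p r)
  · obtain ⟨p, hp⟩ := hex
    left
    intro q
    obtain ⟨r, s, h1, h2, h3⟩ := conn p q
    exact st1 s q h3 (st2 r s h2 (st1 p r h1 hp))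
  · push Not at hex
    right
    intro q
    rcases key q with h | h
    · exfalso
      obtain ⟨r, hr⟩ := hex q
      have h5 := h r
      tauto
    · exact h


end sk1


end Pool.Agent.Helper280.QN.Jtypes
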