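import Mathlib
import Pool.Agent.Helper280.QN.Detect2
import Pool.Agent.Helper280.QN.Jtypes

set_option autoImplicit false

namespace Pool.Agent.Helper280.QN

open Jcorr (Par Flag)

section adj
variable {X : Type*} [NormedAddCommGroup X] [NormedSpace ℂ X]

theorem par_li {V : Type*} [AddCommGroup V] [Module ℂ V] {a b : V} (ha : a ≠ 0) (hb : b ≠ 0) :
    ¬ Par a b ↔ LinearIndependent ℂ ![a, b] := by
  constructor
  · intro h
    by_contra hli
    exact h (par_of_not_li ha hb hli)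
  · exact not_par_of_li

theorem par_symm {V : Type*} [AddCommGroup V] [Module ℂ V] {a b : V} (h : Par a b) : Par b a := by
  obtain ⟨c, hc, rfl⟩ := h
  exact ⟨c⁻¹, inv_ne_zero hc, by rw [smul_smul, inv_mul_cancel₀ hc, one_smul]⟩

theorem par_trans {V : Type*} [AddCommGroup V] [Module ℂ V] {a b c : V} (h : Par a b)
    (h' : Par b c) : Par a c := by
  obtain ⟨s, hs, rfl⟩ := h
  obtain ⟨t, ht, rfl⟩ := h'
  exact ⟨t * s, mul_ne_zero ht hs, by rw [smul_smul]⟩

theorem not_par_add {V : Type*} [AddCommGroup V] [Module ℂ V] {a b : V}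
    (h : LinearIndependent ℂ ![a, b]) : ¬ Par (a + b) a ∧ ¬ Par (a + b) b ∧ a + b ≠ 0 := by
  rw [LinearIndependent.pair_iff] at h
  refine ⟨?_, ?_, ?_⟩
  · rintro ⟨c, hc, h1⟩
    have := h (c - 1) c (by
      have : c • (a + b) - a = 0 := by rw [← h1, sub_self]
      rw [← this]; module)
    exact hc this.2
  · rintro ⟨c, hc, h1⟩
    have := h c (c - 1) (by
      have : c • (a + b) - b = 0 := by rw [← h1, sub_self]
      rw [← this]; module)
    exact hc this.1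
  · intro h0
    have := h 1 1 (by rw [one_smul, one_smul]; exact h0)
    exact one_ne_zero this.1

theorem adj_iff (hd : Dim4 X) (k : Kind) {x y : X} {f g : X →L[ℂ] ℂ} (h1 : Flag x f)
    (h2 : Flag y g) : (Par x y ∨ Par f g) ↔ (RowEq k (rk x f) (rk y g) ∨
      ∃ T3, N1 k T3 ∧ Cl k (rk x f) (rk y g) T3 ∧ ¬ RowEq k T3 (rk x f) ∧
        ¬ RowEq k T3 (rk y g)) := by
  constructor
  · intro h
    by_cases hrow : RowEq k (rk x f) (rk y g)
    · exact Or.inl hrow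
    right
    rw [rowEq_iff k h1 h2] at hrow
    rcases h with h | h
    · have hfg : LinearIndependent ℂ ![f, g] := (par_li h1.2.1 h2.2.1).1 fun h' => hrow ⟨h, h'⟩
      obtain ⟨c, hc, rfl⟩ := h
      have hgx : g x = 0 := by
        have := h2.2.2
        rw [map_smul, smul_eq_mul] at this
        exact (mul_eq_zero.1 this).resolve_left hc
      obtain ⟨p1, p2, p3⟩ := not_par_add hfg
      have hfl : Flag x (f + g) := ⟨h1.1, p3, by simp [h1.2.2, hgx]⟩
      refine ⟨rk x (f + g), ⟨x, f + g, 0, h1.1, p3, hfl.2.2, fun _ => rfl, by simp⟩,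
        ⟨not_triv_rk k hfl, ?_⟩, ?_, ?_⟩
      · intro S a b
        rw [rel_rk k x f h1.2.2] at a
        rw [rel_rk k (c • x) g h2.2.2, map_smul, map_smul, smul_eq_mul] at b
        rw [rel_rk k x _ hfl.2.2, add_apply, a, (mul_eq_zero.1 b).resolve_left hc, add_zero]
      · rw [rowEq_iff k hfl h1]
        exact fun h => p1 h.2
      · rw [rowEq_iff k hfl h2]
        exact fun h => p2 h.2
    · have hxy : LinearIndependent ℂ ![x, y] := (par_li h1.1 h2.1).1 fun h' => hrow ⟨h', h⟩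
      obtain ⟨c, hc, rfl⟩ := h
      have hfy : f y = 0 := by
        have := h2.2.2
        rw [smul_apply, smul_eq_mul] at this
        exact (mul_eq_zero.1 this).resolve_left hc
      obtain ⟨p1, p2, p3⟩ := not_par_add hxy
      have hfl : Flag (x + y) f := ⟨p3, h1.2.1, by simp [h1.2.2, hfy]⟩
      refine ⟨rk (x + y) f, ⟨x + y, f, 0, p3, h1.2.1, hfl.2.2, fun _ => rfl, by simp⟩,
        ⟨not_triv_rk k hfl, ?_⟩, ?_, ?_⟩
      · intro S a b
        rw [rel_rk k x f h1.2.2] at a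
        rw [rel_rk k y (c • f) h2.2.2, smul_apply, smul_eq_mul] at b
        rw [rel_rk k (x + y) _ hfl.2.2, map_add, map_add, a, (mul_eq_zero.1 b).resolve_left hc,
          add_zero]
      · rw [rowEq_iff k hfl h1]
        exact fun h => p1 h.1
      · rw [rowEq_iff k hfl h2]
        exact fun h => p2 h.1
  · rintro (h | ⟨T3, ⟨z, h, d, hz, hh, hhz, hd0, rfl⟩, hcl, hn1, hn2⟩)
    · rw [rowEq_iff k h1 h2] at h
      exact Or.inl h.1
    · by_contra hcon
      push Not at hcon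
      have hxy := (par_li h1.1 h2.1).1 hcon.1
      have hfg := (par_li h1.2.1 h2.2.1).1 hcon.2
      have hfl : Flag z h := ⟨hz, hh, hhz⟩
      have hrow := rowEq_n1 k hhz hd0 (d := d)
      have hkey := Jclna.cl_nonadj hd x y z f g h hz hh h1.2.2 h2.2.2 hxy hfg (by
        intro u κ hκ hκ1 hκ2
        by_cases hu : u = 0
        · rw [hu]; simp
        by_cases hκ0 : κ = 0
        · rw [hκ0]; simp
        obtain ⟨S, hS⟩ := Jcolnull.col_null k hd u κ hu hκ0 hκ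
        have h3 := (hrow S).1 (hcl.2 S ((hS _).2 (by simpa [mul_comm] using hκ1))
          ((hS _).2 (by simpa [mul_comm] using hκ2)))
        have h4 := (hS _).1 h3
        simpa [mul_comm] using h4)
      rcases hkey with ⟨⟨a, ha⟩, ⟨b, hb⟩⟩ | ⟨⟨a, ha⟩, ⟨b, hb⟩⟩
      · apply hn1
        refine hrow.trans ((rowEq_iff k hfl h1).2 ⟨par_symm ⟨a, ?_, ha⟩, par_symm ⟨b, ?_, hb⟩⟩)
        · rintro rfl
          rw [zero_smul] at ha
          exact hz ha
        · rintro rfl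
          rw [zero_smul ℂ f] at hb
          exact hh hb
      · apply hn2
        refine hrow.trans ((rowEq_iff k hfl h2).2 ⟨par_symm ⟨a, ?_, ha⟩, par_symm ⟨b, ?_, hb⟩⟩)
        · rintro rfl
          rw [zero_smul] at ha
          exact hz ha
        · rintro rfl
          rw [zero_smul ℂ g] at hb
          exact hh hb

end adj

section transfer
variable {X Y : Type*} [NormedAddCommGroup X] [NormedSpace ℂ X]
  [NormedAddCommGroup Y] [NormedSpace ℂ Y] {k : Kind}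
  {φ : (X →L[ℂ] X) → (Y →L[ℂ] Y)}

theorem map_triv (hs : Function.Surjective φ)
    (hφ : ∀ T S, rel k (φ T) (φ S) ↔ rel k T S) (T : X →L[ℂ] X) :
    Triv k (φ T) ↔ Triv k T := by
  constructor
  · intro h S
    exact (hφ T S).1 (h (φ S))
  · intro h S
    obtain ⟨S, rfl⟩ := hs S
    exact (hφ T S).2 (h S)

theorem map_rowEq (hs : Function.Surjective φ)
    (hφ : ∀ T S, rel k (φ T) (φ S) ↔ rel k T S) (T T' : X →L[ℂ] X) :
    RowEq k (φ T) (φ T') ↔ RowEq k T T' := by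
  constructor
  · intro h S
    rw [← hφ, ← hφ]
    exact h (φ S)
  · intro h S
    obtain ⟨S, rfl⟩ := hs S
    rw [hφ, hφ]
    exact h S

theorem map_cl (hs : Function.Surjective φ)
    (hφ : ∀ T S, rel k (φ T) (φ S) ↔ rel k T S) (T1 T2 A : X →L[ℂ] X) :
    Cl k (φ T1) (φ T2) (φ A) ↔ Cl k T1 T2 A := by
  unfold Cl
  rw [map_triv hs hφ]
  refine and_congr Iff.rfl ?_
  constructor
  · intro h S h1 h2
    exact (hφ A S).1 (h (φ S) ((hφ T1 S).2 h1) ((hφ T2 S).2 h2))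
  · intro h S h1 h2
    obtain ⟨S, rfl⟩ := hs S
    exact (hφ A S).2 (h S ((hφ T1 S).1 h1) ((hφ T2 S).1 h2))

theorem map_pair (hs : Function.Surjective φ)
    (hφ : ∀ T S, rel k (φ T) (φ S) ↔ rel k T S) (T1 T2 : X →L[ℂ] X) :
    Pair k (φ T1) (φ T2) ↔ Pair k T1 T2 := by
  constructor
  · intro h
    refine ⟨fun ht => h.n1 ((map_triv hs hφ T1).2 ht), fun ht => h.n2 ((map_triv hs hφ T2).2 ht),
      fun hr => h.ne ((map_rowEq hs hφ T1 T2).2 hr), ?_, ?_⟩
    · intro S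
      obtain ⟨A, hA, hAS⟩ := h.E (φ S)
      obtain ⟨A, rfl⟩ := hs A
      exact ⟨A, (map_cl hs hφ T1 T2 A).1 hA, (hφ A S).1 hAS⟩
    · intro S A B hA hB hne h1 h2 C hC
      exact (hφ C S).1 (h.U (φ S) (φ A) (φ B) ((map_cl hs hφ _ _ _).2 hA)
        ((map_cl hs hφ _ _ _).2 hB) (fun hr => hne ((map_rowEq hs hφ A B).1 hr))
        ((hφ _ _).2 h1) ((hφ _ _).2 h2) (φ C) ((map_cl hs hφ _ _ _).2 hC))
  · intro h
    refine ⟨fun ht => h.n1 ((map_triv hs hφ T1).1 ht), fun ht => h.n2 ((map_triv hs hφ T2).1 ht),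
      fun hr => h.ne ((map_rowEq hs hφ T1 T2).1 hr), ?_, ?_⟩
    · intro S
      obtain ⟨S, rfl⟩ := hs S
      obtain ⟨A, hA, hAS⟩ := h.E S
      exact ⟨φ A, (map_cl hs hφ T1 T2 A).2 hA, (hφ A S).2 hAS⟩
    · intro S A B hA hB hne h1 h2 C hC
      obtain ⟨S, rfl⟩ := hs S
      obtain ⟨A, rfl⟩ := hs A
      obtain ⟨B, rfl⟩ := hs B
      obtain ⟨C, rfl⟩ := hs C
      exact (hφ C S).2 (h.U S A B ((map_cl hs hφ _ _ _).1 hA)
        ((map_cl hs hφ _ _ _).1 hB) (fun hr => hne ((map_rowEq hs hφ A B).2 hr))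
        ((hφ _ _).1 h1) ((hφ _ _).1 h2) C ((map_cl hs hφ _ _ _).1 hC))

theorem map_good (hs : Function.Surjective φ)
    (hφ : ∀ T S, rel k (φ T) (φ S) ↔ rel k T S) (T : X →L[ℂ] X) :
    Good k (φ T) ↔ Good k T := by
  constructor
  · rintro ⟨h1, T2, h2⟩
    obtain ⟨T2, rfl⟩ := hs T2
    exact ⟨(hφ T T).1 h1, T2, (map_pair hs hφ T T2).1 h2⟩
  · rintro ⟨h1, T2, h2⟩
    exact ⟨(hφ T T).2 h1, φ T2, (map_pair hs hφ T T2).2 h2⟩

/-- the map induced on flags -/
theorem flagmap (hdX : Dim4 X) (hdY : Dim4 Y) (hs : Function.Surjective φ)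
    (hφ : ∀ T S, rel k (φ T) (φ S) ↔ rel k T S) :
    ∃ (P : X → (X →L[ℂ] ℂ) → Y) (Q : X → (X →L[ℂ] ℂ) → (Y →L[ℂ] ℂ)),
      (∀ x f, Flag x f → Flag (P x f) (Q x f)) ∧
      (∀ x f y g, Flag x f → Flag y g →
        ((Par x y ∧ Par f g) ↔ (Par (P x f) (P y g) ∧ Par (Q x f) (Q y g)))) ∧
      (∀ x f y g, Flag x f → Flag y g →
        ((Par x y ∨ Par f g) ↔ (Par (P x f) (P y g) ∨ Par (Q x f) (Q y g)))) ∧
      (∀ u g, Flag u g → ∃ x f, Flag x f ∧ Par (P x f) u ∧ Par (Q x f) g) ∧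
      (∀ x f, Flag x f → ∀ S, (f (sq k S x) = 0 ↔ Q x f (sq k (φ S) (P x f)) = 0)) := by
  have hN : ∀ x f, Flag x f → N1 k (φ (rk x f)) := by
    intro x f h
    rw [← good_iff hdY, map_good hs hφ, good_iff hdX]
    exact ⟨x, f, 0, h.1, h.2.1, h.2.2, fun _ => rfl, by simp⟩
  have hex : ∀ (x : X) (f : X →L[ℂ] ℂ), ∃ (u : Y) (g : Y →L[ℂ] ℂ), Flag x f →
      Flag u g ∧ RowEq k (φ (rk x f)) (rk u g) := by
    intro x f
    by_cases h : Flag x f
    · obtain ⟨u, g, d, hu, hg, hgu, hd0, hT⟩ := hN x f h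
      refine ⟨u, g, fun _ => ⟨⟨hu, hg, hgu⟩, ?_⟩⟩
      rw [hT]
      exact rowEq_n1 k hgu hd0
    · exact ⟨0, 0, fun h' => absurd h' h⟩
  choose P Q hPQ using hex
  have hrow : ∀ x f y g, Flag x f → Flag y g →
      (RowEq k (rk x f) (rk y g) ↔ RowEq k (rk (P x f) (Q x f)) (rk (P y g) (Q y g))) := by
    intro x f y g h1 h2
    rw [← map_rowEq hs hφ]
    have e1 := (hPQ x f h1).2
    have e2 := (hPQ y g h2).2
    exact ⟨fun h => (e1.symm.trans h).trans e2, fun h => (e1.trans h).trans e2.symm⟩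
  refine ⟨P, Q, fun x f h => (hPQ x f h).1, ?_, ?_, ?_, ?_⟩
  · intro x f y g h1 h2
    rw [← rowEq_iff k h1 h2, ← rowEq_iff k (hPQ x f h1).1 (hPQ y g h2).1]
    exact hrow x f y g h1 h2
  · intro x f y g h1 h2
    rw [adj_iff hdX k h1 h2, adj_iff hdY k (hPQ x f h1).1 (hPQ y g h2).1]
    have e1 := (hPQ x f h1).2
    have e2 := (hPQ y g h2).2
    refine or_congr (hrow x f y g h1 h2) ?_
    constructor
    · rintro ⟨T3, h3, h4, h5, h6⟩
      refine ⟨φ T3, ?_, ?_, ?_, ?_⟩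
      · rw [← good_iff hdY, map_good hs hφ, good_iff hdX]; exact h3
      · exact (Cl.congr e1 e2).1 ((map_cl hs hφ _ _ _).2 h4)
      · intro h
        exact h5 ((map_rowEq hs hφ _ _).1 (h.trans e1.symm))
      · intro h
        exact h6 ((map_rowEq hs hφ _ _).1 (h.trans e2.symm))
    · rintro ⟨T3, h3, h4, h5, h6⟩
      obtain ⟨T3, rfl⟩ := hs T3
      refine ⟨T3, ?_, ?_, ?_, ?_⟩
      · rw [← good_iff hdX, ← map_good hs hφ, good_iff hdY]; exact h3
      · exact (map_cl hs hφ _ _ _).1 ((Cl.congr e1 e2).2 h4)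
      · intro h
        exact h5 (((map_rowEq hs hφ _ _).2 h).trans e1)
      · intro h
        exact h6 (((map_rowEq hs hφ _ _).2 h).trans e2)
  · intro u g h
    obtain ⟨T, hT⟩ := hs (rk u g)
    have hG : N1 k T := by
      rw [← good_iff hdX, ← map_good hs hφ, hT, good_iff hdY]
      exact ⟨u, g, 0, h.1, h.2.1, h.2.2, fun _ => rfl, by simp⟩
    obtain ⟨x, f, d, hx, hf, hfx, hd0, rfl⟩ := hG
    have hfl : Flag x f := ⟨hx, hf, hfx⟩
    refine ⟨x, f, hfl, ?_⟩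
    rw [← rowEq_iff k (hPQ x f hfl).1 h, ← hT]
    exact (hPQ x f hfl).2.symm.trans ((map_rowEq hs hφ _ _).2 (rowEq_n1 k hfx hd0).symm)
  · intro x f h S
    rw [← rel_rk k x f h.2.2, ← hφ, (hPQ x f h).2 (φ S), rel_rk k _ _ (hPQ x f h).1.2.2]

end transfer

end Pool.Agent.Helper280.QN
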