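import Mathlib
import Pool.Agent.Helper280.QN.Basic

set_option autoImplicit false

namespace Pool.Agent.Helper280.QN.Jftchart



section sk1

theorem ft_chart_comb {K : Type*} [AddCommGroup K] [Module ℂ K] {x y : K}
    (h : LinearIndependent ℂ ![x, y]) (a b c d : ℂ) (hdet : a * d - b * c ≠ 0) {x' y' : K}
    (hx : x' = a • x + b • y) (hy : y' = c • x + d • y) : LinearIndependent ℂ ![x', y'] := by
  rw [LinearIndependent.pair_iff] at h ⊢
  intro s t hst
  have h1 : (s * a + t * c) • x + (s * b + t * d) • y = 0 := by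
    rw [← hst, hx, hy]; module
  obtain ⟨h2, h3⟩ := h _ _ h1
  have h4 : s * (a * d - b * c) = 0 := by linear_combination d * h2 - c * h3
  have h5 : t * (a * d - b * c) = 0 := by linear_combination a * h3 - b * h2
  exact ⟨(mul_eq_zero.1 h4).resolve_right hdet, (mul_eq_zero.1 h5).resolve_right hdet⟩

theorem ft_chart_ex {K : Type*} [AddCommGroup K] [Module ℂ K]
    (hK : ∃ v : Fin 2 → K, LinearIndependent ℂ v) (v : K) (hv : v ≠ 0) :
    ∃ u : K, LinearIndependent ℂ ![v, u] := by
  obtain ⟨w, hw⟩ := hK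
  by_contra hcon
  push Not at hcon
  have h1 : ∀ u, ∃ a : ℂ, a • v = u := by
    intro u
    have h2 := hcon u
    rw [LinearIndependent.pair_iff' hv] at h2
    push Not at h2
    exact h2
  obtain ⟨a, ha⟩ := h1 (w 0)
  obtain ⟨b, hb⟩ := h1 (w 1)
  have hw' : LinearIndependent ℂ ![w 0, w 1] := by
    have : ![w 0, w 1] = w := by
      ext i; fin_cases i <;> rfl
    rw [this]; exact hw
  rw [LinearIndependent.pair_iff] at hw'
  have h3 := hw' b (-a) (by rw [← ha, ← hb]; module)
  have h4 : w 0 = 0 := by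
    rw [← ha, neg_eq_zero.1 h3.2, zero_smul]
  exact hw.ne_zero 0 h4

theorem ft_chart {K K' : Type*} [AddCommGroup K] [Module ℂ K] [AddCommGroup K'] [Module ℂ K']
    (hK : ∃ v : Fin 2 → K, LinearIndependent ℂ v) (A : K → K') (hA : Function.Bijective A)
    (h0 : A 0 = 0)
    (hadd : ∀ v w : K, LinearIndependent ℂ ![v, w] → A (v + w) = A v + A w)
    (hpar : ∀ v w : K, v ≠ 0 → ((∃ c : ℂ, w = c • v) ↔ ∃ c : ℂ, A w = c • A v)) :
    ∃ τ : ℂ ≃+* ℂ, (∀ v w, A (v + w) = A v + A w) ∧ ∀ (c : ℂ) (v : K), A (c • v) = τ c • A v := by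
  classical
  have hA0 : ∀ v, v ≠ 0 → A v ≠ 0 := fun v hv h => hv (hA.1 (h.trans h0.symm))
  have hex := fun v (hv : v ≠ 0) => ft_chart_ex hK v hv
  -- negation
  have hneg : ∀ u : K, A (-u) = - A u := by
    intro u
    by_cases hu : u = 0
    · rw [hu, neg_zero, h0, neg_zero]
    obtain ⟨v, hv⟩ := hex u hu
    have e1 := hadd v u (ft_chart_comb hv 0 1 1 0 (by norm_num) (by module) (by module))
    have e2 := hadd (v + u) (-u)
      (ft_chart_comb hv 1 1 (-1) 0 (by norm_num) (by module) (by module))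
    rw [add_neg_cancel_right, e1] at e2
    have e3 : A u + A (-u) = 0 := by
      have : A v + 0 = A v + (A u + A (-u)) := by rw [add_zero, ← add_assoc]; exact e2
      exact (add_left_cancel this).symm
    exact (neg_eq_of_add_eq_zero_right e3).symm
  have hall : ∀ v w : K, A (v + w) = A v + A w := by
    intro v w
    by_cases hv : v = 0
    · rw [hv, h0, zero_add, zero_add]
    by_cases hli : LinearIndependent ℂ ![v, w]
    · exact hadd v w hli
    rw [LinearIndependent.pair_iff' hv] at hli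
    push Not at hli
    obtain ⟨c, rfl⟩ := hli
    by_cases hc1 : c = -1
    · rw [hc1, neg_smul, one_smul, add_neg_cancel, h0, hneg, add_neg_cancel]
    by_cases hc0 : c = 0
    · rw [hc0, zero_smul, h0, add_zero, add_zero]
    obtain ⟨u, hu⟩ := hex v hv
    have e1 := hadd v u hu
    have e2 := hadd (v + u) (c • v - u)
      (ft_chart_comb hu 1 1 c (-1) (by
        intro h; apply hc1; linear_combination -h) (by module) (by module))
    have e3 := hadd (c • v) (-u)
      (ft_chart_comb hu c 0 0 (-1) (by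
        intro h; apply hc0; linear_combination -h) (by module) (by module))
    have e4 : v + u + (c • v - u) = v + c • v := by abel
    have e5 : c • v - u = c • v + -u := sub_eq_add_neg _ _
    rw [e4, e1, e5, e3, hneg] at e2
    rw [e2]; abel
  -- the coefficient
  have hT : ∀ (v : K) (c : ℂ), ∃ t : ℂ, v ≠ 0 → A (c • v) = t • A v := by
    intro v c
    by_cases hv : v = 0
    · exact ⟨0, fun h => absurd hv h⟩
    · obtain ⟨t, ht⟩ := (hpar v (c • v) hv).1 ⟨c, rfl⟩
      exact ⟨t, fun _ => ht⟩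
  choose T hT using hT
  have huniq : ∀ (v : K) (s t : ℂ), v ≠ 0 → s • A v = t • A v → s = t := by
    intro v s t hv h
    exact smul_left_injective ℂ (hA0 v hv) h
  have hind : ∀ v w : K, LinearIndependent ℂ ![v, w] → LinearIndependent ℂ ![A v, A w] := by
    intro v w h
    have hv : v ≠ 0 := h.ne_zero 0
    rw [LinearIndependent.pair_iff' (hA0 v hv)]
    intro a ha
    obtain ⟨c, hc⟩ := (hpar v w hv).2 ⟨a, ha.symm⟩
    rw [LinearIndependent.pair_iff' hv] at h
    exact h c hc.symm
  have hTi : ∀ (v w : K) (c : ℂ), LinearIndependent ℂ ![v, w] → T v c = T w c := by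
    intro v w c h
    have hv : v ≠ 0 := h.ne_zero 0
    have hw : w ≠ 0 := h.ne_zero 1
    have hvw : v + w ≠ 0 := by
      have := ft_chart_comb h 1 1 0 1 (by norm_num) (x' := v + w) (y' := w) (by module) (by module)
      exact this.ne_zero 0
    have e1 := hT (v + w) c hvw
    rw [smul_add, hall, hall, hT v c hv, hT w c hw] at e1
    have e2 : (T v c - T (v + w) c) • A v + (T w c - T (v + w) c) • A w = 0 := by
      rw [sub_smul, sub_smul]
      rw [smul_add] at e1
      have : T v c • A v - T (v + w) c • A v + (T w c • A w - T (v + w) c • A w) =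
        (T v c • A v + T w c • A w) - (T (v + w) c • A v + T (v + w) c • A w) := by abel
      rw [this, e1, sub_self]
    have e3 := LinearIndependent.pair_iff.1 (hind v w h) _ _ e2
    rw [sub_eq_zero.1 e3.1, sub_eq_zero.1 e3.2]
  have hTT : ∀ (v w : K) (c : ℂ), v ≠ 0 → w ≠ 0 → T v c = T w c := by
    intro v w c hv hw
    by_cases hli : LinearIndependent ℂ ![v, w]
    · exact hTi v w c hli
    rw [LinearIndependent.pair_iff' hv] at hli
    push Not at hli
    obtain ⟨a, rfl⟩ := hli
    have ha : a ≠ 0 := by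
      rintro rfl; exact hw (zero_smul _ _)
    obtain ⟨u, hu⟩ := hex v hv
    rw [hTi v u c hu]
    exact (hTi (a • v) u c (ft_chart_comb hu a 0 0 1 (by simpa using ha) (by module)
      (by module))).symm
  obtain ⟨v₀, hv₀⟩ : ∃ v₀ : K, v₀ ≠ 0 := by
    obtain ⟨w, hw⟩ := hK
    exact ⟨w 0, hw.ne_zero 0⟩
  have hτ : ∀ (c : ℂ) (v : K), A (c • v) = T v₀ c • A v := by
    intro c v
    by_cases hv : v = 0
    · rw [hv, smul_zero, h0, smul_zero]
    · rw [hT v c hv, hTT v v₀ c hv hv₀]
  obtain ⟨f, hf⟩ : ∃ f : ℂ →+* ℂ, ∀ c, f c = T v₀ c := by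
    refine ⟨{ toFun := T v₀, map_one' := ?_, map_mul' := ?_, map_zero' := ?_, map_add' := ?_ },
      fun _ => rfl⟩
    · apply huniq v₀ _ _ hv₀
      rw [← hτ, one_smul, one_smul]
    · intro c d
      apply huniq v₀ _ _ hv₀
      rw [← hτ, mul_smul, hτ, hτ, smul_smul]
    · apply huniq v₀ _ _ hv₀
      rw [← hτ, zero_smul, zero_smul, h0]
    · intro c d
      apply huniq v₀ _ _ hv₀
      rw [← hτ, add_smul, hall, hτ, hτ, add_smul]
  have hbij : Function.Bijective f := by
    refine ⟨f.injective, fun t => ?_⟩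
    obtain ⟨w, hw⟩ := hA.2 (t • A v₀)
    obtain ⟨c, hc⟩ := (hpar v₀ w hv₀).2 ⟨t, hw⟩
    refine ⟨c, ?_⟩
    rw [hf]
    apply huniq v₀ _ _ hv₀
    rw [← hτ, ← hc, hw]
  refine ⟨RingEquiv.ofBijective f hbij, hall, fun c v => ?_⟩
  rw [RingEquiv.coe_ofBijective, hf]
  exact hτ c v


end sk1


end Pool.Agent.Helper280.QN.Jftchart
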