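import Mathlib
import Pool.Agent.Helper280.QN.Basic

set_option autoImplicit false

namespace Pool.Agent.Helper280.QN.Jftfunc



section sk1

theorem ft_func {V Y : Type*} [AddCommGroup V] [Module ℂ V] [AddCommGroup Y] [Module ℂ Y]
    (τ : ℂ ≃+* ℂ) (A : V ≃+ Y) (hA : ∀ (c : ℂ) (v : V), A (c • v) = τ c • A v)
    (f : V →ₗ[ℂ] ℂ) (g : Y →ₗ[ℂ] ℂ) (hg : g ≠ 0) (h : ∀ v, f v = 0 ↔ g (A v) = 0) :
    ∃ c : ℂ, c ≠ 0 ∧ ∀ v, g (A v) = c * τ (f v) := by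
  obtain ⟨y0, hy0⟩ : ∃ y, g y ≠ 0 := by
    by_contra hcon
    push Not at hcon
    exact hg (LinearMap.ext hcon)
  obtain ⟨v0, rfl⟩ := A.surjective y0
  have hf0 : f v0 ≠ 0 := fun h0 => hy0 ((h v0).1 h0)
  have hτ0 : τ (f v0) ≠ 0 := (map_ne_zero τ).2 hf0
  refine ⟨g (A v0) / τ (f v0), div_ne_zero hy0 hτ0, fun v => ?_⟩
  have h1 : f (v - (f v / f v0) • v0) = 0 := by
    rw [map_sub, map_smul, smul_eq_mul, div_mul_cancel₀ _ hf0, sub_self]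
  have h2 := (h _).1 h1
  rw [map_sub, map_sub, hA, map_smul, smul_eq_mul, sub_eq_zero, map_div₀] at h2
  rw [h2]
  field_simp


end sk1


end Pool.Agent.Helper280.QN.Jftfunc
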