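import Mathlib
import Pool.Agent.Helper280.QN.Basic

set_option autoImplicit false

namespace Pool.Agent.Helper280.QN.Jftlines



section sk1

theorem aux_sep {Y Z : Type*} [AddCommGroup Y] [Module ℂ Y] [AddCommGroup Z] [Module ℂ Z]
    (K : Z →ₗ[ℂ] Y →ₗ[ℂ] ℂ) (hK : ∀ y, y ≠ 0 → ∃ z, K z y ≠ 0) (r s p : Y)
    (hp : p ∉ Submodule.span ℂ {r, s}) : ∃ z, K z r = 0 ∧ K z s = 0 ∧ K z p ≠ 0 := by
  by_contra hcon
  push Not at hcon
  have h1 : (⨅ i : Fin 2, LinearMap.ker ((![K.flip r, K.flip s] : Fin 2 → (Z →ₗ[ℂ] ℂ)) i)) ≤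
      LinearMap.ker (K.flip p) := by
    intro z hz
    rw [Submodule.mem_iInf] at hz
    have z0 := hz 0
    have z1 := hz 1
    rw [LinearMap.mem_ker] at z0 z1 ⊢
    have z0' : K z r = 0 := z0
    have z1' : K z s = 0 := z1
    exact hcon z z0' z1'
  have h2 := mem_span_of_iInf_ker_le_ker h1
  have h3 : Set.range (![K.flip r, K.flip s] : Fin 2 → (Z →ₗ[ℂ] ℂ)) = {K.flip r, K.flip s} := by
    ext f
    simp only [Set.mem_range, Set.mem_insert_iff, Set.mem_singleton_iff, Fin.exists_fin_two]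
    constructor
    · rintro (h | h)
      · left; rw [← h]; rfl
      · right; rw [← h]; rfl
    · rintro (h | h)
      · left; rw [h]; rfl
      · right; rw [h]; rfl
  rw [h3] at h2
  obtain ⟨α, β, hαβ⟩ := Submodule.mem_span_pair.1 h2
  apply hp
  rw [Submodule.mem_span_pair]
  refine ⟨α, β, ?_⟩
  by_contra hne
  have hne' : α • r + β • s - p ≠ 0 := sub_ne_zero.2 hne
  obtain ⟨z, hz⟩ := hK _ hne'
  apply hz
  have h4 := LinearMap.congr_fun hαβ z
  simp only [LinearMap.add_apply, LinearMap.smul_apply, LinearMap.flip_apply] at h4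
  rw [map_sub, map_add, map_smul, map_smul, h4, sub_self]

theorem ft_lines {V W Y Z : Type*} [AddCommGroup V] [Module ℂ V] [AddCommGroup W] [Module ℂ W]
    [AddCommGroup Y] [Module ℂ Y] [AddCommGroup Z] [Module ℂ Z]
    (J : W →ₗ[ℂ] V →ₗ[ℂ] ℂ) (K : Z →ₗ[ℂ] Y →ₗ[ℂ] ℂ)
    (hJ : ∀ v, v ≠ 0 → ∃ w, J w v ≠ 0) (hK : ∀ y, y ≠ 0 → ∃ z, K z y ≠ 0)
    (U : V → Y) (G : W → Z)
    (U_ne : ∀ v, v ≠ 0 → U v ≠ 0) (G_ne : ∀ w, w ≠ 0 → G w ≠ 0)
    (inc : ∀ v w, v ≠ 0 → w ≠ 0 → (J w v = 0 ↔ K (G w) (U v) = 0))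
    (G_surj : ∀ z, z ≠ 0 → ∃ w, w ≠ 0 ∧ ∃ c : ℂ, z = c • G w) :
    ∀ a b c : V, a ≠ 0 → b ≠ 0 → c ≠ 0 →
      (c ∈ Submodule.span ℂ {a, b} ↔ U c ∈ Submodule.span ℂ {U a, U b}) := by
  intro a b c ha hb hc
  constructor
  · intro h
    by_contra hn
    obtain ⟨z, z1, z2, z3⟩ := aux_sep K hK (U a) (U b) (U c) hn
    have hz : z ≠ 0 := by
      intro h0
      rw [h0] at z3
      exact z3 (by simp)
    obtain ⟨w, hw, c', hc'⟩ := G_surj z hz
    have hc0 : c' ≠ 0 := by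
      intro h0
      rw [h0, zero_smul] at hc'
      exact hz hc'
    have key : ∀ y : Y, K z y = c' * K (G w) y := by
      intro y
      rw [hc', map_smul, LinearMap.smul_apply, smul_eq_mul]
    rw [key] at z1 z2 z3
    have y1 : K (G w) (U a) = 0 := by
      rcases mul_eq_zero.1 z1 with h0 | h0
      · exact absurd h0 hc0
      · exact h0
    have y2 : K (G w) (U b) = 0 := by
      rcases mul_eq_zero.1 z2 with h0 | h0
      · exact absurd h0 hc0
      · exact h0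
    have x1 := (inc a w ha hw).2 y1
    have x2 := (inc b w hb hw).2 y2
    obtain ⟨s, t, hst⟩ := Submodule.mem_span_pair.1 h
    have x3 : J w c = 0 := by
      rw [← hst, map_add, map_smul, map_smul, x1, x2]
      simp
    have y3 := (inc c w hc hw).1 x3
    exact z3 (by rw [y3, mul_zero])
  · intro h
    by_contra hn
    obtain ⟨w, w1, w2, w3⟩ := aux_sep J hJ a b c hn
    have hw : w ≠ 0 := by
      intro h0
      rw [h0] at w3
      exact w3 (by simp)
    have y1 := (inc a w ha hw).1 w1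
    have y2 := (inc b w hb hw).1 w2
    obtain ⟨s, t, hst⟩ := Submodule.mem_span_pair.1 h
    apply w3
    apply (inc c w hc hw).2
    rw [← hst, map_add, map_smul, map_smul, y1, y2]
    simp



end sk1


end Pool.Agent.Helper280.QN.Jftlines
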