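import Mathlib
import Pool.Agent.Helper280.QN.Basic

set_option autoImplicit false

namespace Pool.Agent.Helper280.QN.Jftmain



section sk1

theorem ft_main_two {V : Type*} [AddCommGroup V] [Module ℂ V]
    (hV : ∃ v : Fin 3 → V, LinearIndependent ℂ v) (f0 : V →ₗ[ℂ] ℂ) :
    ∃ v : Fin 2 → LinearMap.ker f0, LinearIndependent ℂ v := by
  obtain ⟨v, hv⟩ := hV
  rw [Fintype.linearIndependent_iff] at hv
  have key : ∀ x y : V, ∀ (hx : f0 x = 0) (hy : f0 y = 0),
      (∀ s t : ℂ, s • x + t • y = 0 → s = 0 ∧ t = 0) →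
      ∃ v : Fin 2 → LinearMap.ker f0, LinearIndependent ℂ v := by
    intro x y hx hy h
    refine ⟨![⟨x, hx⟩, ⟨y, hy⟩], ?_⟩
    rw [LinearIndependent.pair_iff]
    intro s t hst
    apply h s t
    have := congrArg Subtype.val hst
    simpa using this
  by_cases h0 : f0 (v 0) = 0
  · by_cases h1 : f0 (v 1) = 0
    · refine key (v 0) (v 1) h0 h1 ?_
      intro s t hst
      have := hv ![s, t, 0] (by
        rw [Fin.sum_univ_three]
        simpa using hst)
      exact ⟨this 0, this 1⟩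
    · refine key (v 0) (v 2 - (f0 (v 2) / f0 (v 1)) • v 1) h0 ?_ ?_
      · rw [map_sub, map_smul, smul_eq_mul]; field_simp; ring
      · intro s t hst
        have := hv ![s, -(t * (f0 (v 2) / f0 (v 1))), t] (by
          rw [Fin.sum_univ_three]
          show s • v 0 + (-(t * (f0 (v 2) / f0 (v 1)))) • v 1 + t • v 2 = 0
          rw [← hst]
          module)
        exact ⟨this 0, this 2⟩
  · refine key (v 1 - (f0 (v 1) / f0 (v 0)) • v 0) (v 2 - (f0 (v 2) / f0 (v 0)) • v 0) ?_ ?_ ?_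
    · rw [map_sub, map_smul, smul_eq_mul]; field_simp; ring
    · rw [map_sub, map_smul, smul_eq_mul]; field_simp; ring
    · intro s t hst
      have := hv ![-(s * (f0 (v 1) / f0 (v 0))) - t * (f0 (v 2) / f0 (v 0)), s, t] (by
        rw [Fin.sum_univ_three]
        show (-(s * (f0 (v 1) / f0 (v 0))) - t * (f0 (v 2) / f0 (v 0))) • v 0 + s • v 1 + t • v 2 = 0
        rw [← hst]
        module)
      exact ⟨this 1, this 2⟩

theorem ft_main {V Y : Type*} [AddCommGroup V] [Module ℂ V] [AddCommGroup Y] [Module ℂ Y]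
    (hchart : ∀ (K : Submodule ℂ V) (K' : Submodule ℂ Y),
      (∃ v : Fin 2 → K, LinearIndependent ℂ v) → ∀ (A : K → K'), Function.Bijective A → A 0 = 0 →
      (∀ v w : K, LinearIndependent ℂ ![v, w] → A (v + w) = A v + A w) →
      (∀ v w : K, v ≠ 0 → ((∃ c : ℂ, w = c • v) ↔ ∃ c : ℂ, A w = c • A v)) →
      ∃ τ : ℂ ≃+* ℂ, (∀ v w, A (v + w) = A v + A w) ∧
        ∀ (c : ℂ) (v : K), A (c • v) = τ c • A v)
    (hV : ∃ v : Fin 3 → V, LinearIndependent ℂ v)
    (f0 : V →ₗ[ℂ] ℂ) (g0 : Y →ₗ[ℂ] ℂ) (hf0 : f0 ≠ 0)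
    (U : V → Y) (U_ne : ∀ v, v ≠ 0 → U v ≠ 0)
    (inc : ∀ v, v ≠ 0 → (f0 v = 0 ↔ g0 (U v) = 0))
    (lines : ∀ a b c : V, a ≠ 0 → b ≠ 0 → c ≠ 0 →
      (c ∈ Submodule.span ℂ {a, b} ↔ U c ∈ Submodule.span ℂ {U a, U b}))
    (U_surj : ∀ y, y ≠ 0 → ∃ v, v ≠ 0 ∧ ∃ c : ℂ, y = c • U v) :
    ∃ (τ : ℂ ≃+* ℂ) (A : V ≃+ Y), (∀ (c : ℂ) (v : V), A (c • v) = τ c • A v) ∧
      (∀ v, v ≠ 0 → ∃ c : ℂ, c ≠ 0 ∧ U v = c • A v) := by
  classical
  -- the base point
  obtain ⟨e0, he0⟩ : ∃ e0 : V, f0 e0 = 1 := by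
    obtain ⟨v, hv⟩ : ∃ v, f0 v ≠ 0 := by
      by_contra h
      apply hf0
      ext v
      by_contra h'
      exact h ⟨v, h'⟩
    exact ⟨(f0 v)⁻¹ • v, by rw [map_smul, smul_eq_mul, inv_mul_cancel₀ hv]⟩
  have ne_of_one : ∀ x : V, f0 x = 1 → x ≠ 0 := by
    rintro x hx rfl
    rw [map_zero] at hx
    exact zero_ne_one hx
  have he0ne : e0 ≠ 0 := ne_of_one e0 he0
  have hg : ∀ x : V, x ≠ 0 → f0 x ≠ 0 → g0 (U x) ≠ 0 := by
    intro x hx hfx h
    exact hfx ((inc x hx).2 h)
  have hge0 : g0 (U e0) ≠ 0 := hg e0 he0ne (by rw [he0]; exact one_ne_zero)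
  obtain ⟨e', he'⟩ : ∃ e' : Y, e' = (g0 (U e0))⁻¹ • U e0 := ⟨_, rfl⟩
  have hge' : g0 e' = 1 := by rw [he', map_smul, smul_eq_mul, inv_mul_cancel₀ hge0]
  have hUe0 : U e0 = g0 (U e0) • e' := by rw [he', smul_smul, mul_inv_cancel₀ hge0, one_smul]
  -- parallel vectors
  have hsing : ∀ a c : V, a ≠ 0 → c ≠ 0 → ((∃ t : ℂ, c = t • a) ↔ ∃ t : ℂ, U c = t • U a) := by
    intro a c ha hc
    have h := lines a a c ha ha hc
    rw [Set.pair_eq_singleton, Set.pair_eq_singleton, Submodule.mem_span_singleton,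
      Submodule.mem_span_singleton] at h
    constructor
    · rintro ⟨t, ht⟩
      obtain ⟨s, hs⟩ := h.1 ⟨t, ht.symm⟩
      exact ⟨s, hs.symm⟩
    · rintro ⟨t, ht⟩
      obtain ⟨s, hs⟩ := h.2 ⟨t, ht.symm⟩
      exact ⟨s, hs.symm⟩
  have hf1 : ∀ v : LinearMap.ker f0, f0 (e0 + v) = 1 := by
    intro v
    have : f0 (v : V) = 0 := v.2
    rw [map_add, he0, this, add_zero]
  have hne1 : ∀ v : LinearMap.ker f0, e0 + (v : V) ≠ 0 := fun v => ne_of_one _ (hf1 v)
  have hgv : ∀ v : LinearMap.ker f0, g0 (U (e0 + v)) ≠ 0 := fun v =>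
    hg _ (hne1 v) (by rw [hf1 v]; exact one_ne_zero)
  let A : LinearMap.ker f0 → LinearMap.ker g0 := fun v =>
    ⟨(g0 (U (e0 + v)))⁻¹ • U (e0 + v) - e', by
      rw [LinearMap.mem_ker, map_sub, map_smul, smul_eq_mul, inv_mul_cancel₀ (hgv v), hge', sub_self]⟩
  have hA : ∀ v : LinearMap.ker f0, (A v : Y) = (g0 (U (e0 + v)))⁻¹ • U (e0 + v) - e' := fun v => rfl
  have hUA : ∀ v : LinearMap.ker f0, U (e0 + v) = g0 (U (e0 + v)) • (e' + A v) := by
    intro v
    rw [hA v, add_sub_cancel, smul_smul, mul_inv_cancel₀ (hgv v), one_smul]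
  have hA0 : A 0 = 0 := by
    apply Subtype.ext
    rw [hA]
    simp only [ZeroMemClass.coe_zero, add_zero]
    rw [← he', sub_self]
  have hgA : ∀ v : LinearMap.ker f0, g0 (A v : Y) = 0 := fun v => (A v).2
  have hinj : Function.Injective A := by
    intro v w hvw
    have h1 : U (e0 + v) = (g0 (U (e0 + v)) * (g0 (U (e0 + w)))⁻¹) • U (e0 + w) := by
      rw [hUA w, map_smul, map_add, hgA w, hge', add_zero, smul_eq_mul, mul_one, smul_smul,
        mul_assoc, inv_mul_cancel₀ (hgv w), mul_one, ← hvw]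
      exact hUA v
    obtain ⟨t, ht⟩ := (hsing (e0 + w) (e0 + v) (hne1 w) (hne1 v)).2 ⟨_, h1⟩
    have h2 := congrArg f0 ht
    rw [map_smul, hf1, hf1, smul_eq_mul, mul_one] at h2
    rw [← h2, one_smul] at ht
    exact Subtype.ext (add_left_cancel ht)
  have hsurj : Function.Surjective A := by
    intro y
    have hy : g0 (y : Y) = 0 := y.2
    have hz1 : g0 (e' + y) = 1 := by rw [map_add, hge', hy, add_zero]
    have hzne : e' + (y : Y) ≠ 0 := by
      intro h
      rw [h, map_zero] at hz1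
      exact zero_ne_one hz1
    obtain ⟨w, hw, c, hc⟩ := U_surj _ hzne
    have h1 : c * g0 (U w) = 1 := by
      rw [← hz1, hc, map_smul, smul_eq_mul]
    have hgw : g0 (U w) ≠ 0 := by
      intro h; rw [h, mul_zero] at h1; exact zero_ne_one h1
    have hfw : f0 w ≠ 0 := fun h => hgw ((inc w hw).1 h)
    let v : LinearMap.ker f0 := ⟨(f0 w)⁻¹ • w - e0, by
      rw [LinearMap.mem_ker, map_sub, map_smul, smul_eq_mul, inv_mul_cancel₀ hfw, he0, sub_self]⟩
    have hv : e0 + (v : V) = (f0 w)⁻¹ • w := by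
      show e0 + ((f0 w)⁻¹ • w - e0) = _
      rw [add_sub_cancel]
    refine ⟨v, Subtype.ext ?_⟩
    obtain ⟨s, hs⟩ := (hsing w (e0 + v) hw (hne1 v)).1 ⟨_, hv⟩
    have hs0 : s ≠ 0 := by
      rintro rfl
      rw [zero_smul] at hs
      exact U_ne _ (hne1 v) hs
    rw [hA, hs, map_smul, smul_eq_mul, smul_smul]
    have e1 : (s * g0 (U w))⁻¹ * s = c := by
      have : c = (g0 (U w))⁻¹ := eq_inv_of_mul_eq_one_left h1
      rw [this]; field_simp
    rw [e1, ← hc, add_sub_cancel_left]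
  have hbij : Function.Bijective A := ⟨hinj, hsurj⟩
  have hAne : ∀ v : LinearMap.ker f0, v ≠ 0 → A v ≠ 0 := by
    intro v hv h
    apply hv
    apply hinj
    rw [h, hA0]
  -- vectors of the kernel
  have hUK : ∀ v : LinearMap.ker f0, v ≠ 0 → ∃ c : ℂ, c ≠ 0 ∧ U (v : V) = c • (A v : Y) := by
    intro v hv
    have hv0 : (v : V) ≠ 0 := fun h => hv (Subtype.ext h)
    have hmem : (v : V) ∈ Submodule.span ℂ {e0, e0 + (v : V)} := by
      rw [Submodule.mem_span_pair]
      exact ⟨-1, 1, by module⟩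
    have h := (lines e0 (e0 + v) v he0ne (hne1 v) hv0).1 hmem
    rw [Submodule.mem_span_pair] at h
    obtain ⟨a, b, hab⟩ := h
    have h0 : g0 (U (v : V)) = 0 := (inc v hv0).1 v.2
    rw [hUe0, hUA v] at hab
    have h1 : a * g0 (U e0) + b * g0 (U (e0 + v)) = 0 := by
      rw [← hab] at h0
      simpa [hge', hgA] using h0
    have h2 : U (v : V) = (b * g0 (U (e0 + v))) • (A v : Y) := by
      rw [← hab]
      have e1 : a * g0 (U e0) = -(b * g0 (U (e0 + v))) := by linear_combination h1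
      rw [smul_smul, smul_smul, e1]
      module
    refine ⟨_, ?_, h2⟩
    intro h3
    rw [h3, zero_smul] at h2
    exact U_ne _ hv0 h2
  have hpar : ∀ v w : LinearMap.ker f0, v ≠ 0 →
      ((∃ c : ℂ, w = c • v) ↔ ∃ c : ℂ, A w = c • A v) := by
    intro v w hv
    by_cases hw : w = 0
    · subst hw
      constructor
      · intro _; exact ⟨0, by rw [hA0, zero_smul]⟩
      · intro _; exact ⟨0, by rw [zero_smul]⟩
    · have hv0 : (v : V) ≠ 0 := fun h => hv (Subtype.ext h)
      have hw0 : (w : V) ≠ 0 := fun h => hw (Subtype.ext h)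
      obtain ⟨c1, hc1, h1⟩ := hUK v hv
      obtain ⟨c2, hc2, h2⟩ := hUK w hw
      have h := hsing v w hv0 hw0
      constructor
      · rintro ⟨c, hc⟩
        obtain ⟨t, ht⟩ := h.1 ⟨c, by rw [hc]; rfl⟩
        refine ⟨c2⁻¹ * (t * c1), Subtype.ext ?_⟩
        show (A w : Y) = (c2⁻¹ * (t * c1)) • (A v : Y)
        rw [h1, h2] at ht
        rw [mul_smul, mul_smul, ← ht, smul_smul, inv_mul_cancel₀ hc2, one_smul]
      · rintro ⟨c, hc⟩
        have hc' : (A w : Y) = c • (A v : Y) := by rw [hc]; rfl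
        obtain ⟨t, ht⟩ := h.2 ⟨c2 * (c * c1⁻¹), by
          rw [h1, h2, hc', smul_smul, smul_smul]
          congr 1
          field_simp⟩
        exact ⟨t, Subtype.ext ht⟩
  have hadd : ∀ v w : LinearMap.ker f0, LinearIndependent ℂ ![v, w] → A (v + w) = A v + A w := by
    intro v w hvw
    rw [LinearIndependent.pair_iff] at hvw
    have hv : v ≠ 0 := by
      rintro rfl
      have := hvw 1 0 (by simp)
      exact one_ne_zero this.1
    have hw : w ≠ 0 := by
      rintro rfl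
      have := hvw 0 1 (by simp)
      exact one_ne_zero this.2
    -- one inclusion
    have one : ∀ v w : LinearMap.ker f0, w ≠ 0 →
        ∃ β : ℂ, (A (v + w) : Y) = (A v : Y) + β • (A w : Y) := by
      intro v w hw
      have hw0 : (w : V) ≠ 0 := fun h => hw (Subtype.ext h)
      obtain ⟨c2, hc2, h2⟩ := hUK w hw
      have hmem : e0 + ((v + w : LinearMap.ker f0) : V) ∈
          Submodule.span ℂ {e0 + (v : V), (w : V)} := by
        rw [Submodule.mem_span_pair]
        refine ⟨1, 1, ?_⟩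
        push_cast
        module
      have h := (lines (e0 + v) w _ (hne1 v) hw0 (hne1 (v + w))).1 hmem
      rw [Submodule.mem_span_pair] at h
      obtain ⟨a, b, hab⟩ := h
      rw [hUA v, h2, hUA (v + w)] at hab
      have h3 : a * g0 (U (e0 + v)) = g0 (U (e0 + (v + w : LinearMap.ker f0))) := by
        have := congrArg g0 hab
        simpa [hge', hgA] using this
      have hne := hgv (v + w)
      refine ⟨(g0 (U (e0 + (v + w : LinearMap.ker f0))))⁻¹ * (b * c2), ?_⟩
      rw [smul_smul, smul_smul, h3] at hab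
      have h4 := congrArg (fun z : Y => (g0 (U (e0 + (v + w : LinearMap.ker f0))))⁻¹ • z) hab
      simp only [smul_add, smul_smul] at h4
      rw [inv_mul_cancel₀ hne, one_smul, one_smul, one_smul] at h4
      have h5 := add_left_cancel (a := e') (by rw [← add_assoc]; exact h4.symm :
        e' + (A (v + w) : Y) = e' + ((A v : Y) +
          ((g0 (U (e0 + (v + w : LinearMap.ker f0))))⁻¹ * (b * c2)) • (A w : Y)))
      exact h5
    obtain ⟨β, hβ⟩ := one v w hw
    obtain ⟨α, hα⟩ := one w v hv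
    rw [add_comm w v] at hα
    rw [hβ] at hα
    have hβ1 : β = 1 := by
      by_contra hne
      have h1 : (A w : Y) = ((α - 1) * (β - 1)⁻¹) • (A v : Y) := by
        have h2 : (β - 1) • (A w : Y) = (α - 1) • (A v : Y) := by
          have : (β - 1) • (A w : Y) - (α - 1) • (A v : Y) =
            ((A v : Y) + β • (A w : Y)) - ((A w : Y) + α • (A v : Y)) := by module
          rw [hα, sub_self] at this
          exact sub_eq_zero.1 this
        have h3 : β - 1 ≠ 0 := sub_ne_zero.2 hne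
        calc (A w : Y) = ((β - 1)⁻¹ * (β - 1)) • (A w : Y) := by
              rw [inv_mul_cancel₀ h3, one_smul]
          _ = (β - 1)⁻¹ • ((β - 1) • (A w : Y)) := by rw [mul_smul]
          _ = ((α - 1) * (β - 1)⁻¹) • (A v : Y) := by rw [h2, smul_smul, mul_comm]
      obtain ⟨c, hc⟩ := (hpar v w hv).2 ⟨_, Subtype.ext h1⟩
      have := hvw c (-1) (by rw [hc]; module)
      exact (neg_ne_zero.2 one_ne_zero) this.2
    apply Subtype.ext
    rw [hβ, hβ1, one_smul]
    rfl
  obtain ⟨τ, hAadd, hAsmul⟩ := hchart (LinearMap.ker f0) (LinearMap.ker g0) (ft_main_two hV f0) A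
    hbij hA0 hadd hpar
  -- the projection on the kernel
  let π : V → LinearMap.ker f0 := fun x => ⟨x - f0 x • e0, by
    rw [LinearMap.mem_ker, map_sub, map_smul, he0, smul_eq_mul, mul_one, sub_self]⟩
  have hπ : ∀ x, (π x : V) = x - f0 x • e0 := fun x => rfl
  have hπadd : ∀ x y, π (x + y) = π x + π y := by
    intro x y
    apply Subtype.ext
    push_cast
    rw [hπ, hπ, hπ, map_add]
    module
  have hπsmul : ∀ (c : ℂ) x, π (c • x) = c • π x := by
    intro c x
    apply Subtype.ext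
    push_cast
    rw [hπ, hπ, map_smul, smul_eq_mul]
    module
  let B : V →+ Y :=
    { toFun := fun x => τ (f0 x) • e' + (A (π x) : Y)
      map_zero' := by
        have : π 0 = 0 := by
          apply Subtype.ext
          rw [hπ, map_zero]; simp
        rw [this, hA0, map_zero, map_zero, zero_smul, zero_add]
        rfl
      map_add' := by
        intro x y
        rw [hπadd, hAadd, map_add, map_add]
        push_cast
        module }
  have hB : ∀ x, B x = τ (f0 x) • e' + (A (π x) : Y) := fun x => rfl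
  have hgB : ∀ x, g0 (B x) = τ (f0 x) := by
    intro x
    rw [hB, map_add, map_smul, hge', hgA, smul_eq_mul, mul_one, add_zero]
  have hBinj : Function.Injective B := by
    rw [injective_iff_map_eq_zero]
    intro x hx
    have h1 : f0 x = 0 := by
      have := hgB x
      rw [hx, map_zero] at this
      have h2 : τ (f0 x) = τ 0 := by rw [← this, map_zero]
      exact τ.injective h2
    rw [hB, h1, map_zero, zero_smul, zero_add] at hx
    have h3 : A (π x) = 0 := Subtype.ext hx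
    have h4 : π x = 0 := hinj (by rw [h3, hA0])
    have h5 := congrArg Subtype.val h4
    rw [hπ, h1, zero_smul, sub_zero] at h5
    exact h5
  have hBsurj : Function.Surjective B := by
    intro y
    obtain ⟨v, hv⟩ := hsurj ⟨y - g0 y • e', by
      rw [LinearMap.mem_ker, map_sub, map_smul, hge', smul_eq_mul, mul_one, sub_self]⟩
    have hf : f0 (τ.symm (g0 y) • e0 + (v : V)) = τ.symm (g0 y) := by
      have : f0 (v : V) = 0 := v.2
      rw [map_add, map_smul, he0, this, smul_eq_mul, mul_one, add_zero]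
    have hpi : π (τ.symm (g0 y) • e0 + (v : V)) = v := by
      apply Subtype.ext
      rw [hπ, hf, add_sub_cancel_left]
    refine ⟨τ.symm (g0 y) • e0 + (v : V), ?_⟩
    rw [hB, hf, hpi, hv, RingEquiv.apply_symm_apply, add_sub_cancel]
  have hBsmul : ∀ (c : ℂ) (v : V), B (c • v) = τ c • B v := by
    intro c v
    rw [hB, hB, hπsmul, hAsmul, map_smul, smul_eq_mul, map_mul]
    push_cast
    module
  refine ⟨τ, AddEquiv.ofBijective B ⟨hBinj, hBsurj⟩, hBsmul, ?_⟩
  intro v hv
  show ∃ c : ℂ, c ≠ 0 ∧ U v = c • B v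
  by_cases ht : f0 v = 0
  · have hpi : (⟨v, ht⟩ : LinearMap.ker f0) ≠ 0 := by
      intro h
      exact hv (congrArg Subtype.val h)
    obtain ⟨c, hc, h⟩ := hUK ⟨v, ht⟩ hpi
    refine ⟨c, hc, ?_⟩
    have e1 : π v = ⟨v, ht⟩ := by
      apply Subtype.ext
      rw [hπ, ht, zero_smul, sub_zero]
    rw [hB, ht, map_zero, zero_smul, zero_add, e1]
    exact h
  · let u : LinearMap.ker f0 := ⟨(f0 v)⁻¹ • v - e0, by
      rw [LinearMap.mem_ker, map_sub, map_smul, smul_eq_mul, inv_mul_cancel₀ ht, he0, sub_self]⟩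
    have hu : e0 + (u : V) = (f0 v)⁻¹ • v := by
      show e0 + ((f0 v)⁻¹ • v - e0) = _
      rw [add_sub_cancel]
    have hvu : v = f0 v • (e0 + (u : V)) := by
      rw [hu, smul_smul, mul_inv_cancel₀ ht, one_smul]
    obtain ⟨s, hs⟩ := (hsing (e0 + u) v (hne1 u) hv).1 ⟨_, hvu⟩
    have hs0 : s ≠ 0 := by
      rintro rfl
      rw [zero_smul] at hs
      exact U_ne _ hv hs
    have hBu : B (e0 + (u : V)) = e' + (A u : Y) := by
      have e1 : π (e0 + (u : V)) = u := by
        apply Subtype.ext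
        rw [hπ, hf1, one_smul, add_sub_cancel_left]
      rw [hB, hf1, map_one, one_smul, e1]
    have hBv : B v = τ (f0 v) • (e' + (A u : Y)) := by
      conv_lhs => rw [hvu]
      rw [hBsmul, hBu]
    have hτ : τ (f0 v) ≠ 0 := by
      intro h
      apply ht
      apply τ.injective
      rw [h, map_zero]
    refine ⟨s * g0 (U (e0 + u)) * (τ (f0 v))⁻¹, ?_, ?_⟩
    · exact mul_ne_zero (mul_ne_zero hs0 (hgv u)) (inv_ne_zero hτ)
    · rw [hBv, smul_smul, mul_assoc, inv_mul_cancel₀ hτ, mul_one, mul_smul, ← hUA u, hs]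


end sk1


end Pool.Agent.Helper280.QN.Jftmain
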