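import Mathlib
import Pool.Agent.Helper280.QN.Flags
import Pool.Agent.Helper280.QN.Jftlines
import Pool.Agent.Helper280.QN.Jftchart
import Pool.Agent.Helper280.QN.Jftmain
import Pool.Agent.Helper280.QN.Jftfunc

set_option autoImplicit false

namespace Pool.Agent.Helper280.QN

open Jcorr (Par Flag)

section ft

/-- the fundamental theorem of projective geometry for paired spaces -/
theorem ft_all {V W Y : Type*} [AddCommGroup V] [Module ℂ V] [AddCommGroup W] [Module ℂ W]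
    [NormedAddCommGroup Y] [NormedSpace ℂ Y]
    (J : W →ₗ[ℂ] V →ₗ[ℂ] ℂ)
    (hJ : ∀ v, v ≠ 0 → ∃ w, J w v ≠ 0) (hJ0 : ∀ w, w ≠ 0 → J w ≠ 0)
    (hV : ∃ v : Fin 3 → V, LinearIndependent ℂ v)
    (U : V → Y) (G : W → (Y →L[ℂ] ℂ))
    (U_ne : ∀ v, v ≠ 0 → U v ≠ 0) (G_ne : ∀ w, w ≠ 0 → G w ≠ 0)
    (inc : ∀ v w, v ≠ 0 → w ≠ 0 → (J w v = 0 ↔ G w (U v) = 0))
    (U_surj : ∀ y, y ≠ 0 → ∃ v, v ≠ 0 ∧ ∃ c : ℂ, y = c • U v)
    (G_surj : ∀ z, z ≠ 0 → ∃ w, w ≠ 0 ∧ ∃ c : ℂ, z = c • G w) :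
    ∃ (τ : ℂ ≃+* ℂ) (A : V ≃+ Y), (∀ (c : ℂ) (v : V), A (c • v) = τ c • A v) ∧
      (∀ v, v ≠ 0 → ∃ c : ℂ, c ≠ 0 ∧ U v = c • A v) ∧
      (∀ w, w ≠ 0 → ∃ c : ℂ, c ≠ 0 ∧ ∀ v, G w (A v) = c * τ (J w v)) := by
  have lines := Jftlines.ft_lines J (ContinuousLinearMap.coeLM ℂ : (Y →L[ℂ] ℂ) →ₗ[ℂ] (Y →ₗ[ℂ] ℂ))
    hJ (fun y hy => by
      obtain ⟨g, hg⟩ := SeparatingDual.exists_ne_zero (R := ℂ) hy
      exact ⟨g, hg⟩) U G U_ne G_ne inc G_surj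
  obtain ⟨v, hv⟩ := hV
  obtain ⟨w0, hw0⟩ := hJ (v 0) (hv.ne_zero 0)
  have hw00 : w0 ≠ 0 := by
    rintro rfl
    simp at hw0
  obtain ⟨τ, A, hA, hUA⟩ := Jftmain.ft_main (fun K K' hK A h1 h2 h3 h4 =>
    Jftchart.ft_chart hK A h1 h2 h3 h4) ⟨v, hv⟩ (J w0) (G w0 : Y →ₗ[ℂ] ℂ) (hJ0 w0 hw00) U U_ne
    (fun v hv => inc v w0 hv hw00) lines U_surj
  refine ⟨τ, A, hA, hUA, fun w hw => ?_⟩
  refine Jftfunc.ft_func τ A hA (J w) (G w : Y →ₗ[ℂ] ℂ) ?_ ?_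
  · intro h
    apply G_ne w hw
    ext y
    exact congrArg (fun k : Y →ₗ[ℂ] ℂ => k y) h
  · intro v
    by_cases hv0 : v = 0
    · rw [hv0]; simp
    · rw [inc v w hv0 hw]
      obtain ⟨c, hc, h⟩ := hUA v hv0
      rw [h, map_smul, smul_eq_mul]
      constructor
      · intro h0
        exact (mul_eq_zero.1 h0).resolve_left hc
      · intro h0
        have h0' : G w (A v) = 0 := h0
        rw [h0', mul_zero]

theorem flag_iff_par {Y : Type*} [NormedAddCommGroup Y] [NormedSpace ℂ Y] {u u' : Y}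
    {g g' : Y →L[ℂ] ℂ} (h1 : Par u u') (h2 : Par g g') (T : Y →L[ℂ] Y) :
    g (T u) = 0 ↔ g' (T u') = 0 := by
  obtain ⟨c, hc, rfl⟩ := h1
  obtain ⟨d, hd, rfl⟩ := h2
  simp [hc, hd]

variable {X Y : Type*} [NormedAddCommGroup X] [NormedSpace ℂ X]
  [NormedAddCommGroup Y] [NormedSpace ℂ Y]

theorem Dim4.three {V : Type*} [AddCommGroup V] [Module ℂ V] (h : Dim4 V) :
    ∃ v : Fin 3 → V, LinearIndependent ℂ v := by
  obtain ⟨v, hv⟩ := h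
  exact ⟨v ∘ Fin.castSucc, hv.comp _ (Fin.castSucc_injective 3)⟩

theorem Dim4.dual (h : Dim4 X) : Dim4 (X →L[ℂ] ℂ) := by
  obtain ⟨v, hv⟩ := h
  choose f hf using fun j : Fin 4 => dual_vals hv (fun i => if i = j then (1 : ℂ) else 0)
  refine ⟨f, ?_⟩
  rw [Fintype.linearIndependent_iff]
  intro g hg i
  have := congrArg (fun k : X →L[ℂ] ℂ => k (v i)) hg
  simpa [hf] using this

/-- first form of the classification: a semilinear bijection. -/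
theorem core (k : Kind) (hdX : Dim4 X) (hdY : Dim4 Y) (φ : (X →L[ℂ] X) → (Y →L[ℂ] Y))
    (hs : Function.Surjective φ) (hφ : ∀ T S, rel k (φ T) (φ S) ↔ rel k T S) :
    (∃ (τ : ℂ ≃+* ℂ) (A : X ≃+ Y), (∀ (c : ℂ) (x : X), A (c • x) = τ c • A x) ∧
      (∀ f : X →L[ℂ] ℂ, ∃ g : Y →L[ℂ] ℂ, ∀ x, g (A x) = τ (f x)) ∧
      (∀ g : Y →L[ℂ] ℂ, ∃ f : X →L[ℂ] ℂ, ∀ x, g (A x) = τ (f x)) ∧
      (∀ x f, Flag x f → ∀ (S : X →L[ℂ] X) (g : Y →L[ℂ] ℂ), (∀ v, g (A v) = τ (f v)) →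
        (f (sq k S x) = 0 ↔ g (sq k (φ S) (A x)) = 0))) ∨
    (∃ (τ : ℂ ≃+* ℂ) (A : (X →L[ℂ] ℂ) ≃+ Y),
      (∀ (c : ℂ) (f : X →L[ℂ] ℂ), A (c • f) = τ c • A f) ∧
      (∀ x : X, ∃ g : Y →L[ℂ] ℂ, ∀ f : X →L[ℂ] ℂ, g (A f) = τ (f x)) ∧
      (∀ g : Y →L[ℂ] ℂ, ∃ x : X, ∀ f : X →L[ℂ] ℂ, g (A f) = τ (f x)) ∧
      (∀ x f, Flag x f → ∀ (S : X →L[ℂ] X) (g : Y →L[ℂ] ℂ),
        (∀ f' : X →L[ℂ] ℂ, g (A f') = τ (f' x)) →
        (f (sq k S x) = 0 ↔ g (sq k (φ S) (A f)) = 0))) := by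
  obtain ⟨P, Q, hfl, heq, hadj, hsurj, hact⟩ := flagmap hdX hdY hs hφ
  rcases Jcorr.corr_of_flagmap hdX hdY (fun R1 R2 S1 S2 h1 h2 h3 h4 h5 h6 h7 h8 h9 =>
    Jtypes.types_of_rel R1 R2 S1 S2 h1 h2 h3 h4 h5 h6 h7 h8 h9) P Q hfl heq hadj hsurj with
    ⟨U, G, hU, hG, hinc, hUs, hGs, hPQ⟩ | ⟨U, G, hU, hG, hinc, hUs, hGs, hPQ⟩
  · left
    obtain ⟨τ, A, hA, hUA, hGA⟩ := ft_all
      (ContinuousLinearMap.coeLM ℂ : (X →L[ℂ] ℂ) →ₗ[ℂ] (X →ₗ[ℂ] ℂ))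
      (fun v hv => by
        obtain ⟨g, hg⟩ := SeparatingDual.exists_ne_zero (R := ℂ) hv
        exact ⟨g, hg⟩)
      (fun w hw h => hw (by ext x; exact congrArg (fun k : X →ₗ[ℂ] ℂ => k x) h))
      hdX.three U G hU hG hinc hUs hGs
    refine ⟨τ, A, hA, ?_, ?_, ?_⟩
    · intro f
      by_cases hf : f = 0
      · exact ⟨0, fun x => by rw [hf]; simp⟩
      · obtain ⟨c, hc, h⟩ := hGA f hf
        refine ⟨c⁻¹ • G f, fun x => ?_⟩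
        rw [smul_apply, h, smul_eq_mul, ← mul_assoc, inv_mul_cancel₀ hc, one_mul]
        rfl
    · intro g
      by_cases hg : g = 0
      · exact ⟨0, fun x => by rw [hg]; simp⟩
      · obtain ⟨f, hf, e, he⟩ := hGs g hg
        obtain ⟨c, hc, h⟩ := hGA f hf
        refine ⟨τ.symm (e * c) • f, fun x => ?_⟩
        rw [he, smul_apply, h, smul_apply, smul_eq_mul, smul_eq_mul, map_mul,
          RingEquiv.apply_symm_apply, mul_assoc]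
        rfl
    · intro x f hxf S g hg
      obtain ⟨c, hc, h⟩ := hGA f hxf.2.1
      obtain ⟨e, he, hUx⟩ := hUA x hxf.1
      rw [hact x f hxf S]
      obtain ⟨h1, h2⟩ := hPQ x f hxf
      refine (flag_iff_par h1 h2 _).trans ?_
      refine flag_iff_par (par_symm ⟨e, he, hUx⟩) (par_symm ⟨c, hc, ?_⟩) _
      ext y
      obtain ⟨v, rfl⟩ := A.surjective y
      rw [h, smul_apply, hg, smul_eq_mul]
      rfl
  · right
    obtain ⟨τ, A, hA, hUA, hGA⟩ := ft_all (V := (X →L[ℂ] ℂ)) (W := X)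
      ((ContinuousLinearMap.coeLM ℂ : (X →L[ℂ] ℂ) →ₗ[ℂ] (X →ₗ[ℂ] ℂ)).flip)
      (fun f hf => by
        obtain ⟨z, hz⟩ := exists_ne_of_ne hf
        exact ⟨z, hz⟩)
      (fun w hw h => by
        obtain ⟨g, hg⟩ := SeparatingDual.exists_ne_zero (R := ℂ) hw
        exact hg (congrArg (fun k : (X →L[ℂ] ℂ) →ₗ[ℂ] ℂ => k g) h))
      hdX.dual.three U G hU hG hinc hUs hGs
    refine ⟨τ, A, hA, ?_, ?_, ?_⟩
    · intro x
      by_cases hx : x = 0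
      · exact ⟨0, fun f => by rw [hx]; simp⟩
      · obtain ⟨c, hc, h⟩ := hGA x hx
        refine ⟨c⁻¹ • G x, fun f => ?_⟩
        rw [smul_apply, h, smul_eq_mul, ← mul_assoc, inv_mul_cancel₀ hc, one_mul]
        rfl
    · intro g
      by_cases hg : g = 0
      · exact ⟨0, fun x => by rw [hg]; simp⟩
      · obtain ⟨x, hx, e, he⟩ := hGs g hg
        obtain ⟨c, hc, h⟩ := hGA x hx
        refine ⟨τ.symm (e * c) • x, fun f => ?_⟩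
        rw [he, smul_apply, h, map_smul, smul_eq_mul, smul_eq_mul, map_mul,
          RingEquiv.apply_symm_apply, mul_assoc]
        rfl
    · intro x f hxf S g hg
      obtain ⟨c, hc, h⟩ := hGA x hxf.1
      obtain ⟨e, he, hUx⟩ := hUA f hxf.2.1
      rw [hact x f hxf S]
      obtain ⟨h1, h2⟩ := hPQ x f hxf
      refine (flag_iff_par h1 h2 _).trans ?_
      refine flag_iff_par (par_symm ⟨e, he, hUx⟩) (par_symm ⟨c, hc, ?_⟩) _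
      ext y
      obtain ⟨v, rfl⟩ := A.surjective y
      rw [h, smul_apply, hg, smul_eq_mul]
      rfl

end ft

end Pool.Agent.Helper280.QN
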