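import Mathlib

/-!
# Standard maps between algebras of operators

Definitions used in the description of the surjective maps `φ : 𝓑(X) → 𝓑(Y)` that preserve the
quasinilpotency of one of the products `T S`, `S T S`, `T S + S T`, `T S - S T`.
-/

set_option autoImplicit false

namespace Pool.Agent.Helper280.QNDefs

section Banach
variable {X Y : Type*} [NormedAddCommGroup X] [NormedSpace ℂ X]
  [NormedAddCommGroup Y] [NormedSpace ℂ Y]

/-- `X` is reflexive: the canonical map into the bidual is onto. -/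
def IsReflexive (X : Type*) [NormedAddCommGroup X] [NormedSpace ℂ X] : Prop :=
  Function.Surjective (NormedSpace.inclusionInDoubleDual ℂ X)

/-- (a) `r(φ(T) φ(S)) = 0` if and only if `r(T S) = 0`. -/
def PreservesProduct (φ : (X →L[ℂ] X) → (Y →L[ℂ] Y)) : Prop :=
  ∀ T S : X →L[ℂ] X, spectralRadius ℂ (φ T * φ S) = 0 ↔ spectralRadius ℂ (T * S) = 0

/-- (b) `r(φ(S) φ(T) φ(S)) = 0` if and only if `r(S T S) = 0`. -/
def PreservesTripleProduct (φ : (X →L[ℂ] X) → (Y →L[ℂ] Y)) : Prop :=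
  ∀ T S : X →L[ℂ] X, spectralRadius ℂ (φ S * φ T * φ S) = 0 ↔ spectralRadius ℂ (S * T * S) = 0

/-- (c) `r(φ(T) φ(S) + φ(S) φ(T)) = 0` if and only if `r(T S + S T) = 0`. -/
def PreservesJordanProduct (φ : (X →L[ℂ] X) → (Y →L[ℂ] Y)) : Prop :=
  ∀ T S : X →L[ℂ] X,
    spectralRadius ℂ (φ T * φ S + φ S * φ T) = 0 ↔ spectralRadius ℂ (T * S + S * T) = 0

/-- (d) `r(φ(T) φ(S) - φ(S) φ(T)) = 0` if and only if `r(T S - S T) = 0`. -/
def PreservesLieProduct (φ : (X →L[ℂ] X) → (Y →L[ℂ] Y)) : Prop :=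
  ∀ T S : X →L[ℂ] X,
    spectralRadius ℂ (φ T * φ S - φ S * φ T) = 0 ↔ spectralRadius ℂ (T * S - S * T) = 0

/-- There is a function `c : 𝓑(X) → ℂ \ {0}` such that `φ` is
`T ↦ c(T) A T A⁻¹` with `A : X → Y` a bounded bijective linear or conjugate-linear map, or
`T ↦ c(T) A T* A⁻¹` with `A : X* → Y` a bounded bijective linear or conjugate-linear map
(`X` reflexive). Here `T*` is the Banach space adjoint `f ↦ f ∘ T`. -/
def IsStandard (φ : (X →L[ℂ] X) → (Y →L[ℂ] Y)) : Prop :=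
  ∃ c : (X →L[ℂ] X) → ℂ, (∀ T, c T ≠ 0) ∧
    ((∃ A : X ≃L[ℂ] Y, ∀ T y, φ T y = c T • A (T (A.symm y))) ∨
    (∃ A : X ≃SL[starRingEnd ℂ] Y, ∀ T y, φ T y = c T • A (T (A.symm y))) ∨
    (IsReflexive X ∧ ∃ A : StrongDual ℂ X ≃L[ℂ] Y,
      ∀ T y, φ T y = c T • A ((A.symm y).comp T)) ∨
    (IsReflexive X ∧ ∃ A : StrongDual ℂ X ≃SL[starRingEnd ℂ] Y,
      ∀ T y, φ T y = c T • A ((A.symm y).comp T)))

/-- There are functions `c : 𝓑(X) → ℂ \ {0}` and `d : 𝓑(X) → ℂ` such that `φ` is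
`T ↦ c(T) A T A⁻¹ + d(T) 1` with `A : X → Y` a bounded bijective linear or conjugate-linear map,
or `T ↦ c(T) A T* A⁻¹ + d(T) 1` with `A : X* → Y` a bounded bijective linear or conjugate-linear
map (`X` reflexive). Here `T*` is the Banach space adjoint `f ↦ f ∘ T`. -/
def IsStandardWithShift (φ : (X →L[ℂ] X) → (Y →L[ℂ] Y)) : Prop :=
  ∃ c d : (X →L[ℂ] X) → ℂ, (∀ T, c T ≠ 0) ∧
    ((∃ A : X ≃L[ℂ] Y, ∀ T y, φ T y = c T • A (T (A.symm y)) + d T • y) ∨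
    (∃ A : X ≃SL[starRingEnd ℂ] Y, ∀ T y, φ T y = c T • A (T (A.symm y)) + d T • y) ∨
    (IsReflexive X ∧ ∃ A : StrongDual ℂ X ≃L[ℂ] Y,
      ∀ T y, φ T y = c T • A ((A.symm y).comp T) + d T • y) ∨
    (IsReflexive X ∧ ∃ A : StrongDual ℂ X ≃SL[starRingEnd ℂ] Y,
      ∀ T y, φ T y = c T • A ((A.symm y).comp T) + d T • y))

end Banach

end Pool.Agent.Helper280.QNDefs
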