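import Mathlib
import Pool.Agent.Helper280.QN.Basic

set_option autoImplicit false

namespace Pool.Agent.Helper280.QN.Jbdd



section sk1

theorem bdd_real {V Y : Type*} [NormedAddCommGroup V] [NormedSpace ℂ V] [CompleteSpace V]
    [NormedAddCommGroup Y] [NormedSpace ℂ Y] [CompleteSpace Y] (A : V ≃+ Y)
    (hA : ∀ (c : ℝ) (v : V), A (c • v) = c • A v)
    (h : ∀ g : Y →L[ℂ] ℂ, Continuous fun v => g (A v)) :
    Continuous A ∧ Continuous A.symm := by
  letI : NormedSpace ℝ V := NormedSpace.restrictScalars ℝ ℂ V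
  letI : NormedSpace ℝ Y := NormedSpace.restrictScalars ℝ ℂ Y
  let L : V ≃ₗ[ℝ] Y := { A with map_smul' := fun c v => hA c v }
  have hL : ∀ v, L v = A v := fun v => rfl
  have hc : Continuous (L : V →ₗ[ℝ] Y) := by
    apply LinearMap.continuous_of_seq_closed_graph
    intro u x y hu hy
    have key : ∀ g : Y →L[ℂ] ℂ, g y = g (L x) := by
      intro g
      have h1 : Filter.Tendsto (fun n => g (A (u n))) Filter.atTop (nhds (g (A x))) :=
        ((h g).tendsto x).comp hu
      have h2 : Filter.Tendsto (fun n => g (A (u n))) Filter.atTop (nhds (g y)) :=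
        (g.continuous.tendsto y).comp hy
      exact tendsto_nhds_unique h2 h1
    exact (NormedSpace.eq_iff_forall_dual_eq ℂ).2 key
  let B := LinearEquiv.toContinuousLinearEquivOfContinuous L hc
  exact ⟨hc, B.symm.continuous⟩

theorem bdd_lin {V Y : Type*} [NormedAddCommGroup V] [NormedSpace ℂ V] [CompleteSpace V]
    [NormedAddCommGroup Y] [NormedSpace ℂ Y] [CompleteSpace Y] (A : V ≃+ Y)
    (hA : ∀ (c : ℂ) (v : V), A (c • v) = c • A v)
    (h : ∀ g : Y →L[ℂ] ℂ, ∃ w : V →L[ℂ] ℂ, ∀ v, g (A v) = w v) :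
    ∃ B : V ≃L[ℂ] Y, ∀ v, B v = A v := by
  have hr := bdd_real A (fun c v => by
    have := hA (c : ℂ) v
    simpa using this) (fun g => by
    obtain ⟨w, hw⟩ := h g
    have : (fun v => g (A v)) = fun v => w v := funext hw
    rw [this]; exact w.continuous)
  exact ⟨{ A with
    map_smul' := fun c v => hA c v
    continuous_toFun := hr.1
    continuous_invFun := hr.2 }, fun v => rfl⟩

theorem bdd_conj {V Y : Type*} [NormedAddCommGroup V] [NormedSpace ℂ V] [CompleteSpace V]
    [NormedAddCommGroup Y] [NormedSpace ℂ Y] [CompleteSpace Y] (A : V ≃+ Y)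
    (hA : ∀ (c : ℂ) (v : V), A (c • v) = (starRingEnd ℂ) c • A v)
    (h : ∀ g : Y →L[ℂ] ℂ, ∃ w : V →L[ℂ] ℂ, ∀ v, g (A v) = (starRingEnd ℂ) (w v)) :
    ∃ B : V ≃SL[starRingEnd ℂ] Y, ∀ v, B v = A v := by
  have hr := bdd_real A (fun c v => by
    have := hA (c : ℂ) v
    simpa using this) (fun g => by
    obtain ⟨w, hw⟩ := h g
    have : (fun v => g (A v)) = fun v => (starRingEnd ℂ) (w v) := funext hw
    rw [this]; exact Complex.continuous_conj.comp w.continuous)
  exact ⟨{ A with
    map_smul' := fun c v => hA c v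
    continuous_toFun := hr.1
    continuous_invFun := hr.2 }, fun v => rfl⟩


end sk1


end Pool.Agent.Helper280.QN.Jbdd
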