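import Mathlib
import Pool.Agent.Helper280.QN.Rel
import Pool.Agent.Helper280.QN.Tools

set_option autoImplicit false

namespace Pool.Agent.Helper280.QN.Jfinlie



section sk3
variable {X : Type*} [NormedAddCommGroup X] [NormedSpace ℂ X]

theorem final_lie
    (hspan : ∀ T R : X →L[ℂ] X, (∀ (x : X) (f : X →L[ℂ] ℂ), f x = 0 → f (T x) = 0 → f (R x) = 0) →
      ∃ a b : ℂ, R = a • 1 + b • T)
    (hscal : ∀ T : X →L[ℂ] X, (∀ (x : X) (f : X →L[ℂ] ℂ), f x = 0 → f (T x) = 0) →
      ∃ d : ℂ, T = d • 1)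
    (P : (X →L[ℂ] X) → (X →L[ℂ] X))
    (hfl : ∀ (x : X) (f : X →L[ℂ] ℂ), x ≠ 0 → f ≠ 0 → f x = 0 →
      ∀ T, f (P T x) = 0 ↔ f (T x) = 0) (T : X →L[ℂ] X) :
    ∃ c d : ℂ, c ≠ 0 ∧ P T = c • T + d • 1 := by
  by_cases hT : ∀ (x : X) (f : X →L[ℂ] ℂ), f x = 0 → f (T x) = 0
  · obtain ⟨t, ht⟩ := hscal T hT
    obtain ⟨d, hd⟩ := hscal (P T) (by
      intro x f hfx
      by_cases hx : x = 0
      · rw [hx, map_zero, map_zero]
      · by_cases hf : f = 0
        · rw [hf]
          rfl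
        · exact (hfl x f hx hf hfx T).2 (hT x f hfx))
    refine ⟨1, d - t, one_ne_zero, ?_⟩
    rw [hd, ht, one_smul, ← add_smul]
    congr 1
    ring
  · obtain ⟨a, b, hab⟩ := hspan T (P T) (by
      intro x f hfx hfT
      by_cases hx : x = 0
      · rw [hx, map_zero, map_zero]
      · by_cases hf : f = 0
        · rw [hf]
          rfl
        · exact (hfl x f hx hf hfx T).2 hfT)
    have hb : b ≠ 0 := by
      intro hb
      apply hT
      intro x f hfx
      by_cases hx : x = 0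
      · rw [hx, map_zero, map_zero]
      · by_cases hf : f = 0
        · rw [hf]
          rfl
        · refine (hfl x f hx hf hfx T).1 ?_
          rw [hab, hb, zero_smul, add_zero]
          show f (a • x) = 0
          rw [map_smul, hfx, smul_zero]
    exact ⟨b, a, hb, by rw [hab, add_comm]⟩


end sk3


end Pool.Agent.Helper280.QN.Jfinlie
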