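import Mathlib
import Pool.Agent.Helper280.QN.Rel
import Pool.Agent.Helper280.QN.Tools

set_option autoImplicit false

namespace Pool.Agent.Helper280.QN.Jfinprod



section sk3
variable {X : Type*} [NormedAddCommGroup X] [NormedSpace ℂ X]

theorem fp_notMem {v : Fin 4 → X} (hv : LinearIndependent ℂ v) (S : Finset X) (hS : S.card < 4) :
    ∃ i, v i ∉ Submodule.span ℂ (S : Set X) := by
  by_contra hcon
  push Not at hcon
  have h1 : Submodule.span ℂ (Set.range v) ≤ Submodule.span ℂ (S : Set X) := by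
    rw [Submodule.span_le]
    rintro _ ⟨i, rfl⟩
    exact hcon i
  have h2 : Module.finrank ℂ (Submodule.span ℂ (Set.range v)) = Fintype.card (Fin 4) :=
    finrank_span_eq_card hv
  have h3 : Module.finrank ℂ (Submodule.span ℂ (S : Set X)) ≤ S.card :=
    finrank_span_finset_le_card S
  have : FiniteDimensional ℂ (Submodule.span ℂ (S : Set X)) :=
    FiniteDimensional.span_of_finite ℂ S.finite_toSet
  have h4 := Submodule.finrank_mono h1
  rw [h2, Fintype.card_fin] at h4
  omega

/-- vectors `w, z` in the kernel of `f`, independent together with `x` -/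
theorem fp_vecs (hd : Dim4 X) (x : X) (f : X →L[ℂ] ℂ) (hfx : f x = 1) :
    ∃ w z : X, f w = 0 ∧ f z = 0 ∧ LinearIndependent ℂ ![z, w, x] := by
  classical
  obtain ⟨v, hv⟩ := hd
  have hx0 : x ≠ 0 := by
    rintro rfl
    simp at hfx
  obtain ⟨i, hi⟩ := fp_notMem hv {x} (by simp)
  set w := v i - f (v i) • x with hw
  have hwx : w ∉ Submodule.span ℂ ({x} : Set X) := by
    intro h
    apply hi
    have h1 : v i = w + f (v i) • x := by rw [hw]; abel
    rw [h1]
    simp only [Finset.coe_singleton]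
    exact Submodule.add_mem _ h (Submodule.smul_mem _ _ (Submodule.mem_span_singleton_self x))
  obtain ⟨j, hj⟩ := fp_notMem hv {w, x} (by
    exact lt_of_le_of_lt (Finset.card_le_two) (by norm_num))
  set z := v j - f (v j) • x with hz
  have hzx : z ∉ Submodule.span ℂ ({w, x} : Set X) := by
    intro h
    apply hj
    have h1 : v j = z + f (v j) • x := by rw [hz]; abel
    rw [h1]
    simp only [Finset.coe_insert, Finset.coe_singleton]
    exact Submodule.add_mem _ h (Submodule.smul_mem _ _ (Submodule.subset_span (by simp)))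
  refine ⟨w, z, ?_, ?_, ?_⟩
  · rw [hw, map_sub, map_smul, hfx]; simp
  · rw [hz, map_sub, map_smul, hfx]; simp
  · have h1 : LinearIndependent ℂ ![x] := by
      rw [linearIndependent_unique_iff]
      exact hx0
    have h2 : LinearIndependent ℂ ![w, x] := by
      refine (linearIndependent_fin_cons (K := ℂ) (x := w) (v := ![x])).2 ⟨h1, ?_⟩
      have e : Set.range ![x] = ({x} : Set X) := by simp
      rw [e]
      exact hwx
    refine (linearIndependent_fin_cons (K := ℂ) (x := z) (v := ![w, x])).2 ⟨h2, ?_⟩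
    have e : Set.range ![w, x] = ({w, x} : Set X) := by
      rw [Matrix.range_cons, Matrix.range_cons, Matrix.range_empty, Set.union_empty]
      rfl
    rw [e]
    exact hzx

theorem final_prod [CompleteSpace X] (hd : Dim4 X)
    (hspan : ∀ T R : X →L[ℂ] X, (∀ (x : X) (f : X →L[ℂ] ℂ), f x = 0 → f (T x) = 0 → f (R x) = 0) →
      ∃ a b : ℂ, R = a • 1 + b • T)
    (hscal : ∀ T : X →L[ℂ] X, (∀ (x : X) (f : X →L[ℂ] ℂ), f x = 0 → f (T x) = 0) →
      ∃ d : ℂ, T = d • 1)
    (P : (X →L[ℂ] X) → (X →L[ℂ] X))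
    (hP : ∀ T S, rel Kind.prod (P T) (P S) ↔ rel Kind.prod T S)
    (hfl : ∀ (x : X) (f : X →L[ℂ] ℂ), x ≠ 0 → f ≠ 0 → f x = 0 →
      ∀ T, f (P T x) = 0 ↔ f (T x) = 0) (T : X →L[ℂ] X) :
    ∃ c : ℂ, c ≠ 0 ∧ P T = c • T := by
  have hnt : ∃ y : X, y ≠ 0 := by
    obtain ⟨v, hv⟩ := hd
    exact ⟨v 0, hv.ne_zero 0⟩
  obtain ⟨y0, hy0⟩ := hnt
  have : Nontrivial X := ⟨y0, 0, hy0⟩
  -- scalars
  have hscQ : ∀ d : ℂ, Qn (d • (1 : X →L[ℂ] X)) → d = 0 := by
    intro d hQ
    by_contra hd0
    exact not_Qn_of_eigen (d • (1 : X →L[ℂ] X)) y0 d hy0 hd0 rfl hQ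
  have hQP : ∀ S, Qn (P S) ↔ Qn S := by
    intro S
    have h1 := rel_self Kind.prod (by simp) (P S)
    have h2 := rel_self Kind.prod (by simp) S
    rw [← h1, ← h2]
    exact hP S S
  have hfl' : ∀ (S : X →L[ℂ] X) (x : X) (f : X →L[ℂ] ℂ), f x = 0 → (f (P S x) = 0 ↔ f (S x) = 0) := by
    intro S x f hfx
    by_cases hx : x = 0
    · subst hx; simp
    by_cases hf : f = 0
    · subst hf; simp
    exact hfl x f hx hf hfx S
  have hform : ∀ S, ∃ a b : ℂ, P S = a • 1 + b • S := fun S =>
    hspan S (P S) fun x f h1 h2 => (hfl' S x f h1).2 h2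
  have hform' : ∀ S, ∃ a b : ℂ, S = a • 1 + b • P S := fun S =>
    hspan (P S) S fun x f h1 h2 => (hfl' S x f h1).1 h2
  have hb : ∀ S (a b : ℂ), (∀ t : ℂ, S ≠ t • 1) → P S = a • 1 + b • S → b ≠ 0 := by
    intro S a b hS hPS hb0
    obtain ⟨a', b', hS'⟩ := hform' S
    rw [hb0, zero_smul, add_zero] at hPS
    rw [hPS, smul_smul, ← add_smul] at hS'
    exact hS _ hS'
  -- step 1
  have hstep1 : ∀ S, (∀ t : ℂ, S ≠ t • 1) → Qn S → ∃ c : ℂ, c ≠ 0 ∧ P S = c • S := by
    intro S hS hQ
    obtain ⟨a, b, hPS⟩ := hform S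
    have hb0 := hb S a b hS hPS
    have h1 : Qn (b • S + a • 1) := by
      rw [add_comm, ← hPS]
      exact (hQP S).2 hQ
    have h2 := Qn_add_scalar (b • S) a (Qn_smul hQ) h1
    refine ⟨b, hb0, ?_⟩
    rw [hPS, h2, zero_smul, zero_add]
  -- step 2
  have hstep2 : ∀ (x : X) (f : X →L[ℂ] ℂ), f x = 1 → ∃ c : ℂ, c ≠ 0 ∧ P (rk x f) = c • rk x f := by
    intro x f hfx
    obtain ⟨w, z, hfw, hfz, hli⟩ := fp_vecs hd x f hfx
    obtain ⟨a1, ha1⟩ := dual_vals hli ![-1, 0, 1]
    obtain ⟨b1, hb1⟩ := dual_vals hli ![0, 1, 0]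
    have a1z : a1 z = -1 := ha1 0
    have a1w : a1 w = 0 := ha1 1
    have a1x : a1 x = 1 := ha1 2
    have b1z : b1 z = 0 := hb1 0
    have b1w : b1 w = 1 := hb1 1
    have b1x : b1 x = 0 := hb1 2
    have hw0 : w ≠ 0 := by
      rintro rfl
      simp at b1w
    set v := x + z with hv
    have a1v : a1 v = 0 := by rw [hv, map_add, a1x, a1z]; ring
    have b1v : b1 v = 0 := by rw [hv, map_add, b1x, b1z]; ring
    have hfv : f v = 1 := by rw [hv, map_add, hfx, hfz]; ring
    set S : X →L[ℂ] X := rk w a1 + rk v b1 with hSdef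
    have hSa : ∀ u, S u = a1 u • w + b1 u • v := fun u => rfl
    have hSx : S x = w := by rw [hSa, a1x, b1x]; simp
    have hSw : S w = v := by rw [hSa, a1w, b1w]; simp
    have hSv : S v = 0 := by rw [hSa, a1v, b1v]; simp
    have hS3 : S ^ 3 = 0 := by
      ext u
      have h1 : (S ^ 3) u = S (S (S u)) := rfl
      rw [h1, hSa u, map_add, map_smul, map_smul, hSw, hSv, smul_zero, add_zero, map_smul, hSv,
        smul_zero]
      rfl
    have hSQ : Qn S := Qn_of_pow_eq_zero S 3 hS3
    have hSns : ∀ t : ℂ, S ≠ t • 1 := by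
      intro t ht
      have h1 : S x = t • x := by rw [ht]; rfl
      rw [hSx] at h1
      have h2 := congrArg b1 h1
      rw [b1w, map_smul, b1x, smul_zero] at h2
      exact one_ne_zero h2
    obtain ⟨c, hc, hPS⟩ := hstep1 S hSns hSQ
    set R : X →L[ℂ] X := rk x f with hR
    have hRa : ∀ u, R u = f u • x := fun u => rfl
    have hRns : ∀ t : ℂ, R ≠ t • 1 := by
      intro t ht
      have h1 : R w = t • w := by rw [ht]; rfl
      rw [hRa, hfw, zero_smul] at h1
      have ht0 : t = 0 := by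
        rcases smul_eq_zero.1 h1.symm with h | h
        · exact h
        · exact absurd h hw0
      have h2 : R x = t • x := by rw [ht]; rfl
      rw [hRa, hfx, one_smul, ht0, zero_smul] at h2
      rw [h2, map_zero] at hfx
      exact zero_ne_one hfx
    obtain ⟨a, b, hPR⟩ := hform R
    have hb0 := hb R a b hRns hPR
    have hrel : rel Kind.prod S R := by
      rw [hR, rel_idem Kind.prod (Or.inl rfl) x f hfx, hSx, hfw]
    have hrel2 := (hP S R).2 hrel
    have hQM : Qn (S * (a • 1 + b • R)) := by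
      have h1 : Qn (P S * P R) := hrel2
      rw [hPS, hPR, smul_mul_assoc, Qn_smul_iff hc] at h1
      exact h1
    have hMw : (S * (a • 1 + b • R)) w = a • v := by
      have h1 : (S * (a • 1 + b • R)) w = S (a • w + b • R w) := rfl
      rw [h1, hRa, hfw, zero_smul, smul_zero, add_zero, map_smul, hSw]
    have hMv : (S * (a • 1 + b • R)) v = b • w := by
      have h1 : (S * (a • 1 + b • R)) v = S (a • v + b • R v) := rfl
      rw [h1, hRa, hfv, one_smul, map_add, map_smul, map_smul, hSv, hSx, smul_zero, zero_add]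
    have hM2 : ((S * (a • (1 : X →L[ℂ] X) + b • R)) ^ 2 : X →L[ℂ] X) w = (a * b) • w := by
      have h1 : ((S * (a • (1 : X →L[ℂ] X) + b • R)) ^ 2 : X →L[ℂ] X) w =
          (S * (a • 1 + b • R)) ((S * (a • 1 + b • R)) w) := by
        rw [pow_two]
        rfl
      rw [h1, hMw, map_smul, hMv, smul_smul]
    have hab : a * b = 0 := by
      by_contra hne
      exact not_Qn_of_pow _ 2 two_ne_zero w (a * b) hw0 hne hM2 hQM
    have ha0 : a = 0 := by
      rcases mul_eq_zero.1 hab with h | h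
      · exact h
      · exact absurd h hb0
    exact ⟨b, hb0, by rw [hPR, ha0, zero_smul, zero_add]⟩
  -- the general case
  by_cases hT : ∃ t : ℂ, T = t • 1
  · obtain ⟨t, rfl⟩ := hT
    obtain ⟨a, b, hPT⟩ := hform (t • (1 : X →L[ℂ] X))
    rw [smul_smul, ← add_smul] at hPT
    by_cases ht : t = 0
    · refine ⟨1, one_ne_zero, ?_⟩
      have h1 : Qn (P (t • (1 : X →L[ℂ] X))) := by
        rw [hQP, ht, zero_smul]
        exact Qn_zero
      rw [hPT] at h1
      have h2 := hscQ _ h1
      rw [hPT, h2, ht]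
      simp
    · have hd0 : a + b * t ≠ 0 := by
        intro h0
        rw [h0, zero_smul] at hPT
        have h1 : Qn (P (t • (1 : X →L[ℂ] X))) := by
          rw [hPT]
          exact Qn_zero
        rw [hQP] at h1
        exact ht (hscQ t h1)
      refine ⟨(a + b * t) / t, div_ne_zero hd0 ht, ?_⟩
      rw [hPT, smul_smul, div_mul_cancel₀ _ ht]
  · push Not at hT
    obtain ⟨a, b, hPT⟩ := hform T
    have hb0 := hb T a b hT hPT
    obtain ⟨x, f, hfx, hfT⟩ : ∃ (x : X) (f : X →L[ℂ] ℂ), f x = 0 ∧ f (T x) ≠ 0 := by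
      by_contra hcon
      push Not at hcon
      obtain ⟨d, hd⟩ := hscal T fun x f h => hcon x f h
      exact hT d hd
    have hx0 : x ≠ 0 := by
      rintro rfl
      simp at hfT
    have hli : LinearIndependent ℂ ![x, T x] := by
      rw [LinearIndependent.pair_iff]
      intro s t hst
      have h1 := congrArg f hst
      rw [map_add, map_smul, map_smul, hfx, smul_zero, zero_add, map_zero, smul_eq_mul] at h1
      have ht : t = 0 := by
        rcases mul_eq_zero.1 h1 with h | h
        · exact h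
        · exact absurd h hfT
      rw [ht, zero_smul, add_zero] at hst
      rcases smul_eq_zero.1 hst with h | h
      · exact ⟨h, ht⟩
      · exact absurd h hx0
    obtain ⟨g, hg⟩ := dual_vals hli ![1, 0]
    have hgx : g x = 1 := hg 0
    have hgT : g (T x) = 0 := hg 1
    obtain ⟨c, hc, hPR⟩ := hstep2 x g hgx
    have hrel : rel Kind.prod T (rk x g) := by
      rw [rel_idem Kind.prod (Or.inl rfl) x g hgx, hgT]
    have hrel2 : Qn (P T * P (rk x g)) := (hP T (rk x g)).2 hrel
    rw [hPR, mul_smul_comm, Qn_smul_iff hc] at hrel2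
    have h3 := (rel_idem Kind.prod (Or.inl rfl) x g hgx (P T)).1 hrel2
    rw [hPT] at h3
    have h4 : ((a • (1 : X →L[ℂ] X) + b • T) x) = a • x + b • T x := rfl
    rw [h4, map_add, map_smul, map_smul, hgx, hgT, smul_zero, add_zero, smul_eq_mul, mul_one] at h3
    exact ⟨b, hb0, by rw [hPT, h3, zero_smul, zero_add]⟩


end sk3


end Pool.Agent.Helper280.QN.Jfinprod
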