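import Mathlib
import Pool.Agent.Helper280.QN.Rel
import Pool.Agent.Helper280.QN.Tools

set_option autoImplicit false

namespace Pool.Agent.Helper280.QN.Jfintriple



section sk3
variable {X : Type*} [NormedAddCommGroup X] [NormedSpace ℂ X]

theorem final_triple [CompleteSpace X] (hd : Dim4 X)
    (hspan : ∀ T R : X →L[ℂ] X, (∀ (x : X) (f : X →L[ℂ] ℂ), f x = 0 → f (T x) = 0 → f (R x) = 0) →
      ∃ a b : ℂ, R = a • 1 + b • T)
    (hscal : ∀ T : X →L[ℂ] X, (∀ (x : X) (f : X →L[ℂ] ℂ), f x = 0 → f (T x) = 0) →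
      ∃ d : ℂ, T = d • 1)
    (P : (X →L[ℂ] X) → (X →L[ℂ] X))
    (hP : ∀ T S, rel Kind.triple (P T) (P S) ↔ rel Kind.triple T S)
    (hfl : ∀ (x : X) (f : X →L[ℂ] ℂ), x ≠ 0 → f ≠ 0 → f x = 0 →
      ∀ T, f (P T (P T x)) = 0 ↔ f (T (T x)) = 0) (T : X →L[ℂ] X) :
    ∃ c : ℂ, c ≠ 0 ∧ P T = c • T := by
  have hQ : ∀ T S : X →L[ℂ] X, rel Kind.triple T S ↔ Qn (T * (S * S)) := by
    intro T S
    unfold rel op
    simp only
    rw [mul_assoc, Qn_mul_comm, mul_assoc]
  have hnl : Kind.triple ≠ Kind.lie := fun h => by cases h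
  have hPQ : ∀ T, Qn (P T) ↔ Qn T := by
    intro T
    rw [← rel_self Kind.triple hnl (P T), hP, rel_self Kind.triple hnl]
  have hnt : Nontrivial X := by
    obtain ⟨v, hv⟩ := hd
    exact ⟨⟨v 0, 0, hv.ne_zero 0⟩⟩
  have hadd : ∀ (N : X →L[ℂ] X) (a b : ℂ), Qn N → Qn (a • (1 : X →L[ℂ] X) + b • N) → a = 0 := by
    intro N a b hN h
    exact Qn_add_scalar (b • N) a (Qn_smul hN) (by rwa [add_comm])
  have hker : ∀ p q r : X →L[ℂ] ℂ, ∃ w : X, w ≠ 0 ∧ p w = 0 ∧ q w = 0 ∧ r w = 0 := by
    intro p q r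
    obtain ⟨v, hv⟩ := hd
    let L : (Fin 4 → ℂ) →ₗ[ℂ] (Fin 3 → ℂ) :=
      (LinearMap.pi ![(p : X →ₗ[ℂ] ℂ), (q : X →ₗ[ℂ] ℂ), (r : X →ₗ[ℂ] ℂ)]).comp
        (Fintype.linearCombination ℂ v)
    have hL : LinearMap.ker L ≠ ⊥ := LinearMap.ker_ne_bot_of_finrank_lt (by simp)
    obtain ⟨c, hc, hc0⟩ := (Submodule.ne_bot_iff _).1 hL
    refine ⟨Fintype.linearCombination ℂ v c, ?_, ?_, ?_, ?_⟩
    · intro h
      apply hc0
      have := Fintype.linearIndependent_iff.1 hv c
        (by simpa [Fintype.linearCombination_apply] using h)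
      ext i; exact this i
    · exact congrFun (LinearMap.mem_ker.1 hc) 0
    · exact congrFun (LinearMap.mem_ker.1 hc) 1
    · exact congrFun (LinearMap.mem_ker.1 hc) 2
  have hsep : ∀ u : X, u ≠ 0 → ∃ φ : X →L[ℂ] ℂ, φ u = 1 := by
    intro u hu
    obtain ⟨f, hf⟩ := dual_vals (w := ![u]) (by
      rw [linearIndependent_unique_iff]; simpa using hu) ![1]
    exact ⟨f, by simpa using hf 0⟩
  have hpair : ∀ u w : X, LinearIndependent ℂ ![u, w] → ∀ a b : ℂ,
      ∃ f : X →L[ℂ] ℂ, f u = a ∧ f w = b := by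
    intro u w h a b
    obtain ⟨f, hf⟩ := dual_vals h ![a, b]
    exact ⟨f, by simpa using hf 0, by simpa using hf 1⟩
  -- (A)
  have hA : ∀ (S : X →L[ℂ] X) (u : X) (g : X →L[ℂ] ℂ), u ≠ 0 → g ≠ 0 → g u = 0 →
      S * S = rk u g → ∃ b : ℂ, b ≠ 0 ∧ P S * P S = b • rk u g := by
    intro S u g hu hg hgu hS
    obtain ⟨a, b, hab⟩ := hspan (S * S) (P S * P S) (by
      intro x f hfx h
      by_cases hx : x = 0
      · rw [hx, map_zero, map_zero]
      by_cases hf : f = 0
      · rw [hf]; rfl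
      exact (hfl x f hx hf hfx S).2 h)
    have hS4 : (S * S) * (S * S) = 0 := by
      rw [hS, rk_mul]
      ext v
      show g (g v • u) • u = 0
      rw [map_smul, hgu, smul_zero, zero_smul]
    have hQS : Qn S := Qn_of_pow_eq_zero S 4 (by
      rw [show S ^ 4 = (S * S) * (S * S) by noncomm_ring]; exact hS4)
    have hQPS : Qn (P S * P S) := by
      rw [← pow_two, Qn_pow_iff _ two_ne_zero]; exact (hPQ S).2 hQS
    have ha : a = 0 := hadd (S * S) a b
      (by rw [← pow_two]; exact (Qn_pow_iff S two_ne_zero).2 hQS) (hab ▸ hQPS)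
    rw [ha, zero_smul, zero_add] at hab
    refine ⟨b, ?_, by rw [hab, hS]⟩
    rintro rfl
    obtain ⟨d, hd'⟩ := hscal (S * S) (by
      intro x f hfx
      by_cases hx : x = 0
      · rw [hx, map_zero, map_zero]
      by_cases hf : f = 0
      · rw [hf]; rfl
      refine (hfl x f hx hf hfx S).1 ?_
      show f ((P S * P S) x) = 0
      rw [hab, zero_smul]; exact map_zero f)
    rw [hS] at hd'
    have h1 : g u • u = d • u := congrArg (fun A : X →L[ℂ] X => A u) hd'
    rw [hgu, zero_smul] at h1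
    have hd0 : d = 0 := by
      rcases smul_eq_zero.1 h1.symm with h | h
      · exact h
      · exact absurd h hu
    apply hg
    ext v
    have h2 : g v • u = d • v := congrArg (fun A : X →L[ℂ] X => A v) hd'
    rw [hd0, zero_smul] at h2
    rcases smul_eq_zero.1 h2 with h | h
    · exact h
    · exact absurd h hu
  -- (B)
  have hB : ∀ (T : X →L[ℂ] X) (u : X) (g : X →L[ℂ] ℂ), g u = 0 →
      (g (P T u) = 0 ↔ g (T u) = 0) := by
    intro T u g hgu
    by_cases hu : u = 0
    · subst hu; simp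
    by_cases hg : g = 0
    · subst hg; simp
    obtain ⟨φ, hφ⟩ := hsep u hu
    obtain ⟨w, hw, hφw, hgw, -⟩ := hker φ g 0
    have hli : LinearIndependent ℂ ![u, w] := by
      rw [LinearIndependent.pair_iff]
      intro s t hst
      have h1 := congrArg φ hst
      rw [map_add, map_smul, map_smul, hφ, hφw, map_zero] at h1
      have hs : s = 0 := by simpa using h1
      refine ⟨hs, ?_⟩
      rw [hs, zero_smul, zero_add] at hst
      exact (smul_eq_zero.1 hst).resolve_right hw
    obtain ⟨h, hhu, hhw⟩ := hpair u w hli 0 1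
    let S : X →L[ℂ] X := rk u h + rk w g
    have hSv : ∀ v, S v = h v • u + g v • w := fun v => rfl
    have hS : S * S = rk u g := by
      ext v
      show S (S v) = g v • u
      rw [hSv v, hSv]
      simp only [map_add, map_smul, hhu, hhw, hgu, hgw, smul_eq_mul, mul_zero, mul_one, add_zero,
        zero_add, zero_smul]
    obtain ⟨b, hb, hPS⟩ := hA S u g hu hg hgu hS
    have h1 := hP T S
    rw [hQ, hQ, hS, hPS, mul_smul_comm, Qn_smul_iff hb, mul_rk, mul_rk, Qn_rank_one,
      Qn_rank_one] at h1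
    exact h1
  -- (C)
  have hPscal : ∀ T : X →L[ℂ] X, (∃ d : ℂ, P T = d • 1) → ∃ d : ℂ, T = d • 1 := by
    rintro T ⟨d, hd'⟩
    apply hscal
    intro x f hfx
    rw [← hB T x f hfx, hd']
    show f (d • x) = 0
    rw [map_smul, hfx, smul_zero]
  have hC : ∀ T : X →L[ℂ] X, (¬ ∃ d : ℂ, T = d • 1) →
      ∃ a b : ℂ, b ≠ 0 ∧ P T = a • 1 + b • T := by
    intro T hT
    obtain ⟨a, b, hab⟩ := hspan T (P T) (fun x f hfx h => (hB T x f hfx).2 h)
    refine ⟨a, b, ?_, hab⟩
    rintro rfl
    rw [zero_smul, add_zero] at hab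
    exact hT (hPscal T ⟨a, hab⟩)
  have hCn : ∀ T : X →L[ℂ] X, (¬ ∃ d : ℂ, T = d • 1) → Qn T →
      ∃ b : ℂ, b ≠ 0 ∧ P T = b • T := by
    intro T hT hQT
    obtain ⟨a, b, hb, hab⟩ := hC T hT
    have ha : a = 0 := hadd T a b hQT (hab ▸ (hPQ T).2 hQT)
    refine ⟨b, hb, ?_⟩
    rw [hab, ha, zero_smul, zero_add]
  have hnscal : ∀ (T : X →L[ℂ] X) (x : X) (f : X →L[ℂ] ℂ), f x = 0 → f (T x) ≠ 0 →
      ¬ ∃ d : ℂ, T = d • 1 := by
    rintro T x f hfx h ⟨d, rfl⟩
    apply h
    show f (d • x) = 0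
    rw [map_smul, hfx, smul_zero]
  -- (D)
  have hD : ∀ (x : X) (f : X →L[ℂ] ℂ), f x = 1 → ∃ b : ℂ, b ≠ 0 ∧ P (rk x f) = b • rk x f := by
    intro x f hfx
    have hx : x ≠ 0 := by rintro rfl; simp at hfx
    obtain ⟨w, hw, hfw, -, -⟩ := hker f 0 0
    obtain ⟨ψ, hψ⟩ := hsep w hw
    obtain ⟨v0, hv0, hfv0, hψv0, -⟩ := hker f ψ 0
    have hli2 : LinearIndependent ℂ ![x, w] := by
      rw [LinearIndependent.pair_iff]
      intro s t hst
      have h1 := congrArg f hst
      rw [map_add, map_smul, map_smul, hfx, hfw, map_zero] at h1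
      have hs : s = 0 := by simpa using h1
      refine ⟨hs, ?_⟩
      rw [hs, zero_smul, zero_add] at hst
      exact (smul_eq_zero.1 hst).resolve_right hw
    have hli3 : LinearIndependent ℂ ![x, w, v0] := by
      rw [Fintype.linearIndependent_iff]
      intro c hc
      rw [Fin.sum_univ_three] at hc
      simp only [Matrix.cons_val_zero, Matrix.cons_val_one, Matrix.cons_val] at hc
      have h1 := congrArg f hc
      simp only [map_add, map_smul, hfx, hfw, hfv0, map_zero, smul_eq_mul, mul_one, mul_zero,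
        add_zero] at h1
      have h2 := congrArg ψ hc
      simp only [map_add, map_smul, hψ, hψv0, h1, map_zero, smul_eq_mul, mul_one, mul_zero,
        add_zero, zero_mul, zero_add] at h2
      rw [h1, h2, zero_smul, zero_smul, zero_add, zero_add] at hc
      have h3 := (smul_eq_zero.1 hc).resolve_right hv0
      intro i
      fin_cases i
      · exact h1
      · exact h2
      · exact h3
    -- `rk x f` is not scalar
    obtain ⟨k0, hk0x, hk0w⟩ := hpair x w hli2 1 (1)
    have hRns : ¬ ∃ d : ℂ, rk x f = d • 1 := by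
      rintro ⟨d, hd'⟩
      have h1 : f w • x = d • w := congrArg (fun A : X →L[ℂ] X => A w) hd'
      rw [hfw, zero_smul] at h1
      have hd0 := (smul_eq_zero.1 h1.symm).resolve_right hw
      have h2 : f x • x = d • x := congrArg (fun A : X →L[ℂ] X => A x) hd'
      rw [hfx, hd0, zero_smul, one_smul] at h2
      exact hx h2
    obtain ⟨a, b, hb, hab⟩ := hC (rk x f) hRns
    have hPv : ∀ y, P (rk x f) y = a • y + (b * f y) • x := by
      intro y
      rw [hab]
      show a • y + b • (f y • x) = _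
      rw [smul_smul]
    have hsqv : ∀ y, (P (rk x f) * P (rk x f)) y = (a * a) • y + ((2 * a * b + b * b) * f y) • x := by
      intro y
      show P (rk x f) (P (rk x f) y) = _
      rw [hPv (P (rk x f) y), hPv y]
      simp only [map_add, map_smul, hfx, smul_eq_mul, mul_one, smul_add, smul_smul, add_assoc,
        ← add_smul]
      congr 2
      ring
    by_cases ha : a = 0
    · refine ⟨b, hb, ?_⟩
      rw [hab, ha, zero_smul, zero_add]
    exfalso
    -- first: `2ab + b² = 0`
    have hk : 2 * a * b + b * b = 0 := by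
      by_contra hk
      set v := x + v0 with hv
      obtain ⟨p, hp⟩ := dual_vals hli3 ![1, 0, -1]
      obtain ⟨q, hq⟩ := dual_vals hli3 ![0, 1, 0]
      have hpx : p x = 1 := hp 0
      have hpw : p w = 0 := hp 1
      have hpv0 : p v0 = -1 := hp 2
      have hqx : q x = 0 := hq 0
      have hqw : q w = 1 := hq 1
      have hqv0 : q v0 = 0 := hq 2
      have hpv : p v = 0 := by rw [hv, map_add, hpx, hpv0]; ring
      have hqv : q v = 0 := by rw [hv, map_add, hqx, hqv0]; ring
      have hfv : f v = 1 := by rw [hv, map_add, hfx, hfv0]; ring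
      let T : X →L[ℂ] X := rk w p + rk v q
      have hTv : ∀ y, T y = p y • w + q y • v := fun y => rfl
      have hTx : T x = w := by rw [hTv, hpx, hqx]; simp
      have hTw : T w = v := by rw [hTv, hpw, hqw]; simp
      have hTvv : T v = 0 := by rw [hTv, hpv, hqv]; simp
      have hT3 : T ^ 3 = 0 := by
        ext y
        show T (T (T y)) = 0
        rw [hTv y, map_add, map_smul, map_smul, hTw, hTvv, smul_zero, add_zero, map_smul, hTvv,
          smul_zero]
      have hTns : ¬ ∃ d : ℂ, T = d • 1 := by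
        apply hnscal T w f hfw
        rw [hTw, hfv]
        exact one_ne_zero
      obtain ⟨c, hc, hPT⟩ := hCn T hTns (Qn_of_pow_eq_zero T 3 hT3)
      have h1 : rel Kind.triple T (rk x f) := by
        rw [rel_idem Kind.triple (Or.inr rfl) x f hfx T, hTx, hfw]
      have h2 := (hP T (rk x f)).2 h1
      rw [hQ, hPT, smul_mul_assoc, Qn_smul_iff hc] at h2
      refine not_Qn_of_pow _ 2 two_ne_zero w ((a * a) * (2 * a * b + b * b)) hw
        (mul_ne_zero (mul_ne_zero ha ha) hk) ?_ h2
      have e1 : ∀ y, (T * (P (rk x f) * P (rk x f))) y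
          = T ((a * a) • y + ((2 * a * b + b * b) * f y) • x) := by
        intro y
        rw [← hsqv y]
        rfl
      rw [pow_two]
      show (T * (P (rk x f) * P (rk x f))) ((T * (P (rk x f) * P (rk x f))) w) = _
      rw [e1 w, hfw, mul_zero, zero_smul, add_zero, map_smul, hTw, map_smul, e1 v, hfv, mul_one,
        map_add, map_smul, hTvv, smul_zero, zero_add, map_smul, hTx, smul_smul]
    -- second: contradiction
    have hli4 : LinearIndependent ℂ ![x, w] := hli2
    obtain ⟨k, hkx, hkw⟩ := hpair x w hli4 1 (-1)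
    set z := x + w with hz
    have hkz : k z = 0 := by rw [hz, map_add, hkx, hkw]; ring
    have hfz : f z = 1 := by rw [hz, map_add, hfx, hfw]; ring
    have hT2 : rk z k * rk z k = 0 := by
      rw [rk_mul]
      ext y
      show k (k y • z) • z = 0
      rw [map_smul, hkz, smul_zero, zero_smul]
    have hQT : Qn (rk z k) := Qn_of_pow_eq_zero _ 2 (by rw [pow_two]; exact hT2)
    have hTns : ¬ ∃ d : ℂ, rk z k = d • 1 := by
      apply hnscal (rk z k) w f hfw
      show f (k w • z) ≠ 0
      rw [map_smul, hkw, hfz]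
      simp
    obtain ⟨c, hc, hPT⟩ := hCn (rk z k) hTns hQT
    have h1 : rel Kind.triple (P (rk z k)) (P (rk x f)) := by
      rw [hQ, hPT, smul_mul_assoc]
      apply Qn_smul
      have e : P (rk x f) * P (rk x f) = (a * a) • 1 := by
        ext y
        rw [hsqv y, hk, zero_mul, zero_smul, add_zero]
        rfl
      rw [e, mul_smul_comm, mul_one]
      exact Qn_smul hQT
    have h2 := (hP _ _).1 h1
    rw [rel_idem Kind.triple (Or.inr rfl) x f hfx] at h2
    have h3 : f (k x • z) = 0 := h2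
    rw [map_smul, hkx, hfz] at h3
    simp at h3
  -- (E)
  by_cases hT : ∃ d : ℂ, T = d • 1
  · obtain ⟨t, rfl⟩ := hT
    obtain ⟨d, hd'⟩ := hscal (P (t • 1)) (by
      intro x f hfx
      rw [hB (t • 1) x f hfx]
      show f (t • x) = 0
      rw [map_smul, hfx, smul_zero])
    have hsc : ∀ c : ℂ, Qn (c • (1 : X →L[ℂ] X)) → c = 0 := by
      intro c hc
      exact Qn_add_scalar (0 : X →L[ℂ] X) c Qn_zero (by rwa [zero_add])
    by_cases ht : t = 0
    · refine ⟨1, one_ne_zero, ?_⟩
      have h1 : Qn (P (t • 1)) := (hPQ _).2 (by rw [ht, zero_smul]; exact Qn_zero)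
      rw [hd'] at h1
      rw [hd', hsc d h1, ht]
      simp
    · have hd0 : d ≠ 0 := by
        rintro rfl
        apply ht
        apply hsc
        rw [← hPQ, hd', zero_smul]
        exact Qn_zero
      refine ⟨d / t, div_ne_zero hd0 ht, ?_⟩
      rw [hd', smul_smul, div_mul_cancel₀ d ht]
  · obtain ⟨a, b, hb, hab⟩ := hC T hT
    have hex : ∃ (x : X) (f : X →L[ℂ] ℂ), f x = 0 ∧ f (T x) ≠ 0 := by
      by_contra hcon
      push Not at hcon
      exact hT (hscal T hcon)
    obtain ⟨x, f, hfx, hfTx⟩ := hex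
    have hx : x ≠ 0 := by rintro rfl; simp at hfTx
    have hli : LinearIndependent ℂ ![x, T x] := by
      rw [LinearIndependent.pair_iff]
      intro s t hst
      have h1 := congrArg f hst
      rw [map_add, map_smul, map_smul, hfx, map_zero, smul_zero, zero_add] at h1
      have ht : t = 0 := (smul_eq_zero.1 h1).resolve_right hfTx
      refine ⟨?_, ht⟩
      rw [ht, zero_smul, add_zero] at hst
      exact (smul_eq_zero.1 hst).resolve_right hx
    obtain ⟨k, hkx, hkT⟩ := hpair x (T x) hli 1 0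
    obtain ⟨c, hc, hPR⟩ := hD x k hkx
    have h1 : rel Kind.triple T (rk x k) := by
      rw [rel_idem Kind.triple (Or.inr rfl) x k hkx, hkT]
    have h2 := (hP T (rk x k)).2 h1
    have hRR : rk x k * rk x k = rk x k := by
      rw [rk_mul]
      ext y
      show k (k y • x) • x = k y • x
      rw [map_smul, hkx, smul_eq_mul, mul_one]
    rw [hQ, hPR, smul_mul_smul_comm, hRR, mul_smul_comm, Qn_smul_iff (mul_ne_zero hc hc), mul_rk,
      Qn_rank_one, hab] at h2
    have h3 : k (a • x + b • T x) = 0 := h2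
    rw [map_add, map_smul, map_smul, hkx, hkT, smul_zero, add_zero, smul_eq_mul, mul_one] at h3
    refine ⟨b, hb, ?_⟩
    rw [hab, h3, zero_smul, zero_add]


end sk3


end Pool.Agent.Helper280.QN.Jfintriple
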