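import Mathlib
import Pool.Agent.Helper280.QN.Basic

set_option autoImplicit false

namespace Pool.Agent.Helper280.QN.Jnoeth



section sk1

/-- the products in a general ring -/
def np_op {R : Type*} [Ring R] : Kind → R → R → R
  | Kind.prod, T, S => T * S
  | Kind.triple, T, S => S * T * S
  | Kind.jordan, T, S => T * S + S * T
  | Kind.lie, T, S => T * S - S * T

theorem np_op_map {R R' : Type*} [Ring R] [Ring R'] (f : R →+* R') (k : Kind) (a b : R) :
    f (np_op k a b) = np_op k (f a) (f b) := by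
  cases k
  · exact map_mul f a b
  · show f (b * a * b) = f b * f a * f b
    rw [map_mul, map_mul]
  · show f (a * b + b * a) = f a * f b + f b * f a
    rw [map_add, map_mul, map_mul]
  · show f (a * b - b * a) = f a * f b - f b * f a
    rw [map_sub, map_mul, map_mul]

theorem np_op_eq {Y : Type*} [NormedAddCommGroup Y] [NormedSpace ℂ Y] (k : Kind)
    (T S : Y →L[ℂ] Y) : op k T S = np_op k T S := by
  cases k <;> rfl

theorem np_matrix {n : ℕ} (M : Matrix (Fin n) (Fin n) ℂ) (h : ∀ z ∈ spectrum ℂ M, z = 0) :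
    M ^ n = 0 := by
  have h1 := (IsAlgClosed.splits M.charpoly).eq_prod_roots_of_monic M.charpoly_monic
  have h2 : M.charpoly.roots = Multiset.replicate (Multiset.card M.charpoly.roots) 0 := by
    rw [Multiset.eq_replicate_card]
    intro z hz
    exact h z (Matrix.mem_spectrum_iff_isRoot_charpoly.2 (Polynomial.isRoot_of_mem_roots hz))
  rw [h2, Multiset.map_replicate, Multiset.prod_replicate, Polynomial.C_0, sub_zero] at h1
  have h3 := M.charpoly_natDegree_eq_dim
  rw [h1, Polynomial.natDegree_X_pow, Fintype.card_fin] at h3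
  rw [h3] at h1
  have h4 := Matrix.aeval_self_charpoly M
  rw [h1, map_pow, Polynomial.aeval_X] at h4
  exact h4

theorem np_qn {A : Type*} [NormedRing A] [NormedAlgebra ℂ A] (a : A) :
    spectralRadius ℂ a = 0 ↔ ∀ z ∈ spectrum ℂ a, z = 0 := by
  unfold spectralRadius
  constructor
  · intro h z hz
    have h1 : (‖z‖₊ : ENNReal) ≤ 0 := by
      rw [← h]
      exact le_iSup₂ (f := fun (k : ℂ) (_ : k ∈ spectrum ℂ a) => (‖k‖₊ : ENNReal)) z hz
    have h2 : (‖z‖₊ : ENNReal) = 0 := le_antisymm h1 bot_le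
    rw [ENNReal.coe_eq_zero, nnnorm_eq_zero] at h2
    exact h2
  · intro h
    refine le_antisymm ?_ bot_le
    refine iSup₂_le fun z hz => ?_
    rw [h z hz, nnnorm_zero, ENNReal.coe_zero]

theorem np_nil {A : Type*} [Ring A] [Algebra ℂ A] (a : A) (n : ℕ) (h : a ^ n = 0) :
    ∀ z ∈ spectrum ℂ a, z = 0 := by
  intro z hz
  have h1 := spectrum.pow_mem_pow a n hz
  rw [h] at h1
  rcases subsingleton_or_nontrivial A with hA | hA
  · exfalso
    rw [spectrum.of_subsingleton] at h1
    exact h1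
  · rw [spectrum.zero_eq] at h1
    exact eq_zero_of_pow_eq_zero h1

theorem no_pattern {Y : Type*} [NormedAddCommGroup Y] [NormedSpace ℂ Y] [FiniteDimensional ℂ Y]
    (k : Kind) (T S : ℕ → (Y →L[ℂ] Y)) (h : ∀ i j, rel k (T i) (S j) ↔ i ≠ j) : False := by
  set n := Module.finrank ℂ Y with hn
  let Φ : (Y →L[ℂ] Y) ≃ₐ[ℂ] Matrix (Fin n) (Fin n) ℂ :=
    (Module.End.toContinuousLinearMap (𝕜 := ℂ) Y).symm.trans
      (LinearMap.toMatrixAlgEquiv (Module.finBasis ℂ Y))
  have hrel : ∀ A B : Y →L[ℂ] Y, rel k A B ↔ (np_op k (Φ A) (Φ B)) ^ n = 0 := by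
    intro A B
    have h1 : np_op k (Φ A) (Φ B) = Φ (op k A B) := by
      rw [np_op_eq]
      exact (np_op_map (Φ : (Y →L[ℂ] Y) →+* Matrix (Fin n) (Fin n) ℂ) k A B).symm
    rw [h1]
    unfold rel Qn
    rw [np_qn]
    constructor
    · intro h2
      apply np_matrix
      intro z hz
      rw [AlgEquiv.spectrum_eq] at hz
      exact h2 z hz
    · intro h2
      apply np_nil _ n
      rw [← map_pow] at h2
      exact (map_eq_zero_iff Φ Φ.injective).1 h2
  let X := Matrix.mvPolynomialX (Fin n) (Fin n) ℂ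
  let P : ℕ → Matrix (Fin n) (Fin n) (MvPolynomial (Fin n × Fin n) ℂ) := fun j =>
    (np_op k ((MvPolynomial.C : ℂ →+* MvPolynomial (Fin n × Fin n) ℂ).mapMatrix (Φ (T j))) X) ^ n
  let ev : ℕ → (MvPolynomial (Fin n × Fin n) ℂ →+* ℂ) := fun j =>
    MvPolynomial.eval fun p : Fin n × Fin n => Φ (S j) p.1 p.2
  have hev : ∀ i j, (ev j).mapMatrix (P i) = (np_op k (Φ (T i)) (Φ (S j))) ^ n := by
    intro i j
    simp only [P, ev]
    rw [map_pow, np_op_map]
    congr 2
    · ext a b
      simp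
    · exact Matrix.mvPolynomialX_mapMatrix_eval (Φ (S j))
  let I : ℕ → Ideal (MvPolynomial (Fin n × Fin n) ℂ) := fun m =>
    Ideal.span {p | ∃ j ≤ m, ∃ a b, p = P j a b}
  have hmono : Monotone I := by
    intro m m' hm
    apply Ideal.span_mono
    rintro p ⟨j, hj, a, b, rfl⟩
    exact ⟨j, hj.trans hm, a, b, rfl⟩
  obtain ⟨N, hN⟩ := monotone_stabilizes_iff_noetherian.2
    (inferInstance : IsNoetherian (MvPolynomial (Fin n × Fin n) ℂ)
      (MvPolynomial (Fin n × Fin n) ℂ)) ⟨I, hmono⟩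
  have hN1 : I N = I (N + 1) := hN (N + 1) (Nat.le_succ N)
  have hker : I N ≤ RingHom.ker (ev (N + 1)) := by
    rw [Ideal.span_le]
    rintro p ⟨j, hj, a, b, rfl⟩
    have h1 : rel k (T j) (S (N + 1)) := (h j (N + 1)).2 (by omega)
    rw [hrel, ← hev] at h1
    have h2 := congrFun (congrFun h1 a) b
    exact h2
  have h3 : np_op k (Φ (T (N + 1))) (Φ (S (N + 1))) ^ n = 0 := by
    rw [← hev]
    ext a b
    have h4 : P (N + 1) a b ∈ I (N + 1) :=
      Ideal.subset_span ⟨N + 1, le_rfl, a, b, rfl⟩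
    rw [← hN1] at h4
    exact hker h4
  rw [← hrel] at h3
  exact (h (N + 1) (N + 1)).1 h3 rfl


end sk1


end Pool.Agent.Helper280.QN.Jnoeth
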