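import Mathlib
import Pool.Agent.Helper280.QN.Rel
import Pool.Agent.Helper280.QN.Tools

set_option autoImplicit false

namespace Pool.Agent.Helper280.QN.Jpattern



section sk3
variable {X : Type*} [NormedAddCommGroup X] [NormedSpace ℂ X]

theorem exists_ker_notMem_15500 (hinf : ¬ FiniteDimensional ℂ X) (s : Finset (X × (X →L[ℂ] ℂ)))
    (W : Submodule ℂ X) (hW : FiniteDimensional ℂ W) : ∃ e : X, (∀ x ∈ s, x.2 e = 0) ∧ e ∉ W := by
  by_contra hcon
  push Not at hcon
  apply hinf
  let L : X →ₗ[ℂ] (s → ℂ) := LinearMap.pi (fun x => ((x.1.2 : X →L[ℂ] ℂ) : X →ₗ[ℂ] ℂ))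
  have hL : ∀ x (y : s), L x y = y.1.2 x := fun x y => rfl
  have hker : LinearMap.ker L ≤ W := by
    intro e he
    apply hcon e
    intro x hx
    have h1 : L e = 0 := he
    have h2 := congrFun h1 ⟨x, hx⟩
    rw [hL] at h2
    exact h2
  have h1 : Module.Finite ℂ (LinearMap.ker L) := by
    have : Function.Injective (Submodule.inclusion hker) := Submodule.inclusion_injective hker
    exact Module.Finite.of_injective (Submodule.inclusion hker) this
  have h2 : Module.Finite ℂ (X ⧸ LinearMap.ker L) :=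
    Module.Finite.equiv (LinearMap.quotKerEquivRange L).symm
  exact Module.Finite.of_submodule_quotient (LinearMap.ker L)

theorem exists_funct_15500 (W : Submodule ℂ X) (hW : FiniteDimensional ℂ W) (e : X)
    (he : e ∉ W) : ∃ g : X →L[ℂ] ℂ, g e = 1 ∧ ∀ w ∈ W, g w = 0 := by
  have hc : IsClosed (W : Set X) := W.closed_of_finiteDimensional
  have hne : (W.mkQ e) ≠ 0 := by
    intro h
    apply he
    rwa [Submodule.mkQ_apply, Submodule.Quotient.mk_eq_zero] at h
  obtain ⟨φ, hφ⟩ := SeparatingDual.exists_eq_one (R := ℂ) hne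
  refine ⟨φ.comp W.mkQL, hφ, fun w hw => ?_⟩
  have : W.mkQL w = 0 := (Submodule.Quotient.mk_eq_zero W).2 hw
  rw [ContinuousLinearMap.comp_apply, this, map_zero]

theorem exists_biorth_15500 (hinf : ¬ FiniteDimensional ℂ X) :
    ∃ (e : ℕ → X) (f : ℕ → (X →L[ℂ] ℂ)), (∀ n, f n (e n) = 1) ∧ ∀ m n, m ≠ n → f m (e n) = 0 := by
  classical
  obtain ⟨p, hp1, hp2⟩ := exists_seq_of_forall_finset_exists
    (fun p : X × (X →L[ℂ] ℂ) => p.2 p.1 = 1) (fun p p' => p.2 p'.1 = 0 ∧ p'.2 p.1 = 0) (by
      intro s _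
      let W : Submodule ℂ X := Submodule.span ℂ ((s.image Prod.fst : Finset X) : Set X)
      have hW : FiniteDimensional ℂ W := FiniteDimensional.span_finset ℂ _
      obtain ⟨e, he1, he2⟩ := exists_ker_notMem_15500 hinf s W hW
      obtain ⟨g, hg1, hg2⟩ := exists_funct_15500 W hW e he2
      refine ⟨(e, g), hg1, fun x hx => ⟨he1 x hx, hg2 _ ?_⟩⟩
      apply Submodule.subset_span
      rw [Finset.mem_coe, Finset.mem_image]
      exact ⟨x, hx, rfl⟩)
  refine ⟨fun n => (p n).1, fun n => (p n).2, hp1, ?_⟩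
  intro m n hmn
  rcases lt_or_gt_of_ne hmn with h | h
  · exact (hp2 m n h).1
  · exact (hp2 n m h).2

theorem exists_pattern (hinf : ¬ FiniteDimensional ℂ X) (k : Kind) :
    ∃ T S : ℕ → (X →L[ℂ] X), ∀ i j, rel k (T i) (S j) ↔ i ≠ j := by
  obtain ⟨e, f, h1, h0⟩ := exists_biorth_15500 hinf
  by_cases hk : k = Kind.triple
  · subst hk
    refine ⟨fun i => rk (e (3 * i)) (f (3 * i + 1)),
      fun j => rk (e (3 * j + 2)) (f (3 * j)) + rk (e (3 * j + 1)) (f (3 * j + 2)), ?_⟩
    intro i j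
    rw [rel_rk Kind.triple _ _ (h0 _ _ (by omega))]
    have hap : ∀ v, (rk (e (3 * j + 2)) (f (3 * j)) + rk (e (3 * j + 1)) (f (3 * j + 2))) v
        = f (3 * j) v • e (3 * j + 2) + f (3 * j + 2) v • e (3 * j + 1) := fun v => rfl
    have hval : f (3 * i + 1) ((sq Kind.triple (rk (e (3 * j + 2)) (f (3 * j))
        + rk (e (3 * j + 1)) (f (3 * j + 2)))) (e (3 * i))) = if i = j then 1 else 0 := by
      change f (3 * i + 1) ((rk (e (3 * j + 2)) (f (3 * j)) + rk (e (3 * j + 1)) (f (3 * j + 2)))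
        ((rk (e (3 * j + 2)) (f (3 * j)) + rk (e (3 * j + 1)) (f (3 * j + 2))) (e (3 * i)))) = _
      rw [hap (e (3 * i)), h0 (3 * j + 2) (3 * i) (by omega), zero_smul, add_zero, map_smul, hap,
        h0 (3 * j) (3 * j + 2) (by omega), h1 (3 * j + 2), zero_smul, zero_add, one_smul, map_smul]
      by_cases hij : i = j
      · subst hij
        rw [h1, h1, if_pos rfl]
        simp
      · rw [h0 (3 * j) (3 * i) (by omega), if_neg hij, zero_smul]
    rw [hval]
    by_cases hij : i = j
    · simp [hij]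
    · simp [hij]
  · refine ⟨fun i => rk (e (3 * i)) (f (3 * i + 1)),
      fun j => rk (e (3 * j + 1)) (f (3 * j)), ?_⟩
    intro i j
    rw [rel_rk k _ _ (h0 _ _ (by omega))]
    have hsq : sq k (rk (e (3 * j + 1)) (f (3 * j))) = rk (e (3 * j + 1)) (f (3 * j)) := by
      cases k with
      | prod => rfl
      | triple => exact absurd rfl hk
      | jordan => rfl
      | lie => rfl
    have hval : f (3 * i + 1) ((sq k (rk (e (3 * j + 1)) (f (3 * j)))) (e (3 * i)))
        = if i = j then 1 else 0 := by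
      rw [hsq, rk_apply, map_smul]
      by_cases hij : i = j
      · subst hij
        rw [h1, h1, if_pos rfl]
        simp
      · rw [h0 (3 * j) (3 * i) (by omega), if_neg hij, zero_smul]
    rw [hval]
    by_cases hij : i = j
    · simp [hij]
    · simp [hij]


end sk3


end Pool.Agent.Helper280.QN.Jpattern
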