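import Mathlib
import Pool.Agent.Helper280.QN.Rel
import Pool.Agent.Helper280.QN.Tools

set_option autoImplicit false

namespace Pool.Agent.Helper280.QN.Jrefl



section sk3
variable {X : Type*} [NormedAddCommGroup X] [NormedSpace ℂ X]

theorem reflexive_of_all {Y : Type*} [NormedAddCommGroup Y] [NormedSpace ℂ Y]
    (A : (X →L[ℂ] ℂ) ≃L[ℂ] Y)
    (h : ∀ g : Y →L[ℂ] ℂ, ∃ x : X, ∀ f : X →L[ℂ] ℂ, g (A f) = f x) :
    Function.Surjective (fun x : X => (ContinuousLinearMap.apply ℂ ℂ x :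
      (X →L[ℂ] ℂ) →L[ℂ] ℂ)) := by
  intro F
  obtain ⟨x, hx⟩ := h (F.comp (A.symm : Y →L[ℂ] (X →L[ℂ] ℂ)))
  refine ⟨x, ?_⟩
  ext f
  have h1 := hx f
  have h2 : (F.comp (A.symm : Y →L[ℂ] (X →L[ℂ] ℂ))) (A f) = F f := by
    show F (A.symm (A f)) = F f
    rw [A.symm_apply_apply]
  rw [h2] at h1
  exact h1.symm

theorem reflexive_of_all_conj {Y : Type*} [NormedAddCommGroup Y] [NormedSpace ℂ Y]
    (A : (X →L[ℂ] ℂ) ≃SL[starRingEnd ℂ] Y)
    (h : ∀ g : Y →L[ℂ] ℂ, ∃ x : X, ∀ f : X →L[ℂ] ℂ, g (A f) = (starRingEnd ℂ) (f x)) :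
    Function.Surjective (fun x : X => (ContinuousLinearMap.apply ℂ ℂ x :
      (X →L[ℂ] ℂ) →L[ℂ] ℂ)) := by
  intro F
  let g : Y →L[ℂ] ℂ :=
    { toFun := fun y => (starRingEnd ℂ) (F (A.symm y))
      map_add' := fun y z => by simp only [map_add]
      map_smul' := fun c y => by
        rw [map_smulₛₗ A.symm, map_smul F]
        simp
      cont := Complex.continuous_conj.comp (F.continuous.comp A.symm.continuous) }
  obtain ⟨x, hx⟩ := h g
  refine ⟨x, ?_⟩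
  ext f
  have h1 := hx f
  have h2 : g (A f) = (starRingEnd ℂ) (F f) := by
    show (starRingEnd ℂ) (F (A.symm (A f))) = (starRingEnd ℂ) (F f)
    rw [A.symm_apply_apply]
  rw [h2] at h1
  exact ((starRingEnd ℂ).injective h1).symm


end sk3


end Pool.Agent.Helper280.QN.Jrefl
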