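import Mathlib
import Pool.Agent.Helper280.QN.Basic

set_option autoImplicit false

namespace Pool.Agent.Helper280.QN.Jtaucont



section sk1

/-- separation from a finite dimensional subspace by the functionals in `F` -/
theorem tau_cont_sep {V : Type*} [NormedAddCommGroup V] [NormedSpace ℂ V]
    (F : Submodule ℂ (V →L[ℂ] ℂ)) (hF : ∀ v : V, v ≠ 0 → ∃ w ∈ F, w v ≠ 0)
    {ι : Type*} [Finite ι] (x : ι → V) (v : V) (hv : v ∉ Submodule.span ℂ (Set.range x)) :
    ∃ w ∈ F, (∀ i, w (x i) = 0) ∧ w v = 1 := by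
  classical
  have := Fintype.ofFinite ι
  have key : ∃ w ∈ F, (∀ i, w (x i) = 0) ∧ w v ≠ 0 := by
    by_contra hcon
    push Not at hcon
    set ev : V →ₗ[ℂ] (F →ₗ[ℂ] ℂ) :=
      { toFun := fun u =>
          { toFun := fun w => w.1 u
            map_add' := fun a b => rfl
            map_smul' := fun a b => rfl }
        map_add' := fun a b => by
          ext w
          exact map_add w.1 a b
        map_smul' := fun a b => by
          ext w
          exact map_smul w.1 a b } with hev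
    have hevv : ∀ u (w : F), ev u w = w.1 u := fun u w => rfl
    have h1 : ev v ∈ Submodule.span ℂ (Set.range fun i => ev (x i)) := by
      refine @mem_span_of_iInf_ker_le_ker ι ℂ F _ _ _ _ (fun i => ev (x i)) (ev v) ?_
      intro w hw
      rw [Submodule.mem_iInf] at hw
      rw [LinearMap.mem_ker, hevv]
      refine hcon w.1 w.2 fun i => ?_
      have := hw i
      rwa [LinearMap.mem_ker, hevv] at this
    have h2 : (Set.range fun i => ev (x i)) = ev '' (Set.range x) := by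
      rw [← Set.range_comp]
      rfl
    rw [h2, Submodule.span_image, Submodule.mem_map] at h1
    obtain ⟨u, hu, huv⟩ := h1
    apply hv
    have h3 : v = u := by
      by_contra hne
      obtain ⟨w, hw, hw0⟩ := hF (v - u) (sub_ne_zero.2 hne)
      apply hw0
      rw [map_sub]
      have h4 := LinearMap.congr_fun huv ⟨w, hw⟩
      rw [hevv, hevv] at h4
      rw [h4, sub_self]
    rw [h3]
    exact hu
  obtain ⟨w, hw, h1, h2⟩ := key
  refine ⟨(w v)⁻¹ • w, F.smul_mem _ hw, fun i => ?_, ?_⟩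
  · show (w v)⁻¹ * w (x i) = 0
    rw [h1, mul_zero]
  · show (w v)⁻¹ * w v = 1
    exact inv_mul_cancel₀ h2

theorem tau_cont_seq {V : Type*} [NormedAddCommGroup V] [NormedSpace ℂ V]
    (hinf : ¬ FiniteDimensional ℂ V)
    (F : Submodule ℂ (V →L[ℂ] ℂ)) (hF : ∀ v : V, v ≠ 0 → ∃ w ∈ F, w v ≠ 0) :
    ∃ (v : ℕ → V) (w : ℕ → (V →L[ℂ] ℂ)), (∀ n, w n ∈ F) ∧ (∀ n, w n (v n) = 1) ∧
      ∀ m n, m ≠ n → w m (v n) = 0 := by
  classical
  obtain ⟨f, hf1, hf2⟩ := exists_seq_of_forall_finset_exists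
    (fun x : V × (V →L[ℂ] ℂ) => x.2 ∈ F ∧ x.2 x.1 = 1)
    (fun x y => x.2 y.1 = 0 ∧ y.2 x.1 = 0) (by
      intro s _
      -- a vector killed by the functionals, outside the span
      set Φ : V →ₗ[ℂ] (s → ℂ) := LinearMap.pi fun x : s => (x.1.2 : V →ₗ[ℂ] ℂ) with hΦ
      set E : Submodule ℂ V := Submodule.span ℂ (Set.range fun x : s => x.1.1) with hE
      have h1 : ¬ LinearMap.ker Φ ≤ E := by
        intro hle
        apply hinf
        have hEf : FiniteDimensional ℂ E := FiniteDimensional.span_of_finite ℂ (Set.finite_range _)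
        have h2 : FiniteDimensional ℂ (LinearMap.ker Φ) := Submodule.finiteDimensional_of_le hle
        have h3 : FiniteDimensional ℂ (V ⧸ LinearMap.ker Φ) :=
          Module.Finite.equiv (LinearMap.quotKerEquivRange Φ).symm
        exact Module.Finite.of_submodule_quotient (LinearMap.ker Φ)
      obtain ⟨v, hv1, hv2⟩ := SetLike.not_le_iff_exists.1 h1
      obtain ⟨w, hw, hw1, hw2⟩ := tau_cont_sep F hF (fun x : s => x.1.1) v hv2
      refine ⟨(v, w), ⟨hw, hw2⟩, fun x hx => ⟨?_, hw1 ⟨x, hx⟩⟩⟩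
      have h4 := congrFun (LinearMap.mem_ker.1 hv1) ⟨x, hx⟩
      exact h4)
  refine ⟨fun n => (f n).1, fun n => (f n).2, fun n => (hf1 n).1, fun n => (hf1 n).2, ?_⟩
  intro m n hmn
  rcases lt_or_gt_of_ne hmn with h | h
  · exact (hf2 m n h).1
  · exact (hf2 n m h).2

theorem tau_cont {V Y : Type*} [NormedAddCommGroup V] [NormedSpace ℂ V] [CompleteSpace V]
    [NormedAddCommGroup Y] [NormedSpace ℂ Y] (hinf : ¬ FiniteDimensional ℂ V)
    (F : Submodule ℂ (V →L[ℂ] ℂ)) (hF : ∀ v : V, v ≠ 0 → ∃ w ∈ F, w v ≠ 0)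
    (τ : ℂ ≃+* ℂ) (A : V → Y)
    (h : ∀ w ∈ F, ∃ g : Y →L[ℂ] ℂ, ∀ v, g (A v) = τ (w v)) :
    (τ : ℂ →+* ℂ) = RingHom.id ℂ ∨ (τ : ℂ →+* ℂ) = starRingEnd ℂ := by
  classical
  apply Complex.ringHom_eq_id_or_conj_of_continuous
  -- bounded near zero
  have hbd : ∃ ε > 0, ∃ M : ℝ, ∀ α : ℂ, ‖α‖ < ε → ‖τ α‖ ≤ M := by
    by_contra hcon
    push Not at hcon
    obtain ⟨v, w, hw, hwv, hwv'⟩ := tau_cont_seq hinf F hF
    choose g hg using fun k => h (w k) (hw k)
    have hex : ∀ k : ℕ, ∃ α : ℂ, ‖α‖ < (1 / 2) ^ k / (1 + ‖v k‖) ∧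
        (k : ℝ) * (‖g k‖ + 1) < ‖τ α‖ := by
      intro k
      exact hcon _ (by positivity) _
    choose α hα1 hα2 using hex
    have hsum : Summable fun k => α k • v k := by
      refine Summable.of_norm_bounded (summable_geometric_of_lt_one (by norm_num : (0 : ℝ) ≤ 1 / 2)
        (by norm_num)) fun k => ?_
      rw [norm_smul]
      have h1 := (hα1 k).le
      rw [le_div_iff₀ (by positivity)] at h1
      calc ‖α k‖ * ‖v k‖ ≤ ‖α k‖ * (1 + ‖v k‖) :=
            mul_le_mul_of_nonneg_left (by linarith) (norm_nonneg _)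
        _ ≤ _ := h1
    set u := ∑' k, α k • v k with hu
    have hwu : ∀ k, w k u = α k := by
      intro k
      rw [hu, (w k).map_tsum hsum, tsum_eq_single k]
      · rw [map_smul, hwv, smul_eq_mul, mul_one]
      · intro n hn
        rw [map_smul, hwv' k n (Ne.symm hn), smul_zero]
    obtain ⟨k, hk⟩ := exists_nat_gt ‖A u‖
    have h1 := hα2 k
    rw [← hwu k, ← hg k u] at h1
    have h2 : ‖g k (A u)‖ ≤ ‖g k‖ * ‖A u‖ := (g k).le_opNorm _
    have h3 : 0 ≤ ‖g k‖ := norm_nonneg _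
    have h4 : 0 ≤ ‖A u‖ := norm_nonneg _
    nlinarith
  obtain ⟨ε, hε, M, hM⟩ := hbd
  have hM0 : 0 ≤ M := (norm_nonneg _).trans (hM 0 (by rwa [norm_zero]))
  have hcont : ContinuousAt (τ : ℂ →+* ℂ) 0 := by
    rw [Metric.continuousAt_iff]
    intro δ hδ
    obtain ⟨n, hn⟩ := exists_nat_gt (M / δ)
    have hn0 : 0 < (n : ℝ) := lt_of_le_of_lt (by positivity) hn
    refine ⟨ε / n, by positivity, fun {z} hz => ?_⟩
    rw [dist_zero_right] at hz
    rw [map_zero, dist_zero_right]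
    have h1 : ‖(n : ℂ) * z‖ < ε := by
      rw [norm_mul, Complex.norm_natCast]
      rw [lt_div_iff₀ hn0] at hz
      linarith
    have h2 := hM _ h1
    rw [map_mul, map_natCast, norm_mul, Complex.norm_natCast] at h2
    show ‖τ z‖ < δ
    rw [div_lt_iff₀ hδ] at hn
    have h3 : (n : ℝ) * ‖τ z‖ < n * δ := by linarith
    exact lt_of_mul_lt_mul_left h3 hn0.le
  exact continuous_of_continuousAt_zero _ hcont


end sk1


end Pool.Agent.Helper280.QN.Jtaucont
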