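import Mathlib
import Pool.Agent.Helper280.QN.Core
import Pool.Agent.Helper280.QN.Conj
import Pool.Agent.Helper280.QN.Jtaucont
import Pool.Agent.Helper280.QN.Jbdd
import Pool.Agent.Helper280.QN.Jrefl
import Pool.Agent.Helper280.QN.Jnoeth
import Pool.Agent.Helper280.QN.Jpattern
import Pool.Agent.Helper280.QN.Jfinlie
import Pool.Agent.Helper280.QN.Jfinprod
import Pool.Agent.Helper280.QN.Jfintriple
import Pool.Agent.Helper280.QN.Jfinjordan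

set_option autoImplicit false

namespace Pool.Agent.Helper280.QN

open Jcorr (Par Flag)

section fin
variable {X Y : Type*} [NormedAddCommGroup X] [NormedSpace ℂ X]
  [NormedAddCommGroup Y] [NormedSpace ℂ Y]

theorem final_all [CompleteSpace X] (k : Kind) (hd : Dim4 X) (P : (X →L[ℂ] X) → (X →L[ℂ] X))
    (hP : ∀ T S, rel k (P T) (P S) ↔ rel k T S)
    (hfl : ∀ (x : X) (f : X →L[ℂ] ℂ), Flag x f → ∀ T, f (sq k (P T) x) = 0 ↔ f (sq k T x) = 0)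
    (T : X →L[ℂ] X) :
    ∃ c d : ℂ, c ≠ 0 ∧ (k ≠ Kind.lie → d = 0) ∧ P T = c • T + d • 1 := by
  have hspan : ∀ T R : X →L[ℂ] X, (∀ (x : X) (f : X →L[ℂ] ℂ), f x = 0 → f (T x) = 0 →
      f (R x) = 0) → ∃ a b : ℂ, R = a • 1 + b • T :=
    fun T R h => Jspanlocal.span_of_local hd (Jgoodpair.goodPair_or hd) T R h
  have hscal : ∀ T : X →L[ℂ] X, (∀ (x : X) (f : X →L[ℂ] ℂ), f x = 0 → f (T x) = 0) →
      ∃ d : ℂ, T = d • 1 := fun T h => Jspanlocal.scalar_of_local T h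
  cases k
  · obtain ⟨c, hc, h⟩ := Jfinprod.final_prod hd hspan hscal P hP
      (fun x f h1 h2 h3 T => hfl x f ⟨h1, h2, h3⟩ T) T
    exact ⟨c, 0, hc, fun _ => rfl, by rw [h, zero_smul, add_zero]⟩
  · obtain ⟨c, hc, h⟩ := Jfintriple.final_triple hd hspan hscal P hP
      (fun x f h1 h2 h3 T => hfl x f ⟨h1, h2, h3⟩ T) T
    exact ⟨c, 0, hc, fun _ => rfl, by rw [h, zero_smul, add_zero]⟩
  · obtain ⟨c, hc, h⟩ := Jfinjordan.final_jordan hd hspan hscal P hP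
      (fun x f h1 h2 h3 T => hfl x f ⟨h1, h2, h3⟩ T) T
    exact ⟨c, 0, hc, fun _ => rfl, by rw [h, zero_smul, add_zero]⟩
  · obtain ⟨c, d, hc, h⟩ := Jfinlie.final_lie hspan hscal P
      (fun x f h1 h2 h3 T => hfl x f ⟨h1, h2, h3⟩ T) T
    exact ⟨c, d, hc, fun h => absurd rfl h, h⟩

/-- intertwining is compatible with the products -/
theorem op_map (k : Kind) (A : X → Y) (hadd : ∀ x y, A (x + y) = A x + A y)
    (hneg : ∀ x y, A (x - y) = A x - A y)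
    (R1 R2 : X →L[ℂ] X) (S1 S2 : Y →L[ℂ] Y) (h1 : ∀ x, S1 (A x) = A (R1 x))
    (h2 : ∀ x, S2 (A x) = A (R2 x)) (x : X) : op k S1 S2 (A x) = A (op k R1 R2 x) := by
  cases k
  · simp [op, h1, h2]
  · simp [op, h1, h2]
  · simp [op, h1, h2, hadd]
  · simp [op, h1, h2, hneg]

/-- dual version: the products get reversed -/
theorem op_map_dual (k : Kind) (A : (X →L[ℂ] ℂ) → Y) (hadd : ∀ x y, A (x + y) = A x + A y)
    (hneg : ∀ x y, A (x - y) = A x - A y)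
    (R1 R2 : X →L[ℂ] X) (S1 S2 : Y →L[ℂ] Y) (h1 : ∀ f : X →L[ℂ] ℂ, S1 (A f) = A (f.comp R1))
    (h2 : ∀ f : X →L[ℂ] ℂ, S2 (A f) = A (f.comp R2)) :
    ∃ R : X →L[ℂ] X, (∀ f : X →L[ℂ] ℂ, op k S1 S2 (A f) = A (f.comp R)) ∧
      (Qn R ↔ Qn (op k R1 R2)) := by
  cases k
  · refine ⟨R2 * R1, fun f => ?_, Qn_mul_comm _ _⟩
    simp only [op, mul_apply_eq_comp]
    rw [h2, h1]
    rfl
  · refine ⟨R2 * R1 * R2, fun f => ?_, Iff.rfl⟩
    simp only [op, mul_apply_eq_comp]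
    rw [h2, h1, h2]
    rfl
  · refine ⟨R1 * R2 + R2 * R1, fun f => ?_, Iff.rfl⟩
    simp only [op, mul_apply_eq_comp, add_apply]
    rw [h2, h1, h1, h2, ← hadd, add_comm]
    congr 1
    ext x
    simp
  · refine ⟨R2 * R1 - R1 * R2, fun f => ?_, ?_⟩
    · simp only [op, mul_apply_eq_comp, sub_apply]
      rw [h2, h1, h1, h2, ← hneg]
      congr 1
      ext x
      simp
    · rw [← Qn_neg_iff, neg_sub]
      rfl

theorem sq_map (k : Kind) (A : X → Y) (R : X →L[ℂ] X) (S : Y →L[ℂ] Y)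
    (h : ∀ x, S (A x) = A (R x)) (x : X) : sq k S (A x) = A (sq k R x) := by
  cases k <;> simp [sq, h]

theorem sq_map_dual (k : Kind) (A : (X →L[ℂ] ℂ) → Y) (R : X →L[ℂ] X) (S : Y →L[ℂ] Y)
    (h : ∀ f : X →L[ℂ] ℂ, S (A f) = A (f.comp R)) (f : X →L[ℂ] ℂ) :
    sq k S (A f) = A (f.comp (sq k R)) := by
  cases k
  · simp [sq, h]
  · simp only [sq, mul_apply_eq_comp]
    rw [h, h]
    rfl
  · simp [sq, h]
  · simp [sq, h]

/-- type I: transfer to `X` and apply the final theorem -/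
theorem finish_one [CompleteSpace X] (k : Kind) (hdX : Dim4 X) (φ : (X →L[ℂ] X) → (Y →L[ℂ] Y))
    (hφ : ∀ T S, rel k (φ T) (φ S) ↔ rel k T S)
    (τ : ℂ ≃+* ℂ) (A : X ≃+ Y) (hA : ∀ (c : ℂ) (x : X), A (c • x) = τ c • A x)
    (hfun : ∀ f : X →L[ℂ] ℂ, ∃ g : Y →L[ℂ] ℂ, ∀ x, g (A x) = τ (f x))
    (hact : ∀ x f, Flag x f → ∀ (S : X →L[ℂ] X) (g : Y →L[ℂ] ℂ), (∀ v, g (A v) = τ (f v)) →
        (f (sq k S x) = 0 ↔ g (sq k (φ S) (A x)) = 0))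
    (hex : ∀ S : Y →L[ℂ] Y, ∃ R : X →L[ℂ] X, ∀ x, S (A x) = A (R x))
    (hQ : ∀ (S : Y →L[ℂ] Y) (R : X →L[ℂ] X), (∀ x, S (A x) = A (R x)) → (Qn S ↔ Qn R)) :
    ∀ T, ∃ c d : ℂ, c ≠ 0 ∧ (k ≠ Kind.lie → d = 0) ∧
      ∀ x, φ T (A x) = c • A (T x) + d • A x := by
  choose P hP using fun T => hex (φ T)
  have hrel : ∀ T S, rel k (P T) (P S) ↔ rel k T S := by
    intro T S
    rw [← hφ T S]
    exact (hQ _ _ (op_map k A (map_add A) (map_sub A) (P T) (P S) (φ T) (φ S) (hP T) (hP S))).symm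
  have hfl : ∀ (x : X) (f : X →L[ℂ] ℂ), Flag x f →
      ∀ T, f (sq k (P T) x) = 0 ↔ f (sq k T x) = 0 := by
    intro x f h T
    obtain ⟨g, hg⟩ := hfun f
    rw [hact x f h T g hg, sq_map k A (P T) (φ T) (hP T), hg, map_eq_zero_iff τ τ.injective]
  intro T
  obtain ⟨c, d, hc, hd, h⟩ := final_all k hdX P hrel hfl T
  refine ⟨τ c, τ d, (map_ne_zero_iff τ τ.injective).2 hc, fun hk => by rw [hd hk, map_zero],
    fun x => ?_⟩
  rw [hP, h, ← hA, ← hA, ← map_add]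
  rfl

/-- type II: transfer to `X` and apply the final theorem -/
theorem finish_two [CompleteSpace X] (k : Kind) (hdX : Dim4 X) (φ : (X →L[ℂ] X) → (Y →L[ℂ] Y))
    (hφ : ∀ T S, rel k (φ T) (φ S) ↔ rel k T S)
    (τ : ℂ ≃+* ℂ) (A : (X →L[ℂ] ℂ) ≃+ Y)
    (hA : ∀ (c : ℂ) (f : X →L[ℂ] ℂ), A (c • f) = τ c • A f)
    (hfun : ∀ x : X, ∃ g : Y →L[ℂ] ℂ, ∀ f : X →L[ℂ] ℂ, g (A f) = τ (f x))
    (hact : ∀ x f, Flag x f → ∀ (S : X →L[ℂ] X) (g : Y →L[ℂ] ℂ),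
        (∀ f' : X →L[ℂ] ℂ, g (A f') = τ (f' x)) →
        (f (sq k S x) = 0 ↔ g (sq k (φ S) (A f)) = 0))
    (hex : ∀ S : Y →L[ℂ] Y, ∃ R : X →L[ℂ] X, ∀ f : X →L[ℂ] ℂ, S (A f) = A (f.comp R))
    (hQ : ∀ (S : Y →L[ℂ] Y) (R : X →L[ℂ] X), (∀ f : X →L[ℂ] ℂ, S (A f) = A (f.comp R)) →
      (Qn S ↔ Qn R)) :
    ∀ T, ∃ c d : ℂ, c ≠ 0 ∧ (k ≠ Kind.lie → d = 0) ∧
      ∀ f : X →L[ℂ] ℂ, φ T (A f) = c • A (f.comp T) + d • A f := by
  choose P hP using fun T => hex (φ T)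
  have hrel : ∀ T S, rel k (P T) (P S) ↔ rel k T S := by
    intro T S
    rw [← hφ T S]
    obtain ⟨R, hR1, hR2⟩ := op_map_dual k A (map_add A) (map_sub A) (P T) (P S) (φ T) (φ S)
      (hP T) (hP S)
    exact ((hQ _ _ hR1).trans hR2).symm
  have hfl : ∀ (x : X) (f : X →L[ℂ] ℂ), Flag x f →
      ∀ T, f (sq k (P T) x) = 0 ↔ f (sq k T x) = 0 := by
    intro x f h T
    obtain ⟨g, hg⟩ := hfun x
    rw [hact x f h T g hg, sq_map_dual k A (P T) (φ T) (hP T), hg, map_eq_zero_iff τ τ.injective]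
    rfl
  intro T
  obtain ⟨c, d, hc, hd, h⟩ := final_all k hdX P hrel hfl T
  refine ⟨τ c, τ d, (map_ne_zero_iff τ τ.injective).2 hc, fun hk => by rw [hd hk, map_zero],
    fun f => ?_⟩
  rw [hP, h, ← hA, ← hA, ← map_add]
  congr 1
  ext x
  simp

theorem dim4_of_infinite {V : Type*} [AddCommGroup V] [Module ℂ V]
    (h : ¬ FiniteDimensional ℂ V) : Dim4 V := by
  have h1 : Cardinal.aleph0 ≤ Module.rank ℂ V := by
    by_contra hlt
    exact h (Module.rank_lt_aleph0_iff.1 (not_le.1 hlt))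
  have h2 : ((4 : ℕ) : Cardinal) ≤ Module.rank ℂ V := (Cardinal.nat_lt_aleph0 4).le.trans h1
  obtain ⟨s, hs, hli⟩ := le_rank_iff_exists_linearIndependent_finset.1 h2
  let e : Fin 4 ≃ s := (Finset.equivFinOfCardEq hs).symm
  exact ⟨fun i => (e i : V), hli.comp e e.injective⟩

/-- if `X` is infinite-dimensional then so is `Y` -/
theorem inf_of_inf (k : Kind) (hinf : ¬ FiniteDimensional ℂ X) (φ : (X →L[ℂ] X) → (Y →L[ℂ] Y))
    (hφ : ∀ T S, rel k (φ T) (φ S) ↔ rel k T S) : ¬ FiniteDimensional ℂ Y := by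
  intro hY
  obtain ⟨T, S, h⟩ := Jpattern.exists_pattern hinf k
  exact Jnoeth.no_pattern k (fun i => φ (T i)) (fun i => φ (S i)) fun i j => by
    rw [hφ]; exact h i j

end fin

end Pool.Agent.Helper280.QN
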