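import Mathlib
import Pool.Agent.Helper280.QN.Rel
import Pool.Agent.Helper280.QN.Tools

set_option autoImplicit false

namespace Pool.Agent.Helper280.QN.Jfinjordan



section sk3
variable {X : Type*} [NormedAddCommGroup X] [NormedSpace ℂ X]

theorem fj_ext_ind (hd : Dim4 X) {n : ℕ} (hn : n < 4) {w : Fin n → X}
    (hw : LinearIndependent ℂ w) : ∃ z, LinearIndependent ℂ (Fin.cons z w : Fin (n + 1) → X) := by
  have h1 : ∃ z, z ∉ Submodule.span ℂ (Set.range w) := by
    by_contra hcon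
    push Not at hcon
    have htop : Submodule.span ℂ (Set.range w) = ⊤ := by
      rw [eq_top_iff]; intro z _; exact hcon z
    have hfin : Module.Finite ℂ X := by
      rw [Module.finite_def, ← htop]
      exact Submodule.fg_span (Set.finite_range w)
    obtain ⟨v, hv⟩ := hd
    have h2 := hv.fintype_card_le_finrank
    have h3 : Module.finrank ℂ X ≤ n := by
      have := finrank_range_le_card (R := ℂ) w
      rw [Set.finrank, htop, finrank_top, Fintype.card_fin] at this
      exact this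
    rw [Fintype.card_fin] at h2
    omega
  obtain ⟨z, hz⟩ := h1
  exact ⟨z, linearIndependent_finCons.2 ⟨hw, hz⟩⟩

theorem fj_basis (hd : Dim4 X) (x : X) (f : X →L[ℂ] ℂ) (hfx : f x = 1) :
    ∃ z1 z2 z3 : X, f z1 = 0 ∧ f z2 = 0 ∧ f z3 = 0 ∧
      ∀ c0 c1 c2 c3 : ℂ, ∃ k : X →L[ℂ] ℂ, k x = c0 ∧ k z1 = c1 ∧ k z2 = c2 ∧ k z3 = c3 := by
  have hx : x ≠ 0 := by
    rintro rfl
    simp at hfx
  have h1 : LinearIndependent ℂ ![x] := LinearIndependent.of_subsingleton (0 : Fin 1) (by simpa using hx)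
  obtain ⟨y1, h2⟩ := fj_ext_ind hd (by norm_num) h1
  obtain ⟨y2, h3⟩ := fj_ext_ind hd (by norm_num) h2
  obtain ⟨y3, h4⟩ := fj_ext_ind hd (by norm_num) h3
  refine ⟨y1 - f y1 • x, y2 - f y2 • x, y3 - f y3 • x, ?_, ?_, ?_, ?_⟩
  · rw [map_sub, map_smul, hfx, smul_eq_mul, mul_one, sub_self]
  · rw [map_sub, map_smul, hfx, smul_eq_mul, mul_one, sub_self]
  · rw [map_sub, map_smul, hfx, smul_eq_mul, mul_one, sub_self]
  · intro c0 c1 c2 c3
    obtain ⟨k, hk⟩ := dual_vals h4 ![c3 + f y3 * c0, c2 + f y2 * c0, c1 + f y1 * c0, c0]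
    have k3 : k y3 = c3 + f y3 * c0 := hk 0
    have k2 : k y2 = c2 + f y2 * c0 := hk 1
    have k1 : k y1 = c1 + f y1 * c0 := hk 2
    have k0 : k x = c0 := hk 3
    refine ⟨k, k0, ?_, ?_, ?_⟩
    · rw [map_sub, map_smul, k0, k1, smul_eq_mul]; ring
    · rw [map_sub, map_smul, k0, k2, smul_eq_mul]; ring
    · rw [map_sub, map_smul, k0, k3, smul_eq_mul]; ring

theorem fj_smul_right (A B : X →L[ℂ] X) {c : ℂ} (hc : c ≠ 0) :
    rel Kind.jordan A (c • B) ↔ rel Kind.jordan A B := by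
  have e : op Kind.jordan A (c • B) = c • op Kind.jordan A B := by
    unfold op
    simp only [mul_smul_comm, smul_mul_assoc, smul_add]
  unfold rel
  rw [e, Qn_smul_iff hc]

theorem fj_smul_left (A B : X →L[ℂ] X) {c : ℂ} (hc : c ≠ 0) :
    rel Kind.jordan (c • A) B ↔ rel Kind.jordan A B := by
  have e : op Kind.jordan (c • A) B = c • op Kind.jordan A B := by
    unfold op
    simp only [mul_smul_comm, smul_mul_assoc, smul_add]
  unfold rel
  rw [e, Qn_smul_iff hc]

theorem fj_op_apply (T R : X →L[ℂ] X) (a b : ℂ) (v : X) :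
    op Kind.jordan T (a • 1 + b • R) v = (2 * a) • T v + b • (T (R v) + R (T v)) := by
  have e : op Kind.jordan T (a • 1 + b • R) = (2 * a) • T + b • (T * R + R * T) := by
    unfold op
    simp only [add_mul, mul_add, smul_mul_assoc, mul_smul_comm, one_mul, mul_one]
    rw [two_mul, add_smul, smul_add]
    abel
  rw [e]
  rfl

/-- the compressed operator `(a + b T) S + S (a + b T)` -/
theorem fj_four (T : X →L[ℂ] X) (x : X) (al be : ℂ) (hT : T (T x) = al • T x + be • x)
    (k1 k2 : X →L[ℂ] ℂ) (k1x : k1 x = 1) (k1T : k1 (T x) = 0) (k2x : k2 x = 0)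
    (k2T : k2 (T x) = 1) (s00 s01 s10 s11 a b : ℂ) :
    rel Kind.jordan (a • 1 + b • T) (rk (s00 • x + s10 • T x) k1 + rk (s01 • x + s11 • T x) k2) ↔
      2 * a * (s00 + s11) + b * (2 * s01 + 2 * be * s10 + 2 * al * s11) = 0 ∧
      (2 * a * s00 + b * (s01 + be * s10)) *
        (2 * a * s11 + b * (be * s10 + 2 * al * s11 + s01)) -
      (2 * a * s01 + b * (be * s00 + al * s01 + be * s11)) *
        (2 * a * s10 + b * (s11 + s00 + al * s10)) = 0 := by
  have k1TT : k1 (T (T x)) = be := by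
    rw [hT, map_add, map_smul, map_smul, k1x, k1T]; simp
  have k2TT : k2 (T (T x)) = al := by
    rw [hT, map_add, map_smul, map_smul, k2x, k2T]; simp
  have e : op Kind.jordan (a • 1 + b • T)
      (rk (s00 • x + s10 • T x) k1 + rk (s01 • x + s11 • T x) k2) =
      rk x ((2 * a * s00 + b * be * s10) • k1 + (2 * a * s01 + b * be * s11) • k2
          + (b * s00) • k1.comp T + (b * s01) • k2.comp T) +
      rk (T x) ((2 * a * s10 + b * (s00 + al * s10)) • k1
          + (2 * a * s11 + b * (s01 + al * s11)) • k2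
          + (b * s10) • k1.comp T + (b * s11) • k2.comp T) := by
    ext v
    have h1 : (op Kind.jordan (a • 1 + b • T)
      (rk (s00 • x + s10 • T x) k1 + rk (s01 • x + s11 • T x) k2)) v =
      a • (k1 v • (s00 • x + s10 • T x) + k2 v • (s01 • x + s11 • T x)) +
      b • T (k1 v • (s00 • x + s10 • T x) + k2 v • (s01 • x + s11 • T x)) +
      (k1 (a • v + b • T v) • (s00 • x + s10 • T x)
        + k2 (a • v + b • T v) • (s01 • x + s11 • T x)) := rfl
    have h2 : (rk x ((2 * a * s00 + b * be * s10) • k1 + (2 * a * s01 + b * be * s11) • k2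
          + (b * s00) • k1.comp T + (b * s01) • k2.comp T) +
      rk (T x) ((2 * a * s10 + b * (s00 + al * s10)) • k1
          + (2 * a * s11 + b * (s01 + al * s11)) • k2
          + (b * s10) • k1.comp T + (b * s11) • k2.comp T)) v =
      ((2 * a * s00 + b * be * s10) * k1 v + (2 * a * s01 + b * be * s11) * k2 v
          + (b * s00) * k1 (T v) + (b * s01) * k2 (T v)) • x +
      ((2 * a * s10 + b * (s00 + al * s10)) * k1 v
          + (2 * a * s11 + b * (s01 + al * s11)) * k2 v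
          + (b * s10) * k1 (T v) + (b * s11) * k2 (T v)) • T x := rfl
    rw [h1, h2]
    simp only [map_add, map_smul, hT, smul_eq_mul]
    module
  unfold rel
  rw [e, Qn_rank_two]
  simp only [_root_.add_apply, _root_.smul_apply,
    ContinuousLinearMap.comp_apply, k1x, k1T, k2x, k2T, k1TT, k2TT, smul_eq_mul]
  constructor
  · rintro ⟨h1, h2⟩
    exact ⟨by linear_combination h1, by linear_combination h2⟩
  · rintro ⟨h1, h2⟩
    exact ⟨by linear_combination h1, by linear_combination h2⟩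

theorem final_jordan [CompleteSpace X] (hd : Dim4 X)
    (hspan : ∀ T R : X →L[ℂ] X, (∀ (x : X) (f : X →L[ℂ] ℂ), f x = 0 → f (T x) = 0 → f (R x) = 0) →
      ∃ a b : ℂ, R = a • 1 + b • T)
    (hscal : ∀ T : X →L[ℂ] X, (∀ (x : X) (f : X →L[ℂ] ℂ), f x = 0 → f (T x) = 0) →
      ∃ d : ℂ, T = d • 1)
    (P : (X →L[ℂ] X) → (X →L[ℂ] X))
    (hP : ∀ T S, rel Kind.jordan (P T) (P S) ↔ rel Kind.jordan T S)
    (hfl : ∀ (x : X) (f : X →L[ℂ] ℂ), x ≠ 0 → f ≠ 0 → f x = 0 →
      ∀ T, f (P T x) = 0 ↔ f (T x) = 0) (T : X →L[ℂ] X) :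
    ∃ c : ℂ, c ≠ 0 ∧ P T = c • T := by
  obtain ⟨u0, hu0⟩ : ∃ u : X, u ≠ 0 := by
    obtain ⟨v, hv⟩ := hd
    exact ⟨v 0, hv.ne_zero 0⟩
  have hnt : Nontrivial X := ⟨u0, 0, hu0⟩
  have hQs : ∀ t : ℂ, Qn (t • (1 : X →L[ℂ] X)) → t = 0 := by
    intro t ht
    by_contra h0
    exact not_Qn_of_eigen (t • (1 : X →L[ℂ] X)) u0 t hu0 h0 rfl ht
  have hself : ∀ T, Qn (P T) ↔ Qn T := by
    intro T
    rw [← rel_self Kind.jordan (by simp) (P T), hP, rel_self Kind.jordan (by simp)]
  -- the dichotomy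
  have key : ∀ T, (∃ c : ℂ, c ≠ 0 ∧ P T = c • T) ∨
      (∃ a b : ℂ, a ≠ 0 ∧ b ≠ 0 ∧ P T = a • 1 + b • T ∧ ∀ d : ℂ, T ≠ d • 1) := by
    intro T
    obtain ⟨a, b, hab⟩ := hspan T (P T) (by
      intro x f h1 h2
      by_cases hx : x = 0
      · rw [hx, map_zero, map_zero]
      by_cases hf : f = 0
      · rw [hf]; rfl
      exact (hfl x f hx hf h1 T).2 h2)
    obtain ⟨a', b', hab'⟩ := hspan (P T) T (by
      intro x f h1 h2
      by_cases hx : x = 0
      · rw [hx, map_zero, map_zero]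
      by_cases hf : f = 0
      · rw [hf]; rfl
      exact (hfl x f hx hf h1 T).1 h2)
    by_cases hs : ∃ d : ℂ, T = d • 1
    · left
      obtain ⟨t, ht⟩ := hs
      have hPT : P T = (a + b * t) • (1 : X →L[ℂ] X) := by
        rw [hab, ht, smul_smul, ← add_smul]
      by_cases h0 : t = 0
      · refine ⟨1, one_ne_zero, ?_⟩
        have hT0 : T = 0 := by rw [ht, h0, zero_smul]
        have hQ : Qn (P T) := by rw [hself, hT0]; exact Qn_zero
        rw [hPT] at hQ
        rw [hPT, hQs _ hQ, hT0]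
        simp
      · refine ⟨(a + b * t) / t, ?_, ?_⟩
        · refine div_ne_zero ?_ h0
          intro hd0
          apply h0
          apply hQs
          rw [← ht, ← hself, hPT, hd0, zero_smul]
          exact Qn_zero
        · rw [hPT]
          conv_rhs => rw [ht]
          rw [smul_smul, div_mul_cancel₀ _ h0]
    · push Not at hs
      have hb : b ≠ 0 := by
        rintro rfl
        rw [zero_smul, add_zero] at hab
        rw [hab, smul_smul, ← add_smul] at hab'
        exact hs _ hab'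
      by_cases ha : a = 0
      · left
        exact ⟨b, hb, by rw [hab, ha, zero_smul, zero_add]⟩
      · right
        exact ⟨a, b, ha, hb, hab, hs⟩
  -- quasinilpotents
  have hnil : ∀ T, Qn T → ∃ c : ℂ, c ≠ 0 ∧ P T = c • T := by
    intro T hT
    rcases key T with h | ⟨a, b, ha, hb, hPT, hs⟩
    · exact h
    · exfalso
      apply ha
      have h1 : Qn (b • T) := Qn_smul hT
      have h2 : Qn (P T) := (hself T).2 hT
      rw [hPT, add_comm] at h2
      exact Qn_add_scalar _ _ h1 h2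
  -- idempotents of rank one
  have hidem : ∀ (x : X) (f : X →L[ℂ] ℂ), f x = 1 → ∃ c : ℂ, c ≠ 0 ∧ P (rk x f) = c • rk x f := by
    intro x f hfx
    rcases key (rk x f) with h | ⟨a, b, ha, hb, hPR, hs⟩
    · exact h
    exfalso
    have hM : ∀ T, Qn T → (rel Kind.jordan T (rk x f) ↔
        rel Kind.jordan T (a • 1 + b • rk x f)) := by
      intro T hT
      obtain ⟨c, hc, hPT⟩ := hnil T hT
      rw [← hP, hPT, hPR, fj_smul_left _ _ hc]
    obtain ⟨z1, z2, z3, hz1, hz2, hz3, hk⟩ := fj_basis hd x f hfx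
    obtain ⟨k1, k1x, k1z1, k1z2, k1z3⟩ := hk 0 1 0 0
    -- first case: `b ≠ -4 a`
    have h4 : 4 * a + b ≠ 0 := by
      intro h4
      obtain ⟨k0, k0x, k0z1, k0z2, k0z3⟩ := hk 1 0 (-1) 0
      obtain ⟨w2, hw2⟩ : ∃ w2, w2 = x + z2 := ⟨_, rfl⟩
      have hfw2 : f w2 = 1 := by rw [hw2, map_add, hfx, hz2, add_zero]
      have k0w2 : k0 w2 = 0 := by rw [hw2, map_add, k0x, k0z2]; ring
      have k1w2 : k1 w2 = 0 := by rw [hw2, map_add, k1x, k1z2]; ring
      obtain ⟨N, hN⟩ : ∃ N : X →L[ℂ] X, N = rk z1 k0 + rk w2 k1 := ⟨_, rfl⟩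
      have hNv : ∀ v, N v = k0 v • z1 + k1 v • w2 := by intro v; rw [hN]; rfl
      have hNx : N x = z1 := by rw [hNv, k0x, k1x]; simp
      have hNz : N z1 = w2 := by rw [hNv, k0z1, k1z1]; simp
      have hQ : Qn N := by
        rw [hN, Qn_rank_two, k0z1, k1w2, k0w2]
        simp
      have h5 : ¬ rel Kind.jordan N (rk x f) := by
        rw [rel_idem_jordan x f hfx, hNx, hNz, hfw2]
        simp
      rw [hM N hQ] at h5
      apply h5
      have e : op Kind.jordan N (a • 1 + b • rk x f) =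
          rk z1 ((2 * a) • k0 + b • f) + rk ((2 * a) • w2 + b • x) k1 := by
        ext v
        rw [fj_op_apply]
        have e1 : (rk x f) v = f v • x := rfl
        have e2 : (rk x f) (N v) = f (N v) • x := rfl
        have e3 : (rk z1 ((2 * a) • k0 + b • f) + rk ((2 * a) • w2 + b • x) k1) v =
          (2 * a * k0 v + b * f v) • z1 + k1 v • ((2 * a) • w2 + b • x) := rfl
        rw [e1, e2, e3, map_smul, hNx, hNv, map_add, map_smul, map_smul, hz1, hfw2]
        simp only [smul_eq_mul]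
        module
      unfold rel
      rw [e, Qn_rank_two]
      have e4 : ((2 * a) • k0 + b • f) z1 = 0 := by
        change 2 * a * k0 z1 + b * f z1 = 0
        rw [k0z1, hz1]; ring
      have e5 : k1 ((2 * a) • w2 + b • x) = 0 := by
        rw [map_add, map_smul, map_smul, k1w2, k1x]; simp
      have e6 : ((2 * a) • k0 + b • f) ((2 * a) • w2 + b • x) = b * (4 * a + b) := by
        change 2 * a * k0 ((2 * a) • w2 + b • x) + b * f ((2 * a) • w2 + b • x) = _
        rw [map_add, map_smul, map_smul, map_add, map_smul, map_smul, k0w2, k0x, hfw2, hfx]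
        simp only [smul_eq_mul]
        ring
      rw [e4, e5, e6, h4]
      simp
    -- second case
    obtain ⟨k0, k0x, k0z1, k0z2, k0z3⟩ := hk 1 0 0 (-1)
    obtain ⟨k2, k2x, k2z1, k2z2, k2z3⟩ := hk 0 0 1 0
    obtain ⟨w3, hw3⟩ : ∃ w3, w3 = x + z3 := ⟨_, rfl⟩
    have hfw3 : f w3 = 1 := by rw [hw3, map_add, hfx, hz3, add_zero]
    have k0w3 : k0 w3 = 0 := by rw [hw3, map_add, k0x, k0z3]; ring
    have k1w3 : k1 w3 = 0 := by rw [hw3, map_add, k1x, k1z3]; ring
    have k2w3 : k2 w3 = 0 := by rw [hw3, map_add, k2x, k2z3]; ring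
    obtain ⟨N, hN⟩ : ∃ N : X →L[ℂ] X, N = rk z1 k0 + rk z2 k1 + rk w3 k2 := ⟨_, rfl⟩
    have hNv : ∀ v, N v = k0 v • z1 + k1 v • z2 + k2 v • w3 := by intro v; rw [hN]; rfl
    have hNx : N x = z1 := by rw [hNv, k0x, k1x, k2x]; simp
    have hNz1 : N z1 = z2 := by rw [hNv, k0z1, k1z1, k2z1]; simp
    have hNz2 : N z2 = w3 := by rw [hNv, k0z2, k1z2, k2z2]; simp
    have hNw3 : N w3 = 0 := by rw [hNv, k0w3, k1w3, k2w3]; simp
    have hN4 : N ^ 4 = 0 := by
      ext v
      have : (N ^ 4) v = N (N (N (N v))) := rfl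
      rw [this, hNv v]
      simp only [map_add, map_smul, hNz1, hNz2, hNw3, smul_zero, add_zero, map_zero]
      rfl
    have hQ : Qn N := Qn_of_pow_eq_zero N 4 hN4
    have h5 : rel Kind.jordan N (rk x f) := by
      rw [rel_idem_jordan x f hfx, hNx, hNz1]
      exact ⟨hz1, hz2⟩
    rw [hM N hQ] at h5
    obtain ⟨M, hMd⟩ : ∃ M, M = op Kind.jordan N (a • 1 + b • rk x f) := ⟨_, rfl⟩
    have hMv : ∀ v, M v = (2 * a) • N v + b • (f v • z1 + f (N v) • x) := by
      intro v
      rw [hMd, fj_op_apply]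
      have e1 : (rk x f) v = f v • x := rfl
      have e2 : (rk x f) (N v) = f (N v) • x := rfl
      rw [e1, e2, map_smul, hNx]
    have hMz1 : M z1 = (2 * a) • z2 := by
      rw [hMv, hNz1, hz1, hz2]; simp
    have hMz2 : M z2 = (2 * a) • w3 + b • x := by
      rw [hMv, hNz2, hz2, hfw3]; simp
    have hMw3 : M w3 = b • z1 := by
      rw [hMv, hNw3, hfw3]; simp
    have hMx : M x = (2 * a + b) • z1 := by
      rw [hMv, hNx, hfx, hz1, one_smul, zero_smul, add_zero, add_smul]
    have hM3 : (M ^ 3) z1 = (2 * a * b * (4 * a + b)) • z1 := by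
      have : (M ^ 3) z1 = M (M (M z1)) := rfl
      rw [this, hMz1, map_smul, hMz2]
      simp only [map_add, map_smul, hMw3, hMx]
      module
    have hz1ne : z1 ≠ 0 := by
      rintro rfl
      rw [map_zero] at k1z1
      exact zero_ne_one k1z1
    refine not_Qn_of_pow M 3 (by norm_num) z1 _ hz1ne ?_ hM3 ?_
    · exact mul_ne_zero (mul_ne_zero (mul_ne_zero two_ne_zero ha) hb) h4
    · rw [hMd]; exact h5
  -- third step
  have hthird : ∀ (T : X →L[ℂ] X) (v : X) (f : X →L[ℂ] ℂ), f v = 1 → f (T v) = 0 →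
      f (T (T v)) = 0 → ∃ c : ℂ, c ≠ 0 ∧ P T = c • T := by
    intro T v f hfv hfT hfTT
    rcases key T with h | ⟨a, b, ha, hb, hPT, hs⟩
    · exact h
    exfalso
    apply ha
    obtain ⟨c, hc, hPR⟩ := hidem v f hfv
    have h1 : rel Kind.jordan T (rk v f) := (rel_idem_jordan v f hfv T).2 ⟨hfT, hfTT⟩
    rw [← hP, hPR, fj_smul_right _ _ hc, rel_idem_jordan v f hfv] at h1
    have h2 := h1.1
    rw [hPT] at h2
    have e : (a • (1 : X →L[ℂ] X) + b • T) v = a • v + b • T v := rfl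
    rw [e, map_add, map_smul, map_smul, hfv, hfT] at h2
    simpa using h2
  -- final step
  rcases key T with h | ⟨a, b, ha, hb, hPT, hs⟩
  · exact h
  obtain ⟨x, f, hfx, hfT⟩ : ∃ (x : X) (f : X →L[ℂ] ℂ), f x = 0 ∧ f (T x) ≠ 0 := by
    by_contra hcon
    push Not at hcon
    obtain ⟨d, hd'⟩ := hscal T hcon
    exact hs d hd'
  have hx0 : x ≠ 0 := by
    rintro rfl
    rw [map_zero, map_zero] at hfT
    exact hfT rfl
  have hind2 : LinearIndependent ℂ ![x, T x] := by
    rw [LinearIndependent.pair_iff]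
    intro s t hst
    have h1 : t = 0 := by
      have := congrArg f hst
      rw [map_add, map_smul, map_smul, hfx, map_zero] at this
      simpa [hfT] using this
    rw [h1, zero_smul, add_zero] at hst
    exact ⟨(smul_eq_zero.1 hst).resolve_right hx0, h1⟩
  by_cases hTT : T (T x) ∈ Submodule.span ℂ (Set.range ![x, T x])
  · -- an invariant plane
    exfalso
    obtain ⟨be, al, hTTx⟩ : ∃ be al : ℂ, T (T x) = al • T x + be • x := by
      have h1 : Set.range ![x, T x] = {x, T x} := by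
        simp only [Matrix.range_cons, Matrix.range_empty, Set.union_empty]
        exact Set.singleton_union
      rw [h1, Submodule.mem_span_pair] at hTT
      obtain ⟨p, q, hpq⟩ := hTT
      exact ⟨p, q, by rw [← hpq]; abel⟩
    obtain ⟨z, hz⟩ := fj_ext_ind hd (by norm_num) hind2
    obtain ⟨k1, hk1⟩ := dual_vals hz ![0, 1, 0]
    obtain ⟨k2, hk2⟩ := dual_vals hz ![0, 0, 1]
    obtain ⟨g, hg⟩ := dual_vals hz ![1, 0, 0]
    have k1z : k1 z = 0 := hk1 0
    have k1x : k1 x = 1 := hk1 1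
    have k1T : k1 (T x) = 0 := hk1 2
    have k2z : k2 z = 0 := hk2 0
    have k2x : k2 x = 0 := hk2 1
    have k2T : k2 (T x) = 1 := hk2 2
    have gz : g z = 1 := hg 0
    have hmain : ∀ s00 s01 s10 s11 : ℂ,
        (rel Kind.jordan ((0 : ℂ) • 1 + (1 : ℂ) • T)
          (rk (s00 • x + s10 • T x) k1 + rk (s01 • x + s11 • T x) k2) ↔
        rel Kind.jordan (a • 1 + b • T)
          (rk (s00 • x + s10 • T x) k1 + rk (s01 • x + s11 • T x) k2)) := by
      intro s00 s01 s10 s11
      obtain ⟨S, hS⟩ : ∃ S : X →L[ℂ] X,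
        S = rk (s00 • x + s10 • T x) k1 + rk (s01 • x + s11 • T x) k2 := ⟨_, rfl⟩
      rw [← hS]
      have hSz : S z = 0 := by
        have : S z = k1 z • (s00 • x + s10 • T x) + k2 z • (s01 • x + s11 • T x) := by
          rw [hS]; rfl
        rw [this, k1z, k2z]; simp
      obtain ⟨c, hc, hPS⟩ := hthird S z g gz (by rw [hSz, map_zero])
        (by rw [hSz, map_zero, map_zero])
      rw [zero_smul, zero_add, one_smul, ← hP, hPS, fj_smul_right _ _ hc, hPT]
    by_cases hal : al = 0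
    · have h1 := hmain 1 0 0 (-1)
      rw [fj_four T x al be hTTx k1 k2 k1x k1T k2x k2T,
        fj_four T x al be hTTx k1 k2 k1x k1T k2x k2T, hal] at h1
      have h2 := (h1.1 ⟨by ring, by ring⟩).2
      apply ha
      have h3 : a ^ 2 = 0 := by linear_combination (-1 / 4 : ℂ) * h2
      exact pow_eq_zero_iff (by norm_num) |>.1 h3
    · have h1 := hmain 1 (be / al) (-1 / al) 0
      rw [fj_four T x al be hTTx k1 k2 k1x k1T k2x k2T,
        fj_four T x al be hTTx k1 k2 k1x k1T k2x k2T] at h1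
      have h2 := (h1.1 ⟨by field_simp; ring, by field_simp; ring⟩).1
      apply ha
      have h3 : be / al + be * (-1 / al) = 0 := by field_simp; ring
      linear_combination (1 / 2 : ℂ) * h2 - b * h3
  · -- three independent vectors
    have hind3 : LinearIndependent ℂ (Fin.cons (T (T x)) ![x, T x] : Fin 3 → X) :=
      linearIndependent_finCons.2 ⟨hind2, hTT⟩
    obtain ⟨g, hg⟩ := dual_vals hind3 ![0, 1, 0]
    exact hthird T x g (hg 1) (hg 2) (hg 0)

end sk3


end Pool.Agent.Helper280.QN.Jfinjordan
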