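import Mathlib
import Pool.Agent.Helper280.QN.A

set_option autoImplicit false

namespace Pool.Agent.Helper280.QN.Jliecase3



section sk2
variable {X : Type*} [NormedAddCommGroup X] [NormedSpace ℂ X]

theorem lie_case3 (hrel : ∀ (d : ℂ) (x : X) (f : X →L[ℂ] ℂ) (S : X →L[ℂ] X),
      rel Kind.lie (d • 1 + rk x f) S ↔ f (S x) ^ 2 = f x * f (S (S x)))
    (x y : X) (f : X →L[ℂ] ℂ)
    (hcl : ∀ A, Cl Kind.lie (rk x f) (rk y f) A → ∃ a b d : ℂ, A = d • 1 + rk (a • x + b • y) f)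
    (hP : Pair Kind.lie (rk x f) (rk y f))
    (hxy : LinearIndependent ℂ ![x, y]) (hfx : f x ≠ 0) : False := by
  obtain ⟨x', hx'⟩ : ∃ x', x' = (f x)⁻¹ • x := ⟨_, rfl⟩
  obtain ⟨z0, hz0⟩ : ∃ z0, z0 = f y • x - f x • y := ⟨_, rfl⟩
  have hz : ∀ a b : ℂ, a • x + b • y = (a * f x + b * f y) • x' + (-b / f x) • z0 := by
    intro a b
    rw [hx', hz0]
    match_scalars <;> field_simp <;> ring
  have hfx' : f x' = 1 := by rw [hx', map_smul, smul_eq_mul, inv_mul_cancel₀ hfx]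
  have hfz0 : f z0 = 0 := by
    rw [hz0, map_sub, map_smul, map_smul, smul_eq_mul, smul_eq_mul]; ring
  rw [LinearIndependent.pair_iff] at hxy
  have hind : ∀ a b : ℂ, a • x' + b • z0 = 0 → a = 0 ∧ b = 0 := by
    intro a b h
    have h1 : (a / f x + b * f y) • x + (-(b * f x)) • y = 0 := by
      rw [← h, hx', hz0]
      match_scalars <;> field_simp
    obtain ⟨h2, h3⟩ := hxy _ _ h1
    have hb : b = 0 := by
      rcases mul_eq_zero.1 (neg_eq_zero.1 h3) with h | h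
      · exact h
      · exact absurd h hfx
    refine ⟨?_, hb⟩
    rw [hb, zero_mul, add_zero] at h2
    rcases div_eq_zero_iff.1 h2 with h | h
    · exact h
    · exact absurd h hfx
  obtain ⟨L, hL⟩ : ∃ L : (ℂ × ℂ) →ₗ[ℂ] X, ∀ p, L p = p.1 • x' + p.2 • z0 :=
    ⟨(LinearMap.fst ℂ ℂ ℂ).smulRight x' + (LinearMap.snd ℂ ℂ ℂ).smulRight z0, fun p => rfl⟩
  have hLi : Function.Injective L := by
    rw [injective_iff_map_eq_zero]
    rintro ⟨a, b⟩ h
    rw [hL] at h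
    obtain ⟨h1, h2⟩ := hind a b h
    rw [h1, h2]; rfl
  have hsurj := (SeparatingDual.dualMap_surjective_iff (R := ℂ) (V := X) (f := L)).2 hLi
  have hfun : ∀ c d : ℂ, ∃ l : X →L[ℂ] ℂ, l x' = c ∧ l z0 = d := by
    intro c d
    obtain ⟨l, hl⟩ := hsurj (c • LinearMap.fst ℂ ℂ ℂ + d • LinearMap.snd ℂ ℂ ℂ)
    refine ⟨l, ?_, ?_⟩
    · have h1 := congrArg (fun φ => φ ((1 : ℂ), (0 : ℂ))) hl
      have h2 : l (L ((1 : ℂ), (0 : ℂ))) = c * 1 + d * 0 := h1
      rw [hL] at h2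
      simpa using h2
    · have h1 := congrArg (fun φ => φ ((0 : ℂ), (1 : ℂ))) hl
      have h2 : l (L ((0 : ℂ), (1 : ℂ))) = c * 0 + d * 1 := h1
      rw [hL] at h2
      simpa using h2
  obtain ⟨k, hkx, hkz⟩ := hfun 0 1
  have hS : ∀ c d : ℂ, ∃ S : X →L[ℂ] X, ∀ a b e : ℂ,
      (rel Kind.lie (e • 1 + rk (a • x + b • y) f) S ↔
        (-b / f x) ^ 2 = (a * f x + b * f y) *
          ((a * f x + b * f y) * c + (-b / f x) * d)) := by
    intro c d
    obtain ⟨l, hlx, hlz⟩ := hfun c d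
    have hSv : ∀ v, (rk x' k + rk z0 l) v = k v • x' + l v • z0 := fun v => rfl
    have hfS : ∀ v, f ((rk x' k + rk z0 l) v) = k v := by
      intro v
      rw [hSv, map_add, map_smul, map_smul, hfx', hfz0]; simp
    have hfSS : ∀ v, f ((rk x' k + rk z0 l) ((rk x' k + rk z0 l) v)) = l v := by
      intro v
      rw [hfS, hSv, map_add, map_smul, map_smul, hkx, hkz]; simp
    refine ⟨rk x' k + rk z0 l, fun a b e => ?_⟩
    rw [hrel, hfS, hfSS, hz a b]
    simp only [map_add, map_smul, smul_eq_mul, hkx, hkz, hfx', hfz0, hlx, hlz]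
    simp only [mul_zero, zero_add, mul_one, add_zero]
  have hnt : ∀ A, Cl Kind.lie (rk x f) (rk y f) A → ∀ a b e : ℂ,
      A = e • 1 + rk (a • x + b • y) f → a * f x + b * f y = 0 → -b / f x = 0 → False := by
    intro A hA a b e hAe h1 h2
    apply hA.1
    intro S
    rw [hAe, hrel, hz a b, h1, h2]
    simp
  have hex : ∀ t : ℂ, ∃ a b e : ℂ,
      Cl Kind.lie (rk x f) (rk y f) (e • 1 + rk (a • x + b • y) f) ∧
      -b / f x = t * (a * f x + b * f y) ∧ a * f x + b * f y ≠ 0 := by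
    intro t
    obtain ⟨S, hS'⟩ := hS (-t ^ 2) (2 * t)
    obtain ⟨A, hA, hr⟩ := hP.E S
    obtain ⟨a, b, e, hAe⟩ := hcl A hA
    rw [hAe, hS'] at hr
    have h1 : (-b / f x - t * (a * f x + b * f y)) ^ 2 = 0 := by linear_combination hr
    have h2 : -b / f x = t * (a * f x + b * f y) := sub_eq_zero.1 (pow_eq_zero_iff (two_ne_zero) |>.1 h1)
    refine ⟨a, b, e, hAe ▸ hA, h2, fun h3 => hnt A hA a b e hAe h3 ?_⟩
    rw [h2, h3, mul_zero]
  obtain ⟨S, hS1⟩ := hS 0 1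
  obtain ⟨S0, hS0⟩ := hS (-0 ^ 2) (2 * 0)
  obtain ⟨a0, b0, e0, hc0, h0, n0⟩ := hex 0
  obtain ⟨a1, b1, e1, hc1, h1, n1⟩ := hex 1
  obtain ⟨a2, b2, e2, hc2, h2, n2⟩ := hex 2
  have hne : ¬ RowEq Kind.lie (e0 • 1 + rk (a0 • x + b0 • y) f) (e1 • 1 + rk (a1 • x + b1 • y) f) := by
    intro h
    have h3 := h S0
    rw [hS0, hS0, h0, h1] at h3
    have h4 := h3.1 (by ring)
    apply n1
    have : (a1 * f x + b1 * f y) ^ 2 = 0 := by linear_combination h4
    exact pow_eq_zero_iff (two_ne_zero) |>.1 this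
  have h3 := hP.U S _ _ hc0 hc1 hne ((hS1 a0 b0 e0).2 (by rw [h0]; ring))
    ((hS1 a1 b1 e1).2 (by rw [h1]; ring)) _ hc2
  rw [hS1, h2] at h3
  apply n2
  have : (a2 * f x + b2 * f y) ^ 2 = 0 := by linear_combination (1/2) * h3
  exact pow_eq_zero_iff (two_ne_zero) |>.1 this


end sk2


end Pool.Agent.Helper280.QN.Jliecase3
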