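import Mathlib
import Pool.Agent.Helper280.QN.Final

set_option autoImplicit false

namespace Pool.Agent.Helper280.QN

open Jcorr (Par Flag)

section main
variable {X Y : Type*} [NormedAddCommGroup X] [NormedSpace ℂ X]
  [NormedAddCommGroup Y] [NormedSpace ℂ Y]

/-- `X` is reflexive -/
def IsRefl (X : Type*) [NormedAddCommGroup X] [NormedSpace ℂ X] : Prop :=
  Function.Surjective (fun x : X => (ContinuousLinearMap.apply ℂ ℂ x :
      (X →L[ℂ] ℂ) →L[ℂ] ℂ))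

/-- `φ T = c A T A⁻¹ + d` or `φ T = c A T* A⁻¹ + d`, with `d = 0` except for the Lie product -/
def Form (k : Kind) (φ : (X →L[ℂ] X) → (Y →L[ℂ] Y)) : Prop :=
  (∃ A : X ≃L[ℂ] Y, ∀ T, ∃ c d : ℂ, c ≠ 0 ∧ (k ≠ Kind.lie → d = 0) ∧
      ∀ x, φ T (A x) = c • A (T x) + d • A x) ∨
  (∃ A : X ≃SL[starRingEnd ℂ] Y, ∀ T, ∃ c d : ℂ, c ≠ 0 ∧ (k ≠ Kind.lie → d = 0) ∧
      ∀ x, φ T (A x) = c • A (T x) + d • A x) ∨
  (IsRefl X ∧ ∃ A : (X →L[ℂ] ℂ) ≃L[ℂ] Y, ∀ T, ∃ c d : ℂ, c ≠ 0 ∧ (k ≠ Kind.lie → d = 0) ∧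
      ∀ f : X →L[ℂ] ℂ, φ T (A f) = c • A (f.comp T) + d • A f) ∨
  (IsRefl X ∧ ∃ A : (X →L[ℂ] ℂ) ≃SL[starRingEnd ℂ] Y, ∀ T, ∃ c d : ℂ, c ≠ 0 ∧
      (k ≠ Kind.lie → d = 0) ∧ ∀ f : X →L[ℂ] ℂ, φ T (A f) = c • A (f.comp T) + d • A f)

theorem dual_infinite (hinf : ¬ FiniteDimensional ℂ X) : ¬ FiniteDimensional ℂ (X →L[ℂ] ℂ) := by
  intro h
  apply hinf
  have h1 : FiniteDimensional ℂ ((X →L[ℂ] ℂ) →ₗ[ℂ] ℂ) := inferInstance
  let L : X →ₗ[ℂ] ((X →L[ℂ] ℂ) →ₗ[ℂ] ℂ) :=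
    (ContinuousLinearMap.coeLM ℂ : (X →L[ℂ] ℂ) →ₗ[ℂ] (X →ₗ[ℂ] ℂ)).flip
  refine FiniteDimensional.of_injective L ?_
  rw [injective_iff_map_eq_zero]
  intro x hx
  by_contra hx0
  obtain ⟨g, hg⟩ := SeparatingDual.exists_ne_zero (R := ℂ) hx0
  exact hg (congrArg (fun k : (X →L[ℂ] ℂ) →ₗ[ℂ] ℂ => k g) hx)

theorem forward [CompleteSpace X] [CompleteSpace Y] (k : Kind) (hinf : ¬ FiniteDimensional ℂ X)
    (φ : (X →L[ℂ] X) → (Y →L[ℂ] Y)) (hs : Function.Surjective φ)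
    (hφ : ∀ T S, rel k (φ T) (φ S) ↔ rel k T S) : Form k φ := by
  have hdX := dim4_of_infinite hinf
  have hdY := dim4_of_infinite (inf_of_inf k hinf φ hφ)
  rcases core k hdX hdY φ hs hφ with ⟨τ, A, hA, hf1, hf2, hact⟩ | ⟨τ, A, hA, hf1, hf2, hact⟩
  · rcases Jtaucont.tau_cont hinf ⊤ (fun v hv => by
      obtain ⟨g, hg⟩ := SeparatingDual.exists_ne_zero (R := ℂ) hv
      exact ⟨g, trivial, hg⟩) τ A (fun w _ => hf1 w) with hτ | hτ
    · left
      have hτ' : ∀ c, τ c = c := fun c => congrArg (fun r : ℂ →+* ℂ => r c) hτ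
      obtain ⟨B, hB⟩ := Jbdd.bdd_lin A (fun c v => by rw [hA, hτ'])
        (fun g => by
          obtain ⟨f, hf⟩ := hf2 g
          exact ⟨f, fun v => by rw [hf, hτ']⟩)
      refine ⟨B, fun T => ?_⟩
      obtain ⟨c, d, hc, hd, h⟩ := finish_one k hdX φ hφ τ A hA hf1 hact
        (fun S => by
          obtain ⟨R, hR⟩ := conj_surj B S
          exact ⟨R, fun x => by rw [← hB, hR, hB]⟩)
        (fun S R h => Qn_conj B R S (fun x => by rw [hB, h, hB])) T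
      exact ⟨c, d, hc, hd, fun x => by rw [hB, hB, h]⟩
    · right; left
      have hτ' : ∀ c, τ c = (starRingEnd ℂ) c := fun c => congrArg (fun r : ℂ →+* ℂ => r c) hτ
      obtain ⟨B, hB⟩ := Jbdd.bdd_conj A (fun c v => by rw [hA, hτ'])
        (fun g => by
          obtain ⟨f, hf⟩ := hf2 g
          exact ⟨f, fun v => by rw [hf, hτ']⟩)
      refine ⟨B, fun T => ?_⟩
      obtain ⟨c, d, hc, hd, h⟩ := finish_one k hdX φ hφ τ A hA hf1 hact
        (fun S => by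
          obtain ⟨R, hR⟩ := conj_surj B S
          exact ⟨R, fun x => by rw [← hB, hR, hB]⟩)
        (fun S R h => Qn_conj B R S (fun x => by rw [hB, h, hB])) T
      exact ⟨c, d, hc, hd, fun x => by rw [hB, hB, h]⟩
  · -- the functionals given by evaluation
    let F : Submodule ℂ ((X →L[ℂ] ℂ) →L[ℂ] ℂ) :=
      LinearMap.range (NormedSpace.inclusionInDoubleDual ℂ X : X →ₗ[ℂ] _)
    have hFmem : ∀ w ∈ F, ∃ x : X, ∀ f : X →L[ℂ] ℂ, w f = f x := by
      rintro w ⟨x, rfl⟩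
      exact ⟨x, fun f => rfl⟩
    rcases Jtaucont.tau_cont (dual_infinite hinf) F (fun f hf => by
      obtain ⟨z, hz⟩ := exists_ne_of_ne hf
      exact ⟨NormedSpace.inclusionInDoubleDual ℂ X z, ⟨z, rfl⟩, hz⟩) τ A
      (fun w hw => by
        obtain ⟨x, hx⟩ := hFmem w hw
        obtain ⟨g, hg⟩ := hf1 x
        exact ⟨g, fun f => by rw [hg, hx]⟩) with hτ | hτ
    · right; right; left
      have hτ' : ∀ c, τ c = c := fun c => congrArg (fun r : ℂ →+* ℂ => r c) hτ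
      obtain ⟨B, hB⟩ := Jbdd.bdd_lin A (fun c v => by rw [hA, hτ'])
        (fun g => by
          obtain ⟨x, hx⟩ := hf2 g
          exact ⟨ContinuousLinearMap.apply ℂ ℂ x, fun v => by rw [hx, hτ']; rfl⟩)
      have hrefl : IsRefl X := Jrefl.reflexive_of_all B (fun g => by
        obtain ⟨x, hx⟩ := hf2 g
        exact ⟨x, fun f => by rw [hB, hx, hτ']⟩)
      refine ⟨hrefl, B, fun T => ?_⟩
      obtain ⟨c, d, hc, hd, h⟩ := finish_two k hdX φ hφ τ A hA hf1 hact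
        (fun S => by
          obtain ⟨R, hR⟩ := dual_surj hrefl B S
          exact ⟨R, fun x => by rw [← hB, hR, hB]⟩)
        (fun S R h => Qn_dual B R S (fun x => by rw [hB, h, hB])) T
      exact ⟨c, d, hc, hd, fun x => by rw [hB, hB, h]⟩
    · right; right; right
      have hτ' : ∀ c, τ c = (starRingEnd ℂ) c := fun c => congrArg (fun r : ℂ →+* ℂ => r c) hτ
      obtain ⟨B, hB⟩ := Jbdd.bdd_conj A (fun c v => by rw [hA, hτ'])
        (fun g => by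
          obtain ⟨x, hx⟩ := hf2 g
          exact ⟨ContinuousLinearMap.apply ℂ ℂ x, fun v => by rw [hx, hτ']; rfl⟩)
      have hrefl : IsRefl X := Jrefl.reflexive_of_all_conj B (fun g => by
        obtain ⟨x, hx⟩ := hf2 g
        exact ⟨x, fun f => by rw [hB, hx, hτ']⟩)
      refine ⟨hrefl, B, fun T => ?_⟩
      obtain ⟨c, d, hc, hd, h⟩ := finish_two k hdX φ hφ τ A hA hf1 hact
        (fun S => by
          obtain ⟨R, hR⟩ := dual_surj hrefl B S
          exact ⟨R, fun x => by rw [← hB, hR, hB]⟩)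
        (fun S R h => Qn_dual B R S (fun x => by rw [hB, h, hB])) T
      exact ⟨c, d, hc, hd, fun x => by rw [hB, hB, h]⟩

/-- scaling and shifting do not change the relation -/
theorem rel_shift (k : Kind) (T S : X →L[ℂ] X) (c d c' d' : ℂ) (hc : c ≠ 0) (hc' : c' ≠ 0)
    (hd : k ≠ Kind.lie → d = 0) (hd' : k ≠ Kind.lie → d' = 0) :
    rel k (c • T + d • 1) (c' • S + d' • 1) ↔ rel k T S := by
  have hk : ∀ hk : k ≠ Kind.lie, c • T + d • (1 : X →L[ℂ] X) = c • T ∧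
      c' • S + d' • (1 : X →L[ℂ] X) = c' • S := by
    intro hk
    rw [hd hk, hd' hk, zero_smul, add_zero, add_zero]
    exact ⟨rfl, rfl⟩
  cases k
  · rw [(hk (by simp)).1, (hk (by simp)).2]
    change Qn ((c • T) * (c' • S)) ↔ Qn (T * S)
    have : (c • T) * (c' • S) = (c * c') • (T * S) := by
      rw [smul_mul_smul_comm]
    rw [this, Qn_smul_iff (mul_ne_zero hc hc')]
  · rw [(hk (by simp)).1, (hk (by simp)).2]
    change Qn ((c' • S) * (c • T) * (c' • S)) ↔ Qn (S * T * S)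
    have : (c' • S) * (c • T) * (c' • S) = (c' * c * c') • (S * T * S) := by
      rw [smul_mul_smul_comm, smul_mul_smul_comm]
    rw [this, Qn_smul_iff (mul_ne_zero (mul_ne_zero hc' hc) hc')]
  · rw [(hk (by simp)).1, (hk (by simp)).2]
    change Qn ((c • T) * (c' • S) + (c' • S) * (c • T)) ↔ Qn (T * S + S * T)
    have : (c • T) * (c' • S) + (c' • S) * (c • T) = (c * c') • (T * S + S * T) := by
      rw [smul_mul_smul_comm, smul_mul_smul_comm, mul_comm c' c, smul_add]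
    rw [this, Qn_smul_iff (mul_ne_zero hc hc')]
  · rw [rel_lie_add]
    change Qn ((c • T) * (c' • S) - (c' • S) * (c • T)) ↔ Qn (T * S - S * T)
    have : (c • T) * (c' • S) - (c' • S) * (c • T) = (c * c') • (T * S - S * T) := by
      rw [smul_mul_smul_comm, smul_mul_smul_comm, mul_comm c' c, smul_sub]
    rw [this, Qn_smul_iff (mul_ne_zero hc hc')]

theorem backward [CompleteSpace X] [CompleteSpace Y] (k : Kind)
    (φ : (X →L[ℂ] X) → (Y →L[ℂ] Y)) (h : Form k φ) (T S : X →L[ℂ] X) :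
    rel k (φ T) (φ S) ↔ rel k T S := by
  have one : ∀ (σ : ℂ →+* ℂ) [RingHomInvPair σ σ] [RingHomIsometric σ] (A : X ≃SL[σ] Y),
      (∀ T, ∃ c d : ℂ, c ≠ 0 ∧ (k ≠ Kind.lie → d = 0) ∧
      ∀ x, φ T (A x) = c • A (T x) + d • A x) → (rel k (φ T) (φ S) ↔ rel k T S) := by
    intro σ _ _ A hA
    have hσ : ∀ z, σ (σ z) = z := fun z => RingHomInvPair.comp_apply_eq
    have hσ0 : ∀ z, z ≠ 0 → σ z ≠ 0 := by
      intro z hz h0
      apply hz
      rw [← hσ z, h0, map_zero]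
    have key : ∀ T : X →L[ℂ] X, ∃ c d : ℂ, c ≠ 0 ∧ (k ≠ Kind.lie → d = 0) ∧
        ∀ x, φ T (A x) = A ((c • T + d • 1) x) := by
      intro T
      obtain ⟨c, d, hc, hd, h⟩ := hA T
      refine ⟨σ c, σ d, hσ0 c hc, fun hk => by rw [hd hk, map_zero], fun x => ?_⟩
      rw [h]
      simp [hσ]
    obtain ⟨c, d, hc, hd, h1⟩ := key T
    obtain ⟨c', d', hc', hd', h2⟩ := key S
    have h3 := Qn_conj A _ _ (op_map k A (map_add A) (map_sub A) _ _ (φ T) (φ S) h1 h2)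
    exact h3.trans (rel_shift k T S c d c' d' hc hc' hd hd')
  have two : ∀ (σ : ℂ →+* ℂ) [RingHomInvPair σ σ] [RingHomIsometric σ]
      (A : (X →L[ℂ] ℂ) ≃SL[σ] Y),
      (∀ T, ∃ c d : ℂ, c ≠ 0 ∧ (k ≠ Kind.lie → d = 0) ∧
      ∀ f : X →L[ℂ] ℂ, φ T (A f) = c • A (f.comp T) + d • A f) →
      (rel k (φ T) (φ S) ↔ rel k T S) := by
    intro σ _ _ A hA
    have hσ : ∀ z, σ (σ z) = z := fun z => RingHomInvPair.comp_apply_eq
    have hσ0 : ∀ z, z ≠ 0 → σ z ≠ 0 := by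
      intro z hz h0
      apply hz
      rw [← hσ z, h0, map_zero]
    have key : ∀ T : X →L[ℂ] X, ∃ c d : ℂ, c ≠ 0 ∧ (k ≠ Kind.lie → d = 0) ∧
        ∀ f : X →L[ℂ] ℂ, φ T (A f) = A (f.comp (c • T + d • 1)) := by
      intro T
      obtain ⟨c, d, hc, hd, h⟩ := hA T
      refine ⟨σ c, σ d, hσ0 c hc, fun hk => by rw [hd hk, map_zero], fun f => ?_⟩
      have e : f.comp (σ c • T + σ d • (1 : X →L[ℂ] X)) = σ c • f.comp T + σ d • f := by
        ext x
        simp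
      rw [h, e, map_add, ContinuousLinearEquiv.map_smulₛₗ, ContinuousLinearEquiv.map_smulₛₗ,
        hσ, hσ]
    obtain ⟨c, d, hc, hd, h1⟩ := key T
    obtain ⟨c', d', hc', hd', h2⟩ := key S
    obtain ⟨R, hR1, hR2⟩ := op_map_dual k A (map_add A) (map_sub A) _ _ (φ T) (φ S) h1 h2
    have h3 := Qn_dual A R _ hR1
    exact (h3.trans hR2).trans (rel_shift k T S c d c' d' hc hc' hd hd')
  rcases h with ⟨A, hA⟩ | ⟨A, hA⟩ | ⟨-, A, hA⟩ | ⟨-, A, hA⟩
  · exact one (RingHom.id ℂ) A hA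
  · exact one (starRingEnd ℂ) A hA
  · exact two (RingHom.id ℂ) A hA
  · exact two (starRingEnd ℂ) A hA

end main

end Pool.Agent.Helper280.QN
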