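import Mathlib
import Pool.Agent.Helper280.QN.Main
import Pool.Agent.Helper280.QN.Defs

set_option autoImplicit false

namespace Pool.Agent.Helper280.QN

open QNDefs

section main2
variable {X Y : Type*} [NormedAddCommGroup X] [NormedSpace ℂ X]
  [NormedAddCommGroup Y] [NormedSpace ℂ Y]

theorem refl_iff : IsReflexive X ↔ IsRefl X := by
  have h : ∀ x : X, (NormedSpace.inclusionInDoubleDual ℂ X x : (X →L[ℂ] ℂ) →L[ℂ] ℂ) =
      (ContinuousLinearMap.apply ℂ ℂ x : (X →L[ℂ] ℂ) →L[ℂ] ℂ) := by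
    intro x
    ext f
    simp
  constructor
  · intro hX ξ
    obtain ⟨x, hx⟩ := hX ξ
    exact ⟨x, (h x).symm.trans hx⟩
  · intro hX ξ
    obtain ⟨x, hx⟩ := hX ξ
    exact ⟨x, (h x).trans hx⟩

theorem form_iff_lie (φ : (X →L[ℂ] X) → (Y →L[ℂ] Y)) :
    Form Kind.lie φ ↔ IsStandardWithShift φ := by
  constructor
  · rintro (⟨A, hA⟩ | ⟨A, hA⟩ | ⟨hr, A, hA⟩ | ⟨hr, A, hA⟩)
    · choose c d hc hd h using hA
      exact ⟨c, d, hc, Or.inl ⟨A, fun T y => by
        have := h T (A.symm y)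
        rwa [A.apply_symm_apply] at this⟩⟩
    · choose c d hc hd h using hA
      exact ⟨c, d, hc, Or.inr (Or.inl ⟨A, fun T y => by
        have := h T (A.symm y)
        rwa [A.apply_symm_apply] at this⟩)⟩
    · choose c d hc hd h using hA
      exact ⟨c, d, hc, Or.inr (Or.inr (Or.inl ⟨refl_iff.2 hr, A, fun T y => by
        have := h T (A.symm y)
        rwa [A.apply_symm_apply] at this⟩))⟩
    · choose c d hc hd h using hA
      exact ⟨c, d, hc, Or.inr (Or.inr (Or.inr ⟨refl_iff.2 hr, A, fun T y => by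
        have := h T (A.symm y)
        rwa [A.apply_symm_apply] at this⟩))⟩
  · rintro ⟨c, d, hc, ⟨A, hA⟩ | ⟨A, hA⟩ | ⟨hr, A, hA⟩ | ⟨hr, A, hA⟩⟩
    · exact Or.inl ⟨A, fun T => ⟨c T, d T, hc T, fun h => absurd rfl h, fun x => by
        rw [hA, A.symm_apply_apply]⟩⟩
    · exact Or.inr (Or.inl ⟨A, fun T => ⟨c T, d T, hc T, fun h => absurd rfl h, fun x => by
        rw [hA, A.symm_apply_apply]⟩⟩)
    · exact Or.inr (Or.inr (Or.inl ⟨refl_iff.1 hr, A, fun T => ⟨c T, d T, hc T,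
        fun h => absurd rfl h, fun x => by rw [hA, A.symm_apply_apply]⟩⟩))
    · exact Or.inr (Or.inr (Or.inr ⟨refl_iff.1 hr, A, fun T => ⟨c T, d T, hc T,
        fun h => absurd rfl h, fun x => by rw [hA, A.symm_apply_apply]⟩⟩))

theorem form_iff (k : Kind) (hk : k ≠ Kind.lie) (φ : (X →L[ℂ] X) → (Y →L[ℂ] Y)) :
    Form k φ ↔ IsStandard φ := by
  constructor
  · rintro (⟨A, hA⟩ | ⟨A, hA⟩ | ⟨hr, A, hA⟩ | ⟨hr, A, hA⟩)
    · choose c d hc hd h using hA
      exact ⟨c, hc, Or.inl ⟨A, fun T y => by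
        have := h T (A.symm y)
        rwa [A.apply_symm_apply, hd T hk, zero_smul, add_zero] at this⟩⟩
    · choose c d hc hd h using hA
      exact ⟨c, hc, Or.inr (Or.inl ⟨A, fun T y => by
        have := h T (A.symm y)
        rwa [A.apply_symm_apply, hd T hk, zero_smul, add_zero] at this⟩)⟩
    · choose c d hc hd h using hA
      exact ⟨c, hc, Or.inr (Or.inr (Or.inl ⟨refl_iff.2 hr, A, fun T y => by
        have := h T (A.symm y)
        rwa [A.apply_symm_apply, hd T hk, zero_smul, add_zero] at this⟩))⟩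
    · choose c d hc hd h using hA
      exact ⟨c, hc, Or.inr (Or.inr (Or.inr ⟨refl_iff.2 hr, A, fun T y => by
        have := h T (A.symm y)
        rwa [A.apply_symm_apply, hd T hk, zero_smul, add_zero] at this⟩))⟩
  · rintro ⟨c, hc, ⟨A, hA⟩ | ⟨A, hA⟩ | ⟨hr, A, hA⟩ | ⟨hr, A, hA⟩⟩
    · exact Or.inl ⟨A, fun T => ⟨c T, 0, hc T, fun _ => rfl, fun x => by
        rw [hA, A.symm_apply_apply, zero_smul, add_zero]⟩⟩
    · exact Or.inr (Or.inl ⟨A, fun T => ⟨c T, 0, hc T, fun _ => rfl, fun x => by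
        rw [hA, A.symm_apply_apply, zero_smul, add_zero]⟩⟩)
    · exact Or.inr (Or.inr (Or.inl ⟨refl_iff.1 hr, A, fun T => ⟨c T, 0, hc T,
        fun _ => rfl, fun x => by rw [hA, A.symm_apply_apply, zero_smul, add_zero]⟩⟩))
    · exact Or.inr (Or.inr (Or.inr ⟨refl_iff.1 hr, A, fun T => ⟨c T, 0, hc T,
        fun _ => rfl, fun x => by rw [hA, A.symm_apply_apply, zero_smul, add_zero]⟩⟩))

variable [CompleteSpace X] [CompleteSpace Y]

theorem rel_iff_form (k : Kind) (hinf : ¬ FiniteDimensional ℂ X)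
    (φ : (X →L[ℂ] X) → (Y →L[ℂ] Y)) (hs : Function.Surjective φ) :
    (∀ T S, rel k (φ T) (φ S) ↔ rel k T S) ↔ Form k φ :=
  ⟨forward k hinf φ hs, backward k φ⟩

theorem main_a (hinf : ¬ FiniteDimensional ℂ X) (φ : (X →L[ℂ] X) → (Y →L[ℂ] Y))
    (hs : Function.Surjective φ) : PreservesProduct φ ↔ IsStandard φ := by
  rw [← form_iff Kind.prod (by simp) φ, ← rel_iff_form Kind.prod hinf φ hs]
  rfl

theorem main_b (hinf : ¬ FiniteDimensional ℂ X) (φ : (X →L[ℂ] X) → (Y →L[ℂ] Y))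
    (hs : Function.Surjective φ) : PreservesTripleProduct φ ↔ IsStandard φ := by
  rw [← form_iff Kind.triple (by simp) φ, ← rel_iff_form Kind.triple hinf φ hs]
  rfl

theorem main_c (hinf : ¬ FiniteDimensional ℂ X) (φ : (X →L[ℂ] X) → (Y →L[ℂ] Y))
    (hs : Function.Surjective φ) : PreservesJordanProduct φ ↔ IsStandard φ := by
  rw [← form_iff Kind.jordan (by simp) φ, ← rel_iff_form Kind.jordan hinf φ hs]
  rfl

theorem main_d (hinf : ¬ FiniteDimensional ℂ X) (φ : (X →L[ℂ] X) → (Y →L[ℂ] Y))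
    (hs : Function.Surjective φ) : PreservesLieProduct φ ↔ IsStandardWithShift φ := by
  rw [← form_iff_lie φ, ← rel_iff_form Kind.lie hinf φ hs]
  rfl

end main2

end Pool.Agent.Helper280.QN
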